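import Pool.Agent.H28Dyadic.Heat

/-! Section 4: ball averages against thin averages.  (owner: helper32) -/

set_option autoImplicit false

open MeasureTheory Real
open scoped ENNReal

namespace H28D

namespace BL

/-- Stirling upper bound for the factorial. -/
lemma fact_le (m : ℕ) (hm : 1 ≤ m) :
    ((Nat.factorial m : ℕ) : ℝ) ≤ Real.exp 1 * √(m : ℝ) * ((m : ℝ) ^ m * Real.exp (-m)) := by
  have h := Stirling.stirlingSeq'_antitone (Nat.zero_le (m - 1))
  simp only [Function.comp_apply, Nat.succ_eq_add_one, zero_add, Stirling.stirlingSeq_one] at h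
  rw [Nat.sub_add_cancel hm] at h
  unfold Stirling.stirlingSeq at h
  have hm0 : (0:ℝ) < m := by exact_mod_cast hm
  have hd : 0 < √(2 * (m : ℝ)) * ((m : ℝ) / Real.exp 1) ^ m := by positivity
  rw [div_le_iff₀ hd] at h
  refine h.trans (le_of_eq ?_)
  rw [Real.sqrt_mul (by norm_num), div_pow, ← Real.exp_nat_mul, Real.exp_neg, mul_one]
  have h2 : (√2 : ℝ) ≠ 0 := by positivity
  field_simp

/-- Gamma at half integers. -/
lemma gamma_le (n : ℕ) (hn : 1 ≤ n) :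
    Real.Gamma ((n : ℝ) / 2 + 1) ≤
      10 * √(n : ℝ) * (((n : ℝ) / 2) ^ ((n : ℝ) / 2) * Real.exp (-((n : ℝ) / 2))) := by
  have he : Real.exp 1 ≤ 2.7182818286 := Real.exp_one_lt_d9.le
  have he1 : (1:ℝ) ≤ Real.exp 1 := Real.one_le_exp (by norm_num)
  rcases Nat.even_or_odd' n with ⟨m, hm | hm⟩
  · -- even
    have hm1 : 1 ≤ m := by omega
    have hm0 : (0:ℝ) < m := by exact_mod_cast hm1
    have hn2 : (n : ℝ) / 2 = m := by rw [hm]; push_cast; ring
    rw [hn2, Real.Gamma_nat_eq_factorial, Real.rpow_natCast]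
    refine (fact_le m hm1).trans ?_
    have h1 : √(m : ℝ) ≤ √(n : ℝ) := by
      apply Real.sqrt_le_sqrt
      rw [hm]; push_cast; linarith
    have h2 : 0 ≤ (m : ℝ) ^ m * Real.exp (-m) := by positivity
    have h3 : Real.exp 1 * √(m : ℝ) ≤ 10 * √(n : ℝ) := by
      apply mul_le_mul (by linarith) h1 (Real.sqrt_nonneg _) (by norm_num)
    exact mul_le_mul_of_nonneg_right h3 h2
  · -- odd
    have hn2 : (n : ℝ) / 2 = (m : ℝ) + 1 / 2 := by rw [hm]; push_cast; ring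
    have hG : Real.Gamma ((n : ℝ) / 2 + 1) ≤ ((Nat.factorial m : ℕ) : ℝ) * √((m : ℝ) + 1) := by
      have h := Real.Gamma_mul_add_mul_le_rpow_Gamma_mul_rpow_Gamma
        (s := (m : ℝ) + 1) (t := (m : ℝ) + 1 + 1) (a := 1 / 2) (b := 1 / 2)
        (by positivity) (by positivity) (by norm_num) (by norm_num) (by norm_num)
      have e1 : (1:ℝ) / 2 * ((m : ℝ) + 1) + 1 / 2 * ((m : ℝ) + 1 + 1) = (n : ℝ) / 2 + 1 := by
        rw [hn2]; ring
      rw [e1] at h
      refine h.trans (le_of_eq ?_)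
      have e2 : Real.Gamma ((m : ℝ) + 1 + 1) = ((m : ℝ) + 1) * Real.Gamma ((m : ℝ) + 1) :=
        Real.Gamma_add_one (by positivity)
      rw [e2, Real.Gamma_nat_eq_factorial, ← Real.sqrt_eq_rpow, ← Real.sqrt_eq_rpow,
        Real.sqrt_mul (by positivity)]
      have hf : (0:ℝ) ≤ ((Nat.factorial m : ℕ) : ℝ) := by positivity
      calc √((Nat.factorial m : ℕ) : ℝ) * (√((m : ℝ) + 1) * √((Nat.factorial m : ℕ) : ℝ))
          = (√((Nat.factorial m : ℕ) : ℝ) * √((Nat.factorial m : ℕ) : ℝ)) * √((m : ℝ) + 1) := by ring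
        _ = _ := by rw [Real.mul_self_sqrt hf]
    refine hG.trans ?_
    have hx0 : (0:ℝ) < (m : ℝ) + 1 / 2 := by positivity
    have hx : ((n : ℝ) / 2) ^ ((n : ℝ) / 2) = ((m : ℝ) + 1 / 2) ^ m * √((m : ℝ) + 1 / 2) := by
      rw [hn2, Real.rpow_add hx0, Real.rpow_natCast, ← Real.sqrt_eq_rpow]
    have hex : Real.exp (-((n : ℝ) / 2)) = Real.exp (-m) * Real.exp (-(1 / 2)) := by
      rw [hn2, ← Real.exp_add]; congr 1; ring
    have heh : (1:ℝ) / 2 ≤ Real.exp (-(1 / 2)) := by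
      have := Real.add_one_le_exp (-(1 / 2 : ℝ))
      linarith
    rw [hx, hex]
    have hsn : √((m : ℝ) + 1) ≤ √(n : ℝ) := by
      apply Real.sqrt_le_sqrt
      rw [hm]; push_cast
      have : (0:ℝ) ≤ m := by positivity
      linarith
    rcases Nat.eq_zero_or_pos m with h0 | h0
    · subst h0
      have hn1 : n = 1 := by omega
      subst hn1
      have h7 : (7:ℝ)/10 ≤ √(1/2) := by
        apply Real.le_sqrt_of_sq_le; norm_num
      have h8 : (1:ℝ)/2 ≤ Real.exp (-(1 / 2)) := heh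
      have h9 := mul_le_mul h7 h8 (by norm_num) (Real.sqrt_nonneg _)
      simp only [Nat.factorial_zero, Nat.cast_one, Nat.cast_zero, zero_add, Real.sqrt_one, mul_one,
        pow_zero, one_mul, neg_zero, Real.exp_zero]
      linarith
    · have hm0 : (0:ℝ) < m := by exact_mod_cast h0
      have hf := fact_le m h0
      have h1 : (m : ℝ) ^ m ≤ ((m : ℝ) + 1 / 2) ^ m := by
        apply pow_le_pow_left₀ hm0.le; linarith
      have h2 : √(m : ℝ) ≤ √((m : ℝ) + 1 / 2) := Real.sqrt_le_sqrt (by linarith)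
      calc ((Nat.factorial m : ℕ) : ℝ) * √((m : ℝ) + 1)
          ≤ (Real.exp 1 * √(m : ℝ) * ((m : ℝ) ^ m * Real.exp (-m))) * √(n : ℝ) := by
            gcongr
        _ ≤ (5 * √((m : ℝ) + 1 / 2) * (((m : ℝ) + 1 / 2) ^ m * Real.exp (-m))) * √(n : ℝ) := by
            gcongr
            linarith
        _ = 10 * √(n : ℝ) * (((m : ℝ) + 1 / 2) ^ m * √((m : ℝ) + 1 / 2) *
            (Real.exp (-m) * (1 / 2))) := by ring
        _ ≤ _ := by gcongr

/-- (4.1). -/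
lemma inv_vol_le {n : ℕ} (hn : 1 ≤ n) {t : ℝ} (ht : 0 < t) (x : V n)
    (hx : ‖x‖ ^ 2 ≤ 2 * n * t) :
    (volume (Metric.ball (0 : V n) (√(2 * n * t))))⁻¹ ≤
      ENNReal.ofReal (10 * √(n : ℝ) * hk t x) := by
  have : Nonempty (Fin n) := ⟨⟨0, by omega⟩⟩
  have hn0 : (0:ℝ) < n := by exact_mod_cast hn
  rw [EuclideanSpace.volume_ball, Fintype.card_fin, ← ENNReal.ofReal_pow (Real.sqrt_nonneg _),
    ← ENNReal.ofReal_mul (by positivity)]
  have hG0 : 0 < Real.Gamma ((n : ℝ) / 2 + 1) := Real.Gamma_pos_of_pos (by positivity)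
  have hv : 0 < √(2 * n * t) ^ n * (√π ^ n / Real.Gamma ((n : ℝ) / 2 + 1)) := by positivity
  rw [← ENNReal.ofReal_inv_of_pos hv]
  apply ENNReal.ofReal_le_ofReal
  rw [inv_le_iff_one_le_mul₀ hv]
  have hk1 : (4 * π * t) ^ (-(n : ℝ) / 2) * Real.exp (-((n : ℝ) / 2)) ≤ hk t x := by
    unfold hk
    have : -((n : ℝ) / 2) ≤ -(‖x‖ ^ 2) / (4 * t) := by
      rw [le_div_iff₀ (by positivity)]
      nlinarith
    gcongr
  have hpow : √(2 * n * t) ^ n * √π ^ n = (2 * π * n * t) ^ ((n : ℝ) / 2) := by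
    rw [← mul_pow, ← Real.sqrt_mul (by positivity), Real.sqrt_eq_rpow, ← Real.rpow_natCast,
      ← Real.rpow_mul (by positivity)]
    congr 1
    · ring
    · ring
  have hprod : (4 * π * t) ^ (-(n : ℝ) / 2) * (2 * π * n * t) ^ ((n : ℝ) / 2) =
      ((n : ℝ) / 2) ^ ((n : ℝ) / 2) := by
    rw [neg_div, Real.rpow_neg (by positivity), ← div_eq_inv_mul, ← Real.div_rpow (by positivity)
      (by positivity)]
    congr 1
    field_simp
    ring
  have hgam := gamma_le n hn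
  have e1 : √(2 * n * t) ^ n * (√π ^ n / Real.Gamma ((n : ℝ) / 2 + 1)) =
      (√(2 * n * t) ^ n * √π ^ n) / Real.Gamma ((n : ℝ) / 2 + 1) := by ring
  rw [e1, hpow, mul_div_assoc', le_div_iff₀ hG0, one_mul]
  calc Real.Gamma ((n : ℝ) / 2 + 1)
      ≤ 10 * √(n : ℝ) * (((n : ℝ) / 2) ^ ((n : ℝ) / 2) * Real.exp (-((n : ℝ) / 2))) := hgam
    _ = 10 * √(n : ℝ) * ((4 * π * t) ^ (-(n : ℝ) / 2) * Real.exp (-((n : ℝ) / 2))) *
        (2 * π * n * t) ^ ((n : ℝ) / 2) := by rw [← hprod]; ring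
    _ ≤ _ := by gcongr

/-- pointwise lower bound for the profile. -/
lemma R_lower {n : ℕ} {t Q : ℝ} (ht : 0 < t) {m w : V n} (hm1 : -(4 * t) ≤ ‖m‖ ^ 2 - Q)
    (hm2 : ‖m‖ ^ 2 - Q ≤ 0) :
    √(n : ℝ) * Real.exp (-50) * (1 - ‖w‖ ^ 2 / (8 * t) - (inner ℝ w m : ℝ) ^ 2 / (16 * t ^ 2)) ≤
      R n t Q (‖w + m‖ ^ 2) := by
  have hs : 0 ≤ √(n : ℝ) * Real.exp (-50) := by positivity
  by_cases h : ‖w‖ ^ 2 ≤ 8 * t ∧ |(inner ℝ w m : ℝ)| ≤ 4 * t
  · obtain ⟨h1, h2⟩ := h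
    have h3 : ‖w + m‖ ^ 2 = ‖w‖ ^ 2 + 2 * inner ℝ w m + ‖m‖ ^ 2 := norm_add_sq_real w m
    obtain ⟨h4, h5⟩ := abs_le.1 h2
    have h6 : (‖w + m‖ ^ 2 - Q) ^ 2 ≤ (20 * t) ^ 2 := by
      apply sq_le_sq'
      · rw [h3]; nlinarith [sq_nonneg ‖w‖]
      · rw [h3]; linarith
    have h7 : √(n : ℝ) * Real.exp (-50) ≤ R n t Q (‖w + m‖ ^ 2) := by
      unfold R
      apply mul_le_mul_of_nonneg_left _ (Real.sqrt_nonneg _)
      apply Real.exp_le_exp.2
      rw [le_div_iff₀ (by positivity)]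
      nlinarith
    refine le_trans ?_ h7
    apply mul_le_of_le_one_right hs
    have h8 : 0 ≤ ‖w‖ ^ 2 / (8 * t) := by positivity
    have h9 : 0 ≤ (inner ℝ w m : ℝ) ^ 2 / (16 * t ^ 2) := by positivity
    linarith
  · refine le_trans ?_ (R_nonneg t Q _)
    apply mul_nonpos_of_nonneg_of_nonpos hs
    rw [not_and_or] at h
    have h8 : 0 ≤ ‖w‖ ^ 2 / (8 * t) := by positivity
    have h9 : 0 ≤ (inner ℝ w m : ℝ) ^ 2 / (16 * t ^ 2) := by positivity
    rcases h with h | h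
    · have : 1 ≤ ‖w‖ ^ 2 / (8 * t) := by
        rw [le_div_iff₀ (by positivity)]; linarith [not_le.1 h]
      linarith
    · have : 1 ≤ (inner ℝ w m : ℝ) ^ 2 / (16 * t ^ 2) := by
        rw [le_div_iff₀ (by positivity)]
        have h1 := not_le.1 h
        have h2 : (4 * t) ^ 2 ≤ |(inner ℝ w m : ℝ)| ^ 2 := pow_le_pow_left₀ (by positivity) h1.le 2
        rw [sq_abs] at h2
        linarith
      linarith

/-- (4.2) as a real integral. -/
lemma thin_lower {n : ℕ} (hn : 1 ≤ n) {t a : ℝ} (ha : 0 < a) (han : a * n ≤ t) (hat : a < t)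
    (x : V n) (h1 : 2 * n * t - 2 * t ≤ ‖x‖ ^ 2) (h2 : ‖x‖ ^ 2 ≤ 2 * n * t) :
    √(n : ℝ) * Real.exp (-50) / 2 ≤
      ∫ z : V n, hk (a * (t - a) / t) (z - ((t - a) / t) • x) *
        R n t (2 * n * (t - a)) (‖z‖ ^ 2) := by
  have ht : 0 < t := ha.trans hat
  have hta : 0 < t - a := by linarith
  have hn0 : (0:ℝ) < n := by exact_mod_cast hn
  have hn1 : (1:ℝ) ≤ n := by exact_mod_cast hn
  set σ : ℝ := a * (t - a) / t with hσ
  have hσ0 : 0 < σ := by positivity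
  set m : V n := ((t - a) / t) • x with hm
  set Q : ℝ := 2 * n * (t - a) with hQ
  set c : ℝ := (t - a) / t with hc
  have hc0 : 0 < c := by positivity
  have hc1 : c ≤ 1 := by rw [hc, div_le_one ht]; linarith
  have hct : c * t = t - a := by rw [hc]; field_simp
  have hmn : ‖m‖ ^ 2 = c ^ 2 * ‖x‖ ^ 2 := by
    rw [hm, norm_smul, mul_pow, Real.norm_eq_abs, sq_abs]
  have hσa : σ ≤ a := by
    rw [hσ, div_le_iff₀ ht]; nlinarith
  have hσn : σ * n ≤ t := by nlinarith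
  -- bounds on |m|^2 - Q
  have hm2 : ‖m‖ ^ 2 - Q ≤ 0 := by
    rw [hmn, hQ, ← hct]
    have : c ^ 2 * ‖x‖ ^ 2 ≤ c ^ 2 * (2 * n * t) := by gcongr
    have h3 : c ^ 2 * (2 * n * t) ≤ c * (2 * n * t) := by
      have : c ^ 2 ≤ c := by nlinarith
      gcongr
    linarith
  have hm1 : -(4 * t) ≤ ‖m‖ ^ 2 - Q := by
    rw [hmn, hQ, ← hct]
    have h3 : c ^ 2 * (2 * n * t - 2 * t) ≤ c ^ 2 * ‖x‖ ^ 2 := by gcongr
    have h4 : c ^ 2 * (2 * t) ≤ 2 * t := by
      have : c ^ 2 ≤ 1 := by nlinarith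
      nlinarith
    have h5 : (c - c ^ 2) * (2 * n * t) ≤ 2 * t := by
      have e : (c - c ^ 2) * (2 * n * t) = 2 * (c * (n * (t - c * t))) := by ring
      rw [e, hct]
      have e2 : t - (t - a) = a := by ring
      rw [e2]
      have : c * (n * a) ≤ 1 * (n * a) := by gcongr
      nlinarith
    nlinarith
  have hmt : ‖m‖ ^ 2 ≤ 2 * n * t := by
    rw [hmn]
    calc c ^ 2 * ‖x‖ ^ 2 ≤ 1 * (2 * n * t) := by
          have : c ^ 2 ≤ 1 := by nlinarith
          gcongr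
      _ = _ := one_mul _
  -- shift
  have hshift : ∫ z : V n, hk σ (z - m) * R n t Q (‖z‖ ^ 2) =
      ∫ w : V n, hk σ w * R n t Q (‖w + m‖ ^ 2) := by
    rw [← integral_sub_right_eq_self (fun w : V n => hk σ w * R n t Q (‖w + m‖ ^ 2)) m]
    congr 1
    ext z
    rw [sub_add_cancel]
  rw [hshift]
  have hi0 := integrable_hk (n := n) hσ0
  have hi1 := integrable_hk_norm_sq (n := n) hσ0
  have hi2 := integrable_hk_inner_sq hσ0 m
  set s : ℝ := √(n : ℝ) * Real.exp (-50) with hs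
  have hs0 : 0 ≤ s := by positivity
  have hRi : Integrable fun w : V n => hk σ w * R n t Q (‖w + m‖ ^ 2) := by
    refine (hi0.mul_const (√(n : ℝ))).mono' ?_ (Filter.Eventually.of_forall fun w => ?_)
    · apply Measurable.aestronglyMeasurable
      fun_prop
    · rw [norm_mul, Real.norm_of_nonneg (hk_pos hσ0 w).le, Real.norm_of_nonneg (R_nonneg _ _ _)]
      exact mul_le_mul_of_nonneg_left (R_le _ _ _) (hk_pos hσ0 w).le
  have hval : ∫ w : V n, hk σ w * (s * (1 - ‖w‖ ^ 2 / (8 * t) -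
      (inner ℝ w m : ℝ) ^ 2 / (16 * t ^ 2))) =
      s * (1 - 2 * n * σ / (8 * t) - 2 * σ * ‖m‖ ^ 2 / (16 * t ^ 2)) := by
    have e : ∀ w : V n, hk σ w * (s * (1 - ‖w‖ ^ 2 / (8 * t) -
      (inner ℝ w m : ℝ) ^ 2 / (16 * t ^ 2))) = s * (hk σ w -
        (1 / (8 * t)) * (hk σ w * ‖w‖ ^ 2) -
        (1 / (16 * t ^ 2)) * (hk σ w * (inner ℝ w m : ℝ) ^ 2)) := by
      intro w; ring
    simp_rw [e]
    have hi01 : Integrable (fun w : V n => hk σ w - 1 / (8 * t) * (hk σ w * ‖w‖ ^ 2)) :=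
      hi0.sub (hi1.const_mul _)
    rw [integral_const_mul, integral_sub hi01 (hi2.const_mul _),
      integral_sub hi0 (hi1.const_mul _), integral_const_mul, integral_const_mul,
      integral_hk hσ0, integral_hk_norm_sq hσ0, integral_hk_inner_sq hσ0]
    ring
  have hint : Integrable fun w : V n => hk σ w * (s * (1 - ‖w‖ ^ 2 / (8 * t) -
      (inner ℝ w m : ℝ) ^ 2 / (16 * t ^ 2))) := by
    have e : (fun w : V n => hk σ w * (s * (1 - ‖w‖ ^ 2 / (8 * t) -
      (inner ℝ w m : ℝ) ^ 2 / (16 * t ^ 2)))) = fun w => s * (hk σ w -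
        (1 / (8 * t)) * (hk σ w * ‖w‖ ^ 2) -
        (1 / (16 * t ^ 2)) * (hk σ w * (inner ℝ w m : ℝ) ^ 2)) := by
      funext w; ring
    rw [e]
    exact ((hi0.sub (hi1.const_mul _)).sub (hi2.const_mul _)).const_mul s
  calc s / 2 ≤ s * (1 - 2 * n * σ / (8 * t) - 2 * σ * ‖m‖ ^ 2 / (16 * t ^ 2)) := by
        have h3 : 2 * n * σ / (8 * t) ≤ 1 / 4 := by
          rw [div_le_iff₀ (by positivity)]; nlinarith
        have h4 : 2 * σ * ‖m‖ ^ 2 / (16 * t ^ 2) ≤ 1 / 4 := by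
          rw [div_le_iff₀ (by positivity)]
          calc 2 * σ * ‖m‖ ^ 2 ≤ 2 * σ * (2 * n * t) := by gcongr
            _ = 4 * t * (σ * n) := by ring
            _ ≤ 4 * t * t := by gcongr
            _ = _ := by ring
        nlinarith
    _ = ∫ w : V n, hk σ w * (s * (1 - ‖w‖ ^ 2 / (8 * t) -
      (inner ℝ w m : ℝ) ^ 2 / (16 * t ^ 2))) := hval.symm
    _ ≤ _ := by
        apply integral_mono hint hRi
        intro w
        exact mul_le_mul_of_nonneg_left (R_lower ht hm1 hm2) (hk_pos hσ0 w).le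

end BL

open BL in
/-- (4.1)+(4.2). -/
theorem ball_thin : ∃ C : ℝ, 0 < C ∧ ∀ (n : ℕ), 1 ≤ n → ∀ (t a : ℝ), 0 < a → a * n ≤ t → a < t →
    ∀ x : V n, 2 * n * t - 2 * t ≤ ‖x‖ ^ 2 → ‖x‖ ^ 2 ≤ 2 * n * t →
    (volume (Metric.ball (0 : V n) (√(2 * n * t))))⁻¹ ≤
      ENNReal.ofReal C * ∫⁻ z, G (t - a) z *
        ENNReal.ofReal (R n t (2 * n * (t - a)) (‖z‖ ^ 2)) * G a (x - z) := by
  refine ⟨20 * Real.exp 50, by positivity, ?_⟩
  intro n hn t a ha han hat x h1 h2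
  have ht : 0 < t := ha.trans hat
  have hta : 0 < t - a := by linarith
  have hσ0 : 0 < a * (t - a) / t := by positivity
  have e1 : ∀ z : V n, G (t - a) z * ENNReal.ofReal (R n t (2 * n * (t - a)) (‖z‖ ^ 2)) *
      G a (x - z) = G t x * ENNReal.ofReal (hk (a * (t - a) / t) (z - ((t - a) / t) • x) *
        R n t (2 * n * (t - a)) (‖z‖ ^ 2)) := by
    intro z
    have h := G_mul_G ha hta x 0 z
    rw [sub_zero, sub_zero, smul_zero, add_zero, show a + (t - a) = t by ring] at h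
    rw [ENNReal.ofReal_mul (hk_pos hσ0 _).le]
    calc _ = (G a (x - z) * G (t - a) z) *
          ENNReal.ofReal (R n t (2 * n * (t - a)) (‖z‖ ^ 2)) := by ring
      _ = _ := by rw [h, mul_assoc]; rfl
  simp_rw [e1]
  rw [lintegral_const_mul _ (by fun_prop)]
  have hRi : Integrable fun z : V n => hk (a * (t - a) / t) (z - ((t - a) / t) • x) *
        R n t (2 * n * (t - a)) (‖z‖ ^ 2) := by
    refine (((integrable_hk hσ0).comp_sub_right (((t - a) / t) • x)).mul_const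
      (√(n : ℝ))).mono' ?_ (Filter.Eventually.of_forall fun w => ?_)
    · apply Measurable.aestronglyMeasurable
      fun_prop
    · rw [norm_mul, Real.norm_of_nonneg (hk_pos hσ0 _).le, Real.norm_of_nonneg (R_nonneg _ _ _)]
      exact mul_le_mul_of_nonneg_left (R_le _ _ _) (hk_pos hσ0 _).le
  rw [← ofReal_integral_eq_lintegral_ofReal hRi (Filter.Eventually.of_forall fun z =>
    mul_nonneg (hk_pos hσ0 _).le (R_nonneg _ _ _))]
  refine (inv_vol_le hn ht x h2).trans ?_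
  have hlow := thin_lower hn ha han hat x h1 h2
  calc ENNReal.ofReal (10 * √(n : ℝ) * hk t x)
      = ENNReal.ofReal (20 * Real.exp 50) * (G t x *
          ENNReal.ofReal (√(n : ℝ) * Real.exp (-50) / 2)) := by
        unfold G
        rw [← ENNReal.ofReal_mul (hk_pos ht x).le, ← ENNReal.ofReal_mul (by positivity)]
        congr 1
        have : Real.exp 50 * Real.exp (-50) = 1 := by rw [← Real.exp_add]; simp
        linear_combination (-(10 * √(n : ℝ) * hk t x)) * this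
    _ ≤ _ := by gcongr

end H28D
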