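import Pool.Agent.H28Dyadic.Heat

/-! Section 1: Huber potential and cost lemma.  (owner: helper25) -/

set_option autoImplicit false

open MeasureTheory Real
open scoped ENNReal

namespace H28D

variable {n : ℕ}

/-- derivative of the Huber function -/
noncomputable def Phi' (H v : ℝ) : ℝ := min v H / H

/-- Bregman distance of the Huber function -/
noncomputable def Dd (H y a : ℝ) : ℝ := Phi H y - Phi H a - Phi' H a * (y - a)

lemma continuous_Phi (H : ℝ) (hH : 0 < H) : Continuous (Phi H) := by
  unfold Phi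
  refine Continuous.if_le (by fun_prop) (by fun_prop) continuous_id continuous_const ?_
  intro x hx
  subst hx
  field_simp
  ring

lemma Phi_nonneg {H v : ℝ} (hH : 0 < H) : 0 ≤ Phi H v := by
  unfold Phi
  split_ifs with h
  · positivity
  · linarith

lemma Phi_le {H v : ℝ} (hH : 0 < H) (hv : 0 ≤ v) : Phi H v ≤ v := by
  unfold Phi
  split_ifs with h
  · rw [div_le_iff₀ (by positivity)]
    nlinarith
  · linarith

lemma Phi'_nonneg {H v : ℝ} (hH : 0 < H) (hv : 0 ≤ v) : 0 ≤ Phi' H v := by
  unfold Phi'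
  have : 0 ≤ min v H := le_min hv hH.le
  positivity

/-- lower bound for the Bregman distance by the squared difference of truncations -/
lemma Dd_ge_sq {H y a : ℝ} (hH : 0 < H) :
    (min y H - min a H) ^ 2 ≤ 2 * H * Dd H y a := by
  unfold Dd Phi Phi'
  split_ifs with h1 h2 h2
  · rw [min_eq_left h1, min_eq_left h2]
    apply le_of_eq
    field_simp
    ring
  · push Not at h2
    rw [min_eq_left h1, min_eq_right h2.le]
    have : 2 * H * (y ^ 2 / (2 * H) - (a - H / 2) - H / H * (y - a)) = (y - H) ^ 2 := by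
      field_simp
      ring
    rw [this]
  · push Not at h1
    rw [min_eq_right h1.le, min_eq_left h2]
    have : 2 * H * (y - H / 2 - a ^ 2 / (2 * H) - a / H * (y - a)) =
        (H - a) ^ 2 + 2 * (y - H) * (H - a) := by
      field_simp
      ring
    rw [this]
    nlinarith
  · push Not at h1 h2
    rw [min_eq_right h1.le, min_eq_right h2.le]
    have : 2 * H * (y - H / 2 - (a - H / 2) - H / H * (y - a)) = 0 := by
      field_simp
      ring
    rw [this]
    simp

lemma Dd_nonneg {H y a : ℝ} (hH : 0 < H) : 0 ≤ Dd H y a := by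
  have h := Dd_ge_sq (y := y) (a := a) hH
  have h2 : 0 ≤ 2 * H * Dd H y a := le_trans (sq_nonneg _) h
  by_contra hc
  push Not at hc
  have : 2 * H * Dd H y a < 0 := by
    apply mul_neg_of_pos_of_neg (by positivity) hc
  linarith

/-- lower bound for the Bregman distance at small base point -/
lemma Dd_ge_hi {H y a : ℝ} (hH : 0 < H) (ha2 : a ≤ H / 2) :
    y - H ≤ 2 * Dd H y a := by
  rcases le_or_gt y H with h | h
  · have := Dd_nonneg (y := y) (a := a) hH
    linarith
  · have h2 : a ≤ H := by linarith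
    have hD : 2 * H * Dd H y a = (H - a) ^ 2 + 2 * (y - H) * (H - a) := by
      unfold Dd Phi Phi'
      rw [if_neg (not_le.2 h), if_pos h2, min_eq_left h2]
      field_simp
      ring
    have h3 : H * (y - H) ≤ 2 * H * Dd H y a := by
      rw [hD]; nlinarith
    have h4 : H * (y - H) ≤ H * (2 * Dd H y a) := by linarith
    exact le_of_mul_le_mul_left h4 hH

lemma measurable_Phi (H : ℝ) (hH : 0 < H) : Measurable (Phi H) := (continuous_Phi H hH).measurable

lemma measurable_Phi' (H : ℝ) : Measurable (Phi' H) := by unfold Phi'; fun_prop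

lemma measurable_Dd (H : ℝ) (hH : 0 < H) : Measurable fun p : ℝ × ℝ => Dd H p.1 p.2 := by
  unfold Dd
  have h1 := measurable_Phi H hH
  have h2 := measurable_Phi' H
  fun_prop

/-- the cost `∫∫ p D` -/
noncomputable def Cst (H s t : ℝ) (f : V n → ℝ≥0∞) : ℝ≥0∞ :=
  ∫⁻ x, ∫⁻ y, G (t - s) (x - y) * ENNReal.ofReal (Dd H (P s f y).toReal (P t f x).toReal)

lemma pointwise_D {H y a : ℝ} (hH : 0 < H) (hy : 0 ≤ y) (ha : 0 ≤ a) :
    ENNReal.ofReal (Dd H y a) + ENNReal.ofReal (Phi H a) + ENNReal.ofReal (Phi' H a) *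
      ENNReal.ofReal y =
    ENNReal.ofReal (Phi H y) + ENNReal.ofReal (Phi' H a) * ENNReal.ofReal a := by
  have h1 := Dd_nonneg (y := y) (a := a) hH
  have h2 := Phi_nonneg (v := a) hH
  have h3 := Phi_nonneg (v := y) hH
  have h4 := Phi'_nonneg hH ha
  rw [← ENNReal.ofReal_mul h4, ← ENNReal.ofReal_mul h4, ← ENNReal.ofReal_add h1 h2,
    ← ENNReal.ofReal_add (by positivity) (by positivity),
    ← ENNReal.ofReal_add h3 (by positivity)]
  congr 1
  unfold Dd
  ring

/-- the cost identity -/
lemma cost_identity {H s t : ℝ} (hH : 0 < H) (hs : 0 < s) (hst : s < t) {f : V n → ℝ≥0∞}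
    (hf : Measurable f) (hfi : ∫⁻ x, f x ≠ ∞) : Cst H s t f + Pot H t f = Pot H s f := by
  have hts : 0 < t - s := by linarith
  have hv : Measurable (P s f) := measurable_P s hf
  have hw : Measurable (P t f) := measurable_P t hf
  have hvt : ∀ x, P s f x ≠ ∞ := P_ne_top hs hfi
  have hwt : ∀ x, P t f x ≠ ∞ := P_ne_top (hs.trans hst) hfi
  have hPw : ∀ x, P (t - s) (P s f) x = P t f x := by
    intro x
    rw [P_P hts hs hf]
    congr 1
    ring
  have hD := measurable_Dd H hH
  have hPhi := measurable_Phi H hH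
  have hPhi' := measurable_Phi' H
  have key : ∀ x, (∫⁻ y, G (t - s) (x - y) *
      ENNReal.ofReal (Dd H (P s f y).toReal (P t f x).toReal)) +
      ENNReal.ofReal (Phi H (P t f x).toReal) =
      P (t - s) (fun y => ENNReal.ofReal (Phi H (P s f y).toReal)) x := by
    intro x
    have e1 : (∫⁻ y, G (t - s) (x - y) *
        (ENNReal.ofReal (Dd H (P s f y).toReal (P t f x).toReal) +
          ENNReal.ofReal (Phi H (P t f x).toReal) +
          ENNReal.ofReal (Phi' H (P t f x).toReal) * P s f y)) =
        ∫⁻ y, G (t - s) (x - y) * (ENNReal.ofReal (Phi H (P s f y).toReal) +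
          ENNReal.ofReal (Phi' H (P t f x).toReal) * P t f x) := by
      congr 1
      funext y
      have := pointwise_D (H := H) (y := (P s f y).toReal) (a := (P t f x).toReal) hH
        ENNReal.toReal_nonneg ENNReal.toReal_nonneg
      rw [ENNReal.ofReal_toReal (hvt y), ENNReal.ofReal_toReal (hwt x)] at this
      rw [this]
    simp only [mul_add] at e1
    rw [lintegral_add_left (by fun_prop), lintegral_add_left (by fun_prop),
      lintegral_add_left (by fun_prop)] at e1
    rw [lintegral_mul_const _ (by fun_prop), lintegral_mul_const _ (by fun_prop),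
      lintegral_G_sub_left hts, one_mul, one_mul] at e1
    have e2 : (∫⁻ y, G (t - s) (x - y) *
        (ENNReal.ofReal (Phi' H (P t f x).toReal) * P s f y)) =
        ENNReal.ofReal (Phi' H (P t f x).toReal) * P t f x := by
      have : (∫⁻ y, G (t - s) (x - y) *
        (ENNReal.ofReal (Phi' H (P t f x).toReal) * P s f y)) =
        P (t - s) (fun y => ENNReal.ofReal (Phi' H (P t f x).toReal) * P s f y) x := rfl
      rw [this, P_const_mul (t - s) hv, hPw]
    rw [e2] at e1
    have hfin : ENNReal.ofReal (Phi' H (P t f x).toReal) * P t f x ≠ ∞ :=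
      ENNReal.mul_ne_top ENNReal.ofReal_ne_top (hwt x)
    have e3 := (ENNReal.add_left_inj hfin).1 e1
    exact e3
  have e4 : (∫⁻ x, ((∫⁻ y, G (t - s) (x - y) *
      ENNReal.ofReal (Dd H (P s f y).toReal (P t f x).toReal)) +
      ENNReal.ofReal (Phi H (P t f x).toReal))) =
      ∫⁻ x, P (t - s) (fun y => ENNReal.ofReal (Phi H (P s f y).toReal)) x := by
    congr 1
    funext x
    exact key x
  rw [lintegral_add_right _ (by fun_prop), lintegral_P hts (by fun_prop)] at e4
  exact e4

/-- `0 ≤ Phi_H(v) ≤ v` integrated. -/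
theorem Pot_le {H t : ℝ} (hH : 0 < H) (ht : 0 < t) {f : V n → ℝ≥0∞} (hf : Measurable f)
    (hfi : ∫⁻ x, f x ≠ ∞) : Pot H t f ≤ ∫⁻ x, f x := by
  rw [← lintegral_P ht hf]
  unfold Pot
  refine lintegral_mono fun x => ?_
  calc ENNReal.ofReal (Phi H (P t f x).toReal) ≤ ENNReal.ofReal (P t f x).toReal :=
        ENNReal.ofReal_le_ofReal (Phi_le hH ENNReal.toReal_nonneg)
    _ = P t f x := ENNReal.ofReal_toReal (P_ne_top ht hfi x)

theorem Pot_anti {H s t : ℝ} (hH : 0 < H) (hs : 0 < s) (hst : s ≤ t) {f : V n → ℝ≥0∞}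
    (hf : Measurable f) (hfi : ∫⁻ x, f x ≠ ∞) : Pot H t f ≤ Pot H s f := by
  rcases eq_or_lt_of_le hst with h | h
  · rw [h]
  · rw [← cost_identity hH hs h hf hfi]
    exact le_add_self

/-- (1.b). -/
theorem cost_hi {H s t : ℝ} (hH : 0 < H) (hs : 0 < s) (hst : s < t) {f : V n → ℝ≥0∞}
    (hf : Measurable f) (hfi : ∫⁻ x, f x ≠ ∞) :
    (∫⁻ x in {x : V n | P t f x ≤ ENNReal.ofReal (H / 2)},
        P (t - s) (fun y => P s f y - ENNReal.ofReal H) x) +
      2 * Pot H t f ≤ 2 * Pot H s f := by
  have hw : Measurable (P t f) := measurable_P t hf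
  have hv : Measurable (P s f) := measurable_P s hf
  have hD := measurable_Dd H hH
  have hvt : ∀ x, P s f x ≠ ∞ := P_ne_top hs hfi
  have hwt : ∀ x, P t f x ≠ ∞ := P_ne_top (hs.trans hst) hfi
  rw [← cost_identity hH hs hst hf hfi, mul_add]
  gcongr
  have hset : MeasurableSet {x : V n | P t f x ≤ ENNReal.ofReal (H / 2)} :=
    measurableSet_le hw measurable_const
  calc (∫⁻ x in {x : V n | P t f x ≤ ENNReal.ofReal (H / 2)},
        P (t - s) (fun y => P s f y - ENNReal.ofReal H) x)
      ≤ ∫⁻ x in {x : V n | P t f x ≤ ENNReal.ofReal (H / 2)},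
          2 * ∫⁻ y, G (t - s) (x - y) *
            ENNReal.ofReal (Dd H (P s f y).toReal (P t f x).toReal) := by
        refine setLIntegral_mono' hset fun x hx => ?_
        rw [← lintegral_const_mul _ (by fun_prop)]
        unfold P
        refine lintegral_mono fun y => ?_
        change G (t - s) (x - y) * (P s f y - ENNReal.ofReal H) ≤ 2 * (G (t - s) (x - y) *
            ENNReal.ofReal (Dd H (P s f y).toReal (P t f x).toReal))
        rw [mul_left_comm]
        gcongr
        have h1 : (P t f x).toReal ≤ H / 2 := by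
          have := ENNReal.toReal_mono ENNReal.ofReal_ne_top hx
          rwa [ENNReal.toReal_ofReal (by positivity)] at this
        have h2 := Dd_ge_hi hH (y := (P s f y).toReal) (a := (P t f x).toReal) h1
        calc P s f y - ENNReal.ofReal H = ENNReal.ofReal (P s f y).toReal - ENNReal.ofReal H := by
              rw [ENNReal.ofReal_toReal (hvt y)]
          _ = ENNReal.ofReal ((P s f y).toReal - H) := (ENNReal.ofReal_sub _ hH.le).symm
          _ ≤ ENNReal.ofReal (2 * Dd H (P s f y).toReal (P t f x).toReal) :=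
              ENNReal.ofReal_le_ofReal h2
          _ = _ := by
              rw [ENNReal.ofReal_mul zero_le_two]
              simp
    _ ≤ ∫⁻ x, 2 * ∫⁻ y, G (t - s) (x - y) *
            ENNReal.ofReal (Dd H (P s f y).toReal (P t f x).toReal) := setLIntegral_le_lintegral _ _
    _ = 2 * Cst H s t f := by
        rw [lintegral_const_mul _ ?_]
        · rfl
        · refine Measurable.lintegral_prod_right' (f := fun p : V n × V n =>
            G (t - s) (p.1 - p.2) *
              ENNReal.ofReal (Dd H (P s f p.2).toReal (P t f p.1).toReal)) ?_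
          fun_prop

lemma two_mul_le (a b : ℝ≥0∞) : 2 * (a * b) ≤ a * a + b * b := by
  rcases eq_or_ne a ∞ with ha | ha
  · subst ha
    simp
  rcases eq_or_ne b ∞ with hb | hb
  · subst hb
    simp
  lift a to NNReal using ha
  lift b to NNReal using hb
  norm_cast
  rw [← NNReal.coe_le_coe]
  push_cast
  nlinarith [sq_nonneg ((a : ℝ) - b)]

/-- positivity of the heat operator -/
lemma heat_pos {τ : ℝ} (hτ : 0 < τ) {g h : V n → ℝ≥0∞} (hg : Measurable g) (hh : Measurable h) :
    2 * ∫⁻ x, h x * P τ g x ≤ (∫⁻ x, g x * P τ g x) + ∫⁻ x, h x * P τ h x := by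
  have h2 : 0 < τ / 2 := by positivity
  have e : ∀ (a b : V n → ℝ≥0∞), Measurable a → Measurable b →
      ∫⁻ x, a x * P τ b x = ∫⁻ x, P (τ / 2) a x * P (τ / 2) b x := by
    intro a b ha hb
    rw [lintegral_P_mul (τ / 2) ha (measurable_P _ hb)]
    congr 1
    funext x
    rw [P_P h2 h2 hb]
    congr 2
    ring
  rw [e h g hh hg, e g g hg hg, e h h hh hh]
  have m1 := measurable_P (τ / 2) hg
  have m2 := measurable_P (τ / 2) hh
  rw [← lintegral_const_mul _ (by fun_prop), ← lintegral_add_left (by fun_prop)]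
  refine lintegral_mono fun x => ?_
  have := two_mul_le (P (τ / 2) g x) (P (τ / 2) h x)
  calc 2 * (P (τ / 2) h x * P (τ / 2) g x) = 2 * (P (τ / 2) g x * P (τ / 2) h x) := by
        rw [mul_comm (P (τ / 2) h x)]
    _ ≤ _ := this

lemma heat_le {τ : ℝ} (hτ : 0 < τ) {S : V n → ℝ≥0∞} (hS : Measurable S) :
    ∫⁻ x, S x * P τ S x ≤ ∫⁻ x, S x * S x := by
  have h1 : 2 * ∫⁻ x, S x * P τ S x ≤ 2 * ∫⁻ x, S x * S x := by
    calc 2 * ∫⁻ x, S x * P τ S x = ∫⁻ x, ∫⁻ y, G τ (x - y) * (2 * (S x * S y)) := by
          rw [← lintegral_const_mul _ (by have := measurable_P τ hS; fun_prop)]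
          congr 1
          funext x
          unfold P
          rw [← lintegral_const_mul _ (by fun_prop), ← lintegral_const_mul _ (by fun_prop)]
          congr 1
          funext y
          ring
      _ ≤ ∫⁻ x, ∫⁻ y, G τ (x - y) * (S x * S x + S y * S y) := by
          refine lintegral_mono fun x => lintegral_mono fun y => ?_
          exact mul_le_mul_right (two_mul_le _ _) _
      _ = ∫⁻ x, (S x * S x + P τ (fun y => S y * S y) x) := by
          congr 1
          funext x
          simp only [mul_add]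
          rw [lintegral_add_left (by fun_prop), lintegral_mul_const _ (by fun_prop),
            lintegral_G_sub_left hτ, one_mul]
          rfl
      _ = 2 * ∫⁻ x, S x * S x := by
          rw [lintegral_add_left (by fun_prop), lintegral_P hτ (by fun_prop), two_mul]
  exact (ENNReal.mul_le_mul_iff_right two_ne_zero ENNReal.ofNat_ne_top).1 h1

lemma heat_four {τ : ℝ} (hτ : 0 < τ) {g h : V n → ℝ≥0∞} (hg : Measurable g) (hh : Measurable h) :
    4 * ∫⁻ x, h x * P τ g x ≤ (∫⁻ x, g x * g x) + (∫⁻ x, h x * h x) + 2 * ∫⁻ x, g x * h x := by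
  have h1 := heat_pos hτ hg hh
  have mg := measurable_P τ hg
  have mh := measurable_P τ hh
  have h2 := heat_le hτ (S := fun x => g x + h x) (by fun_prop)
  have e1 : ∀ x, (g x + h x) * P τ (fun y => g y + h y) x =
      (g x * P τ g x + h x * P τ h x) + (g x * P τ h x + h x * P τ g x) := by
    intro x
    rw [P_add τ hg]
    ring
  have e2 : ∀ x, (g x + h x) * (g x + h x) = (g x * g x + h x * h x) + 2 * (g x * h x) := by
    intro x
    ring
  simp only [e1, e2] at h2
  rw [lintegral_add_left (by fun_prop), lintegral_add_left (by fun_prop),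
    lintegral_add_left (by fun_prop), lintegral_add_left (by fun_prop),
    lintegral_add_left (by fun_prop), lintegral_const_mul _ (by fun_prop)] at h2
  have e3 : ∫⁻ x, g x * P τ h x = ∫⁻ x, h x * P τ g x := by
    have := lintegral_P_mul τ hh hg
    calc ∫⁻ x, g x * P τ h x = ∫⁻ x, P τ h x * g x := by
          congr 1; funext x; ring
      _ = _ := this
  rw [e3] at h2
  calc 4 * ∫⁻ x, h x * P τ g x
      = 2 * (∫⁻ x, h x * P τ g x) + ((∫⁻ x, h x * P τ g x) + ∫⁻ x, h x * P τ g x) := by ring
    _ ≤ ((∫⁻ x, g x * P τ g x) + ∫⁻ x, h x * P τ h x) +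
        ((∫⁻ x, h x * P τ g x) + ∫⁻ x, h x * P τ g x) := by gcongr
    _ ≤ _ := h2

lemma sq_id {a b : ℝ} (ha : 0 ≤ a) (hb : 0 ≤ b) :
    ENNReal.ofReal ((a - b) ^ 2) + 2 * (ENNReal.ofReal a * ENNReal.ofReal b) =
      ENNReal.ofReal a * ENNReal.ofReal a + ENNReal.ofReal b * ENNReal.ofReal b := by
  rw [← ENNReal.ofReal_mul ha, ← ENNReal.ofReal_mul ha, ← ENNReal.ofReal_mul hb,
    show (2 : ℝ≥0∞) = ENNReal.ofReal 2 by simp, ← ENNReal.ofReal_mul zero_le_two,
    ← ENNReal.ofReal_add (sq_nonneg _) (by positivity),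
    ← ENNReal.ofReal_add (by positivity) (by positivity)]
  congr 1
  ring

/-- (1.a). -/
theorem cost_set {H s t : ℝ} (hH : 0 < H) (hs : 0 < s) (hst : s < t) {f : V n → ℝ≥0∞}
    (hf : Measurable f) (hfi : ∫⁻ x, f x ≠ ∞) :
    ENNReal.ofReal H *
        volume {x : V n | ENNReal.ofReal H < P t f x ∧ P s f x ≤ ENNReal.ofReal (H / 2)} +
      16 * Pot H t f ≤ 16 * Pot H s f := by
  have hts : 0 < t - s := by linarith
  have ht : 0 < t := hs.trans hst
  have hw : Measurable (P t f) := measurable_P t hf
  have hv : Measurable (P s f) := measurable_P s hf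
  have hD := measurable_Dd H hH
  have hvt : ∀ x, P s f x ≠ ∞ := P_ne_top hs hfi
  have hwt : ∀ x, P t f x ≠ ∞ := P_ne_top ht hfi
  set g' : V n → ℝ := fun y => min (P s f y).toReal H with hg'
  set h' : V n → ℝ := fun x => min (P t f x).toReal H with hh'
  have g0 : ∀ x, 0 ≤ g' x := fun x => le_min ENNReal.toReal_nonneg hH.le
  have h0 : ∀ x, 0 ≤ h' x := fun x => le_min ENNReal.toReal_nonneg hH.le
  have mg' : Measurable g' := by fun_prop
  have mh' : Measurable h' := by fun_prop
  set g : V n → ℝ≥0∞ := fun x => ENNReal.ofReal (g' x) with hg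
  set h : V n → ℝ≥0∞ := fun x => ENNReal.ofReal (h' x) with hh
  have mg : Measurable g := by fun_prop
  have mh : Measurable h := by fun_prop
  set A : ℝ≥0∞ := ∫⁻ x, ∫⁻ y, G (t - s) (x - y) * ENNReal.ofReal ((g' y - h' x) ^ 2) with hA
  set B : ℝ≥0∞ := ∫⁻ x, ENNReal.ofReal ((g' x - h' x) ^ 2) with hB
  have mA : Measurable fun x => ∫⁻ y, G (t - s) (x - y) * ENNReal.ofReal ((g' y - h' x) ^ 2) := by
    refine Measurable.lintegral_prod_right' (f := fun p : V n × V n =>
            G (t - s) (p.1 - p.2) * ENNReal.ofReal ((g' p.2 - h' p.1) ^ 2)) ?_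
    fun_prop
  -- I1
  have I1 : A + 2 * ∫⁻ x, h x * P (t - s) g x = (∫⁻ x, g x * g x) + ∫⁻ x, h x * h x := by
    have e : ∀ x, (∫⁻ y, G (t - s) (x - y) * ENNReal.ofReal ((g' y - h' x) ^ 2)) +
        2 * (h x * P (t - s) g x) = P (t - s) (fun y => g y * g y) x + h x * h x := by
      intro x
      have e1 : (∫⁻ y, G (t - s) (x - y) * (ENNReal.ofReal ((g' y - h' x) ^ 2) +
          2 * (g y * h x))) = ∫⁻ y, G (t - s) (x - y) * (g y * g y + h x * h x) := by
        congr 1
        funext y
        rw [sq_id (g0 y) (h0 x)]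
      simp only [mul_add] at e1
      rw [lintegral_add_left (by fun_prop), lintegral_add_left (by fun_prop),
        lintegral_mul_const _ (by fun_prop), lintegral_G_sub_left hts, one_mul] at e1
      have e2 : ∫⁻ y, G (t - s) (x - y) * (2 * (g y * h x)) = 2 * (h x * P (t - s) g x) := by
        unfold P
        rw [← lintegral_const_mul _ (by fun_prop), ← lintegral_const_mul _ (by fun_prop)]
        congr 1
        funext y
        ring
      rw [e2] at e1
      exact e1
    have e3 : (∫⁻ x, ((∫⁻ y, G (t - s) (x - y) * ENNReal.ofReal ((g' y - h' x) ^ 2)) +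
        2 * (h x * P (t - s) g x))) =
        ∫⁻ x, (P (t - s) (fun y => g y * g y) x + h x * h x) := by
      congr 1
      funext x
      exact e x
    have mP := measurable_P (t - s) mg
    rw [lintegral_add_left mA, lintegral_const_mul _ (by fun_prop),
      lintegral_add_right _ (by fun_prop), lintegral_P hts (by fun_prop)] at e3
    exact e3
  have I2 : B + 2 * ∫⁻ x, g x * h x = (∫⁻ x, g x * g x) + ∫⁻ x, h x * h x := by
    rw [hB, ← lintegral_const_mul _ (by fun_prop), ← lintegral_add_left (by fun_prop),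
      ← lintegral_add_left (by fun_prop)]
    congr 1
    funext x
    exact sq_id (g0 x) (h0 x)
  have I3 := heat_four hts mg mh
  have gle : ∀ x, g x ≤ P s f x := by
    intro x
    calc g x ≤ ENNReal.ofReal (P s f x).toReal := ENNReal.ofReal_le_ofReal (min_le_left _ _)
      _ = _ := ENNReal.ofReal_toReal (hvt x)
  have hle : ∀ x, h x ≤ P t f x := by
    intro x
    calc h x ≤ ENNReal.ofReal (P t f x).toReal := ENNReal.ofReal_le_ofReal (min_le_left _ _)
      _ = _ := ENNReal.ofReal_toReal (hwt x)
  have gH : ∀ x, g x ≤ ENNReal.ofReal H := fun x => ENNReal.ofReal_le_ofReal (min_le_right _ _)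
  have hHH : ∀ x, h x ≤ ENNReal.ofReal H := fun x => ENNReal.ofReal_le_ofReal (min_le_right _ _)
  have fg : ∫⁻ x, g x * g x ≠ ∞ := by
    refine ne_top_of_le_ne_top ?_ (lintegral_mono fun x => mul_le_mul' (gH x) (gle x))
    rw [lintegral_const_mul _ hv, lintegral_P hs hf]
    exact ENNReal.mul_ne_top ENNReal.ofReal_ne_top hfi
  have fh : ∫⁻ x, h x * h x ≠ ∞ := by
    refine ne_top_of_le_ne_top ?_ (lintegral_mono fun x => mul_le_mul' (hHH x) (hle x))
    rw [lintegral_const_mul _ hw, lintegral_P ht hf]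
    exact ENNReal.mul_ne_top ENNReal.ofReal_ne_top hfi
  have I4 : B ≤ 2 * A := by
    set N := ∫⁻ x, h x * P (t - s) g x with hN
    set M := ∫⁻ x, g x * h x with hM
    set Q := (∫⁻ x, g x * g x) + ∫⁻ x, h x * h x with hQ
    have hQt : Q ≠ ∞ := ENNReal.add_ne_top.2 ⟨fg, fh⟩
    have hNt : N ≠ ∞ := by
      have : 2 * N ≤ Q := by rw [← I1]; exact le_add_self
      have h2 : 2 * N ≠ ∞ := ne_top_of_le_ne_top hQt this
      intro hcon
      rw [hcon] at h2
      simp at h2
    have h4N : 4 * N ≠ ∞ := ENNReal.mul_ne_top ENNReal.ofNat_ne_top hNt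
    have : B + 4 * N ≤ 2 * A + 4 * N := by
      calc B + 4 * N ≤ B + (Q + 2 * M) := by gcongr
        _ = (B + 2 * M) + Q := by ring
        _ = Q + Q := by rw [I2]
        _ = (A + 2 * N) + (A + 2 * N) := by rw [I1]
        _ = 2 * A + 4 * N := by ring
    exact (ENNReal.add_le_add_iff_right h4N).1 this
  have I5 : A ≤ ENNReal.ofReal (2 * H) * Cst H s t f := by
    unfold Cst
    rw [← lintegral_const_mul _ ?_]
    · refine lintegral_mono fun x => ?_
      rw [← lintegral_const_mul _ (by fun_prop)]
      refine lintegral_mono fun y => ?_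
      change G (t - s) (x - y) * ENNReal.ofReal ((g' y - h' x) ^ 2) ≤
        ENNReal.ofReal (2 * H) * (G (t - s) (x - y) *
          ENNReal.ofReal (Dd H (P s f y).toReal (P t f x).toReal))
      rw [mul_left_comm]
      gcongr
      rw [← ENNReal.ofReal_mul (by positivity)]
      exact ENNReal.ofReal_le_ofReal (Dd_ge_sq hH)
    · refine Measurable.lintegral_prod_right' (f := fun p : V n × V n =>
            G (t - s) (p.1 - p.2) *
              ENNReal.ofReal (Dd H (P s f p.2).toReal (P t f p.1).toReal)) ?_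
      fun_prop
  set E := {x : V n | ENNReal.ofReal H < P t f x ∧ P s f x ≤ ENNReal.ofReal (H / 2)} with hE
  have mE : MeasurableSet E :=
    (measurableSet_lt measurable_const hw).inter (measurableSet_le hv measurable_const)
  have I6 : ENNReal.ofReal (H ^ 2 / 4) * volume E ≤ B := by
    calc ENNReal.ofReal (H ^ 2 / 4) * volume E = ∫⁻ _ in E, ENNReal.ofReal (H ^ 2 / 4) := by
          rw [setLIntegral_const]
      _ ≤ ∫⁻ x in E, ENNReal.ofReal ((g' x - h' x) ^ 2) := by
          refine setLIntegral_mono' mE fun x hx => ?_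
          refine ENNReal.ofReal_le_ofReal ?_
          have hx1 : H < (P t f x).toReal := by
            rw [← ENNReal.toReal_ofReal hH.le]
            exact (ENNReal.toReal_lt_toReal ENNReal.ofReal_ne_top (hwt x)).2 hx.1
          have hx2 : (P s f x).toReal ≤ H / 2 := by
            rw [← ENNReal.toReal_ofReal (show (0:ℝ) ≤ H / 2 by positivity)]
            exact ENNReal.toReal_mono ENNReal.ofReal_ne_top hx.2
          have e1 : h' x = H := min_eq_right hx1.le
          have e2 : g' x ≤ H / 2 := (min_le_left _ _).trans hx2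
          rw [e1]
          nlinarith [g0 x]
      _ ≤ B := setLIntegral_le_lintegral _ _
  have I7 : ENNReal.ofReal (H / 4) * (ENNReal.ofReal H * volume E) ≤
      ENNReal.ofReal (H / 4) * (16 * Cst H s t f) := by
    calc ENNReal.ofReal (H / 4) * (ENNReal.ofReal H * volume E)
        = ENNReal.ofReal (H ^ 2 / 4) * volume E := by
          rw [← mul_assoc, ← ENNReal.ofReal_mul (by positivity)]
          congr 2
          ring
      _ ≤ B := I6
      _ ≤ 2 * (ENNReal.ofReal (2 * H) * Cst H s t f) := I4.trans (by gcongr)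
      _ = ENNReal.ofReal (H / 4) * (16 * Cst H s t f) := by
          rw [← mul_assoc, ← mul_assoc]
          congr 1
          rw [show (2 : ℝ≥0∞) = ENNReal.ofReal 2 by simp,
            show (16 : ℝ≥0∞) = ENNReal.ofReal 16 by simp, ← ENNReal.ofReal_mul zero_le_two,
            ← ENNReal.ofReal_mul (by positivity)]
          congr 1
          ring
  have I8 : ENNReal.ofReal H * volume E ≤ 16 * Cst H s t f := by
    refine (ENNReal.mul_le_mul_iff_right ?_ ENNReal.ofReal_ne_top).1 I7
    rw [Ne, ENNReal.ofReal_eq_zero, not_le]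
    positivity
  calc ENNReal.ofReal H * volume E + 16 * Pot H t f
      ≤ 16 * Cst H s t f + 16 * Pot H t f := by gcongr
    _ = 16 * Pot H s f := by rw [← mul_add, cost_identity hH hs hst hf hfi]

end H28D
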