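import Mathlib

/-!
Definitions for the dimension-free weak type (1,1) bound for the dyadic ball maximal function
(frozen statement S04943).
-/

set_option autoImplicit false

open MeasureTheory Real
open scoped ENNReal

namespace H28D

/-- Euclidean space of dimension `n`. -/
abbrev V (n : ℕ) := EuclideanSpace ℝ (Fin n)

/-- heat kernel `(4 π t)^{-n/2} exp(-|x|²/(4t))`. -/
noncomputable def hk {n : ℕ} (t : ℝ) (x : V n) : ℝ :=
  (4 * π * t) ^ (-(n : ℝ) / 2) * Real.exp (-(‖x‖ ^ 2) / (4 * t))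

/-- heat kernel with values in `ℝ≥0∞`. -/
noncomputable def G {n : ℕ} (t : ℝ) (x : V n) : ℝ≥0∞ := ENNReal.ofReal (hk t x)

/-- heat operator on nonnegative functions. -/
noncomputable def P {n : ℕ} (t : ℝ) (f : V n → ℝ≥0∞) (x : V n) : ℝ≥0∞ :=
  ∫⁻ y, G t (x - y) * f y

/-- Huber function `v²/(2H)` for `v ≤ H`, `v - H/2` for `v > H`. -/
noncomputable def Phi (H v : ℝ) : ℝ := if v ≤ H then v ^ 2 / (2 * H) else v - H / 2

/-- Huber potential of `P t f`. -/
noncomputable def Pot {n : ℕ} (H t : ℝ) (f : V n → ℝ≥0∞) : ℝ≥0∞ :=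
  ∫⁻ x, ENNReal.ofReal (Phi H (P t f x).toReal)

/-- thin profile `√n exp(-(q-Q)²/(8t²))`. -/
noncomputable def R (n : ℕ) (t Q q : ℝ) : ℝ := √(n : ℝ) * Real.exp (-(q - Q) ^ 2 / (8 * t ^ 2))

/-- thin average (time `t`, start time `a`). -/
noncomputable def thinAvg {n : ℕ} (t a : ℝ) (f : V n → ℝ≥0∞) (x : V n) : ℝ≥0∞ :=
  ∫⁻ y, G (t - a) (x - y) * ENNReal.ofReal (R n t (2 * n * (t - a)) (‖x - y‖ ^ 2)) * P a f y

/-- mean of the thin profile under the heat kernel. -/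
noncomputable def rr (n : ℕ) (t Q τ q : ℝ) : ℝ := ∫ w : V n, hk τ w * R n t Q (‖w‖ ^ 2 + q)

end H28D
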