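import Pool.Agent.H28Dyadic.Heat

/-! Far bound for the thin profile, and two telescoping summation lemmas. -/

set_option autoImplicit false

open MeasureTheory Real
open scoped ENNReal

namespace H28D

variable {n : ℕ}

lemma exp_neg_sq_le (u : ℝ) : -u ^ 2 / 2 ≤ 1 / 2 - u := by nlinarith [sq_nonneg (u - 1)]

/-- pointwise exponential domination of the thin profile. -/
lemma R_le_exp {t Q : ℝ} (ht : 0 < t) (hQ : Q ≤ 2 * n * t) (q : ℝ) :
    R n t Q q ≤ √(n : ℝ) * Real.exp (1 / 2 + n) * Real.exp (-q / (2 * t)) := by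
  unfold R
  rw [mul_assoc, ← Real.exp_add]
  apply mul_le_mul_of_nonneg_left _ (Real.sqrt_nonneg _)
  apply Real.exp_le_exp.2
  have h1 := exp_neg_sq_le ((q - Q) / (2 * t))
  have h2 : -((q - Q) / (2 * t)) ^ 2 / 2 = -(q - Q) ^ 2 / (8 * t ^ 2) := by
    rw [div_pow]; ring
  have h3 : (q - Q) / (2 * t) = q / (2 * t) - Q / (2 * t) := by ring
  have h4 : Q / (2 * t) ≤ n := by
    rw [div_le_iff₀ (by positivity)]; linarith
  have h5 : -q / (2 * t) = -(q / (2 * t)) := by ring
  rw [h2] at h1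
  linarith

lemma exp_half_le : Real.exp (1 / 2) ≤ 5 / 3 := by
  have h1 : Real.exp (1 / 2) ^ 2 = Real.exp 1 := by
    rw [← Real.exp_nat_mul]; congr 1; norm_num
  have h2 := Real.exp_one_lt_d9
  nlinarith [Real.exp_pos (1 / 2)]

/-- (far). -/
theorem thin_far {n : ℕ} (hn : 1 ≤ n) {t τ Q : ℝ} (ht : 0 < t) (hτ : 0 < τ) (hτt : τ ≤ t)
    (hQ : Q ≤ 2 * n * t) (X y : V n) (h : 12 * n * t ≤ ‖X - y‖ ^ 2) :
    ∫⁻ x, G τ (x - X) * ENNReal.ofReal (R n t Q (‖x - y‖ ^ 2)) ≤
      ENNReal.ofReal (20 * n * t / ‖X - y‖ ^ 2) := by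
  have hn' : (1:ℝ) ≤ n := by exact_mod_cast hn
  set D := ‖X - y‖ ^ 2 with hD
  have hD0 : 0 < D := by
    have : 0 < 12 * (n:ℝ) * t := by positivity
    linarith
  set A := √(n : ℝ) * Real.exp (1 / 2 + n) * (2 * π * t) ^ ((n : ℝ) / 2) with hA
  have hA0 : 0 ≤ A := by positivity
  have h1 : ∀ x : V n, R n t Q (‖x - y‖ ^ 2) ≤ A * hk (t / 2) (x - y) := by
    intro x
    have h2 := R_le_exp (n := n) ht hQ (‖x - y‖ ^ 2)
    refine h2.trans (le_of_eq ?_)
    unfold hk
    rw [hA]
    have h3 : (2 * π * t) ^ ((n : ℝ) / 2) * (4 * π * (t / 2)) ^ (-(n : ℝ) / 2) = 1 := by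
      have : 4 * π * (t / 2) = 2 * π * t := by ring
      rw [this, ← Real.rpow_add (by positivity)]
      have : (n : ℝ) / 2 + -(n : ℝ) / 2 = 0 := by ring
      rw [this, Real.rpow_zero]
    have h4 : -‖x - y‖ ^ 2 / (4 * (t / 2)) = -‖x - y‖ ^ 2 / (2 * t) := by ring
    rw [h4]
    calc _ = √(n : ℝ) * Real.exp (1 / 2 + n) * 1 * Real.exp (-‖x - y‖ ^ 2 / (2 * t)) := by ring
      _ = _ := by rw [← h3]; ring
  calc ∫⁻ x, G τ (x - X) * ENNReal.ofReal (R n t Q (‖x - y‖ ^ 2))
      ≤ ∫⁻ x, ENNReal.ofReal A * (G τ (X - x) * G (t / 2) (x - y)) := by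
        apply lintegral_mono
        intro x
        simp only
        rw [G_sub_comm τ x X, mul_left_comm]
        apply mul_le_mul_right
        unfold G
        rw [← ENNReal.ofReal_mul hA0]
        exact ENNReal.ofReal_le_ofReal (h1 x)
    _ = ENNReal.ofReal A * G (τ + t / 2) (X - y) := by
        rw [lintegral_const_mul _ (by fun_prop), lintegral_G_mul_G hτ (by positivity)]
    _ ≤ ENNReal.ofReal (20 * n * t / D) := by
        unfold G
        rw [← ENNReal.ofReal_mul hA0]
        apply ENNReal.ofReal_le_ofReal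
        unfold hk
        rw [← hD]
        have h3 : (2 * π * t) ^ ((n : ℝ) / 2) * (4 * π * (τ + t / 2)) ^ (-(n : ℝ) / 2) ≤ 1 := by
          have e1 : (4 * π * (τ + t / 2)) ^ (-(n : ℝ) / 2) ≤ (2 * π * t) ^ (-(n : ℝ) / 2) := by
            apply Real.rpow_le_rpow_of_nonpos (by positivity)
            · have := Real.pi_pos
              nlinarith
            · apply div_nonpos_of_nonpos_of_nonneg
              · simp
              · norm_num
          have e2 : (2 * π * t) ^ ((n : ℝ) / 2) * (2 * π * t) ^ (-(n : ℝ) / 2) = 1 := by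
            rw [← Real.rpow_add (by positivity)]
            have : (n : ℝ) / 2 + -(n : ℝ) / 2 = 0 := by ring
            rw [this, Real.rpow_zero]
          calc _ ≤ (2 * π * t) ^ ((n : ℝ) / 2) * (2 * π * t) ^ (-(n : ℝ) / 2) := by gcongr
            _ = 1 := e2
        have h4 : Real.exp (-D / (4 * (τ + t / 2))) ≤ Real.exp (-D / (6 * t)) := by
          apply Real.exp_le_exp.2
          rw [neg_div, neg_div, neg_le_neg_iff]
          apply div_le_div_of_nonneg_left hD0.le (by positivity)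
          linarith
        have h5 : Real.exp (1 / 2 + n) * Real.exp (-D / (6 * t)) ≤
            5 / 3 * (12 * t / D) := by
          have e1 : 1 / 2 + (n : ℝ) + -D / (6 * t) ≤ 1 / 2 + -(D / (12 * t)) := by
            have : (n : ℝ) ≤ D / (12 * t) := by
              rw [le_div_iff₀ (by positivity)]; linarith
            have e : D / (6 * t) = 2 * (D / (12 * t)) := by ring
            have e' : -D / (6 * t) = -(D / (6 * t)) := by ring
            rw [e', e]; linarith
          have e2 : Real.exp (-(D / (12 * t))) ≤ 12 * t / D := by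
            rw [Real.exp_neg]
            have : D / (12 * t) ≤ Real.exp (D / (12 * t)) := by
              have := Real.add_one_le_exp (D / (12 * t)); linarith
            have hp : 0 < D / (12 * t) := by positivity
            calc (Real.exp (D / (12 * t)))⁻¹ ≤ (D / (12 * t))⁻¹ := inv_anti₀ hp this
              _ = _ := by rw [inv_div]
          rw [← Real.exp_add]
          calc _ ≤ Real.exp (1 / 2 + -(D / (12 * t))) := Real.exp_le_exp.2 e1
            _ = Real.exp (1 / 2) * Real.exp (-(D / (12 * t))) := Real.exp_add _ _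
            _ ≤ _ := by
              gcongr
              exact exp_half_le
        have h6 : √(n : ℝ) ≤ n := by
          rw [Real.sqrt_le_left (by positivity)]
          nlinarith
        calc A * ((4 * π * (τ + t / 2)) ^ (-(n : ℝ) / 2) * Real.exp (-D / (4 * (τ + t / 2))))
            = √(n : ℝ) * ((2 * π * t) ^ ((n : ℝ) / 2) * (4 * π * (τ + t / 2)) ^ (-(n : ℝ) / 2)) *
              (Real.exp (1 / 2 + n) * Real.exp (-D / (4 * (τ + t / 2)))) := by rw [hA]; ring
          _ ≤ n * 1 * (Real.exp (1 / 2 + n) * Real.exp (-D / (6 * t))) := by gcongr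
          _ ≤ n * 1 * (5 / 3 * (12 * t / D)) := by gcongr
          _ = _ := by ring

/-! ### telescoping sums -/

/-- `∑ min(θ_k, 1/θ_k) ≤ 10/3` for `θ_k = θ₀ / 4^k`. -/
lemma sum_min_le (θ : ℝ) (hθ : 0 < θ) (N : ℕ) :
    ∑ k ∈ Finset.range N, min (θ / 4 ^ (k + 1)) ((θ / 4 ^ (k + 1))⁻¹) ≤ 10 / 3 := by
  have key : ∀ s : ℝ, 0 < s → min s s⁻¹ ≤ 10 / 3 * (4 * s / (1 + 4 * s) - s / (1 + s)) := by
    intro s hs
    have e : 4 * s / (1 + 4 * s) - s / (1 + s) = 3 * s / ((1 + 4 * s) * (1 + s)) := by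
      field_simp; ring
    rw [e]
    rcases le_total s 1 with h | h
    · refine (min_le_left _ _).trans ?_
      rw [mul_div_assoc', le_div_iff₀ (by positivity)]
      have : (1 + 4 * s) * (1 + s) ≤ 10 := by nlinarith
      nlinarith
    · refine (min_le_right _ _).trans ?_
      rw [mul_div_assoc', le_div_iff₀ (by positivity), inv_mul_eq_div, div_le_iff₀ hs]
      nlinarith
  have h1 : ∀ N : ℕ, ∑ k ∈ Finset.range N, min (θ / 4 ^ (k + 1)) ((θ / 4 ^ (k + 1))⁻¹) ≤
      10 / 3 * (θ / (1 + θ) - (θ / 4 ^ N) / (1 + θ / 4 ^ N)) := by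
    intro N
    induction N with
    | zero => simp
    | succ N ih =>
      rw [Finset.sum_range_succ]
      have h2 := key (θ / 4 ^ (N + 1)) (by positivity)
      have h3 : 4 * (θ / 4 ^ (N + 1)) = θ / 4 ^ N := by rw [pow_succ]; field_simp
      rw [h3] at h2
      linarith
  refine (h1 N).trans ?_
  have h4 : 0 ≤ (θ / 4 ^ N) / (1 + θ / 4 ^ N) := by positivity
  have h5 : θ / (1 + θ) ≤ 1 := by
    rw [div_le_one (by positivity)]; linarith
  linarith

/-- `∑ 1_{s_k ≤ 1/8} s_k ≤ 1/4` for `s_k = s₀/2^k`. -/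
lemma sum_near_le (s : ℝ) (hs : 0 ≤ s) (N : ℕ) :
    ∑ k ∈ Finset.range N, (if s / 2 ^ (k + 1) ≤ 1 / 8 then s / 2 ^ (k + 1) else 0) ≤ 1 / 4 := by
  have key : ∀ u : ℝ, 0 ≤ u → (if u ≤ 1 / 8 then u else 0) ≤ min (2 * u) (1 / 4) - min u (1 / 4) := by
    intro u hu
    split_ifs with h
    · rw [min_eq_left (by linarith), min_eq_left (by linarith)]; linarith
    · have : min u (1 / 4) ≤ min (2 * u) (1 / 4) := min_le_min_right _ (by linarith)
      linarith
  have h1 : ∀ N : ℕ, ∑ k ∈ Finset.range N,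
      (if s / 2 ^ (k + 1) ≤ 1 / 8 then s / 2 ^ (k + 1) else 0) ≤
      min s (1 / 4) - min (s / 2 ^ N) (1 / 4) := by
    intro N
    induction N with
    | zero => simp
    | succ N ih =>
      rw [Finset.sum_range_succ]
      have h2 := key (s / 2 ^ (N + 1)) (by positivity)
      have h3 : 2 * (s / 2 ^ (N + 1)) = s / 2 ^ N := by rw [pow_succ]; field_simp
      rw [h3] at h2
      linarith
  refine (h1 N).trans ?_
  have h4 : 0 ≤ min (s / 2 ^ N) (1 / 4) := le_min (by positivity) (by norm_num)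
  have h5 : min s (1 / 4) ≤ 1 / 4 := min_le_right _ _
  linarith

end H28D
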