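import Pool.Agent.H28Dyadic.PartI
import Pool.Agent.H28Dyadic.Thin

/-! Section 5.5: far paths. -/

set_option autoImplicit false

open MeasureTheory Real
open scoped ENNReal

namespace H28D

variable {n : ℕ}

/-- near part of a path density. -/
noncomputable def ENear (T : ℝ) (E : V n → V n → ℝ≥0∞) (y x : V n) : ℝ≥0∞ :=
  if ‖x - y‖ ^ 2 ≤ n * T / 64 then E y x else 0

/-- far part of a path density. -/
noncomputable def EFar (T : ℝ) (E : V n → V n → ℝ≥0∞) (y x : V n) : ℝ≥0∞ :=
  if ‖x - y‖ ^ 2 ≤ n * T / 64 then 0 else E y x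

lemma near_add_far (T : ℝ) (E : V n → V n → ℝ≥0∞) (y x : V n) :
    E y x = ENear T E y x + EFar T E y x := by
  unfold ENear EFar
  split_ifs <;> simp

lemma ENear_le (T : ℝ) (E : V n → V n → ℝ≥0∞) (y x : V n) : ENear T E y x ≤ E y x := by
  unfold ENear
  split_ifs
  · exact le_rfl
  · exact zero_le

lemma measurable_ENear (T : ℝ) {E : V n → V n → ℝ≥0∞} (hE : Measurable (Function.uncurry E)) :
    Measurable (Function.uncurry (ENear T E)) := by
  unfold Function.uncurry ENear
  refine Measurable.ite ?_ hE measurable_const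
  exact measurableSet_le (by fun_prop) measurable_const

lemma measurable_EFar (T : ℝ) {E : V n → V n → ℝ≥0∞} (hE : Measurable (Function.uncurry E)) :
    Measurable (Function.uncurry (EFar T E)) := by
  unfold Function.uncurry EFar
  refine Measurable.ite ?_ measurable_const hE
  exact measurableSet_le (by fun_prop) measurable_const

/-- the far weight. -/
noncomputable def wfar (n : ℕ) (T : ℝ) (p : V n × V n) : ℝ :=
  1024 * min (‖p.2 - p.1‖ ^ 2 / (n * T)) ((‖p.2 - p.1‖ ^ 2 / (n * T))⁻¹)

@[fun_prop]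
lemma measurable_wfar (n : ℕ) (T : ℝ) : Measurable (wfar n T) := by
  unfold wfar
  apply Measurable.const_mul
  apply Measurable.min <;> fun_prop

/-- `L¹` bound of a far part. -/
lemma lintegral_zz_far (hn : 1 ≤ n) {T τ Q : ℝ} (hT : 0 < T) (hτ1 : 3 * T / 4 ≤ τ) (hτ2 : τ ≤ T)
    (hQ : Q ≤ 2 * n * T) {E : V n → V n → ℝ≥0∞} (hE : Measurable (Function.uncurry E)) :
    ∫⁻ x, zz τ T Q (EFar T E) x ≤
      ∫⁻ p : V n × V n, E p.1 p.2 * ENNReal.ofReal (wfar n T p) := by
  have hn' : (0:ℝ) < n := by exact_mod_cast hn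
  rw [lintegral_zz (measurable_EFar T hE)]
  apply lintegral_mono
  intro p
  simp only
  unfold EFar
  split_ifs with h
  · simp
  · gcongr
    push Not at h
    unfold wfar
    set θ := ‖p.2 - p.1‖ ^ 2 / (n * T) with hθ
    have hθ1 : 1 / 64 < θ := by
      rw [hθ, lt_div_iff₀ (by positivity)]
      linarith
    rcases le_or_gt 12 θ with h12 | h12
    · have h2 : 12 * n * T ≤ ‖p.2 - p.1‖ ^ 2 := by
        rw [hθ, le_div_iff₀ (by positivity)] at h12
        linarith
      refine (thin_far hn hT (by linarith) hτ2 hQ p.2 p.1 h2).trans ?_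
      apply ENNReal.ofReal_le_ofReal
      have h3 : 20 * n * T / ‖p.2 - p.1‖ ^ 2 = 20 * θ⁻¹ := by
        rw [hθ, inv_div]; ring
      rw [h3]
      have h4 : θ⁻¹ ≤ θ := by
        have : θ⁻¹ ≤ 12⁻¹ := inv_anti₀ (by norm_num) h12
        linarith
      rw [min_eq_right h4]
      have : 0 < θ⁻¹ := by positivity
      linarith
    · refine (thin_J hn hT (by linarith) Q p.2 p.1).trans ?_
      have h5 : (16 : ℝ≥0∞) = ENNReal.ofReal 16 := by simp
      rw [h5]
      apply ENNReal.ofReal_le_ofReal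
      have h6 : 1 / 64 ≤ min θ θ⁻¹ := by
        apply le_min hθ1.le
        have : 12⁻¹ ≤ θ⁻¹ := inv_anti₀ (by linarith) h12.le
        linarith
      linarith

lemma sum_wfar_le (hn : 1 ≤ n) {t₀ : ℝ} (ht : 0 < t₀) (b L : ℕ) (p : V n × V n) :
    ∑ q ∈ Finset.range L, ENNReal.ofReal (wfar n (tt t₀ (b + q)) p) ≤ 3500 := by
  have hn' : (0:ℝ) < n := by exact_mod_cast hn
  have hw0 : ∀ q ∈ Finset.range L, 0 ≤ wfar n (tt t₀ (b + q)) p := by
    intro q _
    have := tt_pos ht (b + q)
    unfold wfar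
    apply mul_nonneg (by norm_num)
    apply le_min <;> positivity
  rw [← ENNReal.ofReal_sum_of_nonneg hw0]
  have h35 : (3500 : ℝ≥0∞) = ENNReal.ofReal 3500 := by simp
  rw [h35]
  apply ENNReal.ofReal_le_ofReal
  set D := ‖p.2 - p.1‖ ^ 2 with hD
  rcases eq_or_lt_of_le (show 0 ≤ D by positivity) with h0 | h0
  · have : ∀ q, wfar n (tt t₀ (b + q)) p = 0 := by
      intro q; unfold wfar; rw [← hD, ← h0]; simp
    simp only [this, Finset.sum_const_zero]
    norm_num
  · have hb := tt_pos ht b
    set θ := 4 * (D / (n * tt t₀ b)) with hθ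
    have hθ0 : 0 < θ := by positivity
    have h1 := sum_min_le θ hθ0 L
    have h2 : ∀ q, wfar n (tt t₀ (b + q)) p = 1024 * min (θ / 4 ^ (q + 1)) ((θ / 4 ^ (q + 1))⁻¹) := by
      intro q
      unfold wfar
      have : ‖p.2 - p.1‖ ^ 2 / (n * tt t₀ (b + q)) = θ / 4 ^ (q + 1) := by
        rw [hθ, ← hD]
        unfold tt
        rw [pow_add, pow_succ]
        field_simp
      rw [this]
    simp_rw [h2]
    rw [← Finset.mul_sum]
    linarith

/-- total mass of the exit densities at one level. -/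
lemma lintegral_Ep_prod {t₀ : ℝ} {H : ℝ≥0∞} {f : V n → ℝ≥0∞} (ht : 0 < t₀) (hH : H ≠ ∞)
    (hf : Measurable f) (hfi : ∫⁻ x, f x ≠ ∞) (a i : ℕ) :
    ∫⁻ p : V n × V n, Ep t₀ H f a i p.1 p.2 = ∫⁻ x, ex t₀ H f (a + i) x := by
  rw [Measure.volume_eq_prod, lintegral_prod_symm]
  · congr 1; funext x
    exact lintegral_Ep ht hH hf hfi a i x
  · exact (measurable_Ep hf a i).aemeasurable

/-- the far part of one window. -/
lemma far_window (hn : 1 ≤ n) {t₀ : ℝ} {H : ℝ≥0∞} {f : V n → ℝ≥0∞} (ht : 0 < t₀) (hH : H ≠ ∞)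
    (hf : Measurable f) (hfi : ∫⁻ x, f x ≠ ∞) (a m₀ N M : ℕ) (hM : m₀ + N ≤ M) :
    ∑ q ∈ Finset.range N, ∫⁻ x, ∑ i ∈ Finset.range (m₀ + q + 1),
        zz (tt t₀ (a + (m₀ + q) + 2) - tt t₀ (a + i + 1)) (tt t₀ (a + (m₀ + q) + 2))
        (2 * n * (tt t₀ (a + (m₀ + q) + 2) - tt t₀ a))
        (EFar (tt t₀ (a + (m₀ + q) + 2)) (Ep t₀ H f a i)) x ≤
      3500 * ∑ i ∈ Finset.range M, ∫⁻ x, ex t₀ H f (a + i) x := by
  calc _ ≤ ∑ q ∈ Finset.range N, ∑ i ∈ Finset.range M,
        ∫⁻ p : V n × V n, Ep t₀ H f a i p.1 p.2 *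
          ENNReal.ofReal (wfar n (tt t₀ (a + m₀ + 2 + q)) p) := by
        apply Finset.sum_le_sum
        intro q hq
        rw [Finset.mem_range] at hq
        rw [lintegral_finsetSum]
        · calc _ ≤ ∑ i ∈ Finset.range (m₀ + q + 1), ∫⁻ p : V n × V n, Ep t₀ H f a i p.1 p.2 *
                ENNReal.ofReal (wfar n (tt t₀ (a + m₀ + 2 + q)) p) := by
                apply Finset.sum_le_sum
                intro i hi
                rw [Finset.mem_range] at hi
                have e : a + m₀ + 2 + q = a + (m₀ + q) + 2 := by ring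
                rw [e]
                have hT := tt_pos ht (a + (m₀ + q) + 2)
                have h1 : 4 * tt t₀ (a + i + 1) ≤ tt t₀ (a + (m₀ + q) + 2) :=
                  tt_lt ht (by omega)
                have h2 := tt_pos ht (a + i + 1)
                have h3 := tt_pos ht a
                apply lintegral_zz_far hn hT (by linarith) (by linarith) _ (measurable_Ep hf a i)
                have hn' : (0:ℝ) < n := by exact_mod_cast hn
                nlinarith
            _ ≤ _ := by
                apply Finset.sum_le_sum_of_subset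
                apply Finset.range_subset_range.2
                omega
        · intro i _
          exact measurable_zz (measurable_EFar _ (measurable_Ep hf a i))
    _ = ∑ i ∈ Finset.range M, ∫⁻ p : V n × V n, Ep t₀ H f a i p.1 p.2 *
          ∑ q ∈ Finset.range N, ENNReal.ofReal (wfar n (tt t₀ (a + m₀ + 2 + q)) p) := by
        rw [Finset.sum_comm]
        apply Finset.sum_congr rfl
        intro i _
        have hm : Measurable fun p : V n × V n => Ep t₀ H f a i p.1 p.2 := measurable_Ep hf a i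
        rw [← lintegral_finsetSum]
        · simp_rw [Finset.mul_sum]
        · intro q _
          fun_prop
    _ ≤ ∑ i ∈ Finset.range M, ∫⁻ p : V n × V n, Ep t₀ H f a i p.1 p.2 * 3500 := by
        apply Finset.sum_le_sum
        intro i _
        gcongr with p
        exact sum_wfar_le hn ht _ _ p
    _ = _ := by
        rw [Finset.mul_sum]
        apply Finset.sum_congr rfl
        intro i _
        have hm : Measurable fun p : V n × V n => Ep t₀ H f a i p.1 p.2 := measurable_Ep hf a i
        rw [lintegral_mul_const _ hm, lintegral_Ep_prod ht hH hf hfi, mul_comm]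

end H28D
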