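import Pool.Agent.H28Dyadic.Near3

/-! Section 5.6: near paths, one window. -/

set_option autoImplicit false

open MeasureTheory Real
open scoped ENNReal

namespace H28D

variable {n : ℕ}

/-- the near weight. -/
noncomputable def wnear (n : ℕ) (T : ℝ) (p : V n × V n) : ℝ :=
  if ‖p.2 - p.1‖ / √(n * T) ≤ 1 / 8 then ‖p.2 - p.1‖ / √(n * T) else 0

@[fun_prop]
lemma measurable_wnear (n : ℕ) (T : ℝ) : Measurable (wnear n T) := by
  unfold wnear
  refine Measurable.ite ?_ (by fun_prop) measurable_const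
  exact measurableSet_le (by fun_prop) measurable_const

lemma near_iff (hn : 1 ≤ n) {T : ℝ} (hT : 0 < T) (d : ℝ) (hd : 0 ≤ d) :
    d ^ 2 ≤ n * T / 64 ↔ d / √(n * T) ≤ 1 / 8 := by
  have hn' : (0:ℝ) < n := by exact_mod_cast hn
  have hs : 0 < √(n * T) := Real.sqrt_pos.2 (by positivity)
  have hs2 : √(n * T) ^ 2 = n * T := Real.sq_sqrt (by positivity)
  rw [div_le_iff₀ hs]
  constructor
  · intro h
    have h1 : d ^ 2 ≤ (1 / 8 * √(n * T)) ^ 2 := by rw [mul_pow, hs2]; linarith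
    exact (sq_le_sq₀ hd (by positivity)).1 h1
  · intro h
    have h1 : d ^ 2 ≤ (1 / 8 * √(n * T)) ^ 2 := by gcongr
    rw [mul_pow, hs2] at h1; linarith

lemma sum_wnear_le (hn : 1 ≤ n) {t₀ : ℝ} (ht : 0 < t₀) (b N : ℕ) (p : V n × V n) :
    ∑ q ∈ Finset.range N, ENNReal.ofReal (wnear n (tt t₀ (b + q)) p) ≤ ENNReal.ofReal (1 / 4) := by
  have hn' : (0:ℝ) < n := by exact_mod_cast hn
  have hb := tt_pos ht b
  have hw0 : ∀ q ∈ Finset.range N, 0 ≤ wnear n (tt t₀ (b + q)) p := by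
    intro q _
    unfold wnear
    split_ifs <;> positivity
  rw [← ENNReal.ofReal_sum_of_nonneg hw0]
  apply ENNReal.ofReal_le_ofReal
  set s := 2 * (‖p.2 - p.1‖ / √(n * tt t₀ b)) with hs
  have h1 := sum_near_le s (by positivity) N
  have h2 : ∀ q, wnear n (tt t₀ (b + q)) p =
      if s / 2 ^ (q + 1) ≤ 1 / 8 then s / 2 ^ (q + 1) else 0 := by
    intro q
    unfold wnear
    have e1 : ‖p.2 - p.1‖ / √(n * tt t₀ (b + q)) = s / 2 ^ (q + 1) := by
      have e2 : √(n * tt t₀ (b + q)) = √(n * tt t₀ b) * 2 ^ q := by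
        have : n * tt t₀ (b + q) = (n * tt t₀ b) * (2 ^ q) ^ 2 := by
          unfold tt
          rw [pow_add, ← pow_mul, mul_comm q 2, pow_mul]
          norm_num
          ring
        rw [this, Real.sqrt_mul (by positivity), Real.sqrt_sq (by positivity)]
      rw [e2, hs, pow_succ]
      have : 0 < √(n * tt t₀ b) := Real.sqrt_pos.2 (by positivity)
      field_simp
    rw [e1]
  simp_rw [h2]
  exact h1

/-- one level `k = a+m+2` of the near part. -/
lemma near_level : ∃ C₁ C₂ : ℝ, 0 < C₁ ∧ 0 < C₂ ∧ ∀ (n : ℕ), 1 ≤ n → ∀ (t₀ H Q : ℝ), 0 < t₀ →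
    0 < H → ∀ f : V n → ℝ≥0∞, Measurable f → ∫⁻ x, f x ≠ ∞ → ∀ a m : ℕ,
    ENNReal.ofReal H ^ 2 * volume {x : V n | 18 * ENNReal.ofReal H <
      ∑ i ∈ Finset.range (m + 1), zz (tt t₀ (a + m + 2) - tt t₀ (a + i + 1))
        (tt t₀ (a + m + 2)) Q
        (ENear (tt t₀ (a + m + 2)) (Ep t₀ (ENNReal.ofReal H) f a i)) x} ≤
    ENNReal.ofReal (C₁ * H) * (∑ i ∈ Finset.range (m + 1), ∫⁻ p : V n × V n,
      Ep t₀ (ENNReal.ofReal H) f a i p.1 p.2 *
        ENNReal.ofReal (wnear n (tt t₀ (a + m + 2)) p)) +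
    ENNReal.ofReal (C₂ * H * (m + 1) / n) *
      ∑ i ∈ Finset.range (m + 1), ∫⁻ x, ex t₀ (ENNReal.ofReal H) f (a + i) x := by
  obtain ⟨C₁, hC₁, hF⟩ := near_fluct
  obtain ⟨C₂, hC₂, hR⟩ := near_ref
  refine ⟨C₁, C₂, hC₁, hC₂, ?_⟩
  intro n hn t₀ H Q ht hH f hf hfi a m
  have hn' : (0:ℝ) < n := by exact_mod_cast hn
  set T := tt t₀ (a + m + 2) with hTdef
  have hT : 0 < T := tt_pos ht _
  set He := ENNReal.ofReal H with hHe
  have hHt : He ≠ ∞ := ENNReal.ofReal_ne_top
  set τ : ℕ → ℝ := fun i => T - tt t₀ (a + i + 1) with hτdef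
  set E : ℕ → V n → V n → ℝ≥0∞ := fun i => ENear T (Ep t₀ He f a i) with hEdef
  set e : ℕ → V n → ℝ≥0∞ := fun i => ex t₀ He f (a + i) with hedef
  have hE : ∀ i, Measurable (Function.uncurry (E i)) := fun i =>
    measurable_ENear T (measurable_Ep hf a i)
  have hEe : ∀ i X, ∫⁻ Y, E i Y X ≤ e i X := by
    intro i X
    calc _ ≤ ∫⁻ Y, Ep t₀ He f a i Y X := lintegral_mono fun Y => ENear_le T _ Y X
      _ = _ := lintegral_Ep ht hHt hf hfi a i X
  have hei : ∀ i, ∫⁻ X, e i X ≠ ∞ := by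
    intro i
    have h1 := sum_ex_le' (H := He) ht hHt hf (a + i) 1
    rw [Finset.sum_range_one] at h1
    exact ne_top_of_le_ne_top hfi h1
  have hτ : ∀ i < m + 1, 3 * T / 4 ≤ τ i ∧ τ i ≤ T := by
    intro i hi
    have h1 : 4 * tt t₀ (a + i + 1) ≤ T := tt_lt ht (by omega)
    have h2 := tt_pos ht (a + i + 1)
    constructor
    · rw [hτdef]; simp only; linarith
    · rw [hτdef]; simp only; linarith
  have hm1 : 4 * tt t₀ (a + (m + 1)) ≤ T := tt_lt ht (by omega)
  have hm0 := tt_pos ht (a + (m + 1))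
  have hDB : ∀ z, ∑ i ∈ Finset.range (m + 1), P (τ i - T / 2) (e i) z ≤ He := by
    intro z
    have h1 := sum_P_ex_le (H := He) ht hf a (m + 1) (T := T / 2) (by linarith) z
    refine le_of_eq_of_le ?_ h1
    apply Finset.sum_congr rfl
    intro i _
    congr 1
    rw [hτdef]; simp only; ring
  have hPe : ∀ x, ∑ i ∈ Finset.range (m + 1), P (τ i) (e i) x ≤ He := by
    intro x
    exact sum_P_ex_le (H := He) ht hf a (m + 1) (T := T) (by linarith) x
  have hnear : ∀ i, ∀ p : V n × V n, E i p.1 p.2 ≠ 0 → ‖p.2 - p.1‖ ^ 2 ≤ n * T / 64 := by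
    intro i p hp
    by_contra hc
    apply hp
    rw [hEdef]
    simp only
    unfold ENear
    rw [if_neg hc]
  have hFb := hF n hn T Q H hT hH (m + 1) τ hτ E hE e hEe hei hnear hDB
  have hRb : ∀ i < m + 1, ∫⁻ x, ‖FR n T Q (τ i) (E i) x‖ₑ ^ 2 ≤
      ENNReal.ofReal (C₂ * H / n) * ∫⁻ X, e i X := fun i hi =>
    hR n hn T Q H hT hH (τ i) (hτ i hi).1 (hτ i hi).2 (E i) (hE i) (e i) (hEe i)
      (fun X => ex_le _ X) (hei i)
  have hsub : {x : V n | 18 * He < ∑ i ∈ Finset.range (m + 1), zz (τ i) T Q (E i) x} ⊆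
      {x : V n | He < ‖FF n T Q (m + 1) τ E x‖ₑ} ∪
      {x : V n | He < ∑ i ∈ Finset.range (m + 1), ‖FR n T Q (τ i) (E i) x‖ₑ} := by
    intro x hx
    have hx' : 18 * He < ∑ i ∈ Finset.range (m + 1), zz (τ i) T Q (E i) x := hx
    by_contra hc
    rw [Set.mem_union, not_or] at hc
    have h1 : ‖FF n T Q (m + 1) τ E x‖ₑ ≤ He := not_lt.1 hc.1
    have h2 : ∑ i ∈ Finset.range (m + 1), ‖FR n T Q (τ i) (E i) x‖ₑ ≤ He := not_lt.1 hc.2
    have h3 := near_pointwise hn hT hH (m + 1) τ (fun i hi => (hτ i hi).1) E hE e hEe hei x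
      (Q := Q) (hPe x)
    have h4 : ∑ i ∈ Finset.range (m + 1), zz (τ i) T Q (E i) x ≤ 18 * He := by
      calc _ ≤ _ := h3
        _ ≤ 16 * He + He + He := by gcongr
        _ = 18 * He := by ring
    exact absurd hx' (not_lt.2 h4)
  have hmF : Measurable fun x => ‖FF n T Q (m + 1) τ E x‖ₑ :=
    (measurable_FF T Q (m + 1) τ hE).enorm
  have hmR : ∀ i, Measurable fun x => ‖FR n T Q (τ i) (E i) x‖ₑ := fun i =>
    (measurable_FR T Q (τ i) (hE i)).enorm
  have hmRs : Measurable fun x => ∑ i ∈ Finset.range (m + 1), ‖FR n T Q (τ i) (E i) x‖ₑ :=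
    Finset.measurable_sum _ fun i _ => hmR i
  -- the two Chebyshev bounds
  have hc1 := cheb_sq hmF He
  have hc2 := cheb_sq hmRs He
  have hw : ∑ i ∈ Finset.range (m + 1), ∫⁻ p : V n × V n, E i p.1 p.2 *
        ENNReal.ofReal (‖p.2 - p.1‖ / √(n * T)) ≤
      ∑ i ∈ Finset.range (m + 1), ∫⁻ p : V n × V n, Ep t₀ He f a i p.1 p.2 *
        ENNReal.ofReal (wnear n T p) := by
    apply Finset.sum_le_sum
    intro i _
    apply lintegral_mono
    intro p
    simp only [hEdef]
    unfold ENear wnear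
    by_cases hc : ‖p.2 - p.1‖ ^ 2 ≤ n * T / 64
    · rw [if_pos hc, if_pos ((near_iff hn hT _ (norm_nonneg _)).1 hc)]
    · rw [if_neg hc]; simp
  have hR2 : ∫⁻ x, (∑ i ∈ Finset.range (m + 1), ‖FR n T Q (τ i) (E i) x‖ₑ) ^ 2 ≤
      ENNReal.ofReal (C₂ * H * (m + 1) / n) * ∑ i ∈ Finset.range (m + 1), ∫⁻ x, e i x := by
    calc _ ≤ ∫⁻ x, ((m + 1 : ℕ) : ℝ≥0∞) *
          ∑ i ∈ Finset.range (m + 1), ‖FR n T Q (τ i) (E i) x‖ₑ ^ 2 := by
          apply lintegral_mono
          intro x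
          exact sum_enorm_sq_le (m + 1) (fun i => FR n T Q (τ i) (E i) x)
      _ = ((m + 1 : ℕ) : ℝ≥0∞) *
          ∑ i ∈ Finset.range (m + 1), ∫⁻ x, ‖FR n T Q (τ i) (E i) x‖ₑ ^ 2 := by
          rw [lintegral_const_mul, lintegral_finsetSum]
          · intro i _
            exact (hmR i).pow_const 2
          · exact Finset.measurable_sum _ fun i _ => (hmR i).pow_const 2
      _ ≤ ((m + 1 : ℕ) : ℝ≥0∞) *
          ∑ i ∈ Finset.range (m + 1), ENNReal.ofReal (C₂ * H / n) * ∫⁻ X, e i X := by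
          gcongr with i hi
          exact hRb i (Finset.mem_range.1 hi)
      _ = _ := by
          rw [← Finset.mul_sum, ← mul_assoc, ← ENNReal.ofReal_natCast (m + 1),
            ← ENNReal.ofReal_mul (by positivity)]
          congr 2
          push_cast
          ring
  calc He ^ 2 * volume {x : V n | 18 * He < ∑ i ∈ Finset.range (m + 1), zz (τ i) T Q (E i) x}
      ≤ He ^ 2 * (volume {x : V n | He < ‖FF n T Q (m + 1) τ E x‖ₑ} +
          volume {x : V n | He < ∑ i ∈ Finset.range (m + 1), ‖FR n T Q (τ i) (E i) x‖ₑ}) := by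
        gcongr
        exact (measure_mono hsub).trans (measure_union_le _ _)
    _ = He ^ 2 * volume {x : V n | He < ‖FF n T Q (m + 1) τ E x‖ₑ} +
        He ^ 2 * volume {x : V n | He < ∑ i ∈ Finset.range (m + 1),
          ‖FR n T Q (τ i) (E i) x‖ₑ} := mul_add _ _ _
    _ ≤ _ := by
        apply add_le_add
        · exact (hc1.trans hFb).trans (by gcongr)
        · exact hc2.trans hR2

/-- the near part of one window. -/
lemma near_window : ∃ C : ℝ, 0 < C ∧ ∀ (n : ℕ), 1 ≤ n → ∀ (t₀ H : ℝ), 0 < t₀ →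
    0 < H → ∀ f : V n → ℝ≥0∞, Measurable f → ∫⁻ x, f x ≠ ∞ → ∀ a m₀ N M : ℕ, m₀ + N ≤ M →
    (N : ℝ) * M ≤ 32 * n →
    ENNReal.ofReal H * ∑ q ∈ Finset.range N, volume {x : V n | 18 * ENNReal.ofReal H <
      ∑ i ∈ Finset.range (m₀ + q + 1), zz (tt t₀ (a + (m₀ + q) + 2) - tt t₀ (a + i + 1))
        (tt t₀ (a + (m₀ + q) + 2)) (2 * n * (tt t₀ (a + (m₀ + q) + 2) - tt t₀ a))
        (ENear (tt t₀ (a + (m₀ + q) + 2)) (Ep t₀ (ENNReal.ofReal H) f a i)) x} ≤
    ENNReal.ofReal C *
      ∑ i ∈ Finset.range M, ∫⁻ x, ex t₀ (ENNReal.ofReal H) f (a + i) x := by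
  obtain ⟨C₁, C₂, hC₁, hC₂, hlev⟩ := near_level
  refine ⟨C₁ / 4 + 32 * C₂, by positivity, ?_⟩
  intro n hn t₀ H ht hH f hf hfi a m₀ N M hM hNM
  have hn' : (0:ℝ) < n := by exact_mod_cast hn
  set He := ENNReal.ofReal H with hHe
  have hHt : He ≠ ∞ := ENNReal.ofReal_ne_top
  set S := ∑ i ∈ Finset.range M, ∫⁻ x, ex t₀ He f (a + i) x with hS
  have h1 : He ^ 2 * ∑ q ∈ Finset.range N, volume {x : V n | 18 * He <
      ∑ i ∈ Finset.range (m₀ + q + 1), zz (tt t₀ (a + (m₀ + q) + 2) - tt t₀ (a + i + 1))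
        (tt t₀ (a + (m₀ + q) + 2)) (2 * n * (tt t₀ (a + (m₀ + q) + 2) - tt t₀ a))
        (ENear (tt t₀ (a + (m₀ + q) + 2)) (Ep t₀ He f a i)) x} ≤
      ENNReal.ofReal (C₁ * H) * (ENNReal.ofReal (1 / 4) * S) +
      ENNReal.ofReal (32 * C₂ * H) * S := by
    rw [Finset.mul_sum]
    calc _ ≤ ∑ q ∈ Finset.range N, (ENNReal.ofReal (C₁ * H) *
          (∑ i ∈ Finset.range M, ∫⁻ p : V n × V n, Ep t₀ He f a i p.1 p.2 *
            ENNReal.ofReal (wnear n (tt t₀ (a + m₀ + 2 + q)) p)) +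
          ENNReal.ofReal (C₂ * H * M / n) * S) := by
          apply Finset.sum_le_sum
          intro q hq
          rw [Finset.mem_range] at hq
          have hl := hlev n hn t₀ H (2 * n * (tt t₀ (a + (m₀ + q) + 2) - tt t₀ a)) ht hH f hf hfi
            a (m₀ + q)
          refine hl.trans ?_
          have e : a + m₀ + 2 + q = a + (m₀ + q) + 2 := by ring
          rw [e]
          have hsub : Finset.range (m₀ + q + 1) ⊆ Finset.range M :=
            Finset.range_subset_range.2 (by omega)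
          apply add_le_add
          · gcongr
          · apply mul_le_mul'
            · apply ENNReal.ofReal_le_ofReal
              have : ((m₀ + q : ℕ) : ℝ) + 1 ≤ M := by
                have : m₀ + q + 1 ≤ M := by omega
                exact_mod_cast this
              gcongr
            · exact Finset.sum_le_sum_of_subset hsub
      _ = ENNReal.ofReal (C₁ * H) * (∑ i ∈ Finset.range M, ∫⁻ p : V n × V n,
            Ep t₀ He f a i p.1 p.2 * ∑ q ∈ Finset.range N,
              ENNReal.ofReal (wnear n (tt t₀ (a + m₀ + 2 + q)) p)) +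
          N * (ENNReal.ofReal (C₂ * H * M / n) * S) := by
          rw [Finset.sum_add_distrib, ← Finset.mul_sum, Finset.sum_comm]
          congr 1
          · congr 1
            apply Finset.sum_congr rfl
            intro i _
            have hm : Measurable fun p : V n × V n => Ep t₀ He f a i p.1 p.2 :=
              measurable_Ep hf a i
            rw [← lintegral_finsetSum]
            · simp_rw [Finset.mul_sum]
            · intro q _
              fun_prop
          · rw [Finset.sum_const, Finset.card_range, nsmul_eq_mul]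
      _ ≤ _ := by
          apply add_le_add
          · gcongr
            rw [hS, Finset.mul_sum]
            apply Finset.sum_le_sum
            intro i _
            have hm : Measurable fun p : V n × V n => Ep t₀ He f a i p.1 p.2 :=
              measurable_Ep hf a i
            calc _ ≤ ∫⁻ p : V n × V n, Ep t₀ He f a i p.1 p.2 * ENNReal.ofReal (1 / 4) := by
                  gcongr with p
                  exact sum_wnear_le hn ht _ _ p
              _ = _ := by
                  rw [lintegral_mul_const _ hm, lintegral_Ep_prod ht hHt hf hfi, mul_comm]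
          · rw [← mul_assoc]
            gcongr
            rw [← ENNReal.ofReal_natCast N, ← ENNReal.ofReal_mul (by positivity)]
            apply ENNReal.ofReal_le_ofReal
            have : (N : ℝ) * (C₂ * H * M / n) = C₂ * H * ((N : ℝ) * M) / n := by ring
            rw [this, div_le_iff₀ hn']
            have h3 : 0 ≤ C₂ * H := by positivity
            nlinarith
  have h2 : ENNReal.ofReal (C₁ * H) * (ENNReal.ofReal (1 / 4) * S) +
      ENNReal.ofReal (32 * C₂ * H) * S = He * (ENNReal.ofReal (C₁ / 4 + 32 * C₂) * S) := by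
    rw [← mul_assoc, ← ENNReal.ofReal_mul (by positivity), ← add_mul,
      ← ENNReal.ofReal_add (by positivity) (by positivity), ← mul_assoc, hHe,
      ← ENNReal.ofReal_mul hH.le]
    congr 2
    ring
  rw [h2, pow_two, mul_assoc] at h1
  exact (ENNReal.mul_le_mul_iff_right (by rw [hHe]; positivity) hHt).1 h1

end H28D
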