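import Pool.Agent.H28Dyadic.ThmA
import Pool.Agent.H28Dyadic.Near

/-! Section 5: main theorem for thin averages.  (owner: helper28) -/

set_option autoImplicit false

open MeasureTheory Real
open scoped ENNReal

namespace H28D

variable {n : ℕ}

/-! ### windows -/

/-- window length. -/
def LL (n : ℕ) : ℕ := Nat.clog 4 n + 2

/-- start level of the window of `k`. -/
def aa (n k : ℕ) : ℕ := LL n * (k / LL n - 1)

lemma sq_le_four_pow (c : ℕ) : (c + 2) ^ 2 ≤ 4 ^ (c + 1) := by
  induction c with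
  | zero => norm_num
  | succ c ih =>
    have h1 : (c + 1 + 2) ^ 2 ≤ 4 * (c + 2) ^ 2 := by
      have h2 := Nat.pow_le_pow_left (show c + 1 + 2 ≤ 2 * (c + 2) by omega) 2
      rw [mul_pow] at h2
      exact h2
    calc _ ≤ 4 * (c + 2) ^ 2 := h1
      _ ≤ 4 * 4 ^ (c + 1) := by gcongr
      _ = _ := by rw [pow_succ 4 (c + 1)]; ring

lemma LL_sq_le (hn : 1 ≤ n) : (LL n) ^ 2 ≤ 16 * n := by
  unfold LL
  rcases Nat.eq_zero_or_pos (Nat.clog 4 n) with h | h
  · rw [h]; omega
  · obtain ⟨c, hc⟩ := Nat.exists_eq_succ_of_ne_zero h.ne'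
    have h1 : 4 ^ c < n := by
      have h2 : c < Nat.clog 4 n := by omega
      exact (Nat.lt_clog_iff_pow_lt (by norm_num)).1 h2
    have h3 := sq_le_four_pow (Nat.clog 4 n)
    rw [hc] at h3 ⊢
    have h4 : 4 ^ (c.succ + 1) = 16 * 4 ^ c := by
      rw [Nat.succ_eq_add_one, pow_succ, pow_succ]; ring
    rw [h4] at h3
    calc _ ≤ 16 * 4 ^ c := h3
      _ ≤ 16 * n := by gcongr

lemma window_index (n : ℕ) {k : ℕ} (hk : LL n ≤ k) :
    ∃ p q : ℕ, q < LL n ∧ aa n k = LL n * p ∧ k = LL n * p + (Nat.clog 4 n + q) + 2 := by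
  have hL : 0 < LL n := by unfold LL; omega
  refine ⟨k / LL n - 1, k % LL n, Nat.mod_lt _ hL, rfl, ?_⟩
  have h1 : 1 ≤ k / LL n := (Nat.one_le_div_iff hL).2 hk
  have h2 := Nat.div_add_mod k (LL n)
  obtain ⟨d, hd⟩ : ∃ d, k / LL n = d + 1 := ⟨k / LL n - 1, by omega⟩
  rw [hd] at h2 ⊢
  rw [Nat.add_sub_cancel]
  have h3 : LL n * (d + 1) = LL n * d + LL n := by ring
  rw [h3] at h2
  have h4 : LL n = Nat.clog 4 n + 2 := rfl
  omega

lemma aa_spec (n : ℕ) {k : ℕ} (hk : LL n ≤ k) :
    aa n k < k ∧ (n : ℝ) * 4 ^ (aa n k) ≤ 4 ^ k := by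
  obtain ⟨p, q, hq, ha, hk'⟩ := window_index n hk
  rw [ha]
  constructor
  · omega
  · have h1 : n ≤ 4 ^ (Nat.clog 4 n) := Nat.le_pow_clog (by norm_num) n
    have h2 : (n : ℝ) ≤ 4 ^ (Nat.clog 4 n) := by exact_mod_cast h1
    rw [hk']
    calc (n : ℝ) * 4 ^ (LL n * p) ≤ 4 ^ (Nat.clog 4 n) * 4 ^ (LL n * p) := by gcongr
      _ = 4 ^ (LL n * p + Nat.clog 4 n) := by rw [pow_add]; ring
      _ ≤ _ := by
        apply pow_le_pow_right₀ (by norm_num)
        omega

/-! ### summation lemmas -/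

lemma tsum_two_step {u p : ℕ → ℝ≥0∞} (h : ∀ j, u j + p (j + 2) ≤ p j) :
    ∑' j, u j ≤ p 0 + p 1 := by
  apply ENNReal.tsum_le_of_sum_range_le
  intro N
  have h1 : ∀ N, ∑ j ∈ Finset.range N, u j + (p N + p (N + 1)) ≤ p 0 + p 1 := by
    intro N
    induction N with
    | zero => simp
    | succ N ih =>
      rw [Finset.sum_range_succ]
      calc ∑ j ∈ Finset.range N, u j + u N + (p (N + 1) + p (N + 1 + 1))
          = ∑ j ∈ Finset.range N, u j + ((u N + p (N + 2)) + p (N + 1)) := by ring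
        _ ≤ ∑ j ∈ Finset.range N, u j + (p N + p (N + 1)) := by
          gcongr
          exact h N
        _ ≤ _ := ih
  exact le_self_add.trans (h1 N)

lemma tsum_windows {E : ℕ → ℝ≥0∞} {A : ℝ≥0∞} (L : ℕ)
    (h : ∀ N, ∑ j ∈ Finset.range N, E j ≤ A) :
    ∑' p, ∑ i ∈ Finset.range (2 * L), E (L * p + i) ≤ 2 * A := by
  have h1 : ∀ K, ∑ p ∈ Finset.range K, ∑ i ∈ Finset.range L, E (L * p + i) =
      ∑ j ∈ Finset.range (L * K), E j := by
    intro K
    induction K with
    | zero => simp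
    | succ K ih =>
      rw [Finset.sum_range_succ, ih, mul_add, mul_one, Finset.sum_range_add]
  apply ENNReal.tsum_le_of_sum_range_le
  intro K
  have h2 : ∀ p, ∑ i ∈ Finset.range (2 * L), E (L * p + i) =
      ∑ i ∈ Finset.range L, E (L * p + i) + ∑ i ∈ Finset.range L, E (L * (p + 1) + i) := by
    intro p
    rw [two_mul, Finset.sum_range_add]
    congr 1
    apply Finset.sum_congr rfl
    intro i _
    congr 1
    ring
  simp_rw [h2]
  rw [Finset.sum_add_distrib, two_mul]
  apply add_le_add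
  · rw [h1]; exact h _
  · have h3 : ∑ p ∈ Finset.range K, ∑ i ∈ Finset.range L, E (L * (p + 1) + i) ≤
        ∑ p ∈ Finset.range (K + 1), ∑ i ∈ Finset.range L, E (L * p + i) := by
      rw [Finset.sum_range_succ']
      exact le_self_add
    exact h3.trans (by rw [h1]; exact h _)

/-! ### the three exceptional sets -/

section sets

variable (t₀ H : ℝ) (f : V n → ℝ≥0∞)

/-- surviving part too large while the heat average is small. -/
def setI (a m : ℕ) : Set (V n) := {x : V n | ENNReal.ofReal H <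
    zz (tt t₀ (a + m + 2) - tt t₀ (a + m + 1)) (tt t₀ (a + m + 2))
      (2 * n * (tt t₀ (a + m + 2) - tt t₀ a)) (Sp t₀ (ENNReal.ofReal H) f a m) x ∧
    P (3 * tt t₀ (a + m + 2)) f x ≤ ENNReal.ofReal (H / 4)}

/-- far part too large. -/
def setF (a m : ℕ) : Set (V n) := {x : V n | ENNReal.ofReal H <
    ∑ i ∈ Finset.range (m + 1), zz (tt t₀ (a + m + 2) - tt t₀ (a + i + 1))
      (tt t₀ (a + m + 2)) (2 * n * (tt t₀ (a + m + 2) - tt t₀ a))
      (EFar (tt t₀ (a + m + 2)) (Ep t₀ (ENNReal.ofReal H) f a i)) x}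

/-- near part too large. -/
def setN (a m : ℕ) : Set (V n) := {x : V n | 18 * ENNReal.ofReal H <
    ∑ i ∈ Finset.range (m + 1), zz (tt t₀ (a + m + 2) - tt t₀ (a + i + 1))
      (tt t₀ (a + m + 2)) (2 * n * (tt t₀ (a + m + 2) - tt t₀ a))
      (ENear (tt t₀ (a + m + 2)) (Ep t₀ (ENNReal.ofReal H) f a i)) x}

/-- heat maximal function too large. -/
def setV : Set (V n) := {x : V n | ∃ k : ℕ, ENNReal.ofReal (H / 4) < P (4 ^ k * (3 * t₀)) f x}

end sets

lemma mem_sets (hn : 1 ≤ n) {t₀ H : ℝ} (ht : 0 < t₀) (hH : 0 < H) {f : V n → ℝ≥0∞}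
    (hf : Measurable f) (a m : ℕ) {x : V n}
    (hx : ENNReal.ofReal (36 * H) < thinAvg (tt t₀ (a + m + 2)) (tt t₀ a) f x) :
    x ∈ setV t₀ H f ∪ (setI t₀ H f a m ∪ (setF t₀ H f a m ∪ setN t₀ H f a m)) := by
  by_contra hc
  simp only [Set.mem_union, not_or] at hc
  obtain ⟨hV, hI, hF, hN⟩ := hc
  have hF' : ∑ i ∈ Finset.range (m + 1), zz (tt t₀ (a + m + 2) - tt t₀ (a + i + 1))
      (tt t₀ (a + m + 2)) (2 * n * (tt t₀ (a + m + 2) - tt t₀ a))
      (EFar (tt t₀ (a + m + 2)) (Ep t₀ (ENNReal.ofReal H) f a i)) x ≤ ENNReal.ofReal H := by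
    by_contra h
    exact hF (not_le.1 h)
  have hN' : ∑ i ∈ Finset.range (m + 1), zz (tt t₀ (a + m + 2) - tt t₀ (a + i + 1))
      (tt t₀ (a + m + 2)) (2 * n * (tt t₀ (a + m + 2) - tt t₀ a))
      (ENear (tt t₀ (a + m + 2)) (Ep t₀ (ENNReal.ofReal H) f a i)) x ≤
      18 * ENNReal.ofReal H := by
    by_contra h
    exact hN (not_le.1 h)
  have hV' : P (3 * tt t₀ (a + m + 2)) f x ≤ ENNReal.ofReal (H / 4) := by
    by_contra h
    apply hV
    refine ⟨a + m + 2, ?_⟩
    have e : (4:ℝ) ^ (a + m + 2) * (3 * t₀) = 3 * tt t₀ (a + m + 2) := by unfold tt; ring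
    rw [e]
    exact not_le.1 h
  have hI' : zz (tt t₀ (a + m + 2) - tt t₀ (a + m + 1)) (tt t₀ (a + m + 2))
      (2 * n * (tt t₀ (a + m + 2) - tt t₀ a)) (Sp t₀ (ENNReal.ofReal H) f a m) x ≤
      ENNReal.ofReal H := by
    by_contra h
    exact hI ⟨not_le.1 h, hV'⟩
  have h1 := thinAvg_le (H := ENNReal.ofReal H) hn ht hf a m x
  have h2 : ∑ i ∈ Finset.range (m + 1), zz (tt t₀ (a + m + 2) - tt t₀ (a + i + 1))
      (tt t₀ (a + m + 2)) (2 * n * (tt t₀ (a + m + 2) - tt t₀ a))
      (Ep t₀ (ENNReal.ofReal H) f a i) x =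
      ∑ i ∈ Finset.range (m + 1), zz (tt t₀ (a + m + 2) - tt t₀ (a + i + 1))
      (tt t₀ (a + m + 2)) (2 * n * (tt t₀ (a + m + 2) - tt t₀ a))
      (ENear (tt t₀ (a + m + 2)) (Ep t₀ (ENNReal.ofReal H) f a i)) x +
      ∑ i ∈ Finset.range (m + 1), zz (tt t₀ (a + m + 2) - tt t₀ (a + i + 1))
      (tt t₀ (a + m + 2)) (2 * n * (tt t₀ (a + m + 2) - tt t₀ a))
      (EFar (tt t₀ (a + m + 2)) (Ep t₀ (ENNReal.ofReal H) f a i)) x := by
    rw [← Finset.sum_add_distrib]
    apply Finset.sum_congr rfl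
    intro i _
    exact zz_add (measurable_ENear _ (measurable_Ep hf a i)) (near_add_far _ _) x
  rw [h2] at h1
  have h3 : thinAvg (tt t₀ (a + m + 2)) (tt t₀ a) f x ≤ ENNReal.ofReal (36 * H) := by
    calc _ ≤ _ := h1
      _ ≤ 16 * ENNReal.ofReal H + ENNReal.ofReal H +
          (18 * ENNReal.ofReal H + ENNReal.ofReal H) := by
        gcongr
      _ = 36 * ENNReal.ofReal H := by ring
      _ = _ := by
        rw [ENNReal.ofReal_mul (by norm_num)]
        simp
  exact absurd hx (not_lt.2 h3)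

/-- Main theorem (thin averages). -/
theorem thin_main : ∃ C : ℝ, 0 < C ∧ ∀ n : ℕ, 1 ≤ n → ∃ (L : ℕ) (a : ℕ → ℕ),
    (∀ k, L ≤ k → a k < k ∧ (n : ℝ) * 4 ^ (a k) ≤ 4 ^ k) ∧
    ∀ t₀ : ℝ, 0 < t₀ → ∀ f : V n → ℝ≥0∞, Measurable f → ∫⁻ x, f x ≠ ∞ → ∀ H : ℝ, 0 < H →
      volume {x : V n | ∃ k, L ≤ k ∧
        ENNReal.ofReal (C * H) < thinAvg (4 ^ k * t₀) (4 ^ (a k) * t₀) f x} ≤
      ENNReal.ofReal (C / H) * ∫⁻ x, f x := by
  obtain ⟨C, hC, hnear⟩ := near_window
  refine ⟨208 + 128 + 7000 + 2 * C, by positivity, ?_⟩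
  intro n hn
  refine ⟨LL n, aa n, fun k hk => aa_spec n hk, ?_⟩
  intro t₀ ht f hf hfi H hH
  have hn' : (0:ℝ) < n := by exact_mod_cast hn
  set He := ENNReal.ofReal H with hHe
  have hHt : He ≠ ∞ := ENNReal.ofReal_ne_top
  have hH0 : He ≠ 0 := by rw [hHe]; positivity
  set A := ∫⁻ x, f x with hA
  set c := Nat.clog 4 n with hc
  set L := LL n with hL
  have hLc : L = c + 2 := rfl
  -- the exceptional set
  have hsub : {x : V n | ∃ k, L ≤ k ∧
      ENNReal.ofReal ((208 + 128 + 7000 + 2 * C) * H) <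
        thinAvg (4 ^ k * t₀) (4 ^ (aa n k) * t₀) f x} ⊆
      setV t₀ H f ∪ ((⋃ j : ℕ, if L ≤ j + 1 then
        setI t₀ H f (aa n (j + 1)) (j + 1 - 2 - aa n (j + 1)) else ∅) ∪
      (⋃ p : ℕ, ⋃ q ∈ Finset.range L, (setF t₀ H f (L * p) (c + q) ∪
        setN t₀ H f (L * p) (c + q)))) := by
    intro x hx
    obtain ⟨k, hk, hx⟩ := hx
    obtain ⟨p, q, hq, ha, hk'⟩ := window_index n hk
    change q < L at hq
    change aa n k = L * p at ha
    change k = L * p + (c + q) + 2 at hk'
    have h36 : ENNReal.ofReal (36 * H) ≤ ENNReal.ofReal ((208 + 128 + 7000 + 2 * C) * H) := by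
      apply ENNReal.ofReal_le_ofReal
      gcongr
      linarith
    have hx2 : ENNReal.ofReal (36 * H) <
        thinAvg (tt t₀ (L * p + (c + q) + 2)) (tt t₀ (L * p)) f x := by
      refine lt_of_le_of_lt h36 ?_
      rw [ha, hk'] at hx
      exact hx
    have hm := mem_sets hn ht hH hf (L * p) (c + q) hx2
    rcases hm with h | h | h
    · exact Or.inl h
    · right; left
      rw [Set.mem_iUnion]
      refine ⟨k - 1, ?_⟩
      have e1 : k - 1 + 1 = k := by omega
      rw [e1, if_pos hk, ha]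
      have e2 : k - 2 - L * p = c + q := by omega
      rw [e2]
      exact h
    · right; right
      simp only [Set.mem_iUnion]
      exact ⟨p, q, Finset.mem_range.2 hq, h⟩
  -- bound of V
  have hV : He * volume (setV t₀ H f) ≤ 208 * A := by
    have h1 := heat_maximal (T := 3 * t₀) (lam := H / 4) (by positivity) (by positivity) hf hfi
    have e : ENNReal.ofReal (H / 4) = He / 4 := by
      rw [ENNReal.ofReal_div_of_pos (by norm_num)]; simp [hHe]
    have h2 : He = 4 * ENNReal.ofReal (H / 4) := by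
      rw [e, ENNReal.mul_div_cancel (by norm_num) (by norm_num)]
    rw [h2, mul_assoc]
    calc _ ≤ 4 * (52 * A) := mul_le_mul' le_rfl h1
      _ = _ := by ring
  -- bound of I
  have hI : He * volume (⋃ j : ℕ, if L ≤ j + 1 then
        setI t₀ H f (aa n (j + 1)) (j + 1 - 2 - aa n (j + 1)) else ∅) ≤ 128 * A := by
    set U : ℕ → Set (V n) := fun j => if L ≤ j + 1 then
        setI t₀ H f (aa n (j + 1)) (j + 1 - 2 - aa n (j + 1)) else ∅ with hU
    have h1 : He * volume (⋃ j, U j) ≤ ∑' j, He * volume (U j) := by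
      rw [ENNReal.tsum_mul_left]
      gcongr
      exact measure_iUnion_le _
    have h2 : ∑' j, He * volume (U j) ≤ 64 * Pot H (tt t₀ 0) f + 64 * Pot H (tt t₀ 1) f := by
      apply tsum_two_step (p := fun j => 64 * Pot H (tt t₀ j) f)
      intro j
      simp only [hU]
      split_ifs with hj
      · obtain ⟨p, q, hq, ha, hk'⟩ := window_index n hj
        change q < L at hq
        change aa n (j + 1) = L * p at ha
        change j + 1 = L * p + (c + q) + 2 at hk'
        rw [ha]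
        have e2 : j + 1 - 2 - L * p = c + q := by omega
        rw [e2]
        have h3 : He * volume (setI t₀ H f (L * p) (c + q)) +
            64 * Pot H (tt t₀ (L * p + (c + q) + 3)) f ≤
            64 * Pot H (tt t₀ (L * p + (c + q) + 1)) f :=
          partI hn ht hH hf hfi (L * p) (c + q)
            (2 * n * (tt t₀ (L * p + (c + q) + 2) - tt t₀ (L * p)))
        have e3 : L * p + (c + q) + 3 = j + 2 := by omega
        have e4 : L * p + (c + q) + 1 = j := by omega
        rw [e3, e4] at h3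
        exact h3
      · simp only [measure_empty, mul_zero, zero_add]
        gcongr
        exact Pot_anti hH (tt_pos ht j) (tt_mono ht (by omega)) hf hfi
    calc _ ≤ _ := h1.trans h2
      _ ≤ 64 * A + 64 * A := by
        gcongr
        · exact Pot_le hH (tt_pos ht 0) hf hfi
        · exact Pot_le hH (tt_pos ht 1) hf hfi
      _ = _ := by ring
  -- bound of far and near
  have hFN : He * volume (⋃ p : ℕ, ⋃ q ∈ Finset.range L, (setF t₀ H f (L * p) (c + q) ∪
        setN t₀ H f (L * p) (c + q))) ≤ (3500 + ENNReal.ofReal C) * (2 * A) := by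
    have hw : ∀ p, He * volume (⋃ q ∈ Finset.range L, (setF t₀ H f (L * p) (c + q) ∪
        setN t₀ H f (L * p) (c + q))) ≤ (3500 + ENNReal.ofReal C) *
        ∑ i ∈ Finset.range (2 * L), ∫⁻ x, ex t₀ He f (L * p + i) x := by
      intro p
      have h1 : volume (⋃ q ∈ Finset.range L, (setF t₀ H f (L * p) (c + q) ∪
          setN t₀ H f (L * p) (c + q))) ≤ ∑ q ∈ Finset.range L,
          (volume (setF t₀ H f (L * p) (c + q)) + volume (setN t₀ H f (L * p) (c + q))) := by
        refine (measure_biUnion_finset_le _ _).trans ?_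
        exact Finset.sum_le_sum fun q _ => measure_union_le _ _
      have h2 : He * ∑ q ∈ Finset.range L, volume (setF t₀ H f (L * p) (c + q)) ≤
          3500 * ∑ i ∈ Finset.range (2 * L), ∫⁻ x, ex t₀ He f (L * p + i) x := by
        have h3 := far_window hn ht hHt hf hfi (L * p) c L (2 * L) (by omega)
        refine le_trans ?_ h3
        rw [Finset.mul_sum]
        apply Finset.sum_le_sum
        intro q _
        have hm : Measurable fun x : V n => ∑ i ∈ Finset.range (c + q + 1),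
            zz (tt t₀ (L * p + (c + q) + 2) - tt t₀ (L * p + i + 1)) (tt t₀ (L * p + (c + q) + 2))
            (2 * n * (tt t₀ (L * p + (c + q) + 2) - tt t₀ (L * p)))
            (EFar (tt t₀ (L * p + (c + q) + 2)) (Ep t₀ He f (L * p) i)) x :=
          Finset.measurable_sum _ fun i _ => measurable_zz (measurable_EFar _ (measurable_Ep hf _ i))
        refine le_trans ?_ (mul_meas_ge_le_lintegral hm He)
        gcongr 2
        intro x hx
        have hx' : He < ∑ i ∈ Finset.range (c + q + 1),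
            zz (tt t₀ (L * p + (c + q) + 2) - tt t₀ (L * p + i + 1)) (tt t₀ (L * p + (c + q) + 2))
            (2 * n * (tt t₀ (L * p + (c + q) + 2) - tt t₀ (L * p)))
            (EFar (tt t₀ (L * p + (c + q) + 2)) (Ep t₀ He f (L * p) i)) x := hx
        exact hx'.le
      have h4 : He * ∑ q ∈ Finset.range L, volume (setN t₀ H f (L * p) (c + q)) ≤
          ENNReal.ofReal C * ∑ i ∈ Finset.range (2 * L), ∫⁻ x, ex t₀ He f (L * p + i) x := by
        refine hnear n hn t₀ H ht hH f hf hfi (L * p) c L (2 * L) (by omega) ?_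
        have h5 := LL_sq_le hn
        have h6 : ((LL n : ℝ)) ^ 2 ≤ 16 * n := by exact_mod_cast h5
        push_cast
        rw [hL]
        nlinarith
      calc _ ≤ He * ∑ q ∈ Finset.range L,
            (volume (setF t₀ H f (L * p) (c + q)) + volume (setN t₀ H f (L * p) (c + q))) := by
            gcongr
        _ = He * ∑ q ∈ Finset.range L, volume (setF t₀ H f (L * p) (c + q)) +
            He * ∑ q ∈ Finset.range L, volume (setN t₀ H f (L * p) (c + q)) := by
            rw [Finset.sum_add_distrib, mul_add]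
        _ ≤ _ := by
            rw [add_mul]
            exact add_le_add h2 h4
    calc _ ≤ He * ∑' p, volume (⋃ q ∈ Finset.range L, (setF t₀ H f (L * p) (c + q) ∪
          setN t₀ H f (L * p) (c + q))) := by
          gcongr
          exact measure_iUnion_le _
      _ = ∑' p, He * volume (⋃ q ∈ Finset.range L, (setF t₀ H f (L * p) (c + q) ∪
          setN t₀ H f (L * p) (c + q))) := ENNReal.tsum_mul_left.symm
      _ ≤ ∑' p, (3500 + ENNReal.ofReal C) *
          ∑ i ∈ Finset.range (2 * L), ∫⁻ x, ex t₀ He f (L * p + i) x := ENNReal.tsum_le_tsum hw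
      _ = (3500 + ENNReal.ofReal C) * ∑' p,
          ∑ i ∈ Finset.range (2 * L), ∫⁻ x, ex t₀ He f (L * p + i) x := ENNReal.tsum_mul_left
      _ ≤ _ := by
          gcongr
          apply tsum_windows (E := fun j => ∫⁻ x, ex t₀ He f j x)
          intro N
          have := sum_ex_le' (H := He) ht hHt hf 0 N
          simpa using this
  have htot : He * volume {x : V n | ∃ k, L ≤ k ∧
      ENNReal.ofReal ((208 + 128 + 7000 + 2 * C) * H) <
        thinAvg (4 ^ k * t₀) (4 ^ (aa n k) * t₀) f x} ≤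
      ENNReal.ofReal (208 + 128 + 7000 + 2 * C) * A := by
    calc _ ≤ He * (volume (setV t₀ H f) + (volume (⋃ j : ℕ, if L ≤ j + 1 then
          setI t₀ H f (aa n (j + 1)) (j + 1 - 2 - aa n (j + 1)) else ∅) +
          volume (⋃ p : ℕ, ⋃ q ∈ Finset.range L, (setF t₀ H f (L * p) (c + q) ∪
          setN t₀ H f (L * p) (c + q))))) := by
          gcongr
          refine (measure_mono hsub).trans ((measure_union_le _ _).trans ?_)
          gcongr
          exact measure_union_le _ _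
      _ ≤ 208 * A + (128 * A + (3500 + ENNReal.ofReal C) * (2 * A)) := by
          rw [mul_add, mul_add]
          exact add_le_add hV (add_le_add hI hFN)
      _ = (208 + 128 + 7000 + 2 * ENNReal.ofReal C) * A := by ring
      _ = _ := by
          congr 1
          rw [ENNReal.ofReal_add (by norm_num) (by positivity), ENNReal.ofReal_mul (by norm_num)]
          norm_num
  have hfinal : volume {x : V n | ∃ k, L ≤ k ∧
      ENNReal.ofReal ((208 + 128 + 7000 + 2 * C) * H) <
        thinAvg (4 ^ k * t₀) (4 ^ (aa n k) * t₀) f x} ≤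
      (ENNReal.ofReal (208 + 128 + 7000 + 2 * C) * A) / He := by
    rw [ENNReal.le_div_iff_mul_le (Or.inl hH0) (Or.inl hHt), mul_comm]
    exact htot
  refine hfinal.trans (le_of_eq ?_)
  rw [ENNReal.ofReal_div_of_pos hH, ← hHe]
  rw [ENNReal.mul_div_right_comm]

end H28D
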