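import Pool.Agent.H28Dyadic.Ball
import Pool.Agent.H28Dyadic.Main

/-! Final reduction (4.3), (4.4).  (owner: helper32) -/

set_option autoImplicit false

open MeasureTheory Real
open scoped ENNReal

namespace H28D

namespace FN

/-- the shell. -/
def shell (n : ℕ) (t : ℝ) : Set (V n) := {y | 2 * n * t - 2 * t ≤ ‖y‖ ^ 2 ∧ ‖y‖ ^ 2 ≤ 2 * n * t}

/-- the time of the `i`-th shell in the ball of radius `ρ`. -/
noncomputable def ti (n : ℕ) (ρ : ℝ) (i : ℕ) : ℝ := ρ ^ 2 * Real.exp (-(i : ℝ) / n) / (2 * n)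

lemma ti_pos {n : ℕ} (hn : 1 ≤ n) {ρ : ℝ} (hρ : 0 < ρ) (i : ℕ) : 0 < ti n ρ i := by
  have hn0 : (0:ℝ) < n := by exact_mod_cast hn
  unfold ti; positivity

lemma two_n_ti {n : ℕ} (hn : 1 ≤ n) (ρ : ℝ) (i : ℕ) :
    2 * n * ti n ρ i = ρ ^ 2 * Real.exp (-(i : ℝ) / n) := by
  have hn0 : (0:ℝ) < n := by exact_mod_cast hn
  unfold ti; field_simp

lemma cover {n : ℕ} (hn : 1 ≤ n) {ρ : ℝ} (hρ : 0 < ρ) (y : V n) (hy : y ≠ 0) (hyρ : ‖y‖ < ρ) :
    ∃ i : ℕ, y ∈ shell n (ti n ρ i) := by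
  have hn0 : (0:ℝ) < n := by exact_mod_cast hn
  have hy0 : 0 < ‖y‖ := norm_pos_iff.2 hy
  set s : ℝ := -(n * Real.log (‖y‖ ^ 2 / ρ ^ 2)) with hs
  have hlt : ‖y‖ ^ 2 / ρ ^ 2 < 1 := by
    rw [div_lt_one (by positivity)]
    exact pow_lt_pow_left₀ hyρ hy0.le (by norm_num)
  have hpos : 0 < ‖y‖ ^ 2 / ρ ^ 2 := by positivity
  have hs0 : 0 ≤ s := by
    rw [hs]
    have := Real.log_nonpos hpos.le hlt.le
    nlinarith
  have hes : Real.exp (-s / n) = ‖y‖ ^ 2 / ρ ^ 2 := by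
    rw [hs, neg_neg, mul_div_assoc, mul_comm, div_mul_cancel₀ _ hn0.ne', Real.exp_log hpos]
  have hyes : ‖y‖ ^ 2 = ρ ^ 2 * Real.exp (-s / n) := by
    rw [hes]; field_simp
  refine ⟨⌊s⌋₊, ?_, ?_⟩
  · have h2 := two_n_ti hn ρ ⌊s⌋₊
    have h3 : 2 * n * ti n ρ ⌊s⌋₊ - 2 * ti n ρ ⌊s⌋₊ =
        ρ ^ 2 * Real.exp (-(⌊s⌋₊ : ℝ) / n) * (1 - 1 / n) := by
      rw [← h2]; field_simp
    rw [h3, hyes]
    have h4 : 1 - 1 / (n : ℝ) ≤ Real.exp (-(1 / (n : ℝ))) := by
      have := Real.add_one_le_exp (-(1 / (n : ℝ)))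
      linarith
    have h5 : Real.exp (-(⌊s⌋₊ : ℝ) / n) * Real.exp (-(1 / (n : ℝ))) ≤ Real.exp (-s / n) := by
      rw [← Real.exp_add]
      apply Real.exp_le_exp.2
      have h6 := (Nat.lt_floor_add_one s).le
      have : -(⌊s⌋₊ : ℝ) / n + -(1 / (n : ℝ)) = -((⌊s⌋₊ : ℝ) + 1) / n := by ring
      rw [this]
      gcongr
    calc ρ ^ 2 * Real.exp (-(⌊s⌋₊ : ℝ) / n) * (1 - 1 / n)
        ≤ ρ ^ 2 * Real.exp (-(⌊s⌋₊ : ℝ) / n) * Real.exp (-(1 / (n : ℝ))) := by gcongr
      _ = ρ ^ 2 * (Real.exp (-(⌊s⌋₊ : ℝ) / n) * Real.exp (-(1 / (n : ℝ)))) := by ring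
      _ ≤ _ := by gcongr
  · rw [two_n_ti hn, hyes]
    have := Nat.floor_le hs0
    gcongr

lemma vol_scale {n : ℕ} (hn : 1 ≤ n) {ρ : ℝ} (hρ : 0 < ρ) (i : ℕ) :
    (volume (Metric.ball (0 : V n) ρ))⁻¹ = ENNReal.ofReal (Real.exp (-(i : ℝ) / 2)) *
      (volume (Metric.ball (0 : V n) (√(2 * n * ti n ρ i))))⁻¹ := by
  have hn0 : (0:ℝ) < n := by exact_mod_cast hn
  have : Nontrivial (V n) := by
    have : Nonempty (Fin n) := ⟨⟨0, by omega⟩⟩
    infer_instance
  have hr : √(2 * n * ti n ρ i) = ρ * Real.exp (-(i : ℝ) / (2 * n)) := by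
    rw [two_n_ti hn]
    rw [show ρ ^ 2 * Real.exp (-(i : ℝ) / n) = (ρ * Real.exp (-(i : ℝ) / (2 * n))) ^ 2 by
      rw [mul_pow, ← Real.exp_nat_mul]; congr 2; push_cast; field_simp]
    rw [Real.sqrt_sq (by positivity)]
  have hA := Measure.addHaar_ball (volume : Measure (V n)) 0 hρ.le
  have hB := Measure.addHaar_ball (volume : Measure (V n)) 0
    (r := ρ * Real.exp (-(i : ℝ) / (2 * n))) (by positivity)
  rw [hr, hA, hB]
  have hfr : Module.finrank ℝ (V n) = n := by simp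
  rw [hfr]
  have hv0 : volume (Metric.ball (0 : V n) 1) ≠ 0 := (Metric.measure_ball_pos _ _ one_pos).ne'
  have hvt : volume (Metric.ball (0 : V n) 1) ≠ ∞ := measure_ball_lt_top.ne
  have e1 : (ρ * Real.exp (-(i : ℝ) / (2 * n))) ^ n = ρ ^ n * Real.exp (-(i : ℝ) / 2) := by
    rw [mul_pow, ← Real.exp_nat_mul]
    congr 2
    field_simp
  have hE : 0 < Real.exp (-(i : ℝ) / 2) := Real.exp_pos _
  rw [e1, ENNReal.mul_inv (Or.inr hvt) (Or.inr hv0), ENNReal.mul_inv (Or.inr hvt) (Or.inr hv0),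
    ENNReal.ofReal_mul (by positivity), ENNReal.mul_inv (Or.inr ENNReal.ofReal_ne_top)
      (Or.inl ENNReal.ofReal_ne_top)]
  have e2 : ENNReal.ofReal (Real.exp (-(i : ℝ) / 2)) *
      (ENNReal.ofReal (Real.exp (-(i : ℝ) / 2)))⁻¹ = 1 :=
    ENNReal.mul_inv_cancel (by simpa using hE) ENNReal.ofReal_ne_top
  calc _ = (ENNReal.ofReal (Real.exp (-(i : ℝ) / 2)) *
      (ENNReal.ofReal (Real.exp (-(i : ℝ) / 2)))⁻¹) * ((ENNReal.ofReal (ρ ^ n))⁻¹ *
        (volume (Metric.ball (0 : V n) 1))⁻¹) := by rw [e2, one_mul]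
    _ = _ := by ring

/-- thin average as a convolution. -/
lemma thinAvg_eq {n : ℕ} (t a : ℝ) {f : V n → ℝ≥0∞} (hf : Measurable f) (x : V n) :
    thinAvg t a f x = ∫⁻ y, f (x + y) * ∫⁻ z, G (t - a) z *
        ENNReal.ofReal (R n t (2 * n * (t - a)) (‖z‖ ^ 2)) * G a (y - z) := by
  unfold thinAvg
  rw [← lintegral_add_left_eq_self _ x]
  have h1 : ∀ z : V n, P a f (x + z) = ∫⁻ y, G a (y - z) * f (x + y) := by
    intro z
    unfold P
    rw [← lintegral_add_left_eq_self _ x]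
    congr 1
    ext y
    rw [show x + z - (x + y) = z - y by abel, G_sub_comm]
  have h2 : ∀ z : V n, G (t - a) (x - (x + z)) *
      ENNReal.ofReal (R n t (2 * n * (t - a)) (‖x - (x + z)‖ ^ 2)) * P a f (x + z) =
      ∫⁻ y, (G (t - a) z * ENNReal.ofReal (R n t (2 * n * (t - a)) (‖z‖ ^ 2))) *
        (G a (y - z) * f (x + y)) := by
    intro z
    rw [h1, ← lintegral_const_mul _ (by fun_prop)]
    rw [show x - (x + z) = -z by abel, G_neg, norm_neg]
  simp_rw [h2]
  rw [lintegral_lintegral_swap]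
  · congr 1
    ext y
    rw [← lintegral_const_mul _ (by fun_prop)]
    congr 1
    ext z
    ring
  · apply Measurable.aemeasurable
    unfold Function.uncurry
    fun_prop

/-- one shell. -/
lemma shell_le {n : ℕ} {C t a : ℝ}
    (hC : ∀ x : V n, 2 * n * t - 2 * t ≤ ‖x‖ ^ 2 → ‖x‖ ^ 2 ≤ 2 * n * t →
    (volume (Metric.ball (0 : V n) (√(2 * n * t))))⁻¹ ≤
      ENNReal.ofReal C * ∫⁻ z, G (t - a) z *
        ENNReal.ofReal (R n t (2 * n * (t - a)) (‖z‖ ^ 2)) * G a (x - z))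
    {f : V n → ℝ≥0∞} (hf : Measurable f) (x : V n) :
    (volume (Metric.ball (0 : V n) (√(2 * n * t))))⁻¹ * ∫⁻ y in shell n t, f (x + y) ≤
      ENNReal.ofReal C * thinAvg t a f x := by
  have hms : MeasurableSet (shell n t) := by
    unfold shell
    have hm : Measurable fun y : V n => ‖y‖ ^ 2 := by fun_prop
    exact (measurableSet_le measurable_const hm).inter (measurableSet_le hm measurable_const)
  have hfx : Measurable fun y => f (x + y) := by fun_prop
  have hK : Measurable fun y : V n => ∫⁻ z, G (t - a) z *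
        ENNReal.ofReal (R n t (2 * n * (t - a)) (‖z‖ ^ 2)) * G a (y - z) := by
    apply Measurable.lintegral_prod_right'
      (f := fun p : V n × V n => G (t - a) p.2 *
        ENNReal.ofReal (R n t (2 * n * (t - a)) (‖p.2‖ ^ 2)) * G a (p.1 - p.2))
    fun_prop
  have hfK : Measurable fun y : V n => f (x + y) * ∫⁻ z, G (t - a) z *
        ENNReal.ofReal (R n t (2 * n * (t - a)) (‖z‖ ^ 2)) * G a (y - z) := hfx.mul hK
  rw [thinAvg_eq t a hf, ← lintegral_const_mul _ hfx, ← lintegral_const_mul _ hfK]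
  refine le_trans ?_ (setLIntegral_le_lintegral (shell n t) _)
  apply setLIntegral_mono' hms
  intro y hy
  calc _ ≤ (ENNReal.ofReal C * ∫⁻ z, G (t - a) z *
        ENNReal.ofReal (R n t (2 * n * (t - a)) (‖z‖ ^ 2)) * G a (y - z)) * f (x + y) := by
        gcongr
        exact hC y hy.1 hy.2
    _ = _ := by ring

/-- (4.3). -/
lemma ball_le_sum {n : ℕ} (hn : 1 ≤ n) {ρ : ℝ} (hρ : 0 < ρ) {f : V n → ℝ≥0∞} (x : V n) :
    (volume (Metric.ball (0 : V n) ρ))⁻¹ * ∫⁻ y in Metric.ball (0 : V n) ρ, f (x + y) ≤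
      ∑' i : ℕ, ENNReal.ofReal (Real.exp (-(i : ℝ) / 2)) *
        ((volume (Metric.ball (0 : V n) (√(2 * n * ti n ρ i))))⁻¹ *
          ∫⁻ y in shell n (ti n ρ i), f (x + y)) := by
  have : Nonempty (Fin n) := ⟨⟨0, by omega⟩⟩
  have hsub : Metric.ball (0 : V n) ρ ⊆ {0} ∪ ⋃ i : ℕ, shell n (ti n ρ i) := by
    intro y hy
    by_cases h0 : y = 0
    · left; exact h0
    · right
      rw [Set.mem_iUnion]
      exact cover hn hρ y h0 (by simpa using hy)
  have h1 : ∫⁻ y in Metric.ball (0 : V n) ρ, f (x + y) ≤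
      ∑' i : ℕ, ∫⁻ y in shell n (ti n ρ i), f (x + y) := by
    calc _ ≤ ∫⁻ y in {0} ∪ ⋃ i : ℕ, shell n (ti n ρ i), f (x + y) :=
          lintegral_mono_set hsub
      _ ≤ (∫⁻ y in {0}, f (x + y)) + ∫⁻ y in ⋃ i : ℕ, shell n (ti n ρ i), f (x + y) :=
          lintegral_union_le _ _ _
      _ = ∫⁻ y in ⋃ i : ℕ, shell n (ti n ρ i), f (x + y) := by
          rw [setLIntegral_measure_zero _ _ (by simp), zero_add]
      _ ≤ _ := lintegral_iUnion_le _ _
  calc _ ≤ (volume (Metric.ball (0 : V n) ρ))⁻¹ *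
        ∑' i : ℕ, ∫⁻ y in shell n (ti n ρ i), f (x + y) := by gcongr
    _ = ∑' i : ℕ, (volume (Metric.ball (0 : V n) ρ))⁻¹ *
        ∫⁻ y in shell n (ti n ρ i), f (x + y) := ENNReal.tsum_mul_left.symm
    _ = _ := by
        congr 1
        ext i
        rw [vol_scale hn hρ i, mul_assoc]

/-- measurable nonnegative functions. -/
theorem final_meas :
    ∃ C : ℝ, 0 < C ∧ ∀ n : ℕ, 1 ≤ n → ∀ r : ℝ, 0 < r →
      ∀ f : V n → ℝ≥0∞, Measurable f → ∫⁻ x, f x ≠ ∞ →
      ∀ t : ℝ, 0 < t →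
        volume {x : V n |
          ENNReal.ofReal t <
            ⨆ k : ℤ, (volume (Metric.ball (0 : V n) ((2 : ℝ) ^ k * r)))⁻¹ *
              ∫⁻ y in Metric.ball (0 : V n) ((2 : ℝ) ^ k * r), f (x + y)}
          ≤ ENNReal.ofReal (C / t) * ∫⁻ x, f x := by
  obtain ⟨CB, hCB0, hCB⟩ := ball_thin
  obtain ⟨CT, hCT0, hCT⟩ := thin_main
  set q : ℝ := Real.exp (-(1 / 4)) with hq
  have hq0 : 0 < q := Real.exp_pos _
  have hq1 : q < 1 := by rw [hq, ← Real.exp_zero]; exact Real.exp_lt_exp.2 (by norm_num)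
  have hq1' : 0 < 1 - q := by linarith
  set c : ℝ := (1 - q) / (CB * CT) with hc
  have hc0 : 0 < c := by positivity
  refine ⟨CT / (c * (1 - q)), by positivity, ?_⟩
  intro n hn r hr f hf hfi lam hlam
  obtain ⟨L, a, ha, hweak⟩ := hCT n hn
  have hn0 : (0:ℝ) < n := by exact_mod_cast hn
  set H : ℕ → ℝ := fun i => c * lam * (q⁻¹) ^ i with hH
  have hH0 : ∀ i, 0 < H i := fun i => by positivity
  set t0 : ℕ → ℕ → ℝ := fun M i => (4:ℝ) ^ (-((M : ℤ) + L)) * ti n r i with ht0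
  have ht00 : ∀ M i, 0 < t0 M i := fun M i => by
    have := ti_pos hn hr i
    positivity
  set T : ℕ → ℕ → Set (V n) := fun M i => {x : V n | ∃ k, L ≤ k ∧
        ENNReal.ofReal (CT * H i) < thinAvg (4 ^ k * t0 M i) (4 ^ (a k) * t0 M i) f x} with hT
  have hTv : ∀ M i, volume (T M i) ≤ ENNReal.ofReal (CT / H i) * ∫⁻ x, f x := fun M i =>
    hweak (t0 M i) (ht00 M i) f hf hfi (H i) (hH0 i)
  set avg : ℤ → V n → ℝ≥0∞ := fun k x => (volume (Metric.ball (0 : V n) ((2 : ℝ) ^ k * r)))⁻¹ *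
              ∫⁻ y in Metric.ball (0 : V n) ((2 : ℝ) ^ k * r), f (x + y) with havg
  set S : ℕ → Set (V n) := fun M => {x | ∃ k : ℤ, -(M : ℤ) ≤ k ∧ ENNReal.ofReal lam < avg k x}
    with hS
  have hsub : ∀ M, S M ⊆ ⋃ i, T M i := by
    intro M x hx
    obtain ⟨k, hkM, hk⟩ := hx
    by_contra hcon
    rw [Set.mem_iUnion, not_exists] at hcon
    set k' : ℕ := (k + M + L).toNat with hk'
    have hk'z : (k' : ℤ) = k + M + L := Int.toNat_of_nonneg (by omega)
    have hLk : L ≤ k' := by omega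
    have hρ : 0 < (2:ℝ) ^ k * r := by positivity
    obtain ⟨ha1, ha2⟩ := ha k' hLk
    have hle : ∀ i, thinAvg (4 ^ k' * t0 M i) (4 ^ (a k') * t0 M i) f x ≤
        ENNReal.ofReal (CT * H i) := by
      intro i
      by_contra h
      exact hcon i ⟨k', hLk, not_le.1 h⟩
    have hti : ∀ i, ti n ((2:ℝ) ^ k * r) i = 4 ^ k' * t0 M i := by
      intro i
      rw [ht0]
      simp only
      rw [← mul_assoc, ← zpow_natCast, ← zpow_add₀ (by norm_num : (4:ℝ) ≠ 0), hk'z]
      rw [show k + M + L + -((M : ℤ) + L) = k by ring]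
      unfold ti
      rw [mul_pow, ← zpow_natCast, ← zpow_mul, mul_comm k, zpow_mul]
      norm_num
      ring
    have h1 : avg k x ≤ ENNReal.ofReal lam := by
      calc avg k x ≤ ∑' i : ℕ, ENNReal.ofReal (Real.exp (-(i : ℝ) / 2)) *
            ((volume (Metric.ball (0 : V n) (√(2 * n * ti n ((2:ℝ) ^ k * r) i))))⁻¹ *
          ∫⁻ y in shell n (ti n ((2:ℝ) ^ k * r) i), f (x + y)) := ball_le_sum hn hρ x
        _ ≤ ∑' i : ℕ, ENNReal.ofReal (CB * CT * c * lam * q ^ i) := by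
            apply ENNReal.tsum_le_tsum
            intro i
            have hs : (volume (Metric.ball (0 : V n) (√(2 * n * ti n ((2:ℝ) ^ k * r) i))))⁻¹ *
                ∫⁻ y in shell n (ti n ((2:ℝ) ^ k * r) i), f (x + y) ≤
                ENNReal.ofReal CB * thinAvg (4 ^ k' * t0 M i) (4 ^ (a k') * t0 M i) f x := by
              rw [hti i]
              apply shell_le _ hf
              apply hCB n hn
              · have := ht00 M i; positivity
              · have := ht00 M i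
                calc (4:ℝ) ^ (a k') * t0 M i * n = (n * 4 ^ (a k')) * t0 M i := by ring
                  _ ≤ 4 ^ k' * t0 M i := by gcongr
              · have := ht00 M i
                have h4 : (4:ℝ) ^ (a k') < 4 ^ k' := pow_lt_pow_right₀ (by norm_num) ha1
                gcongr
            calc _ ≤ ENNReal.ofReal (Real.exp (-(i : ℝ) / 2)) *
                (ENNReal.ofReal CB * ENNReal.ofReal (CT * H i)) := by
                  refine mul_le_mul' le_rfl (hs.trans (mul_le_mul' le_rfl (hle i)))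
              _ = _ := by
                  rw [← ENNReal.ofReal_mul hCB0.le, ← ENNReal.ofReal_mul (Real.exp_pos _).le]
                  congr 1
                  have e1 : Real.exp (-(i : ℝ) / 2) = q ^ i * q ^ i := by
                    rw [hq, ← Real.exp_nat_mul, ← Real.exp_add]; congr 1; ring
                  have e2 : q ^ i * (q⁻¹) ^ i = 1 := by
                    rw [← mul_pow, mul_inv_cancel₀ hq0.ne', one_pow]
                  rw [e1, hH]
                  simp only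
                  linear_combination (q ^ i * CB * CT * c * lam) * e2
        _ = ENNReal.ofReal lam := by
            rw [← ENNReal.ofReal_tsum_of_nonneg (fun i => by positivity)
              ((summable_geometric_of_lt_one hq0.le hq1).mul_left _), tsum_mul_left,
              tsum_geometric_of_lt_one hq0.le hq1]
            congr 1
            rw [hc]
            field_simp
    exact absurd hk (not_lt.2 h1)
  have hSv : ∀ M, volume (S M) ≤ ENNReal.ofReal (CT / (c * (1 - q)) / lam) * ∫⁻ x, f x := by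
    intro M
    calc volume (S M) ≤ volume (⋃ i, T M i) := measure_mono (hsub M)
      _ ≤ ∑' i, volume (T M i) := measure_iUnion_le _
      _ ≤ ∑' i, ENNReal.ofReal (CT / H i) * ∫⁻ x, f x := ENNReal.tsum_le_tsum (hTv M)
      _ = (∑' i, ENNReal.ofReal (CT / (c * lam) * q ^ i)) * ∫⁻ x, f x := by
          rw [ENNReal.tsum_mul_right]
          congr 2
          ext i
          congr 1
          rw [hH]
          simp only
          rw [inv_pow]
          field_simp
      _ = _ := by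
          rw [← ENNReal.ofReal_tsum_of_nonneg (fun i => by positivity)
              ((summable_geometric_of_lt_one hq0.le hq1).mul_left _), tsum_mul_left,
              tsum_geometric_of_lt_one hq0.le hq1]
          congr 2
          field_simp
  have hunion : {x : V n | ENNReal.ofReal lam < ⨆ k : ℤ, avg k x} = ⋃ M, S M := by
    ext x
    simp only [Set.mem_ofPred_eq, lt_iSup_iff, Set.mem_iUnion, hS]
    constructor
    · rintro ⟨k, hk⟩
      exact ⟨k.natAbs, k, by omega, hk⟩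
    · rintro ⟨M, k, -, hk⟩
      exact ⟨k, hk⟩
  have hmono : Monotone S := by
    intro M M' hMM x hx
    obtain ⟨k, hkM, hk⟩ := hx
    exact ⟨k, by have : (M : ℤ) ≤ M' := by exact_mod_cast hMM
                 omega, hk⟩
  change volume {x : V n | ENNReal.ofReal lam < ⨆ k : ℤ, avg k x} ≤ _
  rw [hunion, hmono.measure_iUnion]
  exact iSup_le hSv

end FN

open FN in
theorem final :
    ∃ C : ℝ, 0 < C ∧ ∀ n : ℕ, 1 ≤ n → ∀ r : ℝ, 0 < r →
      ∀ f : EuclideanSpace ℝ (Fin n) → ℝ, Integrable f →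
      ∀ t : ℝ, 0 < t →
        volume {x : EuclideanSpace ℝ (Fin n) |
          ENNReal.ofReal t <
            ⨆ k : ℤ, (volume (Metric.ball (0 : EuclideanSpace ℝ (Fin n)) ((2 : ℝ) ^ k * r)))⁻¹ *
              ∫⁻ y in Metric.ball (0 : EuclideanSpace ℝ (Fin n)) ((2 : ℝ) ^ k * r), ‖f (x + y)‖ₑ}
          ≤ ENNReal.ofReal (C / t) * ∫⁻ x, ‖f x‖ₑ := by
  obtain ⟨C, hC0, hC⟩ := final_meas
  refine ⟨C, hC0, ?_⟩
  intro n hn r hr f hf t ht
  have hm : AEMeasurable (fun x => ‖f x‖ₑ) := hf.aestronglyMeasurable.enorm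
  have hae := hm.ae_eq_mk
  have hint : ∫⁻ x, ‖f x‖ₑ = ∫⁻ x, hm.mk _ x := lintegral_congr_ae hae
  have hfin : ∫⁻ x, hm.mk _ x ≠ ∞ := by
    rw [← hint]
    exact hf.hasFiniteIntegral.ne
  have h := hC n hn r hr (hm.mk _) hm.measurable_mk hfin t ht
  have hball : ∀ (x : V n) (ρ : ℝ), ∫⁻ y in Metric.ball (0 : V n) ρ, ‖f (x + y)‖ₑ =
      ∫⁻ y in Metric.ball (0 : V n) ρ, hm.mk _ (x + y) := by
    intro x ρ
    apply lintegral_congr_ae
    apply ae_restrict_of_ae
    exact (measurePreserving_add_left volume x).quasiMeasurePreserving.ae_eq_comp hae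
  simp_rw [hball, hint]
  exact h

end H28D
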