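import Pool.Agent.H28Dyadic.FluctE

/-! Section 6: Theorem II (near paths fluctuation).  (owner: helper92) -/

set_option autoImplicit false

open MeasureTheory Real
open scoped ENNReal

namespace H28D

/-- the part of the oscillatory integral with weight `u` -/
noncomputable def Ph {n : ℕ} {Ω : Type*} [MeasurableSpace Ω] (μ : Measure Ω) (t : ℝ) (τ : Ω → ℝ)
    (X Y : Ω → V n) (u : ℝ → Ω → ℝ) (N : ℝ) (x : V n) : ℂ :=
  ∫ ω, (u N ω : ℂ) * ff n t N (τ ω) (X ω) (Y ω) x ∂μ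

section

variable {n : ℕ} {Ω : Type*} [MeasurableSpace Ω] {μ : Measure Ω} [IsFiniteMeasure μ]
  {X Y Z : Ω → V n} {τ : Ω → ℝ} {t H : ℝ}

lemma measurable_Ph (hX : Measurable X) (hY : Measurable Y) (hτ : Measurable τ)
    {u : ℝ → Ω → ℝ} (hu : Measurable fun p : ℝ × Ω => u p.1 p.2) :
    Measurable fun p : V n × ℝ => Ph μ t τ X Y u p.2 p.1 := by
  have : StronglyMeasurable fun p : V n × ℝ =>
      ∫ ω, (u p.2 ω : ℂ) * ff n t p.2 (τ ω) (X ω) (Y ω) p.1 ∂μ := by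
    apply StronglyMeasurable.integral_prod_right
      (f := fun (p : V n × ℝ) (ω : Ω) => (u p.2 ω : ℂ) * ff n t p.2 (τ ω) (X ω) (Y ω) p.1)
    apply Measurable.stronglyMeasurable
    simp only [Function.uncurry_def]
    have h1 : Measurable fun p : (V n × ℝ) × Ω => u p.1.2 p.2 :=
      hu.comp (by fun_prop : Measurable fun p : (V n × ℝ) × Ω => (p.1.2, p.2))
    fun_prop
  exact this.measurable

/-- the estimate for fixed frequency -/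
lemma fixed_N (hn : 1 ≤ n) (ht : 0 < t) (hX : Measurable X) (hY : Measurable Y)
    (hτ : Measurable τ) (hτ1 : ∀ ω, 3 * t / 4 ≤ τ ω) (hτ2 : ∀ ω, τ ω ≤ t)
    (hYX : ∀ ω, ‖X ω - Y ω‖ ^ 2 ≤ n * t / 64)
    (hDB : ∀ z : V n, ∫⁻ ω, G (τ ω - t / 2) (X ω - z) ∂μ ≤ ENNReal.ofReal H)
    {us ul : ℝ → Ω → ℝ} (husm : Measurable fun p : ℝ × Ω => us p.1 p.2)
    (hulm : Measurable fun p : ℝ × Ω => ul p.1 p.2)
    (hcase : ∀ N ω, (N ^ 16 * (‖X ω - Y ω‖ / √(n * t)) ^ 2 ≤ 1 ∧ us N ω = 1 ∧ ul N ω = 0) ∨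
      (1 < N ^ 16 * (‖X ω - Y ω‖ / √(n * t)) ^ 2 ∧ us N ω = 0 ∧ ul N ω = 1))
    (hs1 : ∀ ω, ‖X ω - Y ω‖ / √(n * t) ≤ 1) (N : ℝ) :
    ∫⁻ x, ENNReal.ofReal ((1 + N ^ 2) * rho n N ^ 2) *
        (4 * (‖Ph μ t τ X Y us N x‖ₑ ^ 2 + ‖Ph μ t τ X Y ul N x‖ₑ ^ 2)) ≤
      4 * (ENNReal.ofReal H * ENNReal.ofReal (8 + C2) *
        ∫⁻ ω, ENNReal.ofReal (‖X ω - Y ω‖ / √(n * t)) ∂μ) * ENNReal.ofReal ((1 + N ^ 2)⁻¹) := by
  have hC2 := C2_pos
  have hn' : (0:ℝ) < n := by exact_mod_cast hn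
  have hs0 : ∀ ω, 0 ≤ ‖X ω - Y ω‖ / √(n * t) := fun ω => by positivity
  have hus0 : ∀ ω, 0 ≤ us N ω := fun ω => by
    rcases hcase N ω with ⟨_, h, _⟩ | ⟨_, h, _⟩ <;> rw [h]; exact zero_le_one
  have hul0 : ∀ ω, 0 ≤ ul N ω := fun ω => by
    rcases hcase N ω with ⟨_, _, h⟩ | ⟨_, _, h⟩ <;> rw [h]; exact zero_le_one
  have hul1 : ∀ ω, ul N ω ≤ 1 := fun ω => by
    rcases hcase N ω with ⟨_, _, h⟩ | ⟨_, _, h⟩ <;> rw [h]; exact zero_le_one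
  have husm' : Measurable (us N) := husm.comp (measurable_const.prodMk measurable_id)
  have hulm' : Measurable (ul N) := hulm.comp (measurable_const.prodMk measurable_id)
  have hr : 0 ≤ (1 + N ^ 2) * rho n N ^ 2 := by positivity
  have hp : 0 ≤ (1 + N ^ 2)⁻¹ := by positivity
  have hFsx : Measurable fun x => ‖Ph μ t τ X Y us N x‖ₑ ^ 2 :=
    ((measurable_Ph hX hY hτ husm).comp (measurable_id.prodMk measurable_const)).enorm.pow_const 2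
  have b1 := scale_bound (K := 8 * (1 + N ^ 2)⁻¹) (s := fun ω => ‖X ω - Y ω‖ / √(n * t)) hr
    (by positivity) (bound_B1 hn ht hX hY hτ hτ1 hτ2 hDB N husm' hus0) (by
      intro ω
      rcases hcase N ω with ⟨hc, h, _⟩ | ⟨_, h, _⟩
      · rw [h, one_pow, one_mul]
        refine (num_small n N (hs0 ω) (hs1 ω) hc).trans (le_of_eq ?_)
        ring
      · rw [h]
        have := hs0 ω
        have h0 : (1 + N ^ 2) * rho n N ^ 2 *
          ((0:ℝ) ^ 2 * (2 * N ^ 2 * (‖X ω - Y ω‖ / √(n * t)) ^ 2)) = 0 := by ring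
        rw [h0]
        positivity)
  have b2 := scale_bound (K := C2 * (1 + N ^ 2)⁻¹) (s := fun ω => ‖X ω - Y ω‖ / √(n * t)) hr
    (by positivity) (bound_B2' hn ht hX hY hτ hτ1 hτ2 hYX hDB N hulm' hul0 hul1) (by
      intro ω
      rcases hcase N ω with ⟨_, _, h⟩ | ⟨hc, _, h⟩
      · rw [h, mul_zero, mul_zero]
        have := hs0 ω
        positivity
      · rw [h, mul_one]
        refine (num_large hn N (hs0 ω) hc).trans (le_of_eq ?_)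
        ring)
  have e5 : ENNReal.ofReal (8 * (1 + N ^ 2)⁻¹) + ENNReal.ofReal (C2 * (1 + N ^ 2)⁻¹) =
      ENNReal.ofReal (8 + C2) * ENNReal.ofReal ((1 + N ^ 2)⁻¹) := by
    rw [← ENNReal.ofReal_add (by positivity) (by positivity),
      ← ENNReal.ofReal_mul (by positivity)]
    congr 1; ring
  set S : ℝ≥0∞ := ∫⁻ ω, ENNReal.ofReal (‖X ω - Y ω‖ / √(n * t)) ∂μ with hS
  calc _ = 4 * (ENNReal.ofReal ((1 + N ^ 2) * rho n N ^ 2) *
          (∫⁻ x, ‖Ph μ t τ X Y us N x‖ₑ ^ 2) +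
        ENNReal.ofReal ((1 + N ^ 2) * rho n N ^ 2) * ∫⁻ x, ‖Ph μ t τ X Y ul N x‖ₑ ^ 2) := by
        rw [lintegral_const_mul' _ _ ENNReal.ofReal_ne_top,
          lintegral_const_mul' _ _ (by norm_num), lintegral_add_left hFsx]
        ring
    _ ≤ 4 * (ENNReal.ofReal H * (ENNReal.ofReal (8 * (1 + N ^ 2)⁻¹) * S) +
        ENNReal.ofReal H * (ENNReal.ofReal (C2 * (1 + N ^ 2)⁻¹) * S)) :=
        mul_le_mul' le_rfl (add_le_add b1 b2)
    _ = 4 * (ENNReal.ofReal H * ((ENNReal.ofReal (8 * (1 + N ^ 2)⁻¹) +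
        ENNReal.ofReal (C2 * (1 + N ^ 2)⁻¹)) * S)) := by ring
    _ = _ := by rw [e5]; ring

/-- Theorem II, with conditions everywhere -/
lemma fluct_aux (hn : 1 ≤ n) (ht : 0 < t) (hX : Measurable X) (hY : Measurable Y)
    (hτ : Measurable τ) (hτ1 : ∀ ω, 3 * t / 4 ≤ τ ω) (hτ2 : ∀ ω, τ ω ≤ t)
    (hYX : ∀ ω, ‖X ω - Y ω‖ ^ 2 ≤ n * t / 64)
    (hDB : ∀ z : V n, ∫⁻ ω, G (τ ω - t / 2) (X ω - z) ∂μ ≤ ENNReal.ofReal H) (Q : ℝ) :
    ∫⁻ x : V n, ‖∫ ω, hk (τ ω) (x - X ω) *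
        (R n t Q (‖x - Y ω‖ ^ 2) - R n t Q (‖x - X ω‖ ^ 2 + ‖X ω - Y ω‖ ^ 2)) ∂μ‖ₑ ^ 2 ≤
      ENNReal.ofReal π * (4 * (ENNReal.ofReal H * ENNReal.ofReal (8 + C2) *
        ∫⁻ ω, ENNReal.ofReal (‖X ω - Y ω‖ / √(n * t)) ∂μ) * ENNReal.ofReal π) := by
  have hn' : (0:ℝ) < n := by exact_mod_cast hn
  have hs1 : ∀ ω, ‖X ω - Y ω‖ / √(n * t) ≤ 1 := by
    intro ω
    have hq : 0 < √(n * t : ℝ) := Real.sqrt_pos.2 (by positivity)
    rw [div_le_one hq]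
    apply Real.le_sqrt_of_sq_le
    have h1 := hYX ω
    have h2 : (0:ℝ) ≤ n * t := by positivity
    linarith
  obtain ⟨us, ul, husm, hulm, hcase⟩ : ∃ us ul : ℝ → Ω → ℝ,
      (Measurable fun p : ℝ × Ω => us p.1 p.2) ∧ (Measurable fun p : ℝ × Ω => ul p.1 p.2) ∧
      ∀ N ω, (N ^ 16 * (‖X ω - Y ω‖ / √(n * t)) ^ 2 ≤ 1 ∧ us N ω = 1 ∧ ul N ω = 0) ∨
      (1 < N ^ 16 * (‖X ω - Y ω‖ / √(n * t)) ^ 2 ∧ us N ω = 0 ∧ ul N ω = 1) := by
    have hm : Measurable fun p : ℝ × Ω => p.1 ^ 16 * (‖X p.2 - Y p.2‖ / √(n * t)) ^ 2 := by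
      fun_prop
    have hSm := measurableSet_le hm (measurable_const (a := (1:ℝ)))
    refine ⟨fun N ω => if N ^ 16 * (‖X ω - Y ω‖ / √(n * t)) ^ 2 ≤ 1 then 1 else 0,
      fun N ω => if N ^ 16 * (‖X ω - Y ω‖ / √(n * t)) ^ 2 ≤ 1 then 0 else 1,
      Measurable.ite hSm measurable_const measurable_const,
      Measurable.ite hSm measurable_const measurable_const, fun N ω => ?_⟩
    by_cases h : N ^ 16 * (‖X ω - Y ω‖ / √(n * t)) ^ 2 ≤ 1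
    · exact Or.inl ⟨h, if_pos h, if_pos h⟩
    · exact Or.inr ⟨not_le.1 h, if_neg h, if_neg h⟩
  have hmS := measurable_Ph (μ := μ) (t := t) hX hY hτ husm
  have hmL := measurable_Ph (μ := μ) (t := t) hX hY hτ hulm
  have hpt : ∀ x, ‖∫ ω, hk (τ ω) (x - X ω) *
        (R n t Q (‖x - Y ω‖ ^ 2) - R n t Q (‖x - X ω‖ ^ 2 + ‖X ω - Y ω‖ ^ 2)) ∂μ‖ₑ ^ 2 ≤
      ENNReal.ofReal π * ∫⁻ N : ℝ, ENNReal.ofReal ((1 + N ^ 2) * rho n N ^ 2) *
        (4 * (‖Ph μ t τ X Y us N x‖ₑ ^ 2 + ‖Ph μ t τ X Y ul N x‖ₑ ^ 2)) := by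
    intro x
    have e1 : ∀ r : ℝ, ‖r‖ₑ = ‖(r : ℂ)‖ₑ := fun r => by
      rw [← ofReal_norm, ← ofReal_norm, Complex.norm_real]
    have e2 : ∀ N, ∫ ω, ff n t N (τ ω) (X ω) (Y ω) x ∂μ =
        Ph μ t τ X Y us N x + Ph μ t τ X Y ul N x := by
      intro N
      have hus0 : ∀ ω, 0 ≤ us N ω := fun ω => by
        rcases hcase N ω with ⟨_, h, _⟩ | ⟨_, h, _⟩ <;> rw [h]; exact zero_le_one
      have hul0 : ∀ ω, 0 ≤ ul N ω := fun ω => by
        rcases hcase N ω with ⟨_, _, h⟩ | ⟨_, _, h⟩ <;> rw [h]; exact zero_le_one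
      have hus1 : ∀ ω, us N ω ≤ 1 := fun ω => by
        rcases hcase N ω with ⟨_, h, _⟩ | ⟨_, h, _⟩ <;> rw [h]; exact zero_le_one
      have hul1 : ∀ ω, ul N ω ≤ 1 := fun ω => by
        rcases hcase N ω with ⟨_, _, h⟩ | ⟨_, _, h⟩ <;> rw [h]; exact zero_le_one
      have husm' : Measurable (us N) := husm.comp (measurable_const.prodMk measurable_id)
      have hulm' : Measurable (ul N) := hulm.comp (measurable_const.prodMk measurable_id)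
      unfold Ph
      rw [← integral_add (integrable_ff ht hX hY hτ hτ1 hDB N husm' hus0 hus1 x)
        (integrable_ff ht hX hY hτ hτ1 hDB N hulm' hul0 hul1 x)]
      refine integral_congr_ae (Filter.Eventually.of_forall fun ω => ?_)
      simp only
      rw [← add_mul]
      have : (us N ω : ℂ) + (ul N ω : ℂ) = 1 := by
        rcases hcase N ω with ⟨_, h1, h2⟩ | ⟨_, h1, h2⟩ <;> rw [h1, h2] <;> simp
      rw [this, one_mul]
    have e3 : ∀ N, ‖Complex.exp (-(Complex.I * al n t N * Q))‖ = 1 := by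
      intro N
      have := norm_exp_I_mul (al n t N) (-Q)
      push_cast at this
      rw [← this]
      congr 2; ring
    rw [e1, repr_fluct hn ht hX hY hτ hτ1 hDB Q x]
    simp only [e2]
    exact pt_bound (fun N => Ph μ t τ X Y us N x) (fun N => Ph μ t τ X Y ul N x)
      (hmS.comp (measurable_const.prodMk measurable_id))
      (hmL.comp (measurable_const.prodMk measurable_id)) _ e3
  have hN := fixed_N hn ht hX hY hτ hτ1 hτ2 hYX hDB husm hulm hcase hs1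
  calc _ ≤ ∫⁻ x, ENNReal.ofReal π * ∫⁻ N : ℝ, ENNReal.ofReal ((1 + N ^ 2) * rho n N ^ 2) *
        (4 * (‖Ph μ t τ X Y us N x‖ₑ ^ 2 + ‖Ph μ t τ X Y ul N x‖ₑ ^ 2)) := lintegral_mono hpt
    _ = ENNReal.ofReal π * ∫⁻ N : ℝ, ∫⁻ x, ENNReal.ofReal ((1 + N ^ 2) * rho n N ^ 2) *
        (4 * (‖Ph μ t τ X Y us N x‖ₑ ^ 2 + ‖Ph μ t τ X Y ul N x‖ₑ ^ 2)) := by
        rw [lintegral_const_mul' _ _ ENNReal.ofReal_ne_top, lintegral_lintegral_swap]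
        have h1 : Measurable fun p : V n × ℝ => ENNReal.ofReal ((1 + p.2 ^ 2) * rho n p.2 ^ 2) := by
          fun_prop
        have h2 : Measurable fun p : V n × ℝ => 4 * (‖Ph μ t τ X Y us p.2 p.1‖ₑ ^ 2 +
            ‖Ph μ t τ X Y ul p.2 p.1‖ₑ ^ 2) :=
          ((hmS.enorm.pow_const 2).add (hmL.enorm.pow_const 2)).const_mul 4
        exact (h1.mul h2).aemeasurable
    _ ≤ ENNReal.ofReal π * ∫⁻ N : ℝ, 4 * (ENNReal.ofReal H * ENNReal.ofReal (8 + C2) *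
          ∫⁻ ω, ENNReal.ofReal (‖X ω - Y ω‖ / √(n * t)) ∂μ) *
          ENNReal.ofReal ((1 + N ^ 2)⁻¹) :=
        mul_le_mul' le_rfl (lintegral_mono fun N => hN N)
    _ = _ := by
        rw [lintegral_const_mul _ (by fun_prop), lintegral_pi]

end

/-- Theorem II. -/
theorem fluct : ∃ C : ℝ, 0 < C ∧ ∀ (n : ℕ), 1 ≤ n → ∀ (t Q H : ℝ), 0 < t → 0 < H →
    ∀ (Ω : Type) [MeasurableSpace Ω] (μ : Measure Ω) [IsFiniteMeasure μ]
      (X Y : Ω → V n) (τ : Ω → ℝ), Measurable X → Measurable Y → Measurable τ →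
    (∀ᵐ ω ∂μ, 3 * t / 4 ≤ τ ω ∧ τ ω ≤ t) →
    (∀ᵐ ω ∂μ, ‖X ω - Y ω‖ ^ 2 ≤ n * t / 64) →
    (∀ z : V n, ∫⁻ ω, G (τ ω - t / 2) (X ω - z) ∂μ ≤ ENNReal.ofReal H) →
    ∫⁻ x : V n, ‖∫ ω, hk (τ ω) (x - X ω) *
        (R n t Q (‖x - Y ω‖ ^ 2) - R n t Q (‖x - X ω‖ ^ 2 + ‖X ω - Y ω‖ ^ 2)) ∂μ‖ₑ ^ 2 ≤
      ENNReal.ofReal (C * H) * ∫⁻ ω, ENNReal.ofReal (‖X ω - Y ω‖ / √(n * t)) ∂μ := by
  have hC2 := C2_pos
  refine ⟨π * (4 * ((8 + C2) * π)), by positivity, ?_⟩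
  intro n hn t Q H ht hH Ω _ μ _ X Y τ hX hY hτ hτae hYXae hDB
  set S : Set Ω := {ω | (3 * t / 4 ≤ τ ω ∧ τ ω ≤ t) ∧ ‖X ω - Y ω‖ ^ 2 ≤ n * t / 64} with hS
  have hXY : Measurable fun ω => ‖X ω - Y ω‖ ^ 2 := by fun_prop
  have hSm : MeasurableSet S :=
    ((measurableSet_le measurable_const hτ).inter (measurableSet_le hτ measurable_const)).inter
      (measurableSet_le hXY measurable_const)
  have hSae : ∀ᵐ ω ∂μ, ω ∈ S := by
    filter_upwards [hτae, hYXae] with ω h1 h2 using ⟨h1, h2⟩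
  classical
  set Y' : Ω → V n := S.piecewise Y X with hY'
  set τ' : Ω → ℝ := S.piecewise τ (fun _ => t) with hτ'
  have hY'm : Measurable Y' := hY.piecewise hSm hX
  have hτ'm : Measurable τ' := hτ.piecewise hSm measurable_const
  have hYe : ∀ᵐ ω ∂μ, Y' ω = Y ω := by
    filter_upwards [hSae] with ω h
    exact Set.piecewise_eq_of_mem _ _ _ h
  have hτe : ∀ᵐ ω ∂μ, τ' ω = τ ω := by
    filter_upwards [hSae] with ω h
    exact Set.piecewise_eq_of_mem _ _ _ h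
  have hn' : (0:ℝ) < n := by exact_mod_cast hn
  have c1 : ∀ ω, 3 * t / 4 ≤ τ' ω := by
    intro ω
    by_cases h : ω ∈ S
    · simp only [hτ']; rw [Set.piecewise_eq_of_mem _ _ _ h]; exact h.1.1
    · simp only [hτ']; rw [Set.piecewise_eq_of_notMem _ _ _ h]; linarith
  have c2 : ∀ ω, τ' ω ≤ t := by
    intro ω
    by_cases h : ω ∈ S
    · simp only [hτ']; rw [Set.piecewise_eq_of_mem _ _ _ h]; exact h.1.2
    · simp only [hτ']; rw [Set.piecewise_eq_of_notMem _ _ _ h]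
  have c3 : ∀ ω, ‖X ω - Y' ω‖ ^ 2 ≤ n * t / 64 := by
    intro ω
    by_cases h : ω ∈ S
    · simp only [hY']; rw [Set.piecewise_eq_of_mem _ _ _ h]; exact h.2
    · simp only [hY']
      rw [Set.piecewise_eq_of_notMem _ _ _ h, sub_self, norm_zero]
      have : (0:ℝ) ≤ n * t / 64 := by positivity
      simpa using this
  have c4 : ∀ z : V n, ∫⁻ ω, G (τ' ω - t / 2) (X ω - z) ∂μ ≤ ENNReal.ofReal H := by
    intro z
    refine le_trans (le_of_eq ?_) (hDB z)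
    refine lintegral_congr_ae ?_
    filter_upwards [hτe] with ω h
    rw [h]
  have hmain := fluct_aux hn ht hX hY'm hτ'm c1 c2 c3 c4 Q
  have e1 : ∀ x : V n, ∫ ω, hk (τ' ω) (x - X ω) *
        (R n t Q (‖x - Y' ω‖ ^ 2) - R n t Q (‖x - X ω‖ ^ 2 + ‖X ω - Y' ω‖ ^ 2)) ∂μ =
      ∫ ω, hk (τ ω) (x - X ω) *
        (R n t Q (‖x - Y ω‖ ^ 2) - R n t Q (‖x - X ω‖ ^ 2 + ‖X ω - Y ω‖ ^ 2)) ∂μ := by
    intro x
    refine integral_congr_ae ?_
    filter_upwards [hτe, hYe] with ω h1 h2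
    rw [h1, h2]
  have e2 : ∫⁻ ω, ENNReal.ofReal (‖X ω - Y' ω‖ / √(n * t)) ∂μ =
      ∫⁻ ω, ENNReal.ofReal (‖X ω - Y ω‖ / √(n * t)) ∂μ := by
    refine lintegral_congr_ae ?_
    filter_upwards [hYe] with ω h
    rw [h]
  simp only [e1, e2] at hmain
  refine hmain.trans (le_of_eq ?_)
  rw [show π * (4 * ((8 + C2) * π)) * H = π * (4 * (H * (8 + C2) * π)) by ring,
    ENNReal.ofReal_mul (by positivity), ENNReal.ofReal_mul (by norm_num),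
    ENNReal.ofReal_mul (by positivity), ENNReal.ofReal_mul hH.le]
  have : ENNReal.ofReal 4 = 4 := by norm_num
  rw [this]
  ring

end H28D
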