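import Mathlib

/-!
# `L²` norms of superpositions (module Fluct, first part; helper92)
-/

namespace H28D

open MeasureTheory Complex
open scoped ENNReal ComplexConjugate

/-- The squared `L²` norm of a superposition is at most the double integral of the absolute values
of the inner products. -/
theorem lintegral_sq_superposition {Ω S : Type*} [MeasurableSpace Ω] [MeasurableSpace S]
    (ν : Measure Ω) [SFinite ν] (m : Measure S) [SFinite m] (F : S → Ω → ℂ)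
    (hF : StronglyMeasurable (Function.uncurry F))
    (hfin : ∫⁻ p : Ω × Ω, (∫⁻ x, ‖F x p.1‖ₑ * ‖F x p.2‖ₑ ∂m) ∂(ν.prod ν) < ∞) :
    ∫⁻ x, ‖∫ ω, F x ω ∂ν‖ₑ ^ 2 ∂m ≤
      ∫⁻ p : Ω × Ω, ‖∫ x, F x p.1 * conj (F x p.2) ∂m‖ₑ ∂(ν.prod ν) := by
  set f : S × (Ω × Ω) → ℂ := fun q => F q.1 q.2.1 * conj (F q.1 q.2.2) with hf
  have hm1 : StronglyMeasurable fun q : S × (Ω × Ω) => F q.1 q.2.1 :=
    hF.comp_measurable (measurable_fst.prodMk (measurable_fst.comp measurable_snd))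
  have hm2 : StronglyMeasurable fun q : S × (Ω × Ω) => F q.1 q.2.2 :=
    hF.comp_measurable (measurable_fst.prodMk (measurable_snd.comp measurable_snd))
  have hfm : StronglyMeasurable f :=
    hm1.mul (Complex.continuous_conj.comp_stronglyMeasurable hm2)
  have hfi : Integrable f (m.prod (ν.prod ν)) := by
    refine ⟨hfm.aestronglyMeasurable, ?_⟩
    rw [hasFiniteIntegral_iff_enorm, lintegral_prod_symm' _ hfm.enorm]
    refine lt_of_eq_of_lt ?_ hfin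
    refine lintegral_congr fun p => lintegral_congr fun x => ?_
    simp only [hf, enorm_mul]
    congr 1
    rw [← ofReal_norm, ← ofReal_norm, Complex.norm_conj]
  have hG : ∀ x, ∫ p : Ω × Ω, f (x, p) ∂(ν.prod ν) = ((‖∫ ω, F x ω ∂ν‖ ^ 2 : ℝ) : ℂ) := by
    intro x
    have h1 : ∫ p : Ω × Ω, F x p.1 * conj (F x p.2) ∂(ν.prod ν) =
        (∫ ω, F x ω ∂ν) * ∫ ω, conj (F x ω) ∂ν :=
      integral_prod_mul (fun ω => F x ω) (fun ω => conj (F x ω))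
    have h2 : ∫ ω, conj (F x ω) ∂ν = conj (∫ ω, F x ω ∂ν) := integral_conj
    show ∫ p : Ω × Ω, F x p.1 * conj (F x p.2) ∂(ν.prod ν) = _
    rw [h1, h2, Complex.mul_conj, Complex.normSq_eq_norm_sq]
  have hGi : Integrable (fun x => ((‖∫ ω, F x ω ∂ν‖ ^ 2 : ℝ) : ℂ)) m := by
    have := hfi.integral_prod_left
    simpa only [hG] using this
  have hGr : Integrable (fun x => ‖∫ ω, F x ω ∂ν‖ ^ 2) m := hGi.re
  have h1 : ∫⁻ x, ‖∫ ω, F x ω ∂ν‖ₑ ^ 2 ∂m = ENNReal.ofReal (∫ x, ‖∫ ω, F x ω ∂ν‖ ^ 2 ∂m) := by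
    rw [ofReal_integral_eq_lintegral_ofReal hGr (Filter.Eventually.of_forall fun x => by positivity)]
    refine lintegral_congr fun x => ?_
    rw [← ofReal_norm, ENNReal.ofReal_pow (norm_nonneg _)]
  have h2 : ((∫ x, ‖∫ ω, F x ω ∂ν‖ ^ 2 ∂m : ℝ) : ℂ) =
      ∫ p : Ω × Ω, ∫ x, f (x, p) ∂m ∂(ν.prod ν) := by
    rw [← integral_integral_swap (f := fun x p => f (x, p)) hfi]
    simp only [hG]
    exact integral_ofReal.symm
  have h3 : ENNReal.ofReal (∫ x, ‖∫ ω, F x ω ∂ν‖ ^ 2 ∂m) =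
      ‖((∫ x, ‖∫ ω, F x ω ∂ν‖ ^ 2 ∂m : ℝ) : ℂ)‖ₑ := by
    rw [← ofReal_norm, Complex.norm_real, Real.norm_of_nonneg]
    exact integral_nonneg fun x => by positivity
  rw [h1, h3, h2]
  exact enorm_integral_le_lintegral_enorm _

/-- Cauchy–Schwarz for `ℝ≥0∞` valued functions. -/
theorem lintegral_mul_sq_le {Ω : Type*} [MeasurableSpace Ω] (ν : Measure Ω) {a b : Ω → ℝ≥0∞}
    (ha : AEMeasurable a ν) (hb : AEMeasurable b ν) :
    (∫⁻ ω, a ω * b ω ∂ν) ^ 2 ≤ (∫⁻ ω, a ω ^ 2 ∂ν) * ∫⁻ ω, b ω ^ 2 ∂ν := by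
  have h := ENNReal.lintegral_mul_le_Lp_mul_Lq ν (p := 2) (q := 2)
    (Real.HolderConjugate.two_two) ha hb
  have h2 : (∫⁻ ω, a ω * b ω ∂ν) ≤
      (∫⁻ ω, a ω ^ 2 ∂ν) ^ (1 / 2 : ℝ) * (∫⁻ ω, b ω ^ 2 ∂ν) ^ (1 / 2 : ℝ) := by
    simpa using h
  calc (∫⁻ ω, a ω * b ω ∂ν) ^ 2
      ≤ ((∫⁻ ω, a ω ^ 2 ∂ν) ^ (1 / 2 : ℝ) * (∫⁻ ω, b ω ^ 2 ∂ν) ^ (1 / 2 : ℝ)) ^ 2 := by
        gcongr
    _ = _ := by
        rw [mul_pow, ← ENNReal.rpow_natCast, ← ENNReal.rpow_natCast, ← ENNReal.rpow_mul,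
          ← ENNReal.rpow_mul]
        norm_num

end H28D
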