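import Pool.Agent.H28Dyadic.Heat
import Pool.Agent.H28Dyadic.FluctAbs

/-!
# Estimates (B1) and (B2) of section 6 (helper92)
-/

set_option autoImplicit false

open MeasureTheory Real
open scoped ENNReal ComplexConjugate

namespace H28D

section

variable {n : ℕ} {Ω : Type*} [MeasurableSpace Ω] {μ : Measure Ω} [IsFiniteMeasure μ]
  {X Y Z : Ω → V n} {τ : Ω → ℝ} {t H : ℝ}

lemma mass_le (ht : 0 < t) (hX : Measurable X) (hτ : Measurable τ)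
    (hτ1 : ∀ ω, 3 * t / 4 ≤ τ ω)
    (hDB : ∀ z : V n, ∫⁻ ω, G (τ ω - t / 2) (X ω - z) ∂μ ≤ ENNReal.ofReal H) {s : ℝ}
    (hs : 0 ≤ s) (x : V n) : ∫⁻ ω, G (s + τ ω) (x - X ω) ∂μ ≤ ENNReal.ofReal H := by
  have hs2 : 0 < s + t / 2 := by positivity
  calc ∫⁻ ω, G (s + τ ω) (x - X ω) ∂μ
      = ∫⁻ ω, (∫⁻ z, G (s + t / 2) (x - z) * G (τ ω - t / 2) (z - X ω)) ∂μ := by
        refine lintegral_congr fun ω => ?_
        rw [lintegral_G_mul_G hs2 (by linarith [hτ1 ω])]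
        congr 1; ring
    _ = ∫⁻ z, (∫⁻ ω, G (s + t / 2) (x - z) * G (τ ω - t / 2) (z - X ω) ∂μ) := by
        rw [lintegral_lintegral_swap]
        fun_prop
    _ = ∫⁻ z, G (s + t / 2) (x - z) * (∫⁻ ω, G (τ ω - t / 2) (X ω - z) ∂μ) := by
        refine lintegral_congr fun z => ?_
        rw [lintegral_const_mul _ (by fun_prop)]
        congr 1
        exact lintegral_congr fun ω => G_sub_comm _ _ _
    _ ≤ ∫⁻ z, G (s + t / 2) (x - z) * ENNReal.ofReal H := by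
        gcongr with z
        exact hDB z
    _ = ENNReal.ofReal H := by
        rw [lintegral_mul_const _ (by fun_prop), lintegral_G_sub_left hs2, one_mul]

lemma mass_le_zero (ht : 0 < t) (hX : Measurable X) (hτ : Measurable τ)
    (hτ1 : ∀ ω, 3 * t / 4 ≤ τ ω)
    (hDB : ∀ z : V n, ∫⁻ ω, G (τ ω - t / 2) (X ω - z) ∂μ ≤ ENNReal.ofReal H)
    (x : V n) : ∫⁻ ω, G (τ ω) (x - X ω) ∂μ ≤ ENNReal.ofReal H := by
  have := mass_le ht hX hτ hτ1 hDB (s := 0) (le_refl _) x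
  simpa using this

/-- the integrand -/
noncomputable def ff (n : ℕ) (t N : ℝ) (τ : ℝ) (X Y x : V n) : ℂ :=
  (hk τ (x - X) : ℂ) * (Complex.exp (Complex.I * al n t N * ‖x - Y‖ ^ 2) -
    Complex.exp (Complex.I * al n t N * (‖x - X‖ ^ 2 + ‖X - Y‖ ^ 2)))

lemma norm_exp_I_mul (a b : ℝ) : ‖Complex.exp (Complex.I * a * b)‖ = 1 := by
  have : Complex.I * a * b = ((a * b : ℝ) : ℂ) * Complex.I := by push_cast; ring
  rw [this, Complex.norm_exp_ofReal_mul_I]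

lemma norm_exp_sub_le (a b c : ℝ) :
    ‖Complex.exp (Complex.I * a * b) - Complex.exp (Complex.I * a * c)‖ ≤ |a| * |b - c| := by
  have e1 : Complex.exp (Complex.I * a * b) - Complex.exp (Complex.I * a * c) =
      Complex.exp (Complex.I * a * c) * (Complex.exp (Complex.I * ((a * (b - c) : ℝ) : ℂ)) - 1) := by
    rw [mul_sub, ← Complex.exp_add, mul_one]
    congr 2
    push_cast; ring
  rw [e1, norm_mul, norm_exp_I_mul, one_mul]
  refine (Real.norm_exp_I_mul_ofReal_sub_one_le).trans ?_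
  rw [Real.norm_eq_abs, abs_mul]

lemma norm_ff_le (N : ℝ) {s : ℝ} (hs : 0 ≤ s) (X Y x : V n) :
    ‖ff n t N s X Y x‖ ≤ hk s (x - X) * (2 * |al n t N| * |(inner ℝ (x - X) (X - Y) : ℝ)|) := by
  unfold ff
  rw [norm_mul, Complex.norm_real, Real.norm_of_nonneg (hk_nonneg _ hs _)]
  refine mul_le_mul_of_nonneg_left ?_ (hk_nonneg _ hs _)
  have h1 := norm_exp_sub_le (al n t N) (‖x - Y‖ ^ 2) (‖x - X‖ ^ 2 + ‖X - Y‖ ^ 2)
  have h2 : ‖x - Y‖ ^ 2 - (‖x - X‖ ^ 2 + ‖X - Y‖ ^ 2) = 2 * (inner ℝ (x - X) (X - Y) : ℝ) := by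
    have : x - Y = (x - X) + (X - Y) := by abel
    rw [this, norm_add_sq_real]; ring
  rw [h2, abs_mul, abs_two] at h1
  push_cast at h1
  calc _ ≤ _ := h1
    _ = _ := by ring

/-- (B1) -/
lemma bound_B1 (hn : 1 ≤ n) (ht : 0 < t) (hX : Measurable X) (hY : Measurable Y)
    (hτ : Measurable τ) (hτ1 : ∀ ω, 3 * t / 4 ≤ τ ω) (hτ2 : ∀ ω, τ ω ≤ t)
    (hDB : ∀ z : V n, ∫⁻ ω, G (τ ω - t / 2) (X ω - z) ∂μ ≤ ENNReal.ofReal H)
    (N : ℝ) {u : Ω → ℝ} (hu : Measurable u) (hu0 : ∀ ω, 0 ≤ u ω) :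
    ∫⁻ x, ‖∫ ω, (u ω : ℂ) * ff n t N (τ ω) (X ω) (Y ω) x ∂μ‖ₑ ^ 2 ≤
      ENNReal.ofReal H * ∫⁻ ω, ENNReal.ofReal (u ω ^ 2 * (2 * N ^ 2 *
        (‖X ω - Y ω‖ / √(n * t)) ^ 2)) ∂μ := by
  have hτ0 : ∀ ω, 0 < τ ω := fun ω => by linarith [hτ1 ω]
  have hn' : (0:ℝ) < n := by exact_mod_cast hn
  have hpt : ∀ x, ‖∫ ω, (u ω : ℂ) * ff n t N (τ ω) (X ω) (Y ω) x ∂μ‖ₑ ^ 2 ≤
      ENNReal.ofReal H * ∫⁻ ω, ENNReal.ofReal (4 * u ω ^ 2 * al n t N ^ 2) *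
        (G (τ ω) (x - X ω) * ENNReal.ofReal ((inner ℝ (x - X ω) (X ω - Y ω) : ℝ) ^ 2)) ∂μ := by
    intro x
    set a : Ω → ℝ≥0∞ := fun ω => ENNReal.ofReal (√(hk (τ ω) (x - X ω))) with ha
    set b : Ω → ℝ≥0∞ := fun ω => ENNReal.ofReal (√(hk (τ ω) (x - X ω)) *
      (u ω * (2 * |al n t N| * |(inner ℝ (x - X ω) (X ω - Y ω) : ℝ)|))) with hb
    have ham : Measurable a := by
      simp only [ha]; fun_prop
    have hbm : Measurable b := by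
      simp only [hb]
      fun_prop
    have h1 : ‖∫ ω, (u ω : ℂ) * ff n t N (τ ω) (X ω) (Y ω) x ∂μ‖ₑ ≤ ∫⁻ ω, a ω * b ω ∂μ := by
      refine (enorm_integral_le_lintegral_enorm _).trans (lintegral_mono fun ω => ?_)
      simp only [ha, hb]
      rw [← ENNReal.ofReal_mul (Real.sqrt_nonneg _), ← ofReal_norm]
      apply ENNReal.ofReal_le_ofReal
      rw [norm_mul, Complex.norm_real, Real.norm_of_nonneg (hu0 ω), ← mul_assoc,
        Real.mul_self_sqrt (hk_nonneg _ (hτ0 ω).le _)]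
      have := mul_le_mul_of_nonneg_left (norm_ff_le (t := t) N (hτ0 ω).le (X ω) (Y ω) x) (hu0 ω)
      calc _ ≤ _ := this
        _ = _ := by ring
    have h2 : (∫⁻ ω, a ω ^ 2 ∂μ) ≤ ENNReal.ofReal H := by
      refine le_trans (le_of_eq ?_) (mass_le_zero ht hX hτ hτ1 hDB x)
      refine lintegral_congr fun ω => ?_
      simp only [ha, G]
      rw [← ENNReal.ofReal_pow (Real.sqrt_nonneg _), Real.sq_sqrt (hk_nonneg _ (hτ0 ω).le _)]
    calc _ ≤ (∫⁻ ω, a ω * b ω ∂μ) ^ 2 := by gcongr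
      _ ≤ (∫⁻ ω, a ω ^ 2 ∂μ) * ∫⁻ ω, b ω ^ 2 ∂μ :=
        lintegral_mul_sq_le μ ham.aemeasurable hbm.aemeasurable
      _ ≤ ENNReal.ofReal H * ∫⁻ ω, b ω ^ 2 ∂μ := by gcongr
      _ = _ := by
        congr 1
        refine lintegral_congr fun ω => ?_
        have hk0 := hk_nonneg (τ ω) (hτ0 ω).le (x - X ω)
        simp only [hb, G]
        rw [← ENNReal.ofReal_pow (by have := hu0 ω; positivity), ← ENNReal.ofReal_mul hk0,
          ← ENNReal.ofReal_mul (by positivity)]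
        congr 1
        rw [mul_pow, Real.sq_sqrt hk0, mul_pow, mul_pow, mul_pow, sq_abs, sq_abs]
        ring
  calc _ ≤ ∫⁻ x, ENNReal.ofReal H * ∫⁻ ω, ENNReal.ofReal (4 * u ω ^ 2 * al n t N ^ 2) *
        (G (τ ω) (x - X ω) * ENNReal.ofReal ((inner ℝ (x - X ω) (X ω - Y ω) : ℝ) ^ 2)) ∂μ :=
      lintegral_mono hpt
    _ = ENNReal.ofReal H * ∫⁻ x, ∫⁻ ω, ENNReal.ofReal (4 * u ω ^ 2 * al n t N ^ 2) *
        (G (τ ω) (x - X ω) * ENNReal.ofReal ((inner ℝ (x - X ω) (X ω - Y ω) : ℝ) ^ 2)) ∂μ := by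
      rw [lintegral_const_mul' _ _ ENNReal.ofReal_ne_top]
    _ = ENNReal.ofReal H * ∫⁻ ω, (∫⁻ x, ENNReal.ofReal (4 * u ω ^ 2 * al n t N ^ 2) *
        (G (τ ω) (x - X ω) * ENNReal.ofReal ((inner ℝ (x - X ω) (X ω - Y ω) : ℝ) ^ 2))) ∂μ := by
      rw [lintegral_lintegral_swap]
      fun_prop
    _ = ENNReal.ofReal H * ∫⁻ ω, ENNReal.ofReal (4 * u ω ^ 2 * al n t N ^ 2) *
        ENNReal.ofReal (2 * τ ω * ‖X ω - Y ω‖ ^ 2) ∂μ := by
      congr 1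
      refine lintegral_congr fun ω => ?_
      rw [lintegral_const_mul' _ _ ENNReal.ofReal_ne_top, lintegral_G_inner_sq (hτ0 ω)]
    _ ≤ _ := by
      gcongr with ω
      rw [← ENNReal.ofReal_mul (by positivity)]
      apply ENNReal.ofReal_le_ofReal
      unfold al
      have h1 : (√(n * t : ℝ)) ^ 2 = n * t := Real.sq_sqrt (by positivity)
      have h2 : (√(n : ℝ)) ^ 2 = n := Real.sq_sqrt (by positivity)
      rw [div_pow, div_pow, h1, mul_pow, mul_pow, h2]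
      have h3 : 4 * u ω ^ 2 * (N ^ 2 / (2 ^ 2 * t ^ 2 * n)) * (2 * τ ω * ‖X ω - Y ω‖ ^ 2) =
          (u ω ^ 2 * (2 * N ^ 2 * (‖X ω - Y ω‖ ^ 2 / (n * t)))) * (τ ω / t) := by
        field_simp
        ring
      rw [h3]
      have h4 : τ ω / t ≤ 1 := (div_le_one ht).2 (hτ2 ω)
      exact mul_le_of_le_one_right (by positivity) h4

end

end H28D
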