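import Pool.Agent.H28Dyadic.FluctB

/-!
# Estimate (B2) of section 6 (helper92)
-/

set_option autoImplicit false

open MeasureTheory Real
open scoped ENNReal ComplexConjugate

namespace H28D

section

variable {n : ℕ}

/-- the constant `K_N` -/
noncomputable def KN (n : ℕ) (N : ℝ) : ℝ := Real.exp (-3 * N ^ 2 / 128) + (7 / 10 : ℝ) ^ n

lemma KN_pos (n : ℕ) (N : ℝ) : 0 < KN n N := by unfold KN; positivity

/-- comparison of two heat kernels for close points -/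
lemma hk_compare {t s s' : ℝ} (ht : 0 < t) (hs1 : 3 * t / 4 ≤ s) (hs2 : s ≤ t)
    (hs1' : 3 * t / 4 ≤ s') (hs2' : s' ≤ t) {d : V n} (hd : ‖d‖ ^ 2 ≤ n * t / 4) :
    hk (s + s') d ≤ (7 / 10 : ℝ) ^ n * hk (s' - t / 2) d := by
  have h1 : 0 < s + s' := by linarith
  have h2 : 0 < s' - t / 2 := by linarith
  set r := (s' - t / 2) / (s + s') with hr
  have hr0 : 0 < r := div_pos h2 h1
  have hr1 : r ≤ 2 / 7 := by
    rw [hr, div_le_div_iff₀ h1 (by norm_num)]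
    linarith
  have e1 : (4 * π * (s + s')) ^ (-(n : ℝ) / 2) =
      r ^ ((n : ℝ) / 2) * (4 * π * (s' - t / 2)) ^ (-(n : ℝ) / 2) := by
    have e : 4 * π * (s + s') = r⁻¹ * (4 * π * (s' - t / 2)) := by
      rw [hr, inv_div, div_mul_eq_mul_div, eq_div_iff h2.ne']; ring
    rw [e, Real.mul_rpow (by positivity) (by positivity), Real.inv_rpow hr0.le,
      ← Real.rpow_neg hr0.le]
    congr 2; ring
  have e2 : Real.exp (-(‖d‖ ^ 2) / (4 * (s + s'))) =
      Real.exp (‖d‖ ^ 2 / 4 * (1 / (s' - t / 2) - 1 / (s + s'))) *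
        Real.exp (-(‖d‖ ^ 2) / (4 * (s' - t / 2))) := by
    rw [← Real.exp_add]
    congr 1
    field_simp
    ring
  have h3 : ‖d‖ ^ 2 / 4 * (1 / (s' - t / 2) - 1 / (s + s')) ≤ n * (7 / 32) := by
    have a1 : 1 / (s' - t / 2) ≤ 4 / t := by
      rw [div_le_div_iff₀ h2 ht]; linarith
    have a2 : 1 / (2 * t) ≤ 1 / (s + s') := by
      apply one_div_le_one_div_of_le h1; linarith
    have a3 : 1 / (s' - t / 2) - 1 / (s + s') ≤ 7 / (2 * t) := by
      have : 4 / t - 1 / (2 * t) = 7 / (2 * t) := by field_simp; norm_num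
      linarith
    calc ‖d‖ ^ 2 / 4 * (1 / (s' - t / 2) - 1 / (s + s'))
        ≤ ‖d‖ ^ 2 / 4 * (7 / (2 * t)) := mul_le_mul_of_nonneg_left a3 (by positivity)
      _ ≤ (n * t / 4) / 4 * (7 / (2 * t)) := by gcongr
      _ = n * (7 / 32) := by field_simp; ring
  have h4 : r ^ ((n : ℝ) / 2) * Real.exp (n * (7 / 32)) ≤ (7 / 10 : ℝ) ^ n := by
    have b1 : r ^ ((n : ℝ) / 2) ≤ (2 / 7 : ℝ) ^ ((n : ℝ) / 2) :=
      Real.rpow_le_rpow hr0.le hr1 (by positivity)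
    have b2 : (2 / 7 : ℝ) ^ ((n : ℝ) / 2) = (√(2 / 7)) ^ n := by
      rw [Real.sqrt_eq_rpow, ← Real.rpow_natCast, ← Real.rpow_mul (by norm_num)]
      congr 1; ring
    have b3 : Real.exp (n * (7 / 32)) = (Real.exp (7 / 32)) ^ n := by
      rw [← Real.exp_nat_mul]
    rw [b2] at b1
    rw [b3]
    calc _ ≤ (√(2 / 7)) ^ n * (Real.exp (7 / 32)) ^ n := by gcongr
      _ = (√(2 / 7) * Real.exp (7 / 32)) ^ n := by rw [mul_pow]
      _ ≤ (7 / 10 : ℝ) ^ n := by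
        apply pow_le_pow_left₀ (by positivity)
        have c1 : √(2 / 7 : ℝ) ≤ 0.535 := by
          rw [Real.sqrt_le_left (by norm_num)]; norm_num
        have c2 : Real.exp (7 / 32) ≤ 1.25 := by
          have := Real.exp_bound' (x := 7 / 32) (by norm_num) (by norm_num) (n := 4) (by norm_num)
          refine this.trans ?_
          norm_num [Finset.sum_range_succ, Nat.factorial]
        calc _ ≤ 0.535 * 1.25 := mul_le_mul c1 c2 (by positivity) (by norm_num)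
          _ ≤ _ := by norm_num
  unfold hk
  rw [e1, e2]
  have h5 : 0 < (4 * π * (s' - t / 2)) ^ (-(n : ℝ) / 2) := by positivity
  calc _ = (r ^ ((n : ℝ) / 2) * Real.exp (‖d‖ ^ 2 / 4 * (1 / (s' - t / 2) - 1 / (s + s')))) *
        ((4 * π * (s' - t / 2)) ^ (-(n : ℝ) / 2) * Real.exp (-(‖d‖ ^ 2) / (4 * (s' - t / 2)))) := by
        ring
    _ ≤ _ := by
        apply mul_le_mul_of_nonneg_right _ (by positivity)
        refine le_trans ?_ h4
        gcongr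

/-- the inner product of two oscillating Gaussians -/
lemma norm_inner_osc {s s' : ℝ} (hs : 0 < s) (hs' : 0 < s') (a : ℝ) (X X' Z Z' : V n) :
    ‖∫ x : V n, ((hk s (x - X) : ℂ) * Complex.exp (Complex.I * a * ‖x - Z‖ ^ 2)) *
      conj ((hk s' (x - X') : ℂ) * Complex.exp (Complex.I * a * ‖x - Z'‖ ^ 2))‖ =
      hk (s + s') (X - X') * Real.exp (-(s * s' / (s + s')) * (4 * a ^ 2 * ‖Z - Z'‖ ^ 2)) := by
  set σ := s * s' / (s + s') with hσ
  have hσ0 : 0 < σ := by positivity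
  set m : V n := (s' / (s + s')) • X + (s / (s + s')) • X' with hm
  set b : V n := (-2 * a) • (Z - Z') with hb
  have e : ∀ x : V n, ((hk s (x - X) : ℂ) * Complex.exp (Complex.I * a * ‖x - Z‖ ^ 2)) *
      conj ((hk s' (x - X') : ℂ) * Complex.exp (Complex.I * a * ‖x - Z'‖ ^ 2)) =
      ((hk (s + s') (X - X') : ℂ) * Complex.exp (Complex.I * a * (‖Z‖ ^ 2 - ‖Z'‖ ^ 2))) *
        ((hk σ (x - m) : ℂ) * Complex.exp (Complex.I * (inner ℝ b x : ℝ))) := by
    intro x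
    have h1 : hk s (x - X) * hk s' (x - X') = hk (s + s') (X - X') * hk σ (x - m) := by
      rw [hk_sub_comm s x X, hk_mul_hk hs hs' X X' x]
    have h2 : conj ((hk s' (x - X') : ℂ) * Complex.exp (Complex.I * a * ‖x - Z'‖ ^ 2)) =
        (hk s' (x - X') : ℂ) * Complex.exp (-(Complex.I * a * ‖x - Z'‖ ^ 2)) := by
      rw [map_mul, Complex.conj_ofReal, ← Complex.exp_conj]
      congr 2
      simp
    rw [h2]
    have h3 : ((hk s (x - X) : ℂ) * (hk s' (x - X') : ℂ)) =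
        (hk (s + s') (X - X') : ℂ) * (hk σ (x - m) : ℂ) := by exact_mod_cast h1
    have h4 : (‖x - Z‖ ^ 2 - ‖x - Z'‖ ^ 2 : ℝ) = (‖Z‖ ^ 2 - ‖Z'‖ ^ 2) + -2 * (inner ℝ (Z - Z') x : ℝ) := by
      rw [norm_sub_sq_real, norm_sub_sq_real, inner_sub_left, real_inner_comm x Z,
        real_inner_comm x Z']
      ring
    have h5 : (inner ℝ b x : ℝ) = -2 * a * (inner ℝ (Z - Z') x : ℝ) := by
      rw [hb, inner_smul_left]; simp
    calc _ = ((hk s (x - X) : ℂ) * (hk s' (x - X') : ℂ)) *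
          (Complex.exp (Complex.I * a * ‖x - Z‖ ^ 2) *
            Complex.exp (-(Complex.I * a * ‖x - Z'‖ ^ 2))) := by ring
      _ = ((hk (s + s') (X - X') : ℂ) * (hk σ (x - m) : ℂ)) *
          (Complex.exp (Complex.I * a * (‖Z‖ ^ 2 - ‖Z'‖ ^ 2)) *
            Complex.exp (Complex.I * (inner ℝ b x : ℝ))) := by
          rw [h3, ← Complex.exp_add, ← Complex.exp_add]
          congr 2
          have h6 : Complex.I * a * ‖x - Z‖ ^ 2 + -(Complex.I * a * ‖x - Z'‖ ^ 2) =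
              Complex.I * a * ((‖x - Z‖ ^ 2 - ‖x - Z'‖ ^ 2 : ℝ) : ℂ) := by push_cast; ring
          rw [h6, h4, h5]
          push_cast
          ring
      _ = _ := by ring
  simp only [e]
  rw [integral_const_mul, norm_mul, norm_integral_hk_cexp_inner hσ0, norm_mul, Complex.norm_real,
    Real.norm_of_nonneg (hk_nonneg _ (by positivity) _)]
  have h6 : ‖Complex.exp (Complex.I * a * (‖Z‖ ^ 2 - ‖Z'‖ ^ 2))‖ = 1 := by
    have := norm_exp_I_mul a (‖Z‖ ^ 2 - ‖Z'‖ ^ 2)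
    push_cast at this
    exact this
  rw [h6, mul_one]
  congr 2
  rw [hb, norm_smul, mul_pow, Real.norm_eq_abs, sq_abs]
  ring

/-- the key pointwise bound -/
lemma key_pair (hn : 1 ≤ n) {t s s' : ℝ} (ht : 0 < t) (hs1 : 3 * t / 4 ≤ s) (hs2 : s ≤ t)
    (hs1' : 3 * t / 4 ≤ s') (hs2' : s' ≤ t) (N : ℝ) {X X' Z Z' : V n}
    (hZ : ‖Z - X‖ ^ 2 ≤ n * t / 64) (hZ' : ‖Z' - X'‖ ^ 2 ≤ n * t / 64) :
    hk (s + s') (X - X') *
        Real.exp (-(s * s' / (s + s')) * (4 * (al n t N) ^ 2 * ‖Z - Z'‖ ^ 2)) ≤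
      Real.exp (-3 * N ^ 2 / 128) * hk (s + s') (X - X') +
        (7 / 10 : ℝ) ^ n * hk (s' - t / 2) (X - X') := by
  have hn' : (0:ℝ) < n := by exact_mod_cast hn
  have hs : 0 < s := by linarith
  have hs' : 0 < s' := by linarith
  have hk1 : 0 ≤ hk (s + s') (X - X') := hk_nonneg _ (by linarith) _
  have hk2 : 0 ≤ hk (s' - t / 2) (X - X') := hk_nonneg _ (by linarith) _
  rcases le_total (‖X - X'‖ ^ 2) (n * t / 4) with hd | hd
  · have h1 := hk_compare ht hs1 hs2 hs1' hs2' hd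
    have h2 : Real.exp (-(s * s' / (s + s')) * (4 * (al n t N) ^ 2 * ‖Z - Z'‖ ^ 2)) ≤ 1 := by
      apply Real.exp_le_one_iff.2
      rw [neg_mul, neg_nonpos]
      positivity
    calc _ ≤ hk (s + s') (X - X') * 1 := mul_le_mul_of_nonneg_left h2 hk1
      _ = hk (s + s') (X - X') := mul_one _
      _ ≤ (7 / 10 : ℝ) ^ n * hk (s' - t / 2) (X - X') := h1
      _ ≤ _ := le_add_of_nonneg_left (by positivity)
  · have hq : (√(n * t)) ^ 2 = n * t := Real.sq_sqrt (by positivity)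
    have hq0 : 0 ≤ √(n * t : ℝ) := Real.sqrt_nonneg _
    have a1 : √(n * t) / 2 ≤ ‖X - X'‖ := by
      apply le_of_sq_le_sq _ (norm_nonneg _)
      rw [div_pow, hq]; linarith
    have a2 : ‖Z - X‖ ≤ √(n * t) / 8 := by
      apply le_of_sq_le_sq _ (by positivity)
      rw [div_pow, hq]; linarith
    have a3 : ‖Z' - X'‖ ≤ √(n * t) / 8 := by
      apply le_of_sq_le_sq _ (by positivity)
      rw [div_pow, hq]; linarith
    have a4 : √(n * t) / 4 ≤ ‖Z - Z'‖ := by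
      have h1 : X - X' = (Z - Z') - (Z - X) + (Z' - X') := by abel
      have h2 : ‖X - X'‖ ≤ ‖Z - Z'‖ + ‖Z - X‖ + ‖Z' - X'‖ := by
        rw [h1]
        exact (norm_add_le _ _).trans (add_le_add (norm_sub_le _ _) le_rfl)
      linarith
    have a5 : n * t / 16 ≤ ‖Z - Z'‖ ^ 2 := by
      have := pow_le_pow_left₀ (by positivity) a4 2
      rw [div_pow, hq] at this
      linarith
    have a6 : 3 * t / 8 ≤ s * s' / (s + s') := by
      rw [le_div_iff₀ (by positivity)]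
      nlinarith [mul_nonneg (sub_nonneg.2 hs1) (sub_nonneg.2 hs1')]
    have a7 : al n t N ^ 2 = N ^ 2 / (4 * t ^ 2 * n) := by
      unfold al
      rw [div_pow, mul_pow, mul_pow, Real.sq_sqrt hn'.le]; norm_num
    have a8 : 3 * N ^ 2 / 128 ≤
        (s * s' / (s + s')) * (4 * (al n t N) ^ 2 * ‖Z - Z'‖ ^ 2) := by
      calc 3 * N ^ 2 / 128 = (3 * t / 8) * (4 * (al n t N) ^ 2 * (n * t / 16)) := by
            rw [a7]; field_simp; ring
        _ ≤ _ := by gcongr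
    have a9 : Real.exp (-(s * s' / (s + s')) * (4 * (al n t N) ^ 2 * ‖Z - Z'‖ ^ 2)) ≤
        Real.exp (-3 * N ^ 2 / 128) := by
      apply Real.exp_le_exp.2
      linarith
    calc _ ≤ hk (s + s') (X - X') * Real.exp (-3 * N ^ 2 / 128) :=
          mul_le_mul_of_nonneg_left a9 hk1
      _ = Real.exp (-3 * N ^ 2 / 128) * hk (s + s') (X - X') := mul_comm _ _
      _ ≤ _ := le_add_of_nonneg_right (by positivity)

/-- (B2) -/
lemma bound_B2 {Ω : Type*} [MeasurableSpace Ω] {μ : Measure Ω} [IsFiniteMeasure μ]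
    {X Z : Ω → V n} {τ : Ω → ℝ} {t H : ℝ} (hn : 1 ≤ n) (ht : 0 < t)
    (hX : Measurable X) (hZ : Measurable Z) (hτ : Measurable τ)
    (hτ1 : ∀ ω, 3 * t / 4 ≤ τ ω) (hτ2 : ∀ ω, τ ω ≤ t)
    (hZX : ∀ ω, ‖Z ω - X ω‖ ^ 2 ≤ n * t / 64)
    (hDB : ∀ z : V n, ∫⁻ ω, G (τ ω - t / 2) (X ω - z) ∂μ ≤ ENNReal.ofReal H)
    (N : ℝ) {c : Ω → ℂ} (hc : Measurable c) (hc1 : ∀ ω, ‖c ω‖ ≤ 1) :
    ∫⁻ x, ‖∫ ω, c ω * ((hk (τ ω) (x - X ω) : ℂ) *
        Complex.exp (Complex.I * al n t N * ‖x - Z ω‖ ^ 2)) ∂μ‖ₑ ^ 2 ≤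
      ENNReal.ofReal H * ENNReal.ofReal (KN n N) * ∫⁻ ω, ‖c ω‖ₑ ∂μ := by
  have hτ0 : ∀ ω, 0 < τ ω := fun ω => by linarith [hτ1 ω]
  set F : V n → Ω → ℂ := fun x ω => c ω * ((hk (τ ω) (x - X ω) : ℂ) *
        Complex.exp (Complex.I * al n t N * ‖x - Z ω‖ ^ 2)) with hF
  have hFm : StronglyMeasurable (Function.uncurry F) := by
    apply Measurable.stronglyMeasurable
    simp only [hF, Function.uncurry_def]
    fun_prop
  have hc1' : ∀ ω, ‖c ω‖ₑ ≤ 1 := by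
    intro ω
    rw [← ofReal_norm, ← ENNReal.ofReal_one]
    exact ENNReal.ofReal_le_ofReal (hc1 ω)
  have hFn : ∀ x ω, ‖F x ω‖ₑ = ‖c ω‖ₑ * G (τ ω) (x - X ω) := by
    intro x ω
    have h1 := norm_exp_I_mul (al n t N) (‖x - Z ω‖ ^ 2)
    push_cast at h1
    simp only [hF]
    rw [enorm_mul, enorm_mul]
    congr 1
    unfold G
    rw [← ofReal_norm (Complex.exp _), h1, ENNReal.ofReal_one, mul_one, ← ofReal_norm,
      Complex.norm_real, Real.norm_of_nonneg (hk_nonneg _ (hτ0 ω).le _)]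
  have hmass : ∀ ω, ∫⁻ ω', G (τ ω + τ ω') (X ω - X ω') ∂μ ≤ ENNReal.ofReal H := fun ω =>
    mass_le ht hX hτ hτ1 hDB (hτ0 ω).le (X ω)
  have hmass2 : ∀ ω, ∫⁻ ω', G (τ ω' - t / 2) (X ω - X ω') ∂μ ≤ ENNReal.ofReal H := by
    intro ω
    refine le_trans (le_of_eq ?_) (hDB (X ω))
    exact lintegral_congr fun ω' => G_sub_comm _ _ _
  have hmeas1 : Measurable fun p : Ω × Ω => G (τ p.1 + τ p.2) (X p.1 - X p.2) := by fun_prop
  have hfin : ∫⁻ p : Ω × Ω, (∫⁻ x, ‖F x p.1‖ₑ * ‖F x p.2‖ₑ) ∂(μ.prod μ) < ∞ := by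
    calc ∫⁻ p : Ω × Ω, (∫⁻ x, ‖F x p.1‖ₑ * ‖F x p.2‖ₑ) ∂(μ.prod μ)
        ≤ ∫⁻ p : Ω × Ω, G (τ p.1 + τ p.2) (X p.1 - X p.2) ∂(μ.prod μ) := by
          refine lintegral_mono fun p => ?_
          calc ∫⁻ x, ‖F x p.1‖ₑ * ‖F x p.2‖ₑ
              ≤ ∫⁻ x, G (τ p.1) (X p.1 - x) * G (τ p.2) (x - X p.2) := by
                refine lintegral_mono fun x => ?_
                rw [hFn, hFn, G_sub_comm (τ p.1) (X p.1) x]
                calc _ ≤ (1 * G (τ p.1) (x - X p.1)) * (1 * G (τ p.2) (x - X p.2)) := by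
                      gcongr <;> exact hc1' _
                  _ = _ := by rw [one_mul, one_mul]
            _ = _ := lintegral_G_mul_G (hτ0 _) (hτ0 _) _ _
      _ = ∫⁻ ω, ∫⁻ ω', G (τ ω + τ ω') (X ω - X ω') ∂μ ∂μ := lintegral_prod _ hmeas1.aemeasurable
      _ ≤ ∫⁻ _ω, ENNReal.ofReal H ∂μ := lintegral_mono hmass
      _ < ∞ := by
        rw [lintegral_const]
        exact ENNReal.mul_lt_top ENNReal.ofReal_lt_top (measure_lt_top _ _)
  refine (lintegral_sq_superposition μ volume F hFm hfin).trans ?_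
  have hpair : ∀ p : Ω × Ω, ‖∫ x, F x p.1 * conj (F x p.2)‖ₑ ≤ ‖c p.1‖ₑ *
      (ENNReal.ofReal (Real.exp (-3 * N ^ 2 / 128)) * G (τ p.1 + τ p.2) (X p.1 - X p.2) +
        ENNReal.ofReal ((7 / 10 : ℝ) ^ n) * G (τ p.2 - t / 2) (X p.1 - X p.2)) := by
    intro p
    have e : ∀ x, F x p.1 * conj (F x p.2) = (c p.1 * conj (c p.2)) *
        (((hk (τ p.1) (x - X p.1) : ℂ) *
          Complex.exp (Complex.I * al n t N * ‖x - Z p.1‖ ^ 2)) *
        conj ((hk (τ p.2) (x - X p.2) : ℂ) *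
          Complex.exp (Complex.I * al n t N * ‖x - Z p.2‖ ^ 2))) := by
      intro x
      simp only [hF, map_mul]
      ring
    simp only [e]
    rw [integral_const_mul, enorm_mul, enorm_mul]
    have h1 : ‖conj (c p.2)‖ₑ ≤ 1 := by
      rw [← ofReal_norm, Complex.norm_conj, ofReal_norm]; exact hc1' _
    have h2 := key_pair hn ht (hτ1 p.1) (hτ2 p.1) (hτ1 p.2) (hτ2 p.2) N (hZX p.1) (hZX p.2)
    rw [← norm_inner_osc (hτ0 _) (hτ0 _)] at h2
    have h3 := ENNReal.ofReal_le_ofReal h2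
    have hk1 : 0 ≤ hk (τ p.1 + τ p.2) (X p.1 - X p.2) :=
      hk_nonneg _ (by linarith [hτ0 p.1, hτ0 p.2]) _
    have hk2 : 0 ≤ hk (τ p.2 - t / 2) (X p.1 - X p.2) :=
      hk_nonneg _ (by linarith [hτ1 p.2]) _
    rw [ofReal_norm, ENNReal.ofReal_add (by positivity) (by positivity),
      ENNReal.ofReal_mul (by positivity), ENNReal.ofReal_mul (by positivity)] at h3
    rw [mul_assoc]
    refine mul_le_mul_right ?_ _
    calc _ ≤ 1 * _ := mul_le_mul' h1 h3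
      _ = _ := one_mul _
  calc _ ≤ ∫⁻ p : Ω × Ω, ‖c p.1‖ₑ *
      (ENNReal.ofReal (Real.exp (-3 * N ^ 2 / 128)) * G (τ p.1 + τ p.2) (X p.1 - X p.2) +
        ENNReal.ofReal ((7 / 10 : ℝ) ^ n) * G (τ p.2 - t / 2) (X p.1 - X p.2)) ∂(μ.prod μ) :=
        lintegral_mono hpair
    _ = ∫⁻ ω, ∫⁻ ω', ‖c ω‖ₑ *
      (ENNReal.ofReal (Real.exp (-3 * N ^ 2 / 128)) * G (τ ω + τ ω') (X ω - X ω') +
        ENNReal.ofReal ((7 / 10 : ℝ) ^ n) * G (τ ω' - t / 2) (X ω - X ω')) ∂μ ∂μ := by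
        rw [lintegral_prod]
        fun_prop
    _ ≤ ∫⁻ ω, ‖c ω‖ₑ * (ENNReal.ofReal H * ENNReal.ofReal (KN n N)) ∂μ := by
        refine lintegral_mono fun ω => ?_
        rw [lintegral_const_mul _ (by fun_prop), lintegral_add_left (by fun_prop),
          lintegral_const_mul _ (by fun_prop), lintegral_const_mul _ (by fun_prop)]
        unfold KN
        rw [ENNReal.ofReal_add (by positivity) (by positivity), mul_comm (ENNReal.ofReal H), add_mul]
        gcongr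
        · exact hmass ω
        · exact hmass2 ω
    _ = _ := by
        rw [lintegral_mul_const _ (by fun_prop), mul_comm]

end

end H28D
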