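import Pool.Agent.H28Dyadic.FluctC

/-!
# Assembly of section 6 (helper92)
-/

set_option autoImplicit false

open MeasureTheory Real
open scoped ENNReal ComplexConjugate

namespace H28D

lemma ennreal_add_sq_le (a b : ℝ≥0∞) : (a + b) ^ 2 ≤ 4 * (a ^ 2 + b ^ 2) := by
  rcases le_total a b with h | h
  · calc (a + b) ^ 2 ≤ (b + b) ^ 2 := by gcongr
      _ = 4 * b ^ 2 := by ring
      _ ≤ _ := by gcongr; exact le_add_self
  · calc (a + b) ^ 2 ≤ (a + a) ^ 2 := by gcongr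
      _ = 4 * a ^ 2 := by ring
      _ ≤ _ := by gcongr; exact le_self_add

section

variable {n : ℕ}

@[fun_prop]
lemma Measurable.ff {α : Type*} [MeasurableSpace α] {N τ : α → ℝ} {X Y x : α → V n}
    (hN : Measurable N) (hτ : Measurable τ) (hX : Measurable X) (hY : Measurable Y)
    (hx : Measurable x) (t : ℝ) :
    Measurable fun a => H28D.ff n t (N a) (τ a) (X a) (Y a) (x a) := by
  unfold H28D.ff
  fun_prop

lemma norm_ff_le' (t N : ℝ) {s : ℝ} (hs : 0 ≤ s) (X Y x : V n) :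
    ‖ff n t N s X Y x‖ ≤ 2 * hk s (x - X) := by
  unfold ff
  rw [norm_mul, Complex.norm_real, Real.norm_of_nonneg (hk_nonneg _ hs _)]
  have h1 := norm_exp_I_mul (al n t N) (‖x - Y‖ ^ 2)
  have h2 := norm_exp_I_mul (al n t N) (‖x - X‖ ^ 2 + ‖X - Y‖ ^ 2)
  push_cast at h1 h2
  have h3 : ‖Complex.exp (Complex.I * al n t N * ‖x - Y‖ ^ 2) -
    Complex.exp (Complex.I * al n t N * (‖x - X‖ ^ 2 + ‖X - Y‖ ^ 2))‖ ≤ 2 := by
    refine (norm_sub_le _ _).trans ?_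
    rw [h1, h2]; norm_num
  calc _ ≤ hk s (x - X) * 2 := mul_le_mul_of_nonneg_left h3 (hk_nonneg _ hs _)
    _ = _ := mul_comm _ _

variable {Ω : Type*} [MeasurableSpace Ω] {μ : Measure Ω} [IsFiniteMeasure μ]
  {X Y Z : Ω → V n} {τ : Ω → ℝ} {t H : ℝ}

lemma integrable_hk_mass (ht : 0 < t) (hX : Measurable X) (hτ : Measurable τ)
    (hτ1 : ∀ ω, 3 * t / 4 ≤ τ ω)
    (hDB : ∀ z : V n, ∫⁻ ω, G (τ ω - t / 2) (X ω - z) ∂μ ≤ ENNReal.ofReal H) (x : V n) :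
    Integrable (fun ω => hk (τ ω) (x - X ω)) μ := by
  have hm : Measurable fun ω => hk (τ ω) (x - X ω) := by fun_prop
  refine ⟨hm.aestronglyMeasurable, ?_⟩
  rw [hasFiniteIntegral_iff_ofReal (Filter.Eventually.of_forall fun ω =>
    hk_nonneg _ (by linarith [hτ1 ω]) _)]
  exact (mass_le_zero ht hX hτ hτ1 hDB x).trans_lt ENNReal.ofReal_lt_top

/-- (B2) for the integrand `ff`. -/
lemma bound_B2' (hn : 1 ≤ n) (ht : 0 < t) (hX : Measurable X) (hY : Measurable Y)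
    (hτ : Measurable τ) (hτ1 : ∀ ω, 3 * t / 4 ≤ τ ω) (hτ2 : ∀ ω, τ ω ≤ t)
    (hYX : ∀ ω, ‖X ω - Y ω‖ ^ 2 ≤ n * t / 64)
    (hDB : ∀ z : V n, ∫⁻ ω, G (τ ω - t / 2) (X ω - z) ∂μ ≤ ENNReal.ofReal H)
    (N : ℝ) {u : Ω → ℝ} (hu : Measurable u) (hu0 : ∀ ω, 0 ≤ u ω) (hu1 : ∀ ω, u ω ≤ 1) :
    ∫⁻ x, ‖∫ ω, (u ω : ℂ) * ff n t N (τ ω) (X ω) (Y ω) x ∂μ‖ₑ ^ 2 ≤
      ENNReal.ofReal H * ∫⁻ ω, ENNReal.ofReal (8 * KN n N * u ω) ∂μ := by
  have hn' : (0:ℝ) < n := by exact_mod_cast hn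
  have hτ0 : ∀ ω, 0 < τ ω := fun ω => by linarith [hτ1 ω]
  set c1 : Ω → ℂ := fun ω => (u ω : ℂ) with hc1
  set c2 : Ω → ℂ := fun ω => (u ω : ℂ) *
    Complex.exp (Complex.I * al n t N * (‖X ω - Y ω‖ ^ 2 : ℝ)) with hc2
  have hc1m : Measurable c1 := by simp only [hc1]; fun_prop
  have hc2m : Measurable c2 := by simp only [hc2]; fun_prop
  have hc1n : ∀ ω, ‖c1 ω‖ = u ω := fun ω => by
    simp only [hc1]; rw [Complex.norm_real, Real.norm_of_nonneg (hu0 ω)]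
  have hc2n : ∀ ω, ‖c2 ω‖ = u ω := fun ω => by
    simp only [hc2]
    rw [norm_mul, norm_exp_I_mul, mul_one, Complex.norm_real, Real.norm_of_nonneg (hu0 ω)]
  have hgen : ∀ (c : Ω → ℂ) (Z : Ω → V n), Measurable c → Measurable Z → (∀ ω, ‖c ω‖ ≤ 1) →
      ∀ x, Integrable (fun ω => c ω * ((hk (τ ω) (x - X ω) : ℂ) *
        Complex.exp (Complex.I * al n t N * ‖x - Z ω‖ ^ 2))) μ := by
    intro c Z hc hZ hc1 x
    refine (integrable_hk_mass ht hX hτ hτ1 hDB x).mono' (by fun_prop) ?_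
    refine Filter.Eventually.of_forall fun ω => ?_
    have h1 := norm_exp_I_mul (al n t N) (‖x - Z ω‖ ^ 2)
    push_cast at h1
    rw [norm_mul, norm_mul, h1, mul_one, Complex.norm_real,
      Real.norm_of_nonneg (hk_nonneg _ (hτ0 ω).le _)]
    exact mul_le_of_le_one_left (hk_nonneg _ (hτ0 ω).le _) (hc1 ω)
  have hle1 : ∀ ω, ‖c1 ω‖ ≤ 1 := fun ω => by rw [hc1n]; exact hu1 ω
  have hle2 : ∀ ω, ‖c2 ω‖ ≤ 1 := fun ω => by rw [hc2n]; exact hu1 ω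
  have hsplit : ∀ x, ∫ ω, (u ω : ℂ) * ff n t N (τ ω) (X ω) (Y ω) x ∂μ =
      (∫ ω, c1 ω * ((hk (τ ω) (x - X ω) : ℂ) *
        Complex.exp (Complex.I * al n t N * ‖x - Y ω‖ ^ 2)) ∂μ) -
      ∫ ω, c2 ω * ((hk (τ ω) (x - X ω) : ℂ) *
        Complex.exp (Complex.I * al n t N * ‖x - X ω‖ ^ 2)) ∂μ := by
    intro x
    rw [← integral_sub (hgen c1 Y hc1m hY hle1 x) (hgen c2 X hc2m hX hle2 x)]
    refine integral_congr_ae (Filter.Eventually.of_forall fun ω => ?_)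
    simp only [hc1, hc2, ff]
    rw [mul_add (Complex.I * (al n t N : ℂ)), Complex.exp_add]
    push_cast
    ring
  have hb1 := bound_B2 hn ht hX hY hτ hτ1 hτ2 (fun ω => by rw [norm_sub_rev]; exact hYX ω) hDB N
    hc1m hle1
  have h64 : (0:ℝ) ≤ n * t / 64 := by positivity
  have hb2 := bound_B2 hn ht hX hX hτ hτ1 hτ2 (fun ω => by simpa using h64)
    hDB N hc2m hle2
  have he1 : ∫⁻ ω, ‖c1 ω‖ₑ ∂μ = ∫⁻ ω, ENNReal.ofReal (u ω) ∂μ :=
    lintegral_congr fun ω => by rw [← ofReal_norm, hc1n]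
  have he2 : ∫⁻ ω, ‖c2 ω‖ₑ ∂μ = ∫⁻ ω, ENNReal.ofReal (u ω) ∂μ :=
    lintegral_congr fun ω => by rw [← ofReal_norm, hc2n]
  rw [he1] at hb1
  rw [he2] at hb2
  have hm : Measurable fun x : V n => ‖∫ ω, c1 ω * ((hk (τ ω) (x - X ω) : ℂ) *
        Complex.exp (Complex.I * al n t N * ‖x - Y ω‖ ^ 2)) ∂μ‖ₑ ^ 2 := by
    have : StronglyMeasurable fun x : V n => ∫ ω, c1 ω * ((hk (τ ω) (x - X ω) : ℂ) *
        Complex.exp (Complex.I * al n t N * ‖x - Y ω‖ ^ 2)) ∂μ := by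
      apply StronglyMeasurable.integral_prod_right
        (f := fun (x : V n) (ω : Ω) => c1 ω * ((hk (τ ω) (x - X ω) : ℂ) *
        Complex.exp (Complex.I * al n t N * ‖x - Y ω‖ ^ 2)))
      apply Measurable.stronglyMeasurable
      simp only [Function.uncurry_def]
      fun_prop
    exact this.enorm.pow_const 2
  calc ∫⁻ x, ‖∫ ω, (u ω : ℂ) * ff n t N (τ ω) (X ω) (Y ω) x ∂μ‖ₑ ^ 2
      ≤ ∫⁻ x, 4 * (‖∫ ω, c1 ω * ((hk (τ ω) (x - X ω) : ℂ) *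
        Complex.exp (Complex.I * al n t N * ‖x - Y ω‖ ^ 2)) ∂μ‖ₑ ^ 2 +
      ‖∫ ω, c2 ω * ((hk (τ ω) (x - X ω) : ℂ) *
        Complex.exp (Complex.I * al n t N * ‖x - X ω‖ ^ 2)) ∂μ‖ₑ ^ 2) := by
        refine lintegral_mono fun x => ?_
        rw [hsplit x]
        refine le_trans ?_ (ennreal_add_sq_le _ _)
        gcongr
        exact enorm_sub_le
    _ ≤ 4 * (ENNReal.ofReal H * ENNReal.ofReal (KN n N) * (∫⁻ ω, ENNReal.ofReal (u ω) ∂μ) +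
          ENNReal.ofReal H * ENNReal.ofReal (KN n N) * ∫⁻ ω, ENNReal.ofReal (u ω) ∂μ) := by
        rw [lintegral_const_mul' _ _ (by norm_num), lintegral_add_left hm]
        gcongr
    _ = _ := by
        have : ∀ ω, ENNReal.ofReal (8 * KN n N * u ω) =
            (8 * ENNReal.ofReal (KN n N)) * ENNReal.ofReal (u ω) := by
          intro ω
          rw [ENNReal.ofReal_mul (by have := KN_pos n N; positivity),
            ENNReal.ofReal_mul (by norm_num)]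
          norm_num
        simp only [this]
        rw [lintegral_const_mul _ (by fun_prop)]
        ring

end

/-! ### numerical inequalities -/

/-- constant -/
noncomputable def C2 : ℝ := 32 * (4 ^ 8 * (Nat.factorial 8) + 2 * (4 ^ 10 * (Nat.factorial 10)) +
  4 ^ 12 * (Nat.factorial 12))

lemma C2_pos : 0 < C2 := by unfold C2; positivity

lemma abs_pow_le (N : ℝ) (k : ℕ) :
    |N| ^ k * Real.exp (-|N| / 4) ≤ 4 ^ k * (Nat.factorial k) := by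
  have h := Real.pow_div_factorial_le_exp (|N| / 4) (by positivity) k
  rw [div_pow, div_div, div_le_iff₀ (by positivity)] at h
  have e : Real.exp (-|N| / 4) * Real.exp (|N| / 4) = 1 := by
    rw [← Real.exp_add]; simp; ring
  have h0 := Real.exp_pos (-|N| / 4)
  calc |N| ^ k * Real.exp (-|N| / 4)
      ≤ (Real.exp (|N| / 4) * (4 ^ k * (Nat.factorial k))) * Real.exp (-|N| / 4) := by gcongr
    _ = (Real.exp (-|N| / 4) * Real.exp (|N| / 4)) * (4 ^ k * (Nat.factorial k)) := by ring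
    _ = _ := by rw [e, one_mul]

lemma rho_sq (n : ℕ) (N : ℝ) : rho n N ^ 2 = (2 * π)⁻¹ * Real.exp (-N ^ 2 / n) := by
  unfold rho
  rw [mul_pow, inv_pow, Real.sq_sqrt (by positivity), ← Real.exp_nat_mul]
  congr 2
  push_cast
  by_cases hn : (n : ℝ) = 0
  · rw [hn]; simp
  · field_simp

lemma two_pi_inv_le : (2 * π)⁻¹ ≤ 1 := by
  apply inv_le_one_of_one_le₀
  linarith [Real.two_le_pi]

lemma rho_sq_le_one (n : ℕ) (N : ℝ) : rho n N ^ 2 ≤ 1 := by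
  rw [rho_sq]
  have h1 := two_pi_inv_le
  have h2 : Real.exp (-N ^ 2 / n) ≤ 1 := by
    apply Real.exp_le_one_iff.2
    apply div_nonpos_of_nonpos_of_nonneg
    · simp; positivity
    · positivity
  calc _ ≤ 1 * 1 := mul_le_mul h1 h2 (by positivity) (by norm_num)
    _ = 1 := by norm_num

lemma rho_sq_KN_le {n : ℕ} (hn : 1 ≤ n) (N : ℝ) :
    rho n N ^ 2 * KN n N ≤ 4 * Real.exp (-|N| / 4) := by
  have hn' : (0:ℝ) < n := by exact_mod_cast hn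
  have h1 := two_pi_inv_le
  have hN : |N| ^ 2 = N ^ 2 := sq_abs N
  have h2 : Real.exp (-N ^ 2 / n) * Real.exp (-3 * N ^ 2 / 128) ≤ 3 * Real.exp (-|N| / 4) := by
    have a1 : Real.exp (-N ^ 2 / n) ≤ 1 := by
      apply Real.exp_le_one_iff.2
      apply div_nonpos_of_nonpos_of_nonneg
      · simp; positivity
      · positivity
    have a2 : Real.exp (-3 * N ^ 2 / 128) ≤ Real.exp (1 + -|N| / 4) := by
      apply Real.exp_le_exp.2
      nlinarith [sq_nonneg (|N| - 16 / 3)]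
    have a3 : Real.exp 1 ≤ 3 := by linarith [Real.exp_one_lt_d9]
    rw [Real.exp_add] at a2
    calc _ ≤ 1 * (Real.exp 1 * Real.exp (-|N| / 4)) :=
          mul_le_mul a1 a2 (by positivity) (by norm_num)
      _ ≤ _ := by
          rw [one_mul]; gcongr
  have h3 : Real.exp (-N ^ 2 / n) * (7 / 10 : ℝ) ^ n ≤ Real.exp (-|N| / 4) := by
    have b1 : (7 / 10 : ℝ) ≤ Real.exp (-(3 / 10)) := by
      have := Real.add_one_le_exp (-(3 / 10) : ℝ)
      linarith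
    have b2 : (7 / 10 : ℝ) ^ n ≤ Real.exp (n * (-(3 / 10))) := by
      rw [Real.exp_nat_mul]
      exact pow_le_pow_left₀ (by norm_num) b1 n
    calc _ ≤ Real.exp (-N ^ 2 / n) * Real.exp (n * (-(3 / 10))) := by gcongr
      _ = Real.exp (-N ^ 2 / n + n * (-(3 / 10))) := by rw [Real.exp_add]
      _ ≤ _ := by
        apply Real.exp_le_exp.2
        rw [← sub_nonneg]
        have e : -|N| / 4 - (-N ^ 2 / n + n * (-(3 / 10))) =
            (N ^ 2 - |N| * n / 4 + 3 * (n:ℝ) ^ 2 / 10) / n := by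
          field_simp; ring
        rw [e]
        apply div_nonneg _ hn'.le
        nlinarith [sq_nonneg (|N| - n / 8), sq_nonneg (n : ℝ)]
  rw [rho_sq]
  unfold KN
  calc (2 * π)⁻¹ * Real.exp (-N ^ 2 / n) * (Real.exp (-3 * N ^ 2 / 128) + (7 / 10 : ℝ) ^ n)
      = (2 * π)⁻¹ * (Real.exp (-N ^ 2 / n) * Real.exp (-3 * N ^ 2 / 128) +
          Real.exp (-N ^ 2 / n) * (7 / 10 : ℝ) ^ n) := by ring
    _ ≤ 1 * (3 * Real.exp (-|N| / 4) + Real.exp (-|N| / 4)) := by gcongr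
    _ = _ := by ring

/-- (P1) -/
lemma num_small (n : ℕ) (N : ℝ) {s : ℝ} (hs0 : 0 ≤ s) (hs1 : s ≤ 1) (h : N ^ 16 * s ^ 2 ≤ 1) :
    (1 + N ^ 2) * rho n N ^ 2 * (2 * N ^ 2 * s ^ 2) ≤ 8 * s * (1 + N ^ 2)⁻¹ := by
  have hN8 : N ^ 8 * s ≤ 1 := by
    have h1 : (N ^ 8 * s) ^ 2 ≤ 1 := by
      calc (N ^ 8 * s) ^ 2 = N ^ 16 * s ^ 2 := by ring
        _ ≤ 1 := h
    have h0 : 0 ≤ N ^ 8 * s := by positivity
    nlinarith
  have h2 := rho_sq_le_one n N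
  have hp : 0 < 1 + N ^ 2 := by positivity
  rw [← div_eq_mul_inv, le_div_iff₀ hp]
  have h3 : (1 + N ^ 2) ^ 2 * (2 * N ^ 2 * s) ≤ 8 := by
    rcases le_total (N ^ 2) 1 with h4 | h4
    · have a1 : (1 + N ^ 2) ^ 2 ≤ 4 := by nlinarith [sq_nonneg N]
      have a2 : 2 * N ^ 2 * s ≤ 2 := by nlinarith [sq_nonneg N]
      calc _ ≤ 4 * 2 := mul_le_mul a1 a2 (by positivity) (by norm_num)
        _ = 8 := by norm_num
    · have a1 : (1 + N ^ 2) ^ 2 ≤ 4 * N ^ 4 := by nlinarith [sq_nonneg N]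
      have a2 : N ^ 6 ≤ N ^ 8 := by nlinarith [pow_nonneg (sq_nonneg N) 3]
      calc (1 + N ^ 2) ^ 2 * (2 * N ^ 2 * s) ≤ (4 * N ^ 4) * (2 * N ^ 2 * s) := by gcongr
        _ = 8 * (N ^ 6 * s) := by ring
        _ ≤ 8 * (N ^ 8 * s) := by gcongr
        _ ≤ 8 := by linarith
  calc (1 + N ^ 2) * rho n N ^ 2 * (2 * N ^ 2 * s ^ 2) * (1 + N ^ 2)
      = rho n N ^ 2 * (((1 + N ^ 2) ^ 2 * (2 * N ^ 2 * s)) * s) := by ring
    _ ≤ 1 * (8 * s) := by gcongr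
    _ = _ := by ring

/-- (P2) -/
lemma num_large {n : ℕ} (hn : 1 ≤ n) (N : ℝ) {s : ℝ} (hs0 : 0 ≤ s) (h : 1 < N ^ 16 * s ^ 2) :
    (1 + N ^ 2) * rho n N ^ 2 * (8 * KN n N) ≤ C2 * s * (1 + N ^ 2)⁻¹ := by
  have hN8 : 1 ≤ N ^ 8 * s := by
    by_contra hcon
    push Not at hcon
    have h0 : 0 ≤ N ^ 8 * s := by positivity
    have h1 : (N ^ 8 * s) ^ 2 ≤ 1 := by nlinarith
    have : N ^ 16 * s ^ 2 = (N ^ 8 * s) ^ 2 := by ring
    linarith
  have hp : 0 < 1 + N ^ 2 := by positivity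
  rw [← div_eq_mul_inv, le_div_iff₀ hp]
  have h2 := rho_sq_KN_le hn N
  have hN : |N| ^ 2 = N ^ 2 := sq_abs N
  have k8 := abs_pow_le N 8
  have k10 := abs_pow_le N 10
  have k12 := abs_pow_le N 12
  have e8 : |N| ^ 8 = N ^ 8 := by
    calc |N| ^ 8 = (|N| ^ 2) ^ 4 := by ring
      _ = _ := by rw [hN]; ring
  have e10 : |N| ^ 10 = N ^ 10 := by
    calc |N| ^ 10 = (|N| ^ 2) ^ 5 := by ring
      _ = _ := by rw [hN]; ring
  have e12 : |N| ^ 12 = N ^ 12 := by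
    calc |N| ^ 12 = (|N| ^ 2) ^ 6 := by ring
      _ = _ := by rw [hN]; ring
  rw [e8] at k8
  rw [e10] at k10
  rw [e12] at k12
  have h3 : (1 + N ^ 2) ^ 2 * N ^ 8 * (32 * Real.exp (-|N| / 4)) ≤ C2 := by
    calc (1 + N ^ 2) ^ 2 * N ^ 8 * (32 * Real.exp (-|N| / 4))
        = 32 * (N ^ 8 * Real.exp (-|N| / 4) + 2 * (N ^ 10 * Real.exp (-|N| / 4)) +
          N ^ 12 * Real.exp (-|N| / 4)) := by ring
      _ ≤ C2 := by unfold C2; gcongr
  have hx := Real.exp_pos (-|N| / 4)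
  calc (1 + N ^ 2) * rho n N ^ 2 * (8 * KN n N) * (1 + N ^ 2)
      = (1 + N ^ 2) ^ 2 * 8 * (rho n N ^ 2 * KN n N) := by ring
    _ ≤ (1 + N ^ 2) ^ 2 * 8 * (4 * Real.exp (-|N| / 4)) := by gcongr
    _ = ((1 + N ^ 2) ^ 2 * (32 * Real.exp (-|N| / 4))) * 1 := by ring
    _ ≤ ((1 + N ^ 2) ^ 2 * (32 * Real.exp (-|N| / 4))) * (N ^ 8 * s) := by gcongr
    _ = ((1 + N ^ 2) ^ 2 * N ^ 8 * (32 * Real.exp (-|N| / 4))) * s := by ring
    _ ≤ C2 * s := by gcongr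

end H28D
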