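import Pool.Agent.H28Dyadic.FluctD

/-! Section 6: Fourier representation and pointwise bounds (helper92) -/

set_option autoImplicit false

open MeasureTheory Real
open scoped ENNReal

namespace H28D

section

variable {n : ℕ} {Ω : Type*} [MeasurableSpace Ω] {μ : Measure Ω} [IsFiniteMeasure μ]
  {X Y Z : Ω → V n} {τ : Ω → ℝ} {t H : ℝ}

lemma integrable_ff (ht : 0 < t) (hX : Measurable X) (hY : Measurable Y)
    (hτ : Measurable τ) (hτ1 : ∀ ω, 3 * t / 4 ≤ τ ω)
    (hDB : ∀ z : V n, ∫⁻ ω, G (τ ω - t / 2) (X ω - z) ∂μ ≤ ENNReal.ofReal H) (N : ℝ)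
    {u : Ω → ℝ} (hu : Measurable u) (hu0 : ∀ ω, 0 ≤ u ω) (hu1 : ∀ ω, u ω ≤ 1) (x : V n) :
    Integrable (fun ω => (u ω : ℂ) * ff n t N (τ ω) (X ω) (Y ω) x) μ := by
  have hτ0 : ∀ ω, 0 < τ ω := fun ω => by linarith [hτ1 ω]
  refine ((integrable_hk_mass ht hX hτ hτ1 hDB x).const_mul 2).mono' ?_ ?_
  · have : Measurable fun ω => (u ω : ℂ) * ff n t N (τ ω) (X ω) (Y ω) x := by fun_prop
    exact this.aestronglyMeasurable
  · refine Filter.Eventually.of_forall fun ω => ?_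
    rw [norm_mul, Complex.norm_real, Real.norm_of_nonneg (hu0 ω)]
    calc _ ≤ 1 * (2 * hk (τ ω) (x - X ω)) :=
          mul_le_mul (hu1 ω) (norm_ff_le' t N (hτ0 ω).le _ _ _) (norm_nonneg _) zero_le_one
      _ = _ := one_mul _

/-- Fourier representation of the fluctuation. -/
lemma repr_fluct (hn : 1 ≤ n) (ht : 0 < t) (hX : Measurable X) (hY : Measurable Y)
    (hτ : Measurable τ) (hτ1 : ∀ ω, 3 * t / 4 ≤ τ ω)
    (hDB : ∀ z : V n, ∫⁻ ω, G (τ ω - t / 2) (X ω - z) ∂μ ≤ ENNReal.ofReal H) (Q : ℝ) (x : V n) :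
    ((∫ ω, hk (τ ω) (x - X ω) *
        (R n t Q (‖x - Y ω‖ ^ 2) - R n t Q (‖x - X ω‖ ^ 2 + ‖X ω - Y ω‖ ^ 2)) ∂μ : ℝ) : ℂ) =
      ∫ N : ℝ, ((rho n N : ℂ) * Complex.exp (-(Complex.I * al n t N * Q))) *
        ∫ ω, ff n t N (τ ω) (X ω) (Y ω) x ∂μ := by
  have hτ0 : ∀ ω, 0 < τ ω := fun ω => by linarith [hτ1 ω]
  have hri : Integrable (rho n) := integrable_rho hn
  have hexp : ∀ N q : ℝ, ‖Complex.exp (Complex.I * al n t N * (q - Q))‖ = 1 := by
    intro N q
    have := norm_exp_I_mul (al n t N) (q - Q)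
    push_cast at this
    exact this
  have hexpi : ∀ q : ℝ, Integrable fun N : ℝ =>
      (rho n N : ℂ) * Complex.exp (Complex.I * al n t N * (q - Q)) := by
    intro q
    refine hri.mono' ?_ ?_
    · have : Measurable fun N : ℝ => (rho n N : ℂ) *
        Complex.exp (Complex.I * al n t N * (q - Q)) := by fun_prop
      exact this.aestronglyMeasurable
    · refine Filter.Eventually.of_forall fun N => ?_
      rw [norm_mul, hexp, mul_one, Complex.norm_real, Real.norm_of_nonneg (rho_pos n N).le]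
  have h1 : ∀ ω, ((hk (τ ω) (x - X ω) *
        (R n t Q (‖x - Y ω‖ ^ 2) - R n t Q (‖x - X ω‖ ^ 2 + ‖X ω - Y ω‖ ^ 2)) : ℝ) : ℂ) =
      ∫ N : ℝ, ((rho n N : ℂ) * Complex.exp (-(Complex.I * al n t N * Q))) *
        ff n t N (τ ω) (X ω) (Y ω) x := by
    intro ω
    have e1 := R_eq_integral hn ht Q (‖x - Y ω‖ ^ 2)
    have e2 := R_eq_integral hn ht Q (‖x - X ω‖ ^ 2 + ‖X ω - Y ω‖ ^ 2)
    rw [Complex.ofReal_mul, Complex.ofReal_sub, e1, e2, ← integral_sub (hexpi _) (hexpi _),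
      ← integral_const_mul]
    refine integral_congr_ae (Filter.Eventually.of_forall fun N => ?_)
    simp only [ff]
    push_cast
    have e3 : ∀ q : ℂ, Complex.exp (Complex.I * al n t N * (q - Q)) =
        Complex.exp (-(Complex.I * al n t N * Q)) * Complex.exp (Complex.I * al n t N * q) := by
      intro q
      rw [← Complex.exp_add]
      congr 1; ring
    rw [e3, e3]
    ring
  rw [← integral_complex_ofReal]
  simp only [h1]
  rw [integral_integral_swap]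
  · refine integral_congr_ae (Filter.Eventually.of_forall fun N => ?_)
    simp only
    rw [integral_const_mul]
  · have hm : Measurable (Function.uncurry fun (ω : Ω) (N : ℝ) =>
        ((rho n N : ℂ) * Complex.exp (-(Complex.I * al n t N * Q))) *
        ff n t N (τ ω) (X ω) (Y ω) x) := by
      simp only [Function.uncurry_def]
      fun_prop
    refine (((integrable_hk_mass ht hX hτ hτ1 hDB x).const_mul 2).mul_prod hri).mono'
      hm.aestronglyMeasurable ?_
    refine Filter.Eventually.of_forall fun p => ?_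
    simp only [Function.uncurry_def]
    have h2 : ‖Complex.exp (-(Complex.I * al n t p.2 * Q))‖ = 1 := by
      have := norm_exp_I_mul (al n t p.2) (-Q)
      push_cast at this
      rw [← this]
      congr 2; ring
    rw [norm_mul, norm_mul, h2, mul_one, Complex.norm_real, Real.norm_of_nonneg (rho_pos n _).le,
      mul_comm]
    exact mul_le_mul_of_nonneg_right (norm_ff_le' t _ (hτ0 _).le _ _ _) (rho_pos n _).le

lemma lintegral_pi : (∫⁻ N : ℝ, ENNReal.ofReal ((1 + N ^ 2)⁻¹)) = ENNReal.ofReal π := by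
  rw [← ofReal_integral_eq_lintegral_ofReal integrable_inv_one_add_sq
    (Filter.Eventually.of_forall fun N => by positivity), integral_univ_inv_one_add_sq]

/-- Cauchy–Schwarz in the frequency -/
lemma pt_bound {n : ℕ} (Fs Fl : ℝ → ℂ) (hFs : Measurable Fs) (hFl : Measurable Fl) (e : ℝ → ℂ)
    (he : ∀ N, ‖e N‖ = 1) :
    ‖∫ N : ℝ, ((rho n N : ℂ) * e N) * (Fs N + Fl N)‖ₑ ^ 2 ≤
      ENNReal.ofReal π * ∫⁻ N : ℝ, ENNReal.ofReal ((1 + N ^ 2) * rho n N ^ 2) *
        (4 * (‖Fs N‖ₑ ^ 2 + ‖Fl N‖ₑ ^ 2)) := by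
  set a : ℝ → ℝ≥0∞ := fun N => ENNReal.ofReal (√((1 + N ^ 2)⁻¹)) with ha
  set b : ℝ → ℝ≥0∞ := fun N => ENNReal.ofReal (√(1 + N ^ 2) * rho n N) *
    (‖Fs N‖ₑ + ‖Fl N‖ₑ) with hb
  have ham : Measurable a := by simp only [ha]; fun_prop
  have hbm : Measurable b := by
    simp only [hb]
    fun_prop
  have h1 : ‖∫ N : ℝ, ((rho n N : ℂ) * e N) * (Fs N + Fl N)‖ₑ ≤ ∫⁻ N, a N * b N := by
    refine (enorm_integral_le_lintegral_enorm _).trans (lintegral_mono fun N => ?_)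
    simp only [ha, hb]
    rw [enorm_mul, enorm_mul, ← ofReal_norm (e N), he, ENNReal.ofReal_one, mul_one,
      ← ofReal_norm ((rho n N : ℝ) : ℂ), Complex.norm_real,
      Real.norm_of_nonneg (rho_pos n N).le, ← mul_assoc,
      ← ENNReal.ofReal_mul (Real.sqrt_nonneg _)]
    have e4 : √((1 + N ^ 2)⁻¹) * (√(1 + N ^ 2) * rho n N) = rho n N := by
      rw [Real.sqrt_inv, ← mul_assoc, inv_mul_cancel₀, one_mul]
      exact (Real.sqrt_pos.2 (by positivity)).ne'
    rw [e4]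
    exact mul_le_mul' le_rfl (enorm_add_le _ _)
  have h2 : (∫⁻ N, a N ^ 2) = ENNReal.ofReal π := by
    have e1 : ∀ N, a N ^ 2 = ENNReal.ofReal ((1 + N ^ 2)⁻¹) := fun N => by
      simp only [ha]
      rw [← ENNReal.ofReal_pow (Real.sqrt_nonneg _), Real.sq_sqrt (by positivity)]
    simp only [e1]
    exact lintegral_pi
  calc _ ≤ (∫⁻ N, a N * b N) ^ 2 := pow_le_pow_left' h1 2
    _ ≤ (∫⁻ N, a N ^ 2) * ∫⁻ N, b N ^ 2 :=
      lintegral_mul_sq_le volume ham.aemeasurable hbm.aemeasurable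
    _ ≤ _ := by
      rw [h2]
      refine mul_le_mul' le_rfl (lintegral_mono fun N => ?_)
      simp only [hb]
      rw [mul_pow, ← ENNReal.ofReal_pow (by have := rho_pos n N; positivity), mul_pow,
        Real.sq_sqrt (by positivity)]
      exact mul_le_mul' le_rfl (ennreal_add_sq_le _ _)

/-- transfer of a bound -/
lemma scale_bound {Ω : Type*} [MeasurableSpace Ω] {μ : Measure Ω} {H r K : ℝ} {A : ℝ≥0∞}
    (hr : 0 ≤ r) (hK : 0 ≤ K) {f s : Ω → ℝ}
    (hA : A ≤ ENNReal.ofReal H * ∫⁻ ω, ENNReal.ofReal (f ω) ∂μ)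
    (hf : ∀ ω, r * f ω ≤ K * s ω) :
    ENNReal.ofReal r * A ≤ ENNReal.ofReal H * (ENNReal.ofReal K *
      ∫⁻ ω, ENNReal.ofReal (s ω) ∂μ) := by
  calc _ ≤ ENNReal.ofReal r * (ENNReal.ofReal H * ∫⁻ ω, ENNReal.ofReal (f ω) ∂μ) :=
        mul_le_mul' le_rfl hA
    _ = ENNReal.ofReal H * ∫⁻ ω, ENNReal.ofReal r * ENNReal.ofReal (f ω) ∂μ := by
        rw [lintegral_const_mul' _ _ ENNReal.ofReal_ne_top]; ring
    _ ≤ ENNReal.ofReal H * ∫⁻ ω, ENNReal.ofReal K * ENNReal.ofReal (s ω) ∂μ := by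
        refine mul_le_mul' le_rfl (lintegral_mono fun ω => ?_)
        simp only
        rw [← ENNReal.ofReal_mul hr, ← ENNReal.ofReal_mul hK]
        exact ENNReal.ofReal_le_ofReal (hf ω)
    _ = _ := by rw [lintegral_const_mul' _ _ ENNReal.ofReal_ne_top]

end

end H28D
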