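import Pool.Agent.H28Dyadic.Heat4

/-! Umbrella of the basic Gaussian facts: Heat1 (kernel, semigroup), Heat2 (complex Gaussian
integrals), Heat3 (second moments), Heat4 (thin profile). -/
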