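import Pool.Agent.H28Dyadic.Defs

set_option autoImplicit false

open MeasureTheory Real
open scoped ENNReal

namespace H28D

variable {n : ℕ}

lemma hk_pos {t : ℝ} (ht : 0 < t) (x : V n) : 0 < hk t x := by
  unfold hk; positivity

lemma hk_nonneg (t : ℝ) (ht : 0 ≤ t) (x : V n) : 0 ≤ hk t x := by
  unfold hk; positivity

lemma hk_neg (t : ℝ) (x : V n) : hk t (-x) = hk t x := by
  unfold hk; rw [norm_neg]

lemma hk_sub_comm (t : ℝ) (x y : V n) : hk t (x - y) = hk t (y - x) := by
  rw [← hk_neg, neg_sub]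

lemma G_sub_comm (t : ℝ) (x y : V n) : G t (x - y) = G t (y - x) := by
  unfold G; rw [hk_sub_comm]

lemma G_neg (t : ℝ) (x : V n) : G t (-x) = G t x := by
  unfold G; rw [hk_neg]

/-- bound of the heat kernel by its value at `0`. -/
lemma hk_le {t : ℝ} (ht : 0 < t) (x : V n) : hk t x ≤ (4 * π * t) ^ (-(n : ℝ) / 2) := by
  unfold hk
  have : Real.exp (-(‖x‖ ^ 2) / (4 * t)) ≤ 1 := by
    apply Real.exp_le_one_iff.2
    apply div_nonpos_of_nonpos_of_nonneg
    · simp
    · positivity
  calc _ ≤ (4 * π * t) ^ (-(n : ℝ) / 2) * 1 := by gcongr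
    _ = _ := by ring

/-- joint measurability. -/
@[fun_prop]
lemma measurable_hk_uncurry : Measurable fun p : ℝ × V n => hk p.1 p.2 := by
  unfold hk; fun_prop

@[fun_prop]
lemma continuous_hk (t : ℝ) : Continuous (hk (n := n) t) := by
  unfold hk; fun_prop

@[fun_prop]
lemma measurable_hk (t : ℝ) : Measurable (hk (n := n) t) := (continuous_hk t).measurable

@[fun_prop]
lemma measurable_G_uncurry : Measurable fun p : ℝ × V n => G p.1 p.2 := by
  unfold G; fun_prop

@[fun_prop]
lemma measurable_G (t : ℝ) : Measurable (G (n := n) t) := by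
  unfold G; fun_prop

/-- joint measurability, for composition. -/
@[fun_prop]
lemma Measurable.hk {α : Type*} [MeasurableSpace α] {τ : α → ℝ} {X : α → V n}
    (hτ : Measurable τ) (hX : Measurable X) : Measurable fun a => H28D.hk (τ a) (X a) :=
  measurable_hk_uncurry.comp (hτ.prodMk hX)

@[fun_prop]
lemma Measurable.G {α : Type*} [MeasurableSpace α] {τ : α → ℝ} {X : α → V n}
    (hτ : Measurable τ) (hX : Measurable X) : Measurable fun a => H28D.G (τ a) (X a) :=
  measurable_G_uncurry.comp (hτ.prodMk hX)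

@[fun_prop]
lemma continuous_R (t Q : ℝ) : Continuous (R n t Q) := by
  unfold R; fun_prop

@[fun_prop]
lemma measurable_R (t Q : ℝ) : Measurable (R n t Q) := (continuous_R t Q).measurable

lemma R_nonneg (t Q q : ℝ) : 0 ≤ R n t Q q := by unfold R; positivity

lemma R_le (t Q q : ℝ) : R n t Q q ≤ √(n : ℝ) := by
  unfold R
  have : Real.exp (-(q - Q) ^ 2 / (8 * t ^ 2)) ≤ 1 := by
    apply Real.exp_le_one_iff.2
    apply div_nonpos_of_nonpos_of_nonneg
    · simp only [Left.neg_nonpos_iff]; positivity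
    · positivity
  calc _ ≤ √(n : ℝ) * 1 := by gcongr
    _ = _ := by ring

/-- rewriting of the Gaussian as in Mathlib. -/
lemma hk_eq (t : ℝ) (x : V n) :
    hk t x = (4 * π * t) ^ (-(n : ℝ) / 2) * Real.exp (-(1 / (4 * t)) * ‖x‖ ^ 2) := by
  unfold hk
  congr 2
  ring

lemma integrable_gauss {b : ℝ} (hb : 0 < b) :
    Integrable fun x : V n => Real.exp (-b * ‖x‖ ^ 2) := by
  have h := GaussianFourier.integrable_cexp_neg_mul_sq_norm_add (V := V n)
    (show 0 < (b : ℂ).re from hb) 0 0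
  have h2 := h.re
  refine h2.congr (Filter.Eventually.of_forall fun x => ?_)
  simp only [zero_mul, add_zero]
  have : Complex.exp (-(b : ℂ) * (‖x‖ : ℂ) ^ 2) = ((Real.exp (-b * ‖x‖ ^ 2) : ℝ) : ℂ) := by
    push_cast; rfl
  rw [this]
  exact Complex.ofReal_re _

lemma integrable_hk {t : ℝ} (ht : 0 < t) : Integrable (hk (n := n) t) := by
  have : hk (n := n) t = fun x =>
      (4 * π * t) ^ (-(n : ℝ) / 2) * Real.exp (-(1 / (4 * t)) * ‖x‖ ^ 2) := by
    funext x; exact hk_eq t x
  rw [this]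
  exact (integrable_gauss (by positivity)).const_mul _

lemma integral_hk {t : ℝ} (ht : 0 < t) : ∫ x : V n, hk t x = 1 := by
  simp_rw [hk_eq]
  rw [integral_const_mul, GaussianFourier.integral_rexp_neg_mul_sq_norm (by positivity)]
  rw [finrank_euclideanSpace_fin]
  have : π / (1 / (4 * t)) = 4 * π * t := by field_simp
  rw [this, ← Real.rpow_add (by positivity)]
  have : -(n : ℝ) / 2 + n / 2 = 0 := by ring
  rw [this, Real.rpow_zero]

lemma lintegral_G {t : ℝ} (ht : 0 < t) : ∫⁻ x : V n, G t x = 1 := by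
  unfold G
  rw [← ofReal_integral_eq_lintegral_ofReal (integrable_hk ht)
    (Filter.Eventually.of_forall fun x => hk_nonneg t ht.le x), integral_hk ht, ENNReal.ofReal_one]

lemma lintegral_G_sub_right {t : ℝ} (ht : 0 < t) (x : V n) : ∫⁻ y : V n, G t (y - x) = 1 := by
  rw [lintegral_sub_right_eq_self (fun y => G t y) x, lintegral_G ht]

lemma lintegral_G_sub_left {t : ℝ} (ht : 0 < t) (x : V n) : ∫⁻ y : V n, G t (x - y) = 1 := by
  simp_rw [G_sub_comm t x]
  exact lintegral_G_sub_right ht x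

/-- the product identity (0.2). -/
lemma hk_mul_hk {s t : ℝ} (hs : 0 < s) (ht : 0 < t) (x y z : V n) :
    hk s (x - z) * hk t (z - y) =
      hk (s + t) (x - y) * hk (s * t / (s + t)) (z - ((t / (s + t)) • x + (s / (s + t)) • y)) := by
  unfold hk
  have hst : 0 < s + t := by positivity
  -- prefactors
  have h1 : (4 * π * s) ^ (-(n : ℝ) / 2) * (4 * π * t) ^ (-(n : ℝ) / 2) =
      (4 * π * (s + t)) ^ (-(n : ℝ) / 2) * (4 * π * (s * t / (s + t))) ^ (-(n : ℝ) / 2) := by
    rw [← Real.mul_rpow (by positivity) (by positivity),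
      ← Real.mul_rpow (by positivity) (by positivity)]
    congr 1
    field_simp
  -- exponents
  have h2 : -(‖x - z‖ ^ 2) / (4 * s) + -(‖z - y‖ ^ 2) / (4 * t) =
      -(‖x - y‖ ^ 2) / (4 * (s + t)) +
        -(‖z - ((t / (s + t)) • x + (s / (s + t)) • y)‖ ^ 2) / (4 * (s * t / (s + t))) := by
    have e1 : x - y = (x - z) + (z - y) := by abel
    have e2 : z - ((t / (s + t)) • x + (s / (s + t)) • y) =
        (s / (s + t)) • (z - y) - (t / (s + t)) • (x - z) := by
      have : z = (s / (s + t)) • z + (t / (s + t)) • z := by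
        rw [← add_smul, ← add_div, div_self hst.ne', one_smul]
      nth_rewrite 1 [this]
      simp only [smul_sub]
      abel
    rw [e1, e2]
    generalize x - z = u
    generalize z - y = w
    rw [norm_add_sq_real, norm_sub_sq_real, norm_smul, norm_smul, inner_smul_left,
      inner_smul_right]
    simp only [mul_pow, Real.norm_eq_abs, sq_abs, conj_trivial]
    rw [real_inner_comm u w]
    field_simp
    ring
  calc _ = ((4 * π * s) ^ (-(n : ℝ) / 2) * (4 * π * t) ^ (-(n : ℝ) / 2)) *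
        Real.exp (-(‖x - z‖ ^ 2) / (4 * s) + -(‖z - y‖ ^ 2) / (4 * t)) := by
        rw [Real.exp_add]; ring
    _ = _ := by rw [h1, h2, Real.exp_add]; ring

lemma G_mul_G {s t : ℝ} (hs : 0 < s) (ht : 0 < t) (x y z : V n) :
    G s (x - z) * G t (z - y) =
      G (s + t) (x - y) * G (s * t / (s + t)) (z - ((t / (s + t)) • x + (s / (s + t)) • y)) := by
  unfold G
  rw [← ENNReal.ofReal_mul (hk_nonneg s hs.le _), ← ENNReal.ofReal_mul (hk_nonneg _ (by positivity) _),
    hk_mul_hk hs ht]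

/-- semigroup property. -/
lemma lintegral_G_mul_G {s t : ℝ} (hs : 0 < s) (ht : 0 < t) (x y : V n) :
    ∫⁻ z, G s (x - z) * G t (z - y) = G (s + t) (x - y) := by
  simp_rw [G_mul_G hs ht]
  rw [lintegral_const_mul _ (by fun_prop), lintegral_G_sub_right (by positivity), mul_one]

@[fun_prop]
lemma measurable_P (t : ℝ) {f : V n → ℝ≥0∞} (hf : Measurable f) : Measurable (P t f) := by
  unfold P
  apply Measurable.lintegral_prod_right'
    (f := fun p : V n × V n => G t (p.1 - p.2) * f p.2)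
  fun_prop

lemma P_mono (t : ℝ) {f g : V n → ℝ≥0∞} (h : ∀ x, f x ≤ g x) (x : V n) : P t f x ≤ P t g x := by
  unfold P; gcongr; apply h

lemma P_add (t : ℝ) {f g : V n → ℝ≥0∞} (hf : Measurable f) (x : V n) :
    P t (fun y => f y + g y) x = P t f x + P t g x := by
  unfold P
  simp_rw [mul_add]
  rw [lintegral_add_left (by fun_prop)]

lemma P_const {t : ℝ} (ht : 0 < t) (c : ℝ≥0∞) (x : V n) : P t (fun _ => c) x = c := by
  unfold P
  rw [lintegral_mul_const _ (by fun_prop), lintegral_G_sub_left ht, one_mul]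

lemma P_const_mul (t : ℝ) {f : V n → ℝ≥0∞} (hf : Measurable f) (c : ℝ≥0∞) (x : V n) :
    P t (fun y => c * f y) x = c * P t f x := by
  unfold P
  rw [← lintegral_const_mul _ (by fun_prop)]
  congr 1; funext y; ring

lemma P_le_of_le {t : ℝ} (ht : 0 < t) {f : V n → ℝ≥0∞} {c : ℝ≥0∞} (h : ∀ x, f x ≤ c) (x : V n) :
    P t f x ≤ c := by
  calc _ ≤ P t (fun _ => c) x := P_mono t h x
    _ = c := P_const ht c x

/-- semigroup property for operators. -/
lemma P_P {s t : ℝ} (hs : 0 < s) (ht : 0 < t) {f : V n → ℝ≥0∞} (hf : Measurable f) (x : V n) :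
    P s (P t f) x = P (s + t) f x := by
  unfold P
  calc ∫⁻ z, G s (x - z) * ∫⁻ y, G t (z - y) * f y
      = ∫⁻ z, ∫⁻ y, G s (x - z) * (G t (z - y) * f y) := by
        congr 1; funext z
        rw [lintegral_const_mul _ (by fun_prop)]
    _ = ∫⁻ y, ∫⁻ z, G s (x - z) * (G t (z - y) * f y) := by
        apply lintegral_lintegral_swap
        fun_prop
    _ = ∫⁻ y, G (s + t) (x - y) * f y := by
        congr 1; funext y
        simp_rw [← mul_assoc]
        rw [lintegral_mul_const _ (by fun_prop), lintegral_G_mul_G hs ht]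

lemma lintegral_P {t : ℝ} (ht : 0 < t) {f : V n → ℝ≥0∞} (hf : Measurable f) :
    ∫⁻ x, P t f x = ∫⁻ x, f x := by
  unfold P
  rw [lintegral_lintegral_swap (by fun_prop)]
  congr 1; funext y
  rw [lintegral_mul_const _ (by fun_prop), lintegral_G_sub_right ht, one_mul]

/-- symmetry. -/
lemma lintegral_P_mul (t : ℝ) {f g : V n → ℝ≥0∞} (hf : Measurable f) (hg : Measurable g) :
    ∫⁻ x, P t f x * g x = ∫⁻ x, f x * P t g x := by
  unfold P
  calc ∫⁻ x, (∫⁻ y, G t (x - y) * f y) * g x
      = ∫⁻ x, ∫⁻ y, G t (x - y) * f y * g x := by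
        congr 1; funext x
        rw [lintegral_mul_const _ (by fun_prop)]
    _ = ∫⁻ y, ∫⁻ x, G t (x - y) * f y * g x := by
        apply lintegral_lintegral_swap
        fun_prop
    _ = ∫⁻ y, f y * ∫⁻ x, G t (y - x) * g x := by
        congr 1; funext y
        rw [← lintegral_const_mul _ (by fun_prop)]
        congr 1; funext x
        rw [G_sub_comm]; ring

lemma P_le_lintegral {t : ℝ} (ht : 0 < t) {f : V n → ℝ≥0∞} (x : V n) :
    P t f x ≤ ENNReal.ofReal ((4 * π * t) ^ (-(n : ℝ) / 2)) * ∫⁻ y, f y := by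
  unfold P
  calc _ ≤ ∫⁻ y, ENNReal.ofReal ((4 * π * t) ^ (-(n : ℝ) / 2)) * f y := by
        gcongr with y
        exact ENNReal.ofReal_le_ofReal (hk_le ht _)
    _ = _ := by
        rw [lintegral_const_mul' _ _ ENNReal.ofReal_ne_top]

lemma P_ne_top {t : ℝ} (ht : 0 < t) {f : V n → ℝ≥0∞} (hfi : ∫⁻ y, f y ≠ ∞) (x : V n) :
    P t f x ≠ ∞ := by
  refine ne_top_of_le_ne_top ?_ (P_le_lintegral ht x)
  exact ENNReal.mul_ne_top ENNReal.ofReal_ne_top hfi

end H28D
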