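import Pool.Agent.H28Dyadic.Heat1

set_option autoImplicit false

open MeasureTheory Real
open scoped ENNReal

namespace H28D

variable {n : ℕ}

lemma re_aux (σ α : ℝ) : (1 - 4 * Complex.I * α * σ : ℂ).re = 1 := by
  simp [Complex.mul_re, Complex.mul_im]

lemma im_aux (σ α : ℝ) : (1 - 4 * Complex.I * α * σ : ℂ).im = -(4 * α * σ) := by
  simp [Complex.mul_re, Complex.mul_im]

lemma ne_aux (σ α : ℝ) : (1 - 4 * Complex.I * α * σ : ℂ) ≠ 0 := by
  intro h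
  have := re_aux σ α
  rw [h] at this
  simp at this

lemma arg_aux (σ α : ℝ) : (1 - 4 * Complex.I * α * σ : ℂ).arg ≠ π := by
  intro h
  rw [Complex.arg_eq_pi_iff] at h
  rw [re_aux] at h
  linarith [h.1]

lemma ofReal_mul_cpow {a : ℝ} (ha : 0 < a) {b : ℂ} (hb : b ≠ 0) (r : ℂ) :
    ((a : ℂ) * b) ^ r = (a : ℂ) ^ r * b ^ r := by
  have ha' : (a : ℂ) ≠ 0 := by exact_mod_cast ha.ne'
  rw [Complex.cpow_def_of_ne_zero (mul_ne_zero ha' hb), Complex.log_ofReal_mul ha hb,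
    Complex.ofReal_log ha.le, add_mul, Complex.exp_add, ← Complex.cpow_def_of_ne_zero ha',
    ← Complex.cpow_def_of_ne_zero hb]

/-- general complex Gaussian integral against the heat kernel. -/
lemma integral_hk_cexp_lin {σ : ℝ} (hσ : 0 < σ) (α : ℝ) (c : ℂ) (w : V n) :
    ∫ v : V n, (hk σ v : ℂ) * Complex.exp (Complex.I * α * ‖v‖ ^ 2 + c * (inner ℝ w v : ℝ)) =
      (1 - 4 * Complex.I * α * σ) ^ (-(n : ℂ) / 2) *
        Complex.exp (c ^ 2 * ‖w‖ ^ 2 * σ / (1 - 4 * Complex.I * α * σ)) := by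
  set B : ℂ := (1 - 4 * Complex.I * α * σ) / (4 * σ) with hB
  have hne := ne_aux σ α
  have hσc : (σ : ℂ) ≠ 0 := by exact_mod_cast hσ.ne'
  have hBre : 0 < B.re := by
    have : B = (1 - 4 * Complex.I * α * σ) / ((4 * σ : ℝ) : ℂ) := by rw [hB]; push_cast; ring
    rw [this, Complex.div_ofReal_re, re_aux]
    positivity
  have h1 : ∀ v : V n, (hk σ v : ℂ) *
      Complex.exp (Complex.I * α * ‖v‖ ^ 2 + c * (inner ℝ w v : ℝ)) =
      (((4 * π * σ) ^ (-(n : ℝ) / 2) : ℝ) : ℂ) *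
        Complex.exp (-B * ‖v‖ ^ 2 + c * (inner ℝ w v : ℝ)) := by
    intro v
    unfold hk
    push_cast
    rw [mul_assoc, ← Complex.exp_add]
    congr 2
    rw [hB]
    field_simp
    ring
  simp_rw [h1]
  rw [integral_const_mul, GaussianFourier.integral_cexp_neg_mul_sq_norm_add hBre,
    finrank_euclideanSpace_fin, ← mul_assoc]
  congr 1
  · have h2 : (π : ℂ) / B = ((4 * π * σ : ℝ) : ℂ) * (1 - 4 * Complex.I * α * σ)⁻¹ := by
      rw [hB]; push_cast; field_simp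
    rw [h2, ofReal_mul_cpow (by positivity) (inv_ne_zero hne), Complex.inv_cpow _ _ (arg_aux σ α)]
    rw [Complex.ofReal_cpow (by positivity), ← mul_assoc, ← Complex.cpow_neg]
    have h3 : (((4 * π * σ : ℝ) : ℂ) ^ (((-(n : ℝ) / 2 : ℝ)) : ℂ)) *
        ((4 * π * σ : ℝ) : ℂ) ^ ((n : ℂ) / 2) = 1 := by
      rw [← Complex.cpow_add _ _ (by exact_mod_cast (by positivity : (4 * π * σ : ℝ) ≠ 0))]
      have : (((-(n : ℝ) / 2 : ℝ)) : ℂ) + (n : ℂ) / 2 = 0 := by push_cast; ring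
      rw [this, Complex.cpow_zero]
    rw [h3, one_mul]
    congr 1
    ring
  · congr 1
    rw [hB]
    field_simp

lemma integrable_hk_cexp_lin {σ : ℝ} (hσ : 0 < σ) (α : ℝ) (c : ℂ) (w : V n) :
    Integrable fun v : V n =>
      (hk σ v : ℂ) * Complex.exp (Complex.I * α * ‖v‖ ^ 2 + c * (inner ℝ w v : ℝ)) := by
  set B : ℂ := (1 - 4 * Complex.I * α * σ) / (4 * σ) with hB
  have hσc : (σ : ℂ) ≠ 0 := by exact_mod_cast hσ.ne'
  have hBre : 0 < B.re := by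
    have : B = (1 - 4 * Complex.I * α * σ) / ((4 * σ : ℝ) : ℂ) := by rw [hB]; push_cast; ring
    rw [this, Complex.div_ofReal_re, re_aux]
    positivity
  have h1 : ∀ v : V n, (hk σ v : ℂ) *
      Complex.exp (Complex.I * α * ‖v‖ ^ 2 + c * (inner ℝ w v : ℝ)) =
      (((4 * π * σ) ^ (-(n : ℝ) / 2) : ℝ) : ℂ) *
        Complex.exp (-B * ‖v‖ ^ 2 + c * (inner ℝ w v : ℝ)) := by
    intro v
    unfold hk
    push_cast
    rw [mul_assoc, ← Complex.exp_add]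
    congr 2
    rw [hB]
    field_simp
    ring
  simp_rw [h1]
  exact (GaussianFourier.integrable_cexp_neg_mul_sq_norm_add hBre c w).const_mul _

/-- (0.3), centred: the value of the reference constant. -/
lemma integral_hk_cexp {σ : ℝ} (hσ : 0 < σ) (α : ℝ) (b : V n) :
    ∫ w : V n, (hk σ w : ℂ) * Complex.exp (Complex.I * α * ‖w + b‖ ^ 2) =
      (1 - 4 * Complex.I * α * σ) ^ (-(n : ℂ) / 2) *
        Complex.exp (Complex.I * α * ‖b‖ ^ 2 / (1 - 4 * Complex.I * α * σ)) := by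
  have hne := ne_aux σ α
  have h1 : ∀ w : V n, (hk σ w : ℂ) * Complex.exp (Complex.I * α * ‖w + b‖ ^ 2) =
      Complex.exp (Complex.I * α * ‖b‖ ^ 2) * ((hk σ w : ℂ) *
        Complex.exp (Complex.I * α * ‖w‖ ^ 2 + (2 * Complex.I * α) * (inner ℝ b w : ℝ))) := by
    intro w
    rw [mul_left_comm, ← Complex.exp_add]
    congr 2
    have : (‖w + b‖ : ℂ) ^ 2 = ‖w‖ ^ 2 + 2 * (inner ℝ b w : ℝ) + ‖b‖ ^ 2 := by
      rw [← Complex.ofReal_pow, norm_add_sq_real, real_inner_comm]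
      push_cast; ring
    rw [this]; ring
  simp_rw [h1]
  rw [integral_const_mul, integral_hk_cexp_lin hσ, mul_left_comm, ← Complex.exp_add]
  congr 2
  rw [eq_div_iff hne, add_mul, div_mul_cancel₀ _ hne]
  ring

lemma norm_cpow_aux (n : ℕ) (σ α : ℝ) :
    ‖(1 - 4 * Complex.I * α * σ : ℂ) ^ (-(n : ℂ) / 2)‖ = (1 + 16 * α ^ 2 * σ ^ 2) ^ (-(n : ℝ) / 4) := by
  have h1 : (-(n : ℂ) / 2) = ((-(n : ℝ) / 2 : ℝ) : ℂ) := by push_cast; ring
  rw [h1, Complex.norm_cpow_real]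
  have h2 : ‖(1 - 4 * Complex.I * α * σ : ℂ)‖ = (1 + 16 * α ^ 2 * σ ^ 2) ^ (1 / 2 : ℝ) := by
    rw [Complex.norm_def, Complex.normSq_apply, re_aux, im_aux, Real.sqrt_eq_rpow]
    congr 1; ring
  rw [h2, ← Real.rpow_mul (by positivity)]
  congr 1; ring

/-- real part of the exponent is nonpositive. -/
lemma norm_exp_aux (σ α b : ℝ) :
    ‖Complex.exp (Complex.I * α * b ^ 2 / (1 - 4 * Complex.I * α * σ))‖ ≤
      Real.exp (-(4 * α ^ 2 * σ * b ^ 2) / (1 + 16 * α ^ 2 * σ ^ 2)) := by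
  rw [Complex.norm_exp]
  apply Real.exp_le_exp.2
  apply le_of_eq
  have hne := ne_aux σ α
  have h16 : (1 + 16 * (α : ℂ) ^ 2 * σ ^ 2) ≠ 0 := by
    have : (1 + 16 * α ^ 2 * σ ^ 2 : ℝ) ≠ 0 := by positivity
    exact_mod_cast this
  have h : Complex.I * α * b ^ 2 / (1 - 4 * Complex.I * α * σ) =
      ((-(4 * α ^ 2 * σ * b ^ 2) / (1 + 16 * α ^ 2 * σ ^ 2) : ℝ) : ℂ) +
        ((α * b ^ 2 / (1 + 16 * α ^ 2 * σ ^ 2) : ℝ) : ℂ) * Complex.I := by
    rw [div_eq_iff hne]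
    push_cast
    rw [div_mul_eq_mul_div, ← add_div, div_mul_eq_mul_div, eq_div_iff h16]
    linear_combination (4 * (α : ℂ) ^ 2 * σ * b ^ 2) * Complex.I_sq
  rw [h]
  simp only [Complex.add_re, Complex.ofReal_re, Complex.mul_re, Complex.I_re, mul_zero,
    Complex.ofReal_im, Complex.I_im, mul_one, sub_self, add_zero]

/-- (0.3): bound. -/
lemma norm_integral_hk_cexp_le {σ : ℝ} (hσ : 0 < σ) (α : ℝ) (m y : V n) :
    ‖∫ z : V n, (hk σ (z - m) : ℂ) * Complex.exp (Complex.I * α * ‖z - y‖ ^ 2)‖ ≤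
      (1 + 16 * α ^ 2 * σ ^ 2) ^ (-(n : ℝ) / 4) := by
  have h1 : ∫ z : V n, (hk σ (z - m) : ℂ) * Complex.exp (Complex.I * α * ‖z - y‖ ^ 2) =
      ∫ w : V n, (hk σ w : ℂ) * Complex.exp (Complex.I * α * ‖w + (m - y)‖ ^ 2) := by
    rw [← integral_sub_right_eq_self
      (fun w : V n => (hk σ w : ℂ) * Complex.exp (Complex.I * α * ‖w + (m - y)‖ ^ 2)) m]
    congr 1; funext z
    have : z - m + (m - y) = z - y := by abel
    rw [this]
  rw [h1, integral_hk_cexp hσ, norm_mul, norm_cpow_aux]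
  have h2 := norm_exp_aux σ α ‖m - y‖
  have h3 : Real.exp (-(4 * α ^ 2 * σ * ‖m - y‖ ^ 2) / (1 + 16 * α ^ 2 * σ ^ 2)) ≤ 1 := by
    apply Real.exp_le_one_iff.2
    apply div_nonpos_of_nonpos_of_nonneg
    · simp only [Left.neg_nonpos_iff]; positivity
    · positivity
  calc _ ≤ (1 + 16 * α ^ 2 * σ ^ 2) ^ (-(n : ℝ) / 4) * 1 := by
        gcongr
        exact h2.trans h3
    _ = _ := mul_one _

/-- (0.3): modulus of the reference constant. -/
lemma norm_integral_hk_cexp {σ : ℝ} (hσ : 0 < σ) (α : ℝ) :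
    ‖∫ w : V n, (hk σ w : ℂ) * Complex.exp (Complex.I * α * ‖w‖ ^ 2)‖ =
      (1 + 16 * α ^ 2 * σ ^ 2) ^ (-(n : ℝ) / 4) := by
  have h := integral_hk_cexp (n := n) hσ α 0
  simp only [add_zero, norm_zero, Complex.ofReal_zero, ne_eq, OfNat.ofNat_ne_zero,
    not_false_eq_true, zero_pow, mul_zero, zero_div, Complex.exp_zero, mul_one] at h
  rw [h, norm_cpow_aux]

/-- value of the reference constant. -/
lemma integral_hk_cexp_zero {σ : ℝ} (hσ : 0 < σ) (α : ℝ) :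
    ∫ w : V n, (hk σ w : ℂ) * Complex.exp (Complex.I * α * ‖w‖ ^ 2) =
      (1 - 4 * Complex.I * α * σ) ^ (-(n : ℂ) / 2) := by
  have h := integral_hk_cexp (n := n) hσ α 0
  simpa using h

/-- (0.4) with the phase. -/
lemma integral_hk_cexp_inner {σ : ℝ} (hσ : 0 < σ) (m b : V n) :
    ∫ x : V n, (hk σ (x - m) : ℂ) * Complex.exp (Complex.I * (inner ℝ b x : ℝ)) =
      Complex.exp (Complex.I * (inner ℝ b m : ℝ)) * Real.exp (-σ * ‖b‖ ^ 2) := by
  have h1 : ∫ x : V n, (hk σ (x - m) : ℂ) * Complex.exp (Complex.I * (inner ℝ b x : ℝ)) =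
      ∫ w : V n, Complex.exp (Complex.I * (inner ℝ b m : ℝ)) *
        ((hk σ w : ℂ) * Complex.exp (Complex.I * (0 : ℝ) * ‖w‖ ^ 2 +
          Complex.I * (inner ℝ b w : ℝ))) := by
    rw [← integral_sub_right_eq_self (fun w : V n => Complex.exp (Complex.I * (inner ℝ b m : ℝ)) *
        ((hk σ w : ℂ) * Complex.exp (Complex.I * (0 : ℝ) * ‖w‖ ^ 2 +
          Complex.I * (inner ℝ b w : ℝ)))) m]
    congr 1; funext z
    rw [mul_left_comm, ← Complex.exp_add]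
    congr 2
    rw [inner_sub_right]
    push_cast; ring
  rw [h1, integral_const_mul, integral_hk_cexp_lin hσ]
  congr 1
  have : (1 - 4 * Complex.I * ((0 : ℝ) : ℂ) * σ : ℂ) = 1 := by simp
  rw [this, Complex.one_cpow, one_mul, div_one, Complex.I_sq]
  push_cast
  congr 1; ring

/-- (0.4). -/
lemma norm_integral_hk_cexp_inner {σ : ℝ} (hσ : 0 < σ) (m b : V n) :
    ‖∫ x : V n, (hk σ (x - m) : ℂ) * Complex.exp (Complex.I * (inner ℝ b x : ℝ))‖ =
      Real.exp (-σ * ‖b‖ ^ 2) := by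
  rw [integral_hk_cexp_inner hσ, norm_mul, mul_comm Complex.I, Complex.norm_exp_ofReal_mul_I,
    one_mul, Complex.norm_real, Real.norm_of_nonneg (Real.exp_pos _).le]

end H28D
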