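import Pool.Agent.H28Dyadic.Heat2

/-! Second moments. -/

set_option autoImplicit false

open MeasureTheory Real
open scoped ENNReal

namespace H28D

variable {n : ℕ}

/-- moment generating function. -/
lemma integral_hk_exp_inner {σ : ℝ} (hσ : 0 < σ) (s : ℝ) (w : V n) :
    Integrable (fun v : V n => hk σ v * Real.exp (s * inner ℝ w v)) ∧
    ∫ v : V n, hk σ v * Real.exp (s * inner ℝ w v) = Real.exp (s ^ 2 * ‖w‖ ^ 2 * σ) := by
  have hi := integrable_hk_cexp_lin hσ 0 (s : ℂ) w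
  have he : ∀ v : V n, (hk σ v : ℂ) *
      Complex.exp (Complex.I * (0 : ℝ) * ‖v‖ ^ 2 + s * (inner ℝ w v : ℝ)) =
      ((hk σ v * Real.exp (s * inner ℝ w v) : ℝ) : ℂ) := by
    intro v
    push_cast
    congr 2
    ring
  simp_rw [he] at hi
  have hi2 : Integrable (fun v : V n => hk σ v * Real.exp (s * inner ℝ w v)) := by
    refine hi.re.congr (Filter.Eventually.of_forall fun v => ?_)
    exact Complex.ofReal_re _
  refine ⟨hi2, ?_⟩
  have h := integral_hk_cexp_lin hσ 0 (s : ℂ) w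
  simp_rw [he] at h
  rw [integral_complex_ofReal] at h
  have h2 : (1 - 4 * Complex.I * ((0 : ℝ) : ℂ) * σ : ℂ) = 1 := by simp
  rw [h2, Complex.one_cpow, one_mul, div_one] at h
  exact_mod_cast h

/-- (0.4), real part. -/
lemma integral_hk_cos_inner {σ : ℝ} (hσ : 0 < σ) (s : ℝ) (w : V n) :
    Integrable (fun v : V n => hk σ v * Real.cos (s * inner ℝ w v)) ∧
    ∫ v : V n, hk σ v * Real.cos (s * inner ℝ w v) = Real.exp (-(s ^ 2 * ‖w‖ ^ 2 * σ)) := by
  have hi := integrable_hk_cexp_lin hσ 0 (Complex.I * s : ℂ) w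
  have he : ∀ v : V n, ((hk σ v : ℂ) *
      Complex.exp (Complex.I * (0 : ℝ) * ‖v‖ ^ 2 + (Complex.I * s) * (inner ℝ w v : ℝ))).re =
      hk σ v * Real.cos (s * inner ℝ w v) := by
    intro v
    rw [Complex.re_ofReal_mul]
    congr 1
    have : Complex.I * ((0 : ℝ) : ℂ) * ‖v‖ ^ 2 + (Complex.I * s) * (inner ℝ w v : ℝ) =
      ((s * inner ℝ w v : ℝ) : ℂ) * Complex.I := by push_cast; ring
    rw [this, Complex.exp_ofReal_mul_I_re]
  have hi2 : Integrable (fun v : V n => hk σ v * Real.cos (s * inner ℝ w v)) := by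
    refine hi.re.congr (Filter.Eventually.of_forall fun v => ?_)
    exact he v
  refine ⟨hi2, ?_⟩
  have h := integral_hk_cexp_lin hσ 0 (Complex.I * s : ℂ) w
  have h3 : ∫ v : V n, hk σ v * Real.cos (s * inner ℝ w v) =
      (∫ v : V n, (hk σ v : ℂ) *
      Complex.exp (Complex.I * (0 : ℝ) * ‖v‖ ^ 2 + (Complex.I * s) * (inner ℝ w v : ℝ))).re := by
    have := integral_re hi
    simp only [RCLike.re_to_complex] at this
    rw [← this]
    congr 1; funext v
    exact (he v).symm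
  rw [h3, h]
  have h2 : (1 - 4 * Complex.I * ((0 : ℝ) : ℂ) * σ : ℂ) = 1 := by simp
  rw [h2, Complex.one_cpow, one_mul, div_one, mul_pow, Complex.I_sq]
  have : (-1 * (s : ℂ) ^ 2 * (‖w‖ : ℂ) ^ 2 * σ) = ((-(s ^ 2 * ‖w‖ ^ 2 * σ) : ℝ) : ℂ) := by
    push_cast; ring
  rw [this, ← Complex.ofReal_exp, Complex.ofReal_re]

lemma sq_le_two_cosh_sub_two (x : ℝ) : x ^ 2 ≤ Real.exp x + Real.exp (-x) - 2 := by
  have h1 : Real.exp x + Real.exp (-x) - 2 = (2 * Real.sinh (x / 2)) ^ 2 := by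
    rw [Real.sinh_eq]
    have e1 : Real.exp x = Real.exp (x / 2) ^ 2 := by rw [← Real.exp_nat_mul]; congr 1; push_cast; ring
    have e2 : Real.exp (-x) = Real.exp (-(x / 2)) ^ 2 := by
      rw [← Real.exp_nat_mul]; congr 1; push_cast; ring
    have e3 : Real.exp (x / 2) * Real.exp (-(x / 2)) = 1 := by
      rw [← Real.exp_add]; simp
    rw [e1, e2]
    linear_combination 2 * e3
  rw [h1]
  have h2 : |x / 2| ≤ |Real.sinh (x / 2)| := by
    rcases le_total 0 (x / 2) with h | h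
    · rw [abs_of_nonneg h, abs_of_nonneg (Real.sinh_nonneg_iff.2 h)]
      exact Real.self_le_sinh_iff.2 h
    · rw [abs_of_nonpos h, abs_of_nonpos (Real.sinh_nonpos_iff.2 h)]
      linarith [Real.sinh_le_self_iff.2 h]
  have h3 : |x| ≤ |2 * Real.sinh (x / 2)| := by
    rw [abs_mul, abs_of_pos (by norm_num : (0:ℝ) < 2)]
    have : |x| = 2 * |x / 2| := by rw [abs_div, abs_of_pos (by norm_num : (0:ℝ) < 2)]; ring
    rw [this]; linarith
  exact sq_le_sq.2 h3

lemma integrable_hk_inner_sq {t : ℝ} (ht : 0 < t) (d : V n) :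
    Integrable fun z : V n => hk t z * (inner ℝ z d : ℝ) ^ 2 := by
  have h1 := (integral_hk_exp_inner ht 1 d).1
  have h2 := (integral_hk_exp_inner ht (-1) d).1
  have h3 := (h1.add h2).sub ((integrable_hk ht).mul_const 2)
  refine h3.mono' (by fun_prop) (Filter.Eventually.of_forall fun z => ?_)
  have h0 := hk_nonneg t ht.le z
  rw [Real.norm_of_nonneg (by positivity)]
  simp only [Pi.add_apply, Pi.sub_apply]
  have := sq_le_two_cosh_sub_two (inner ℝ d z)
  rw [real_inner_comm d z]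
  have h4 := mul_le_mul_of_nonneg_left this h0
  have e1 : (1 : ℝ) * inner ℝ d z = inner ℝ d z := one_mul _
  have e2 : (-1 : ℝ) * inner ℝ d z = -inner ℝ d z := by ring
  rw [e1, e2]
  linarith

open Filter Topology in
/-- (0.5). -/
lemma integral_hk_inner_sq {t : ℝ} (ht : 0 < t) (d : V n) :
    ∫ z : V n, hk t z * (inner ℝ z d : ℝ) ^ 2 = 2 * t * ‖d‖ ^ 2 := by
  set J := ∫ z : V n, hk t z * (inner ℝ z d : ℝ) ^ 2 with hJ
  set a := ‖d‖ ^ 2 * t with ha
  -- upper and lower bounds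
  have hup : ∀ s : ℝ, s ^ 2 * J ≤ 2 * Real.exp (a * s ^ 2) - 2 := by
    intro s
    have h1 := integral_hk_exp_inner ht s d
    have h2 := integral_hk_exp_inner ht (-s) d
    have h3 : ∫ z : V n, (hk t z * Real.exp (s * inner ℝ d z) +
        hk t z * Real.exp (-s * inner ℝ d z) - hk t z * 2) =
        2 * Real.exp (a * s ^ 2) - 2 := by
      have h12 : Integrable (fun z : V n => hk t z * Real.exp (s * inner ℝ d z) +
        hk t z * Real.exp (-s * inner ℝ d z)) := h1.1.add h2.1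
      rw [integral_sub h12 ((integrable_hk ht).mul_const 2), integral_add h1.1 h2.1,
        h1.2, h2.2, integral_mul_const, integral_hk ht]
      have e1 : s ^ 2 * ‖d‖ ^ 2 * t = a * s ^ 2 := by rw [ha]; ring
      have e2 : (-s) ^ 2 * ‖d‖ ^ 2 * t = a * s ^ 2 := by rw [ha]; ring
      rw [e1, e2]; ring
    rw [← h3, hJ, ← integral_const_mul]
    apply integral_mono ((integrable_hk_inner_sq ht d).const_mul _)
      ((h1.1.add h2.1).sub ((integrable_hk ht).mul_const 2))
    intro z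
    have h0 := hk_nonneg t ht.le z
    have := sq_le_two_cosh_sub_two (s * inner ℝ d z)
    have h4 := mul_le_mul_of_nonneg_left this h0
    simp only
    rw [real_inner_comm d z]
    have e2 : (-s : ℝ) * inner ℝ d z = -(s * inner ℝ d z) := by ring
    simp only [Pi.add_apply, Pi.sub_apply]
    rw [e2]
    nlinarith [h4]
  have hlo : ∀ s : ℝ, 2 - 2 * Real.exp (-(a * s ^ 2)) ≤ s ^ 2 * J := by
    intro s
    have h1 := integral_hk_cos_inner ht s d
    have h3 : ∫ z : V n, (hk t z * 2 - 2 * (hk t z * Real.cos (s * inner ℝ d z))) =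
        2 - 2 * Real.exp (-(a * s ^ 2)) := by
      rw [integral_sub ((integrable_hk ht).mul_const 2) (h1.1.const_mul 2), integral_mul_const,
        integral_hk ht, integral_const_mul, h1.2]
      have e1 : s ^ 2 * ‖d‖ ^ 2 * t = a * s ^ 2 := by rw [ha]; ring
      rw [e1]; ring
    rw [← h3, hJ, ← integral_const_mul]
    apply integral_mono (((integrable_hk ht).mul_const 2).sub (h1.1.const_mul 2))
      ((integrable_hk_inner_sq ht d).const_mul _)
    intro z
    have h0 := hk_nonneg t ht.le z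
    have := Real.one_sub_sq_div_two_le_cos (x := s * inner ℝ d z)
    have h4 := mul_le_mul_of_nonneg_left this h0
    simp only [Pi.sub_apply]
    rw [real_inner_comm d z]
    nlinarith [h4]
  -- limits
  have hs : Tendsto (fun k : ℕ => (1 : ℝ) / ((k : ℝ) + 1)) atTop (𝓝 0) :=
    tendsto_one_div_add_atTop_nhds_zero_nat
  have hs2 : Tendsto (fun k : ℕ => ((1 : ℝ) / ((k : ℝ) + 1)) ^ 2) atTop (𝓝[≠] 0) := by
    apply tendsto_nhdsWithin_of_tendsto_nhds_of_eventually_within
    · have := hs.pow 2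
      simpa using this
    · filter_upwards with k
      have : (0:ℝ) < ((1 : ℝ) / ((k : ℝ) + 1)) ^ 2 := by positivity
      exact this.ne'
  have hd1 : Tendsto (fun u : ℝ => u⁻¹ * (Real.exp (a * u) - 1)) (𝓝[≠] 0) (𝓝 a) := by
    have h : HasDerivAt (fun u : ℝ => Real.exp (a * u)) (Real.exp (a * 0) * (a * 1)) 0 :=
      ((hasDerivAt_id (0:ℝ)).const_mul a).exp
    have h2 := h.tendsto_slope_zero
    simpa using h2
  have hd2 : Tendsto (fun u : ℝ => u⁻¹ * (1 - Real.exp (-(a * u)))) (𝓝[≠] 0) (𝓝 a) := by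
    have h : HasDerivAt (fun u : ℝ => Real.exp (-(a * u))) (Real.exp (-(a * 0)) * (-(a * 1))) 0 :=
      (((hasDerivAt_id (0:ℝ)).const_mul a).neg).exp
    have h2 := h.tendsto_slope_zero.neg
    have h3 : Tendsto (fun u : ℝ => -(u⁻¹ * (Real.exp (-(a * u)) - 1))) (𝓝[≠] 0) (𝓝 a) := by
      simpa using h2
    refine h3.congr fun u => ?_
    ring
  have hub : J ≤ 2 * a := by
    have h1 := (hd1.comp hs2).const_mul 2
    refine ge_of_tendsto h1 (Filter.Eventually.of_forall fun k => ?_)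
    have hk := hup ((1 : ℝ) / ((k : ℝ) + 1))
    have hpos : (0:ℝ) < ((1 : ℝ) / ((k : ℝ) + 1)) ^ 2 := by positivity
    simp only [Function.comp]
    rw [← mul_assoc, mul_comm (2:ℝ), mul_assoc, ← div_eq_inv_mul, le_div_iff₀ hpos]
    linarith
  have hlb : 2 * a ≤ J := by
    have h1 := (hd2.comp hs2).const_mul 2
    refine le_of_tendsto h1 (Filter.Eventually.of_forall fun k => ?_)
    have hk := hlo ((1 : ℝ) / ((k : ℝ) + 1))
    have hpos : (0:ℝ) < ((1 : ℝ) / ((k : ℝ) + 1)) ^ 2 := by positivity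
    simp only [Function.comp]
    rw [← mul_assoc, mul_comm (2:ℝ), mul_assoc, ← div_eq_inv_mul, div_le_iff₀ hpos]
    linarith
  rw [le_antisymm hub hlb, ha]; ring

lemma lintegral_G_inner_sq {t : ℝ} (ht : 0 < t) (X d : V n) :
    ∫⁻ x : V n, G t (x - X) * ENNReal.ofReal ((inner ℝ (x - X) d : ℝ) ^ 2) =
      ENNReal.ofReal (2 * t * ‖d‖ ^ 2) := by
  rw [lintegral_sub_right_eq_self
    (fun z : V n => G t z * ENNReal.ofReal ((inner ℝ z d : ℝ) ^ 2)) X]
  rw [← integral_hk_inner_sq ht d, ofReal_integral_eq_lintegral_ofReal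
    (integrable_hk_inner_sq ht d)
    (Filter.Eventually.of_forall fun z => mul_nonneg (hk_nonneg t ht.le z) (sq_nonneg _))]
  congr 1; funext z
  unfold G
  rw [ENNReal.ofReal_mul (hk_nonneg t ht.le z)]

lemma norm_sq_eq_sum_inner (z : V n) :
    ‖z‖ ^ 2 = ∑ i, (inner ℝ z ((EuclideanSpace.basisFun (Fin n) ℝ) i) : ℝ) ^ 2 := by
  rw [EuclideanSpace.norm_sq_eq]
  congr 1; funext i
  rw [real_inner_comm, ← (EuclideanSpace.basisFun (Fin n) ℝ).repr_apply_apply]
  simp

lemma integrable_hk_norm_sq {t : ℝ} (ht : 0 < t) :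
    Integrable fun z : V n => hk t z * ‖z‖ ^ 2 := by
  simp_rw [norm_sq_eq_sum_inner, Finset.mul_sum]
  exact integrable_finsetSum _ fun i _ => integrable_hk_inner_sq ht _

lemma integral_hk_norm_sq {t : ℝ} (ht : 0 < t) :
    ∫ z : V n, hk t z * ‖z‖ ^ 2 = 2 * n * t := by
  simp_rw [norm_sq_eq_sum_inner, Finset.mul_sum]
  rw [integral_finsetSum _ fun i _ => integrable_hk_inner_sq ht _]
  simp_rw [integral_hk_inner_sq ht]
  simp
  ring

end H28D
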