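import Pool.Agent.H28Dyadic.Heat3

/-! Thin profile: Fourier representation, (G), (J). -/

set_option autoImplicit false

open MeasureTheory Real
open scoped ENNReal

namespace H28D

/-- the frequency `α(N) = N/(2 t √n)`. -/
noncomputable def al (n : ℕ) (t N : ℝ) : ℝ := N / (2 * t * √(n : ℝ))

/-- the weight `ρ_n(N) = (2π)^{-1/2} exp(-N²/(2n))`. -/
noncomputable def rho (n : ℕ) (N : ℝ) : ℝ := (√(2 * π))⁻¹ * Real.exp (-N ^ 2 / (2 * n))

@[fun_prop]
lemma continuous_al (n : ℕ) (t : ℝ) : Continuous (al n t) := by unfold al; fun_prop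

@[fun_prop]
lemma continuous_rho (n : ℕ) : Continuous (rho n) := by unfold rho; fun_prop

@[fun_prop]
lemma measurable_al (n : ℕ) (t : ℝ) : Measurable (al n t) := (continuous_al n t).measurable

@[fun_prop]
lemma measurable_rho (n : ℕ) : Measurable (rho n) := (continuous_rho n).measurable

lemma rho_pos (n : ℕ) (N : ℝ) : 0 < rho n N := by unfold rho; positivity

lemma rho_nonneg (n : ℕ) (N : ℝ) : 0 ≤ rho n N := (rho_pos n N).le

/-! ### exponential weights -/

lemma integrable_exp_neg_mul_abs {a : ℝ} (ha : 0 < a) :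
    Integrable fun x : ℝ => Real.exp (-a * |x|) := by
  have h1 : IntegrableOn (fun x : ℝ => Real.exp (-a * |x|)) (Set.Ioi 0) := by
    have := integrableOn_exp_mul_Ioi (a := -a) (by linarith) 0
    refine this.congr_fun (fun x hx => ?_) measurableSet_Ioi
    simp only [abs_of_pos (Set.mem_Ioi.1 hx)]
  have h2 : IntegrableOn (fun x : ℝ => Real.exp (-a * |x|)) (Set.Iic 0) := by
    have := integrableOn_exp_mul_Iic (a := a) ha 0
    refine this.congr_fun (fun x hx => ?_) measurableSet_Iic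
    simp only [abs_of_nonpos (Set.mem_Iic.1 hx)]
    congr 1; ring
  have h3 := h2.union h1
  rwa [Set.Iic_union_Ioi, integrableOn_univ] at h3

lemma integral_exp_neg_mul_abs {a : ℝ} (ha : 0 < a) :
    ∫ x : ℝ, Real.exp (-a * |x|) = 2 / a := by
  rw [integral_comp_abs (f := fun x => Real.exp (-a * x)),
    integral_exp_mul_Ioi (by linarith : -a < 0) 0]
  simp
  ring

lemma integrable_rho {n : ℕ} (hn : 1 ≤ n) : Integrable (rho n) := by
  unfold rho
  have hn' : (0:ℝ) < n := by exact_mod_cast hn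
  have h : Integrable fun x : ℝ => Real.exp (-(1 / (2 * (n : ℝ))) * x ^ 2) :=
    integrable_exp_neg_mul_sq (by positivity)
  refine (h.const_mul (√(2 * π))⁻¹).congr (Filter.Eventually.of_forall fun x => ?_)
  simp only
  congr 2
  ring

/-- Fourier representation of `R`. -/
lemma R_eq_integral {n : ℕ} (hn : 1 ≤ n) {t : ℝ} (ht : 0 < t) (Q q : ℝ) :
    (R n t Q q : ℂ) =
      ∫ N : ℝ, (rho n N : ℂ) * Complex.exp (Complex.I * al n t N * (q - Q)) := by
  have hn' : (0:ℝ) < n := by exact_mod_cast hn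
  have hsn : 0 < √(n : ℝ) := Real.sqrt_pos.2 hn'
  set u : ℝ := (q - Q) / (2 * t * √(n : ℝ)) with hu
  set b : ℂ := ((1 / (2 * (n : ℝ)) : ℝ) : ℂ) with hb
  have hbre : 0 < b.re := by rw [hb, Complex.ofReal_re]; positivity
  have h1 : ∀ N : ℝ, (rho n N : ℂ) * Complex.exp (Complex.I * al n t N * (q - Q)) =
      (((√(2 * π))⁻¹ : ℝ) : ℂ) * (Complex.exp (Complex.I * u * N) * Complex.exp (-b * N ^ 2)) := by
    intro N
    unfold rho al
    rw [Complex.ofReal_mul, mul_assoc]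
    congr 1
    rw [Complex.ofReal_exp, mul_comm]
    congr 2
    · rw [hu]; push_cast; ring
    · rw [hb]; push_cast; ring
  simp_rw [h1]
  rw [integral_const_mul, fourierIntegral_gaussian hbre]
  have h2 : (π : ℂ) / b = ((2 * π * n : ℝ) : ℂ) := by
    rw [hb, ← Complex.ofReal_div]
    congr 1
    field_simp
  have h3 : (1 / 2 : ℂ) = ((1 / 2 : ℝ) : ℂ) := by push_cast; ring
  have h4 : -(u : ℂ) ^ 2 / (4 * b) = ((-(q - Q) ^ 2 / (8 * t ^ 2) : ℝ) : ℂ) := by
    have h5 : -u ^ 2 / (4 * (1 / (2 * (n : ℝ)))) = -(q - Q) ^ 2 / (8 * t ^ 2) := by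
      rw [hu, div_pow, mul_pow, Real.sq_sqrt hn'.le]
      field_simp
      ring
    rw [hb, ← h5]
    push_cast
    ring
  rw [h2, h3, ← Complex.ofReal_cpow (by positivity), h4, ← Complex.ofReal_exp,
    ← Complex.ofReal_mul, ← Complex.ofReal_mul]
  congr 1
  unfold R
  rw [← Real.sqrt_eq_rpow, Real.sqrt_mul (by positivity) (n : ℝ)]
  have : √(2 * π) ≠ 0 := by positivity
  field_simp

/-- (G). -/
lemma gauss_G {n : ℕ} (hn : 1 ≤ n) (N : ℝ) :
    (1 + N ^ 2 / (4 * n)) ^ (-(n : ℝ) / 4) * Real.exp (-N ^ 2 / (2 * n)) ≤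
      2 * Real.exp (-|N| / 8) := by
  have hn' : (0:ℝ) < n := by exact_mod_cast hn
  set x : ℝ := N ^ 2 / (4 * n) with hx
  have hx0 : 0 ≤ x := by positivity
  have h1x : 0 < 1 + x := by linarith
  have hlog : x / (1 + x) ≤ Real.log (1 + x) := by
    have := Real.one_sub_inv_le_log_of_pos h1x
    have e : 1 - (1 + x)⁻¹ = x / (1 + x) := by field_simp; ring
    linarith
  have hN2 : N ^ 2 = |N| ^ 2 := (sq_abs N).symm
  have ha : 0 ≤ |N| := abs_nonneg N
  have hlog2 : (1 : ℝ) / 10 ≤ Real.log 2 := by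
    have := Real.log_two_gt_d9; linarith
  rw [Real.rpow_def_of_pos h1x, ← Real.exp_add]
  have h2' : (2 : ℝ) * Real.exp (-|N| / 8) = Real.exp (Real.log 2 + -|N| / 8) := by
    rw [Real.exp_add, Real.exp_log (by norm_num)]
  rw [h2']
  apply Real.exp_le_exp.2
  rcases le_or_gt (N ^ 2) n with hc | hc
  · -- N² ≤ n
    have h5 : 4 / 5 * x ≤ Real.log (1 + x) := by
      refine le_trans ?_ hlog
      rw [le_div_iff₀ h1x]
      have : x ≤ 1 / 4 := by
        rw [hx, div_le_iff₀ (by positivity)]; linarith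
      nlinarith
    have h6 : Real.log (1 + x) * (-(n : ℝ) / 4) ≤ -(N ^ 2 / 20) := by
      have : (n : ℝ) * x = N ^ 2 / 4 := by rw [hx]; field_simp
      nlinarith
    have h7 : -N ^ 2 / (2 * (n : ℝ)) ≤ 0 := by
      apply div_nonpos_of_nonpos_of_nonneg
      · simp only [Left.neg_nonpos_iff]; positivity
      · positivity
    have h8 : -(|N| ^ 2 / 20) ≤ Real.log 2 + -|N| / 8 := by
      nlinarith [sq_nonneg (|N| - 5 / 4)]
    rw [hN2] at h6
    linarith
  · have h5 : 1 / 5 ≤ Real.log (1 + x) := by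
      refine le_trans ?_ hlog
      rw [le_div_iff₀ h1x]
      have : 1 / 4 ≤ x := by
        rw [hx, le_div_iff₀ (by positivity)]; linarith
      nlinarith
    have h6 : Real.log (1 + x) * (-(n : ℝ) / 4) ≤ -(n / 20) := by nlinarith
    have h7 : -(n / 20 : ℝ) + -N ^ 2 / (2 * (n : ℝ)) ≤ -|N| / 8 := by
      rw [hN2]
      have : -(n / 20 : ℝ) + -|N| ^ 2 / (2 * (n : ℝ)) - -|N| / 8 =
          -((n : ℝ) ^ 2 / 20 + |N| ^ 2 / 2 - n * |N| / 8) / n := by field_simp; ring
      have h9 : 0 ≤ (n : ℝ) ^ 2 / 20 + |N| ^ 2 / 2 - n * |N| / 8 := by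
        nlinarith [sq_nonneg ((n : ℝ) / 8 - |N|), sq_nonneg (n : ℝ), sq_nonneg |N|]
      have h10 : -((n : ℝ) ^ 2 / 20 + |N| ^ 2 / 2 - n * |N| / 8) / n ≤ 0 := by
        apply div_nonpos_of_nonpos_of_nonneg
        · linarith
        · positivity
      linarith
    linarith

/-- consequence of (G) in the form used for integrals. -/
lemma rho_mul_le {n : ℕ} (hn : 1 ≤ n) (N : ℝ) :
    rho n N * (1 + N ^ 2 / (4 * n)) ^ (-(n : ℝ) / 4) ≤ 4 / 5 * Real.exp (-(1 / 8) * |N|) := by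
  have h := gauss_G hn N
  unfold rho
  have hs : (√(2 * π))⁻¹ ≤ 2 / 5 := by
    have : (5 / 2 : ℝ) ≤ √(2 * π) := by
      apply Real.le_sqrt_of_sq_le
      have := Real.pi_gt_d2
      norm_num at this ⊢
      linarith
    rw [inv_le_comm₀ (by positivity) (by norm_num)]
    linarith
  have e : Real.exp (-|N| / 8) = Real.exp (-(1 / 8) * |N|) := by congr 1; ring
  rw [e] at h
  calc _ = (√(2 * π))⁻¹ * ((1 + N ^ 2 / (4 * n)) ^ (-(n : ℝ) / 4) *
        Real.exp (-N ^ 2 / (2 * n))) := by ring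
    _ ≤ 2 / 5 * (2 * Real.exp (-(1 / 8) * |N|)) := by
        gcongr
    _ = _ := by ring

/-- comparison of the Gaussian decay factors. -/
lemma decay_le {n : ℕ} (hn : 1 ≤ n) {t σ : ℝ} (ht : 0 < t) (hσ : t / 4 ≤ σ) (N : ℝ) :
    (1 + 16 * (al n t N) ^ 2 * σ ^ 2) ^ (-(n : ℝ) / 4) ≤
      (1 + N ^ 2 / (4 * n)) ^ (-(n : ℝ) / 4) := by
  have hn' : (0:ℝ) < n := by exact_mod_cast hn
  apply Real.rpow_le_rpow_of_nonpos (by positivity)
  · have h1 : (al n t N) ^ 2 = N ^ 2 / (4 * t ^ 2 * n) := by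
      unfold al
      rw [div_pow, mul_pow, mul_pow, Real.sq_sqrt hn'.le]; ring
    rw [h1]
    have h2 : t ^ 2 / 16 ≤ σ ^ 2 := by nlinarith
    have h3 : N ^ 2 / (4 * n) = 16 * (N ^ 2 / (4 * t ^ 2 * n)) * (t ^ 2 / 16) := by
      field_simp
    rw [h3]
    gcongr
  · apply div_nonpos_of_nonpos_of_nonneg
    · simp
    · norm_num

/-- (J), integral form, `C_J = 13`. -/
lemma thin_J_integral {n : ℕ} (hn : 1 ≤ n) {t σ : ℝ} (ht : 0 < t) (hσ : t / 4 ≤ σ) (Q : ℝ)
    (m y : V n) :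
    ∫ z, hk σ (z - m) * R n t Q (‖z - y‖ ^ 2) ≤ 16 := by
  have hσ0 : 0 < σ := by linarith
  have hn' : (0:ℝ) < n := by exact_mod_cast hn
  -- complex form
  have h1 : ((∫ z : V n, hk σ (z - m) * R n t Q (‖z - y‖ ^ 2) : ℝ) : ℂ) =
      ∫ z : V n, ∫ N : ℝ, (hk σ (z - m) : ℂ) *
        ((rho n N : ℂ) * Complex.exp (Complex.I * al n t N * ((‖z - y‖ ^ 2 : ℝ) - Q))) := by
    rw [← integral_complex_ofReal]
    congr 1; funext z
    rw [Complex.ofReal_mul, R_eq_integral hn ht, ← integral_const_mul]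
  have hint : Integrable (Function.uncurry fun (z : V n) (N : ℝ) => (hk σ (z - m) : ℂ) *
        ((rho n N : ℂ) * Complex.exp (Complex.I * al n t N * ((‖z - y‖ ^ 2 : ℝ) - Q))))
        (volume.prod volume) := by
    have hi : Integrable (fun z : V n => hk σ (z - m)) := (integrable_hk hσ0).comp_sub_right m
    have h2 := Integrable.mul_prod hi (integrable_rho hn)
    refine h2.mono' ?_ (Filter.Eventually.of_forall fun p => ?_)
    · apply Measurable.aestronglyMeasurable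
      unfold Function.uncurry
      fun_prop
    · simp only [Function.uncurry]
      rw [norm_mul, norm_mul, Complex.norm_real, Complex.norm_real,
        Real.norm_of_nonneg (hk_nonneg σ hσ0.le _), Real.norm_of_nonneg (rho_nonneg n _)]
      have : Complex.I * al n t p.2 * ((‖p.1 - y‖ ^ 2 : ℝ) - Q) =
          ((al n t p.2 * (‖p.1 - y‖ ^ 2 - Q) : ℝ) : ℂ) * Complex.I := by push_cast; ring
      rw [this, Complex.norm_exp_ofReal_mul_I, mul_one]
  rw [integral_integral_swap hint] at h1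
  have h3 : ‖((∫ z : V n, hk σ (z - m) * R n t Q (‖z - y‖ ^ 2) : ℝ) : ℂ)‖ ≤
      ∫ N : ℝ, 4 / 5 * Real.exp (-(1 / 8) * |N|) := by
    rw [h1]
    apply norm_integral_le_of_norm_le
      ((integrable_exp_neg_mul_abs (by norm_num)).const_mul _)
    refine Filter.Eventually.of_forall fun N => ?_
    have h4 : ∫ z : V n, (hk σ (z - m) : ℂ) *
        ((rho n N : ℂ) * Complex.exp (Complex.I * al n t N * ((‖z - y‖ ^ 2 : ℝ) - Q))) =
        ((rho n N : ℂ) * Complex.exp (-(Complex.I * al n t N * Q))) *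
        ∫ z : V n, (hk σ (z - m) : ℂ) * Complex.exp (Complex.I * al n t N * ‖z - y‖ ^ 2) := by
      rw [← integral_const_mul]
      congr 1; funext z
      have : Complex.I * al n t N * ((‖z - y‖ ^ 2 : ℝ) - Q) =
          -(Complex.I * al n t N * Q) + Complex.I * al n t N * ‖z - y‖ ^ 2 := by
        push_cast; ring
      rw [this, Complex.exp_add]; ring
    rw [h4, norm_mul, norm_mul, Complex.norm_real, Real.norm_of_nonneg (rho_nonneg n _)]
    have h5 : ‖Complex.exp (-(Complex.I * al n t N * Q))‖ = 1 := by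
      have : -(Complex.I * al n t N * Q) = ((-(al n t N * Q) : ℝ) : ℂ) * Complex.I := by
        push_cast; ring
      rw [this, Complex.norm_exp_ofReal_mul_I]
    rw [h5, mul_one]
    calc _ ≤ rho n N * (1 + 16 * (al n t N) ^ 2 * σ ^ 2) ^ (-(n : ℝ) / 4) := by
          apply mul_le_mul_of_nonneg_left _ (rho_nonneg n N)
          exact norm_integral_hk_cexp_le hσ0 (al n t N) m y
      _ ≤ rho n N * (1 + N ^ 2 / (4 * n)) ^ (-(n : ℝ) / 4) := by
          apply mul_le_mul_of_nonneg_left (decay_le hn ht hσ N) (rho_nonneg n N)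
      _ ≤ _ := rho_mul_le hn N
  rw [integral_const_mul, integral_exp_neg_mul_abs (by norm_num), Complex.norm_real] at h3
  have h6 := le_trans (Real.le_norm_self _) h3
  norm_num at h6 ⊢
  linarith

/-- integrability of the thin kernel. -/
lemma integrable_hk_mul_R {σ : ℝ} {n : ℕ} (hσ : 0 < σ) (t Q : ℝ) (m : V n) {g : V n → ℝ}
    (hg : Measurable g) : Integrable fun z => hk σ (z - m) * R n t Q (g z) := by
  have hi : Integrable (fun z : V n => hk σ (z - m)) := (integrable_hk hσ).comp_sub_right m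
  apply (hi.mul_const √(n : ℝ)).mono' (by fun_prop)
  refine Filter.Eventually.of_forall fun z => ?_
  rw [Real.norm_of_nonneg (mul_nonneg (hk_nonneg σ hσ.le _) (R_nonneg t Q _))]
  exact mul_le_mul_of_nonneg_left (R_le t Q _) (hk_nonneg σ hσ.le _)

/-- (J), with `C_J = 16`. -/
lemma thin_J {n : ℕ} (hn : 1 ≤ n) {t σ : ℝ} (ht : 0 < t) (hσ : t / 4 ≤ σ) (Q : ℝ) (m y : V n) :
    ∫⁻ z, G σ (z - m) * ENNReal.ofReal (R n t Q (‖z - y‖ ^ 2)) ≤ 16 := by
  have hσ0 : 0 < σ := by linarith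
  have h1 : ∫⁻ z : V n, G σ (z - m) * ENNReal.ofReal (R n t Q (‖z - y‖ ^ 2)) =
      ENNReal.ofReal (∫ z, hk σ (z - m) * R n t Q (‖z - y‖ ^ 2)) := by
    rw [ofReal_integral_eq_lintegral_ofReal (integrable_hk_mul_R hσ0 t Q m (by fun_prop))
      (Filter.Eventually.of_forall fun z =>
        mul_nonneg (hk_nonneg σ hσ0.le _) (R_nonneg t Q _))]
    congr 1; funext z
    unfold G
    rw [ENNReal.ofReal_mul (hk_nonneg σ hσ0.le _)]
  rw [h1]
  calc _ ≤ ENNReal.ofReal 16 := ENNReal.ofReal_le_ofReal (thin_J_integral hn ht hσ Q m y)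
    _ = 16 := by simp

lemma rr_le {n : ℕ} (hn : 1 ≤ n) {t τ : ℝ} (ht : 0 < t) (hτ : t / 4 ≤ τ) (Q q : ℝ) :
    rr n t Q τ q ≤ 16 := by
  have h := thin_J_integral hn ht hτ (Q - q) (0 : V n) 0
  unfold rr
  refine le_of_eq_of_le ?_ h
  congr 1; funext w
  rw [sub_zero]
  unfold R
  congr 4
  ring

lemma rr_nonneg {n : ℕ} {t τ : ℝ} (hτ : 0 ≤ τ) (Q q : ℝ) : 0 ≤ rr n t Q τ q := by
  unfold rr
  apply integral_nonneg
  intro w
  exact mul_nonneg (hk_nonneg τ hτ _) (R_nonneg t Q _)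

end H28D
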