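import Mathlib

/-!
# Section 7, part 1: the Fourier multiplier lemma (Mult)
-/

open MeasureTheory Complex FourierTransform Real Set
open scoped RealInnerProductSpace Convolution ENNReal

noncomputable section

namespace H28Dyadic

section General

variable {V : Type*} [NormedAddCommGroup V] [InnerProductSpace ℝ V] [FiniteDimensional ℝ V]
  [MeasurableSpace V] [BorelSpace V]

/-- Plancherel for continuous integrable functions with integrable Fourier transform. -/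
theorem plancherel_nice {F : V → ℂ} (hc : Continuous F) (hF : Integrable F)
    (hF' : Integrable (𝓕 F)) : ∫ ξ, ‖𝓕 F ξ‖ ^ 2 = ∫ x, ‖F x‖ ^ 2 := by
  have h := VectorFourier.integral_sesq_fourierIntegral_eq_neg_flip (innerSL ℂ : ℂ →L⋆[ℂ] ℂ →L[ℂ] ℂ)
    (L := innerₗ V) (μ := volume) (ν := volume) continuous_fourierChar continuous_inner hF hF'
  have h2 : ∫ ξ, (inner ℂ (𝓕 F ξ) (𝓕 F ξ) : ℂ) = ∫ x, (inner ℂ (F x) (F x) : ℂ) := by
    have h3 : ∀ x, VectorFourier.fourierIntegral 𝐞 volume (-(innerₗ V).flip) (𝓕 F) x = F x := by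
      intro x
      have := congrFun (hc.fourierInv_fourier_eq hF hF') x
      rw [← this]
      conv_rhs => rw [Real.fourierInv_eq]
      simp only [VectorFourier.fourierIntegral]
      congr 1
      ext v
      congr 2
      simp [real_inner_comm]
    simp only [h3] at h
    exact h
  apply Complex.ofRealLI.injective
  simpa [← LinearIsometry.integral_comp_comm, inner_self_eq_norm_sq_to_K] using h2

/-- Convolution with a nice kernel. -/
theorem conv_nice {K G : V → ℂ} (hKc : Continuous K) (hKi : Integrable K) {C : ℝ}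
    (hKb : ∀ v, ‖K v‖ ≤ C) (hKF : Integrable (𝓕 K)) (hG : Integrable G) :
    Continuous (G ⋆[ContinuousLinearMap.mul ℂ ℂ] K) ∧
    Integrable (G ⋆[ContinuousLinearMap.mul ℂ ℂ] K) ∧
    (∀ ξ, 𝓕 (G ⋆[ContinuousLinearMap.mul ℂ ℂ] K) ξ = 𝓕 G ξ * 𝓕 K ξ) ∧
    Integrable (𝓕 (G ⋆[ContinuousLinearMap.mul ℂ ℂ] K)) := by
  have hcont : Continuous (G ⋆[ContinuousLinearMap.mul ℂ ℂ] K) := by
    apply BddAbove.continuous_convolution_right_of_integrable
    · exact ⟨C, by rintro _ ⟨v, rfl⟩; exact hKb v⟩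
    · exact hG
    · exact hKc
  have hft : ∀ ξ, 𝓕 (G ⋆[ContinuousLinearMap.mul ℂ ℂ] K) ξ = 𝓕 G ξ * 𝓕 K ξ :=
    Real.fourier_mul_convolution_eq hG hKi
  refine ⟨hcont, hG.integrable_convolution _ hKi, hft, ?_⟩
  have hfG : Continuous (𝓕 G) :=
    VectorFourier.fourierIntegral_continuous continuous_fourierChar continuous_inner hG
  have : (𝓕 (G ⋆[ContinuousLinearMap.mul ℂ ℂ] K)) = fun ξ => 𝓕 G ξ * 𝓕 K ξ := funext hft
  rw [this]
  exact hKF.bdd_mul (c := ∫ v, ‖G v‖) hfG.aestronglyMeasurable (Filter.Eventually.of_forall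
    (fun ξ => VectorFourier.norm_fourierIntegral_le_integral_norm _ _ _ _ _))

/-- Comparison of two multipliers. -/
theorem mult_compare {K K' G : V → ℂ} (hKc : Continuous K) (hKi : Integrable K) {B B' : ℝ}
    (hKb : ∀ v, ‖K v‖ ≤ B) (hKF : Integrable (𝓕 K))
    (hKc' : Continuous K') (hKi' : Integrable K')
    (hKb' : ∀ v, ‖K' v‖ ≤ B') (hKF' : Integrable (𝓕 K')) (hKFb : ∀ ξ, ‖𝓕 K' ξ‖ ≤ 1)
    {C : ℝ}
    (h : ∀ ξ, ‖𝓕 K ξ‖ ≤ C * ‖𝓕 K' ξ‖) (hG : Integrable G) :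
    ∫ x, ‖(G ⋆[ContinuousLinearMap.mul ℂ ℂ] K) x‖ ^ 2 ≤
      C ^ 2 * ∫ x, ‖(G ⋆[ContinuousLinearMap.mul ℂ ℂ] K') x‖ ^ 2 := by
  obtain ⟨c1, i1, f1, j1⟩ := conv_nice hKc hKi hKb hKF hG
  obtain ⟨c2, i2, f2, j2⟩ := conv_nice hKc' hKi' hKb' hKF' hG
  rw [← plancherel_nice c1 i1 j1, ← plancherel_nice c2 i2 j2, ← integral_const_mul]
  have hbd : ∀ ξ, ‖𝓕 (G ⋆[ContinuousLinearMap.mul ℂ ℂ] K') ξ‖ ≤ ∫ v, ‖G v‖ := by
    intro ξ
    rw [f2, norm_mul]
    have h1 : ‖𝓕 G ξ‖ ≤ ∫ v, ‖G v‖ :=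
      VectorFourier.norm_fourierIntegral_le_integral_norm _ _ _ _ _
    calc ‖𝓕 G ξ‖ * ‖𝓕 K' ξ‖ ≤ (∫ v, ‖G v‖) * 1 :=
          mul_le_mul h1 (hKFb ξ) (norm_nonneg _) (integral_nonneg (fun _ => norm_nonneg _))
      _ = _ := mul_one _
  have hint2 : Integrable (fun ξ => ‖𝓕 (G ⋆[ContinuousLinearMap.mul ℂ ℂ] K') ξ‖ ^ 2) := by
    have : (fun ξ => ‖𝓕 (G ⋆[ContinuousLinearMap.mul ℂ ℂ] K') ξ‖ ^ 2) = fun ξ =>
      ‖𝓕 (G ⋆[ContinuousLinearMap.mul ℂ ℂ] K') ξ‖ * ‖𝓕 (G ⋆[ContinuousLinearMap.mul ℂ ℂ] K') ξ‖ := by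
      funext ξ; ring
    rw [this]
    exact j2.norm.bdd_mul (c := ∫ v, ‖G v‖) j2.norm.aestronglyMeasurable
      (Filter.Eventually.of_forall (fun ξ => by rw [norm_norm]; exact hbd ξ))
  refine integral_mono_of_nonneg (Filter.Eventually.of_forall fun ξ => by positivity)
    (hint2.const_mul _) (Filter.Eventually.of_forall fun ξ => ?_)
  simp only
  rw [f1, f2, norm_mul, norm_mul, ← mul_pow]
  apply pow_le_pow_left₀ (by positivity)
  calc ‖𝓕 G ξ‖ * ‖𝓕 K ξ‖ ≤ ‖𝓕 G ξ‖ * (C * ‖𝓕 K' ξ‖) := by gcongr; exact h ξ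
    _ = _ := by ring

end General

/-- Cauchy-Schwarz / Jensen for lintegral. -/
theorem sq_lintegral_le {α : Type*} [MeasurableSpace α] (ν : Measure α) {f : α → ℝ≥0∞}
    (hf : AEMeasurable f ν) : (∫⁻ a, f a ∂ν) ^ 2 ≤ ν univ * ∫⁻ a, f a ^ 2 ∂ν := by
  have h := ENNReal.lintegral_mul_le_Lp_mul_Lq ν Real.HolderConjugate.two_two hf
    (g := fun _ => 1) aemeasurable_const
  simp only [Pi.mul_apply, mul_one, ENNReal.one_rpow, lintegral_const, one_mul] at h
  calc (∫⁻ a, f a ∂ν) ^ 2 ≤ ((∫⁻ a, f a ^ (2:ℝ) ∂ν) ^ (1 / (2:ℝ)) * (ν univ) ^ (1 / (2:ℝ))) ^ 2 := by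
        gcongr
    _ = _ := by
        rw [mul_pow, ← ENNReal.rpow_natCast, ← ENNReal.rpow_natCast, ← ENNReal.rpow_mul,
          ← ENNReal.rpow_mul]
        norm_num
        rw [mul_comm]

/-- weighted version. -/
theorem sq_lintegral_mul_le {α : Type*} [MeasurableSpace α] (μ : Measure α) {f w : α → ℝ≥0∞}
    (hf : AEMeasurable f μ) (hw : Measurable w) :
    (∫⁻ a, w a * f a ∂μ) ^ 2 ≤ (∫⁻ a, w a ∂μ) * ∫⁻ a, w a * f a ^ 2 ∂μ := by
  have h := sq_lintegral_le (μ.withDensity w) (f := f) (hf.mono_ac (withDensity_absolutelyContinuous _ _))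
  rw [withDensity_apply _ MeasurableSet.univ, lintegral_withDensity_eq_lintegral_mul₀ hw.aemeasurable hf,
    lintegral_withDensity_eq_lintegral_mul₀ hw.aemeasurable (hf.pow_const 2), Measure.restrict_univ] at h
  exact h

/-- The scalar inequality for the multiplier. -/
theorem norm_exp_sub_exp_le (x η : ℝ) (hx : 0 ≤ x) :
    ‖cexp (-(x : ℂ) / (1 - I * η)) - cexp (-(x : ℂ))‖ ≤
      2 * |η| * Real.exp (-(x / (2 * (1 + η ^ 2)))) := by
  have h1 : (0:ℝ) < 1 + η ^ 2 := by positivity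
  have hz1 : (-(x : ℂ) / (1 - I * η)) = (-(x / (1 + η ^ 2)) : ℝ) + (-(x * η / (1 + η ^ 2)) : ℝ) * I := by
    have h2 : (1 - I * η : ℂ) ≠ 0 := by
      intro h
      have := congrArg Complex.re h
      simp at this
    have h3 : ((1 + η ^ 2 : ℝ) : ℂ) ≠ 0 := by exact_mod_cast h1.ne'
    have h4 : ((1 + η ^ 2 : ℝ) : ℂ) = (1 - I * η) * (1 + I * η) := by
      push_cast; ring_nf; rw [I_sq]; ring
    rw [div_eq_iff h2]
    push_cast
    have h5 : (1 + (η:ℂ) ^ 2) ≠ 0 := by exact_mod_cast h1.ne'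
    field_simp
    ring_nf
    rw [I_sq]; ring
  have hre1 : (-(x : ℂ) / (1 - I * η)).re = -(x / (1 + η ^ 2)) := by
    rw [hz1]; simp [-ofReal_neg, -ofReal_div, -ofReal_mul]
  have him1 : (-(x : ℂ) / (1 - I * η)).im = -(x * η / (1 + η ^ 2)) := by
    rw [hz1]; simp [-ofReal_neg, -ofReal_div, -ofReal_mul]
  have hle : -x ≤ -(x / (1 + η ^ 2)) := by
    apply neg_le_neg
    exact div_le_self hx (by nlinarith [sq_nonneg η])
  rcases le_or_gt 1 |η| with hη | hη
  · calc ‖cexp (-(x : ℂ) / (1 - I * η)) - cexp (-(x : ℂ))‖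
        ≤ ‖cexp (-(x : ℂ) / (1 - I * η))‖ + ‖cexp (-(x : ℂ))‖ := norm_sub_le _ _
      _ = Real.exp (-(x / (1 + η ^ 2))) + Real.exp (-x) := by
          rw [Complex.norm_exp, Complex.norm_exp, hre1]; simp
      _ ≤ Real.exp (-(x / (2 * (1 + η ^ 2)))) + Real.exp (-(x / (2 * (1 + η ^ 2)))) := by
          have : -(x / (1 + η ^ 2)) ≤ -(x / (2 * (1 + η ^ 2))) := by
            apply neg_le_neg
            apply div_le_div_of_nonneg_left hx h1
            linarith
          gcongr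
          linarith
      _ ≤ _ := by
          have := Real.exp_pos (-(x / (2 * (1 + η ^ 2))))
          nlinarith
  · have hmv : ‖cexp (-(x : ℂ) / (1 - I * η)) - cexp (-(x : ℂ))‖ ≤
        Real.exp (-(x / (1 + η ^ 2))) * ‖(-(x : ℂ) / (1 - I * η)) - (-(x : ℂ))‖ := by
      have hs : Convex ℝ {z : ℂ | z.re ≤ -(x / (1 + η ^ 2))} :=
        convex_halfSpace_re_le _
      apply hs.norm_image_sub_le_of_norm_deriv_le (f := cexp)
      · intro z _; exact Complex.differentiableAt_exp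
      · intro z hz
        rw [Complex.deriv_exp, Complex.norm_exp]
        exact Real.exp_le_exp.2 hz
      · simp only [Set.mem_ofPred_eq, neg_re, ofReal_re]; exact hle
      · simp only [Set.mem_ofPred_eq]; exact hre1.le
    have hd : ‖(-(x : ℂ) / (1 - I * η)) - (-(x : ℂ))‖ ≤ x * |η| := by
      have h2 : (1 - I * η : ℂ) ≠ 0 := by
        intro h
        have := congrArg Complex.re h
        simp at this
      have e : (-(x : ℂ) / (1 - I * η)) - (-(x : ℂ)) = (-(x * η : ℝ) * I) / (1 - I * η) := by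
        field_simp
        push_cast; ring
      rw [e, norm_div, norm_mul, norm_neg, Complex.norm_real, norm_I, mul_one, Real.norm_eq_abs,
        abs_mul, abs_of_nonneg hx]
      apply div_le_self (by positivity)
      calc (1:ℝ) = |(1 - I * η : ℂ).re| := by simp
        _ ≤ _ := Complex.abs_re_le_norm _
    have hfin : x * Real.exp (-(x / (2 * (1 + η ^ 2)))) ≤ 2 := by
      set y := x / (2 * (1 + η ^ 2)) with hy
      have hxy : x = 2 * (1 + η ^ 2) * y := by rw [hy]; field_simp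
      have hy0 : 0 ≤ y := by positivity
      have hη2 : η ^ 2 ≤ 1 := by
        rw [← sq_abs]; nlinarith [abs_nonneg η]
      have hye : y * Real.exp (-y) ≤ Real.exp (-1) := by
        exact Real.mul_exp_neg_le_exp_neg_one y
      have he : Real.exp (-1) < 1/2 := by
        rw [Real.exp_neg]
        have := Real.exp_one_gt_d9
        rw [inv_lt_comm₀ (Real.exp_pos _) (by norm_num)]
        linarith
      have hpos := Real.exp_pos (-y)
      calc x * Real.exp (-y) = 2 * (1 + η ^ 2) * (y * Real.exp (-y)) := by rw [hxy]; ring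
        _ ≤ 2 * (1 + 1) * (1/2) := by
            gcongr
            linarith
        _ = 2 := by norm_num
    calc ‖cexp (-(x : ℂ) / (1 - I * η)) - cexp (-(x : ℂ))‖
        ≤ Real.exp (-(x / (1 + η ^ 2))) * (x * |η|) := hmv.trans (by gcongr)
      _ = |η| * (x * Real.exp (-(x / (2 * (1 + η ^ 2))))) * Real.exp (-(x / (2 * (1 + η ^ 2)))) := by
          have : Real.exp (-(x / (1 + η ^ 2))) =
            Real.exp (-(x / (2 * (1 + η ^ 2)))) * Real.exp (-(x / (2 * (1 + η ^ 2)))) := by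
            rw [← Real.exp_add]; congr 1; field_simp; ring
          rw [this]; ring
      _ ≤ |η| * 2 * Real.exp (-(x / (2 * (1 + η ^ 2)))) := by gcongr
      _ = _ := by ring

end H28Dyadic
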