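import Pool.Agent.H28Dyadic.Heat
import Pool.Agent.H28Dyadic.Mult

/-! Section 7: the multiplier bound (Mult).  (owner: helper32) -/

set_option autoImplicit false

open MeasureTheory Real
open scoped ENNReal Convolution FourierTransform

namespace H28D

namespace RF

/-- complex form of the heat kernel. -/
lemma hk_ofReal {n : ℕ} {τ : ℝ} (hτ : 0 < τ) (w : V n) :
    (hk τ w : ℂ) = (((4 * π * τ) ^ (-(n : ℝ) / 2) : ℝ) : ℂ) *
      Complex.exp (-(((1 / (4 * τ) : ℝ)) : ℂ) * ‖w‖ ^ 2) := by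
  unfold hk
  push_cast
  congr 2
  have : (τ : ℂ) ≠ 0 := by exact_mod_cast hτ.ne'
  field_simp

lemma hk_mul_cexp {n : ℕ} {τ : ℝ} (hτ : 0 < τ) (α : ℝ) (w : V n) :
    (hk τ w : ℂ) * Complex.exp (Complex.I * α * ‖w‖ ^ 2) =
      (((4 * π * τ) ^ (-(n : ℝ) / 2) : ℝ) : ℂ) *
      Complex.exp (-(((1 / (4 * τ) : ℝ)) - Complex.I * α : ℂ) * ‖w‖ ^ 2) := by
  rw [hk_ofReal hτ, mul_assoc, ← Complex.exp_add]
  congr 2
  ring

lemma re_b_pos {τ : ℝ} (hτ : 0 < τ) (α : ℝ) :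
    0 < ((((1 / (4 * τ) : ℝ)) - Complex.I * α : ℂ)).re := by
  simp only [Complex.sub_re, Complex.ofReal_re, Complex.mul_re, Complex.I_re, zero_mul,
    Complex.I_im, Complex.ofReal_im, mul_zero, sub_zero, sub_self]
  positivity

lemma b0_eq {n : ℕ} {τ : ℝ} (hτ : 0 < τ) :
    (((4 * π * τ) ^ (-(n : ℝ) / 2) : ℝ) : ℂ) *
      ((π : ℂ) / (((1 / (4 * τ) : ℝ)) : ℂ)) ^ ((n : ℂ) / 2) = 1 := by
  have h1 : ((π : ℂ) / (((1 / (4 * τ) : ℝ)) : ℂ)) = ((4 * π * τ : ℝ) : ℂ) := by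
    push_cast
    have : (τ : ℂ) ≠ 0 := by exact_mod_cast hτ.ne'
    field_simp
  rw [h1]
  have h2 : ((n : ℂ) / 2) = (((n : ℝ) / 2 : ℝ) : ℂ) := by push_cast; ring
  have h0 : (0:ℝ) < 4 * π * τ := by positivity
  rw [h2, ← Complex.ofReal_cpow h0.le, ← Complex.ofReal_mul, ← Real.rpow_add h0]
  rw [show -(n : ℝ) / 2 + (n : ℝ) / 2 = 0 by ring, Real.rpow_zero, Complex.ofReal_one]

/-- The kernel. -/
noncomputable def KK {n : ℕ} (τ α : ℝ) (c : ℂ) (v : V n) : ℂ :=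
  (hk τ v : ℂ) * (Complex.exp (Complex.I * α * ‖v‖ ^ 2) - c)

lemma continuous_KK {n : ℕ} (τ α : ℝ) (c : ℂ) : Continuous (KK (n := n) τ α c) := by
  unfold KK
  have := continuous_hk (n := n) τ
  fun_prop

lemma norm_cexp_I {α r : ℝ} : ‖Complex.exp (Complex.I * α * (r:ℂ) ^ 2)‖ = 1 := by
  rw [Complex.norm_exp]
  have : (Complex.I * α * (r:ℂ) ^ 2).re = 0 := by
    have : (Complex.I * α * (r:ℂ) ^ 2) = ((α * r ^ 2 : ℝ) : ℂ) * Complex.I := by push_cast; ring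
    rw [this, Complex.re_ofReal_mul]; simp
  rw [this, Real.exp_zero]

lemma norm_KK_le {n : ℕ} {τ : ℝ} (hτ : 0 < τ) (α : ℝ) (c : ℂ) (v : V n) :
    ‖KK τ α c v‖ ≤ hk τ v * (1 + ‖c‖) := by
  unfold KK
  rw [norm_mul, Complex.norm_real, Real.norm_eq_abs, abs_of_nonneg (hk_pos hτ v).le]
  gcongr
  · exact (hk_pos hτ v).le
  · calc _ ≤ ‖Complex.exp (Complex.I * α * ‖v‖ ^ 2)‖ + ‖c‖ := norm_sub_le _ _
      _ = _ := by rw [norm_cexp_I]

lemma integrable_KK {n : ℕ} {τ : ℝ} (hτ : 0 < τ) (α : ℝ) (c : ℂ) :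
    Integrable (KK (n := n) τ α c) :=
  ((integrable_hk hτ).mul_const (1 + ‖c‖)).mono' (continuous_KK τ α c).aestronglyMeasurable
    (Filter.Eventually.of_forall (norm_KK_le hτ α c))

lemma fourier_KK {n : ℕ} {τ : ℝ} (hτ : 0 < τ) (α : ℝ) (c : ℂ)
    (hc : c = ∫ w : V n, (hk τ w : ℂ) * Complex.exp (Complex.I * α * ‖w‖ ^ 2)) (ξ : V n) :
    𝓕 (KK (n := n) τ α c) ξ = c * (Complex.exp (-((4 * π ^ 2 * τ * ‖ξ‖ ^ 2 : ℝ) : ℂ) /
      (1 - Complex.I * ((4 * α * τ : ℝ) : ℂ))) -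
      Complex.exp (-((4 * π ^ 2 * τ * ‖ξ‖ ^ 2 : ℝ) : ℂ))) := by
  set A : ℂ := (((4 * π * τ) ^ (-(n : ℝ) / 2) : ℝ) : ℂ) with hA
  set b : ℂ := (((1 / (4 * τ) : ℝ)) - Complex.I * α : ℂ) with hb
  set b0 : ℂ := (((1 / (4 * τ) : ℝ)) : ℂ) with hb0
  have hbre : 0 < b.re := re_b_pos hτ α
  have hb0re : 0 < b0.re := by rw [hb0, Complex.ofReal_re]; positivity
  have hτc : (τ : ℂ) ≠ 0 := by exact_mod_cast hτ.ne'
  have hcA : c = A * ((π : ℂ) / b) ^ ((n : ℂ) / 2) := by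
    rw [hc]
    simp_rw [hk_mul_cexp hτ]
    rw [integral_const_mul, ← hb, ← hA, GaussianFourier.integral_cexp_neg_mul_sq_norm hbre]
    simp
  have hKK : (KK (n := n) τ α c) =
      fun v => (A • (fun v : V n => Complex.exp (-b * ‖v‖ ^ 2))) v +
        ((-(A * c)) • (fun v : V n => Complex.exp (-b0 * ‖v‖ ^ 2))) v := by
    funext v
    simp only [KK, mul_sub, hk_mul_cexp hτ, Pi.smul_apply, smul_eq_mul]
    rw [hk_ofReal hτ]
    ring
  have hi1 : Integrable (fun v : V n => Complex.exp (-b * ‖v‖ ^ 2)) := by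
    simpa using GaussianFourier.integrable_cexp_neg_mul_sq_norm_add hbre 0 (0 : V n)
  have hi2 : Integrable (fun v : V n => Complex.exp (-b0 * ‖v‖ ^ 2)) := by
    simpa using GaussianFourier.integrable_cexp_neg_mul_sq_norm_add hb0re 0 (0 : V n)
  have hF : 𝓕 (KK (n := n) τ α c) ξ = A * 𝓕 (fun v : V n => Complex.exp (-b * ‖v‖ ^ 2)) ξ +
      (-(A * c)) * 𝓕 (fun v : V n => Complex.exp (-b0 * ‖v‖ ^ 2)) ξ := by
    rw [hKK]
    have := congrFun (VectorFourier.fourierIntegral_add (e := Real.fourierChar) (μ := volume)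
      (L := innerₗ (V n)) continuous_fourierChar continuous_inner (hi1.smul A)
      (hi2.smul (-(A * c)))) ξ
    rw [Pi.add_apply, VectorFourier.fourierIntegral_const_smul,
      VectorFourier.fourierIntegral_const_smul] at this
    exact this
  rw [hF, fourier_gaussian_innerProductSpace hbre, fourier_gaussian_innerProductSpace hb0re]
  have hfr : (Module.finrank ℝ (V n) : ℂ) = n := by simp
  rw [hfr]
  have hA0 : A * ((π : ℂ) / b0) ^ ((n : ℂ) / 2) = 1 := b0_eq hτ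
  have hbne : b ≠ 0 := by
    intro h; rw [h] at hbre; simp at hbre
  have hb0ne : b0 ≠ 0 := by
    intro h; rw [h] at hb0re; simp at hb0re
  have hbb : b = (1 - Complex.I * ((4 * α * τ : ℝ) : ℂ)) / (4 * τ) := by
    rw [hb, hb0]; push_cast; field_simp
  have h1ne : (1 - Complex.I * ((4 * α * τ : ℝ) : ℂ)) ≠ 0 := by
    intro h; rw [h, zero_div] at hbb; exact hbne hbb
  have e1 : (-(π : ℂ) ^ 2 * (‖ξ‖ : ℂ) ^ 2 / b) = -((4 * π ^ 2 * τ * ‖ξ‖ ^ 2 : ℝ) : ℂ) /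
      (1 - Complex.I * ((4 * α * τ : ℝ) : ℂ)) := by
    rw [hbb]
    push_cast at h1ne ⊢
    field_simp
  have e2 : (-(π : ℂ) ^ 2 * (‖ξ‖ : ℂ) ^ 2 / b0) = -((4 * π ^ 2 * τ * ‖ξ‖ ^ 2 : ℝ) : ℂ) := by
    rw [hb0]
    push_cast
    field_simp
  rw [e1, e2]
  calc _ = (A * ((π : ℂ) / b) ^ ((n : ℂ) / 2)) * Complex.exp (-((4 * π ^ 2 * τ * ‖ξ‖ ^ 2 : ℝ) : ℂ) /
      (1 - Complex.I * ((4 * α * τ : ℝ) : ℂ))) -
      c * (A * ((π : ℂ) / b0) ^ ((n : ℂ) / 2)) *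
        Complex.exp (-((4 * π ^ 2 * τ * ‖ξ‖ ^ 2 : ℝ) : ℂ)) := by ring
    _ = _ := by rw [← hcA, hA0]; ring

lemma fourier_hk {n : ℕ} {τ : ℝ} (hτ : 0 < τ) (ξ : V n) :
    𝓕 (fun v : V n => (hk τ v : ℂ)) ξ = Complex.exp (-((4 * π ^ 2 * τ * ‖ξ‖ ^ 2 : ℝ) : ℂ)) := by
  set A : ℂ := (((4 * π * τ) ^ (-(n : ℝ) / 2) : ℝ) : ℂ) with hA
  set b0 : ℂ := (((1 / (4 * τ) : ℝ)) : ℂ) with hb0
  have hb0re : 0 < b0.re := by rw [hb0, Complex.ofReal_re]; positivity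
  have hτc : (τ : ℂ) ≠ 0 := by exact_mod_cast hτ.ne'
  have h1 : (fun v : V n => (hk τ v : ℂ)) = A • (fun v : V n => Complex.exp (-b0 * ‖v‖ ^ 2)) := by
    funext v
    rw [hk_ofReal hτ]; rfl
  have hF : 𝓕 (fun v : V n => (hk τ v : ℂ)) ξ =
      A * 𝓕 (fun v : V n => Complex.exp (-b0 * ‖v‖ ^ 2)) ξ := by
    rw [h1]
    exact congrFun (VectorFourier.fourierIntegral_const_smul (Real.fourierChar) volume
      (innerₗ (V n)) (fun v : V n => Complex.exp (-b0 * ‖v‖ ^ 2)) A) ξ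
  rw [hF, fourier_gaussian_innerProductSpace hb0re]
  have hfr : (Module.finrank ℝ (V n) : ℂ) = n := by simp
  rw [hfr]
  have hA0 : A * ((π : ℂ) / b0) ^ ((n : ℂ) / 2) = 1 := b0_eq hτ
  have e2 : (-(π : ℂ) ^ 2 * (‖ξ‖ : ℂ) ^ 2 / b0) = -((4 * π ^ 2 * τ * ‖ξ‖ ^ 2 : ℝ) : ℂ) := by
    rw [hb0]
    push_cast
    field_simp
  rw [e2, ← mul_assoc, hA0, one_mul]

/-- contraction. -/
lemma contraction {n : ℕ} {ε : ℝ} (hε : 0 < ε) (g : V n → ℂ) (hg : Integrable g) :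
    ∫⁻ x, ‖(g ⋆[ContinuousLinearMap.mul ℂ ℂ] (fun v : V n => (hk ε v : ℂ))) x‖ₑ ^ 2 ≤
      ∫⁻ x, ‖g x‖ₑ ^ 2 := by
  have hm : AEMeasurable (fun t => ‖g t‖ₑ) := hg.aestronglyMeasurable.enorm
  have h1 : ∀ x, ‖(g ⋆[ContinuousLinearMap.mul ℂ ℂ] (fun v : V n => (hk ε v : ℂ))) x‖ₑ ^ 2 ≤
      ∫⁻ t, G ε (x - t) * ‖g t‖ₑ ^ 2 := by
    intro x
    have h2 : ‖(g ⋆[ContinuousLinearMap.mul ℂ ℂ] (fun v : V n => (hk ε v : ℂ))) x‖ₑ ≤
        ∫⁻ t, G ε (x - t) * ‖g t‖ₑ := by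
      unfold MeasureTheory.convolution
      refine (enorm_integral_le_lintegral_enorm _).trans (le_of_eq ?_)
      congr 1
      ext t
      simp only [ContinuousLinearMap.mul_apply', enorm_mul, G]
      rw [mul_comm]
      congr 1
      rw [← ofReal_norm, Complex.norm_real, Real.norm_eq_abs,
        abs_of_nonneg (hk_pos hε _).le]
    calc _ ≤ (∫⁻ t, G ε (x - t) * ‖g t‖ₑ) ^ 2 := by gcongr
      _ ≤ (∫⁻ t, G ε (x - t)) * ∫⁻ t, G ε (x - t) * ‖g t‖ₑ ^ 2 := by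
          apply H28Dyadic.sq_lintegral_mul_le _ hm
          fun_prop
      _ = _ := by rw [lintegral_G_sub_left hε, one_mul]
  calc _ ≤ ∫⁻ x, ∫⁻ t, G ε (x - t) * ‖g t‖ₑ ^ 2 := lintegral_mono h1
    _ = ∫⁻ t, ∫⁻ x, G ε (x - t) * ‖g t‖ₑ ^ 2 := by
        apply lintegral_lintegral_swap
        have : AEMeasurable (fun p : V n × V n => ‖g p.2‖ₑ ^ 2) (volume.prod volume) :=
          (hm.pow_const 2).comp_snd
        refine AEMeasurable.mul ?_ this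
        apply Measurable.aemeasurable
        fun_prop
    _ = ∫⁻ t, ‖g t‖ₑ ^ 2 := by
        congr 1
        ext t
        rw [lintegral_mul_const _ (by fun_prop), lintegral_G_sub_right hε, one_mul]

end RF

open RF in
/-- (Mult): multiplier bound. -/
theorem mult_bound {n : ℕ} (_hn : 1 ≤ n) {τ : ℝ} (hτ : 0 < τ) (α : ℝ) (c : ℂ)
    (hc : c = ∫ w : V n, (hk τ w : ℂ) * Complex.exp (Complex.I * α * ‖w‖ ^ 2))
    (g : V n → ℂ) (hg : Integrable g) (_hg2 : ∫⁻ x, ‖g x‖ₑ ^ 2 ≠ ∞) :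
    ∫⁻ x : V n, ‖∫ y : V n, (hk τ (x - y) : ℂ) *
        (Complex.exp (Complex.I * α * ‖x - y‖ ^ 2) - c) * g y‖ₑ ^ 2 ≤
      ENNReal.ofReal ((8 * α * τ) ^ 2 * ‖c‖ ^ 2) * ∫⁻ x, ‖g x‖ₑ ^ 2 := by
  have hconv : ∀ x : V n, ∫ y : V n, (hk τ (x - y) : ℂ) *
        (Complex.exp (Complex.I * α * ‖x - y‖ ^ 2) - c) * g y =
      (g ⋆[ContinuousLinearMap.mul ℂ ℂ] (KK (n := n) τ α c)) x := by
    intro x
    unfold MeasureTheory.convolution
    congr 1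
    ext y
    simp only [ContinuousLinearMap.mul_apply', KK]
    ring
  simp_rw [hconv]
  set η : ℝ := 4 * α * τ with hη
  set ε : ℝ := τ / (2 * (1 + η ^ 2)) with hε
  have hε0 : 0 < ε := by positivity
  set K' : V n → ℂ := fun v => (hk ε v : ℂ) with hK'
  have hKc : Continuous (KK (n := n) τ α c) := continuous_KK τ α c
  have hKi := integrable_KK (n := n) hτ α c
  have hKc' : Continuous K' := by
    have := continuous_hk (n := n) ε
    fun_prop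
  have hKi' : Integrable K' := (integrable_hk hε0).ofReal
  have hKb : ∀ v : V n, ‖KK τ α c v‖ ≤ (4 * π * τ) ^ (-(n : ℝ) / 2) * (1 + ‖c‖) := fun v =>
    (norm_KK_le hτ α c v).trans (by gcongr; exact hk_le hτ v)
  have hKb' : ∀ v : V n, ‖K' v‖ ≤ (4 * π * ε) ^ (-(n : ℝ) / 2) := fun v => by
    rw [hK', Complex.norm_real, Real.norm_eq_abs, abs_of_nonneg (hk_pos hε0 v).le]
    exact hk_le hε0 v
  have hF' : ∀ ξ, ‖𝓕 K' ξ‖ = Real.exp (-(4 * π ^ 2 * ε * ‖ξ‖ ^ 2)) := by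
    intro ξ
    rw [hK', fourier_hk hε0, Complex.norm_exp]
    congr 1
  have hcomp : ∀ ξ, ‖𝓕 (KK (n := n) τ α c) ξ‖ ≤ (‖c‖ * (2 * |η|)) * ‖𝓕 K' ξ‖ := by
    intro ξ
    rw [fourier_KK hτ α c hc, norm_mul, hF']
    have := H28Dyadic.norm_exp_sub_exp_le (4 * π ^ 2 * τ * ‖ξ‖ ^ 2) η (by positivity)
    refine (mul_le_mul_of_nonneg_left this (norm_nonneg c)).trans (le_of_eq ?_)
    have e : 4 * π ^ 2 * τ * ‖ξ‖ ^ 2 / (2 * (1 + η ^ 2)) = 4 * π ^ 2 * ε * ‖ξ‖ ^ 2 := by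
      rw [hε]
      field_simp
    rw [e]
    ring
  have hKF' : Integrable (𝓕 K') := by
    have h0 : (0:ℝ) < 4 * π ^ 2 * ε := by positivity
    have h1 : (𝓕 K') = fun ξ : V n => Complex.exp (-((4 * π ^ 2 * ε : ℝ) : ℂ) * ‖ξ‖ ^ 2) := by
      funext ξ
      rw [hK', fourier_hk hε0]
      congr 1
      push_cast; ring
    rw [h1]
    have h2 := GaussianFourier.integrable_cexp_neg_mul_sq_norm_add
      (b := ((4 * π ^ 2 * ε : ℝ) : ℂ)) (by rw [Complex.ofReal_re]; exact h0) 0 (0 : V n)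
    simp only [zero_mul, add_zero] at h2
    exact h2
  have hKF : Integrable (𝓕 (KK (n := n) τ α c)) := by
    refine (hKF'.norm.const_mul (‖c‖ * (2 * |η|))).mono' ?_ (Filter.Eventually.of_forall hcomp)
    have : Continuous (𝓕 (KK (n := n) τ α c)) :=
      VectorFourier.fourierIntegral_continuous continuous_fourierChar continuous_inner hKi
    exact this.aestronglyMeasurable
  have hKFb : ∀ ξ, ‖𝓕 K' ξ‖ ≤ 1 := by
    intro ξ
    rw [hF']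
    apply Real.exp_le_one_iff.2
    have : 0 ≤ 4 * π ^ 2 * ε * ‖ξ‖ ^ 2 := by positivity
    linarith
  have hmain := H28Dyadic.mult_compare hKc hKi hKb hKF hKc' hKi' hKb' hKF' hKFb hcomp hg
  have conv_sq : ∀ (K : V n → ℂ) (B : ℝ), Continuous K → Integrable K → (∀ v, ‖K v‖ ≤ B) →
      Integrable (𝓕 K) → Integrable (fun x => ‖(g ⋆[ContinuousLinearMap.mul ℂ ℂ] K) x‖ ^ 2) := by
    intro K B h1 h2 h3 h4
    obtain ⟨c1, i1, -, -⟩ := H28Dyadic.conv_nice h1 h2 h3 h4 hg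
    have e : (fun x => ‖(g ⋆[ContinuousLinearMap.mul ℂ ℂ] K) x‖ ^ 2) = fun x =>
      ‖(g ⋆[ContinuousLinearMap.mul ℂ ℂ] K) x‖ * ‖(g ⋆[ContinuousLinearMap.mul ℂ ℂ] K) x‖ := by
      funext ξ; ring
    rw [e]
    refine i1.norm.bdd_mul (c := (∫ v, ‖g v‖) * B) i1.norm.aestronglyMeasurable
      (Filter.Eventually.of_forall (fun x => ?_))
    rw [norm_norm]
    unfold MeasureTheory.convolution
    refine (norm_integral_le_integral_norm _).trans ?_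
    rw [← integral_mul_const]
    apply integral_mono_of_nonneg (Filter.Eventually.of_forall fun _ => norm_nonneg _)
      (hg.norm.mul_const B)
    refine Filter.Eventually.of_forall fun t => ?_
    simp only [ContinuousLinearMap.mul_apply', norm_mul]
    gcongr
    exact h3 _
  have to_l : ∀ (f : V n → ℂ), Integrable (fun x => ‖f x‖ ^ 2) →
      ∫⁻ x, ‖f x‖ₑ ^ 2 = ENNReal.ofReal (∫ x, ‖f x‖ ^ 2) := by
    intro f hf
    rw [ofReal_integral_eq_lintegral_ofReal hf (Filter.Eventually.of_forall fun x => by positivity)]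
    congr 1
    ext x
    rw [ENNReal.ofReal_pow (norm_nonneg _), ofReal_norm]
  rw [to_l _ (conv_sq _ _ hKc hKi hKb hKF)]
  calc ENNReal.ofReal (∫ x, ‖(g ⋆[ContinuousLinearMap.mul ℂ ℂ] (KK (n := n) τ α c)) x‖ ^ 2)
      ≤ ENNReal.ofReal ((‖c‖ * (2 * |η|)) ^ 2 *
          ∫ x, ‖(g ⋆[ContinuousLinearMap.mul ℂ ℂ] K') x‖ ^ 2) := ENNReal.ofReal_le_ofReal hmain
    _ = ENNReal.ofReal ((8 * α * τ) ^ 2 * ‖c‖ ^ 2) *
          ∫⁻ x, ‖(g ⋆[ContinuousLinearMap.mul ℂ ℂ] K') x‖ₑ ^ 2 := by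
        rw [ENNReal.ofReal_mul (by positivity), ← to_l _ (conv_sq _ _ hKc' hKi' hKb' hKF')]
        congr 2
        rw [mul_pow, mul_pow, sq_abs, hη]
        ring
    _ ≤ _ := mul_le_mul' le_rfl (contraction hε0 g hg)

end H28D
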