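import Pool.Agent.H28Dyadic.MultBound

/-! Section 7: Theorem III (reference fluctuation).  (owner: helper32) -/

set_option autoImplicit false

open MeasureTheory Real
open scoped ENNReal

namespace H28D

namespace RF

lemma integrable_exp_neg_abs {a : ℝ} (ha : 0 < a) : Integrable fun N : ℝ => Real.exp (-(a * |N|)) := by
  have h := integrable_inv_one_add_sq.const_mul (1 + 2 / a ^ 2)
  refine h.mono' (by fun_prop) (Filter.Eventually.of_forall fun N => ?_)
  rw [Real.norm_eq_abs, abs_of_pos (Real.exp_pos _), ← div_eq_mul_inv, le_div_iff₀ (by positivity)]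
  have h1 : 1 + a * |N| + (a * |N|) ^ 2 / 2 ≤ Real.exp (a * |N|) :=
    Real.quadratic_le_exp_of_nonneg (by positivity)
  have h2 : (a * |N|) ^ 2 = a ^ 2 * N ^ 2 := by rw [mul_pow, sq_abs]
  have h3 : N ^ 2 ≤ 2 / a ^ 2 * Real.exp (a * |N|) := by
    have h4 : a ^ 2 * N ^ 2 ≤ 2 * Real.exp (a * |N|) := by
      rw [← h2]; nlinarith [mul_nonneg ha.le (abs_nonneg N)]
    have ha2 : 0 < a ^ 2 := by positivity
    rw [div_mul_eq_mul_div, le_div_iff₀ ha2]
    linarith
  have h5 : 1 ≤ Real.exp (a * |N|) := Real.one_le_exp (by positivity)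
  have h6 : Real.exp (-(a * |N|)) * Real.exp (a * |N|) = 1 := by
    rw [← Real.exp_add]; simp
  have h7 := Real.exp_pos (-(a * |N|))
  calc Real.exp (-(a * |N|)) * (1 + N ^ 2)
      ≤ Real.exp (-(a * |N|)) * (Real.exp (a * |N|) + 2 / a ^ 2 * Real.exp (a * |N|)) := by gcongr
    _ = (1 + 2 / a ^ 2) * (Real.exp (-(a * |N|)) * Real.exp (a * |N|)) := by ring
    _ = 1 + 2 / a ^ 2 := by rw [h6, mul_one]

/-- the reference constant. -/
noncomputable def cN (n : ℕ) (τ α : ℝ) : ℂ :=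
  ∫ w : V n, (hk τ w : ℂ) * Complex.exp (Complex.I * α * ‖w‖ ^ 2)

lemma norm_hk {n : ℕ} {τ : ℝ} (hτ : 0 < τ) (w : V n) : ‖(hk τ w : ℂ)‖ = hk τ w := by
  rw [Complex.norm_real, Real.norm_eq_abs, abs_of_pos (hk_pos hτ w)]

lemma norm_cN_le {n : ℕ} {τ : ℝ} (hτ : 0 < τ) (α : ℝ) : ‖cN n τ α‖ ≤ 1 := by
  unfold cN
  refine (norm_integral_le_integral_norm _).trans (le_of_eq ?_)
  rw [← integral_hk (n := n) hτ]
  congr 1
  ext w
  rw [norm_mul, norm_cexp_I, mul_one, norm_hk hτ]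

lemma norm_rho (n : ℕ) (N : ℝ) : ‖(rho n N : ℂ)‖ = rho n N := by
  rw [Complex.norm_real, Real.norm_eq_abs, abs_of_nonneg (rho_nonneg n N)]

@[fun_prop]
lemma measurable_cN_al (n : ℕ) (τ t : ℝ) : Measurable fun N : ℝ => cN n τ (al n t N) := by
  unfold cN
  apply StronglyMeasurable.measurable
  apply StronglyMeasurable.integral_prod_right'
    (f := fun p : ℝ × V n => (hk τ p.2 : ℂ) * Complex.exp (Complex.I * (al n t p.1 : ℝ) * ‖p.2‖ ^ 2))
  apply Measurable.stronglyMeasurable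
  have := measurable_al n t
  fun_prop

lemma norm_cexp_I' (α q : ℝ) : ‖Complex.exp (Complex.I * α * (q : ℂ))‖ = 1 := by
  rw [Complex.norm_exp]
  have : (Complex.I * α * (q : ℂ)).re = 0 := by
    have : (Complex.I * α * (q : ℂ)) = ((α * q : ℝ) : ℂ) * Complex.I := by push_cast; ring
    rw [this, Complex.re_ofReal_mul]; simp
  rw [this, Real.exp_zero]

lemma norm_cexp_I'' (α q Q : ℝ) : ‖Complex.exp (Complex.I * α * ((q : ℂ) - Q))‖ = 1 := by
  have := norm_cexp_I' α (q - Q)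
  push_cast at this
  exact this

/-- Step A. -/
lemma R_sub_rr {n : ℕ} (hn : 1 ≤ n) {t τ : ℝ} (ht : 0 < t) (hτ : 0 < τ) (Q q : ℝ) (w : V n) :
    ((R n t Q (‖w‖ ^ 2 + q) - rr n t Q τ q : ℝ) : ℂ) =
      ∫ N : ℝ, (rho n N : ℂ) * (Complex.exp (Complex.I * al n t N * (q - Q)) *
        (Complex.exp (Complex.I * al n t N * ‖w‖ ^ 2) - cN n τ (al n t N))) := by
  have hal := measurable_al n t
  have hrho := measurable_rho n
  have hrhoi := integrable_rho hn
  have h1 : (R n t Q (‖w‖ ^ 2 + q) : ℂ) = ∫ N : ℝ, (rho n N : ℂ) *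
      (Complex.exp (Complex.I * al n t N * (q - Q)) *
        Complex.exp (Complex.I * al n t N * ‖w‖ ^ 2)) := by
    rw [R_eq_integral hn ht]
    congr 1
    ext N
    rw [← Complex.exp_add]
    congr 2
    push_cast; ring
  have h2 : (rr n t Q τ q : ℂ) = ∫ N : ℝ, (rho n N : ℂ) *
      (Complex.exp (Complex.I * al n t N * (q - Q)) * cN n τ (al n t N)) := by
    unfold rr
    rw [← integral_complex_ofReal]
    have h3 : ∀ w : V n, ((hk τ w * R n t Q (‖w‖ ^ 2 + q) : ℝ) : ℂ) = ∫ N : ℝ, (hk τ w : ℂ) *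
        ((rho n N : ℂ) * (Complex.exp (Complex.I * al n t N * (q - Q)) *
        Complex.exp (Complex.I * al n t N * ‖w‖ ^ 2))) := by
      intro w
      rw [Complex.ofReal_mul, R_eq_integral hn ht, ← integral_const_mul]
      congr 1
      ext N
      rw [← Complex.exp_add]
      congr 3
      push_cast; ring
    simp_rw [h3]
    rw [integral_integral_swap]
    · congr 1
      ext N
      unfold cN
      rw [← integral_const_mul, ← integral_const_mul]
      congr 1
      ext w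
      ring
    · have hb : Integrable (fun p : V n × ℝ => hk τ p.1 * rho n p.2) (volume.prod volume) :=
        (integrable_hk hτ).mul_prod hrhoi
      refine hb.mono' ?_ (Filter.Eventually.of_forall fun p => ?_)
      · apply Measurable.aestronglyMeasurable
        unfold Function.uncurry
        fun_prop
      · simp only [Function.uncurry]
        rw [norm_mul, norm_mul, norm_mul, norm_cexp_I'', norm_cexp_I, norm_hk hτ, norm_rho]
        simp
  rw [Complex.ofReal_sub, h1, h2, ← integral_sub]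
  · congr 1
    ext N
    ring
  · refine hrhoi.mono' ?_ (Filter.Eventually.of_forall fun N => ?_)
    · apply Measurable.aestronglyMeasurable
      fun_prop
    · rw [norm_mul, norm_mul, norm_cexp_I'', norm_cexp_I, norm_rho]
      simp
  · refine hrhoi.mono' ?_ (Filter.Eventually.of_forall fun N => ?_)
    · apply Measurable.aestronglyMeasurable
      fun_prop
    · rw [norm_mul, norm_mul, norm_cexp_I'', norm_rho, one_mul]
      exact mul_le_of_le_one_right (rho_nonneg n N) (norm_cN_le hτ _)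

/-- The bound for the weight. -/
lemma weight_bound {n : ℕ} (hn : 1 ≤ n) {t τ : ℝ} (ht : 0 < t) (hτ1 : 3 * t / 4 ≤ τ) (hτ2 : τ ≤ t)
    (N : ℝ) :
    Real.exp (-(1 / 16 * |N|)) * (Real.exp (1 / 16 * |N|) * rho n N) ^ 2 *
      ((8 * al n t N * τ) ^ 2 * ‖cN n τ (al n t N)‖ ^ 2) ≤
      8192 / n * Real.exp (-(1 / 8 * |N|)) := by
  have hτ : 0 < τ := by linarith
  have hn0 : (0:ℝ) < n := by exact_mod_cast hn
  have hc : ‖cN n τ (al n t N)‖ = (1 + 16 * (al n t N) ^ 2 * τ ^ 2) ^ (-(n : ℝ) / 4) :=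
    norm_integral_hk_cexp hτ _
  have hal2 : (al n t N) ^ 2 = N ^ 2 / (4 * t ^ 2 * n) := by
    unfold al
    rw [div_pow, mul_pow, mul_pow, Real.sq_sqrt hn0.le]
    norm_num
  have hc2 : ‖cN n τ (al n t N)‖ ≤ (1 + N ^ 2 / (4 * n)) ^ (-(n : ℝ) / 4) := by
    rw [hc]
    apply Real.rpow_le_rpow_of_nonpos (by positivity)
    · have : N ^ 2 / (4 * n) ≤ 16 * (al n t N) ^ 2 * τ ^ 2 := by
        rw [hal2]
        have h1 : 16 * (N ^ 2 / (4 * t ^ 2 * n)) * τ ^ 2 = N ^ 2 / (4 * n) * (16 * (τ / t) ^ 2) := by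
          field_simp
        rw [h1]
        have h2 : 3 / 4 ≤ τ / t := by rw [le_div_iff₀ ht]; linarith
        have h3 : 1 ≤ 16 * (τ / t) ^ 2 := by nlinarith
        exact le_mul_of_one_le_right (by positivity) h3
      linarith
    · apply div_nonpos_of_nonpos_of_nonneg
      · simp
      · norm_num
  have hG := gauss_G hn N
  have hrc : rho n N * ‖cN n τ (al n t N)‖ ≤ Real.exp (-|N| / 8) := by
    have h1 : rho n N * ‖cN n τ (al n t N)‖ ≤
        (√(2 * π))⁻¹ * ((1 + N ^ 2 / (4 * n)) ^ (-(n : ℝ) / 4) * Real.exp (-N ^ 2 / (2 * n))) := by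
      unfold rho
      have := mul_le_mul_of_nonneg_left hc2
        (show 0 ≤ (√(2 * π))⁻¹ * Real.exp (-N ^ 2 / (2 * n)) by positivity)
      linarith
    have h2 : (√(2 * π))⁻¹ ≤ 1 / 2 := by
      rw [one_div]
      apply inv_anti₀ (by norm_num)
      apply Real.le_sqrt_of_sq_le
      have := Real.pi_gt_three
      linarith
    have h3 := Real.exp_pos (-|N| / 8)
    calc rho n N * ‖cN n τ (al n t N)‖ ≤ (√(2 * π))⁻¹ * (2 * Real.exp (-|N| / 8)) :=
          h1.trans (mul_le_mul_of_nonneg_left hG (by positivity))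
      _ ≤ 1 / 2 * (2 * Real.exp (-|N| / 8)) := by gcongr
      _ = _ := by ring
  have hrc2 : (rho n N * ‖cN n τ (al n t N)‖) ^ 2 ≤ Real.exp (-(1 / 4 * |N|)) := by
    have h0 : 0 ≤ rho n N * ‖cN n τ (al n t N)‖ := mul_nonneg (rho_nonneg n N) (norm_nonneg _)
    calc _ ≤ (Real.exp (-|N| / 8)) ^ 2 := pow_le_pow_left₀ h0 hrc 2
      _ = _ := by rw [← Real.exp_nat_mul]; congr 1; push_cast; ring
  have h8 : (8 * al n t N * τ) ^ 2 ≤ 16 / n * N ^ 2 := by
    have : (8 * al n t N * τ) ^ 2 = 16 / n * N ^ 2 * (τ / t) ^ 2 := by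
      rw [mul_pow, mul_pow, hal2]; field_simp; ring
    rw [this]
    apply mul_le_of_le_one_right (by positivity)
    have h2 : τ / t ≤ 1 := by rw [div_le_one ht]; exact hτ2
    have h3 : 0 ≤ τ / t := by positivity
    nlinarith
  have hN : N ^ 2 ≤ 512 * Real.exp (1 / 16 * |N|) := by
    have h1 : 1 + 1 / 16 * |N| + (1 / 16 * |N|) ^ 2 / 2 ≤ Real.exp (1 / 16 * |N|) :=
      Real.quadratic_le_exp_of_nonneg (by positivity)
    have h2 : (1 / 16 * |N|) ^ 2 = 1 / 256 * N ^ 2 := by rw [mul_pow, sq_abs]; norm_num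
    nlinarith [abs_nonneg N]
  calc Real.exp (-(1 / 16 * |N|)) * (Real.exp (1 / 16 * |N|) * rho n N) ^ 2 *
      ((8 * al n t N * τ) ^ 2 * ‖cN n τ (al n t N)‖ ^ 2)
      = Real.exp (-(1 / 16 * |N|)) * Real.exp (1 / 16 * |N|) ^ 2 *
        (rho n N * ‖cN n τ (al n t N)‖) ^ 2 * (8 * al n t N * τ) ^ 2 := by ring
    _ ≤ Real.exp (-(1 / 16 * |N|)) * Real.exp (1 / 16 * |N|) ^ 2 *
        Real.exp (-(1 / 4 * |N|)) * (16 / n * N ^ 2) := by gcongr
    _ ≤ Real.exp (-(1 / 16 * |N|)) * Real.exp (1 / 16 * |N|) ^ 2 *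
        Real.exp (-(1 / 4 * |N|)) * (16 / n * (512 * Real.exp (1 / 16 * |N|))) := by gcongr
    _ = 8192 / n * (Real.exp (-(1 / 16 * |N|)) * (Real.exp (1 / 16 * |N|) ^ 2 *
        (Real.exp (-(1 / 4 * |N|)) * Real.exp (1 / 16 * |N|)))) := by ring
    _ = _ := by
      rw [← Real.exp_nat_mul, ← Real.exp_add, ← Real.exp_add, ← Real.exp_add]
      congr 2
      push_cast; ring

end RF

open RF in
/-- Theorem III. -/
theorem refFluct : ∃ C : ℝ, 0 < C ∧ ∀ (n : ℕ), 1 ≤ n → ∀ (t Q τ : ℝ), 0 < t →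
    3 * t / 4 ≤ τ → τ ≤ t → ∀ (H : ℝ), 0 < H →
    ∀ (E : V n → V n → ℝ≥0∞), Measurable (Function.uncurry E) →
    (∀ X, ∫⁻ Y, E Y X ≤ ENNReal.ofReal H) → (∫⁻ X, ∫⁻ Y, E Y X ≠ ∞) →
    ∫⁻ x : V n, ‖∫ p : V n × V n, (E p.1 p.2).toReal * (hk τ (x - p.2) *
        (R n t Q (‖x - p.2‖ ^ 2 + ‖p.2 - p.1‖ ^ 2) - rr n t Q τ (‖p.2 - p.1‖ ^ 2)))‖ₑ ^ 2 ≤
      ENNReal.ofReal (C * H / n) * ∫⁻ X, ∫⁻ Y, E Y X := by
  have hI1 := integrable_exp_neg_abs (a := 1 / 16) (by norm_num)
  have hI2 := integrable_exp_neg_abs (a := 1 / 8) (by norm_num)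
  set J1 : ℝ := ∫ N : ℝ, Real.exp (-(1 / 16 * |N|)) with hJ1
  set J2 : ℝ := ∫ N : ℝ, Real.exp (-(1 / 8 * |N|)) with hJ2
  have hJ1n : 0 ≤ J1 := integral_nonneg fun _ => (Real.exp_pos _).le
  have hJ2n : 0 ≤ J2 := integral_nonneg fun _ => (Real.exp_pos _).le
  refine ⟨J1 * (8192 * J2) + 1, by positivity, ?_⟩
  intro n hn t Q τ ht hτ1 hτ2 H hH E hEm hEH hEi
  have hτ : 0 < τ := by linarith
  have hn0 : (0:ℝ) < n := by exact_mod_cast hn
  have hal := measurable_al n t
  have hrho := measurable_rho n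
  have hrhoi := integrable_rho hn
  -- the real density
  set e : V n × V n → ℝ := fun p => (E p.1 p.2).toReal with he
  have hEm2 : Measurable fun p : V n × V n => E p.1 p.2 := hEm
  have hem : Measurable e := hEm2.ennreal_toReal
  have hprod : ∫⁻ p : V n × V n, E p.1 p.2 = ∫⁻ X, ∫⁻ Y, E Y X := by
    rw [Measure.volume_eq_prod, lintegral_prod_symm' _ hEm2]
  have hei : Integrable e := by
    apply integrable_toReal_of_lintegral_ne_top hEm2.aemeasurable
    rw [hprod]; exact hEi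
  have he0 : ∀ p, 0 ≤ e p := fun p => ENNReal.toReal_nonneg
  set M : ℝ := (4 * π * τ) ^ (-(n : ℝ) / 2) with hM
  have hM0 : 0 ≤ M := by positivity
  -- the function Phi
  set Φ : V n × ℝ → ℂ := fun q => ∫ p : V n × V n, (e p : ℂ) * ((hk τ (q.1 - p.2) : ℂ) *
    (Complex.exp (Complex.I * al n t q.2 * (‖p.2 - p.1‖ ^ 2 : ℝ)) *
      (Complex.exp (Complex.I * al n t q.2 * ‖q.1 - p.2‖ ^ 2) - cN n τ (al n t q.2)))) with hΦ
  have hΦm : StronglyMeasurable Φ := by
    apply StronglyMeasurable.integral_prod_right'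
      (f := fun r : (V n × ℝ) × (V n × V n) => (e r.2 : ℂ) * ((hk τ (r.1.1 - r.2.2) : ℂ) *
        (Complex.exp (Complex.I * al n t r.1.2 * (‖r.2.2 - r.2.1‖ ^ 2 : ℝ)) *
        (Complex.exp (Complex.I * al n t r.1.2 * ‖r.1.1 - r.2.2‖ ^ 2) -
          cN n τ (al n t r.1.2)))))
    apply Measurable.stronglyMeasurable
    have hcm : Measurable fun r : (V n × ℝ) × (V n × V n) => cN n τ (al n t r.1.2) :=
      (measurable_cN_al n τ t).comp (measurable_snd.comp measurable_fst)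
    fun_prop
  -- Step B
  have hB : ∀ x : V n, ((∫ p : V n × V n, e p * (hk τ (x - p.2) *
        (R n t Q (‖x - p.2‖ ^ 2 + ‖p.2 - p.1‖ ^ 2) - rr n t Q τ (‖p.2 - p.1‖ ^ 2))) : ℝ) : ℂ) =
      ∫ N : ℝ, (rho n N : ℂ) * (Complex.exp (-(Complex.I * al n t N * Q)) * Φ (x, N)) := by
    intro x
    rw [← integral_complex_ofReal]
    have h1 : ∀ p : V n × V n, ((e p * (hk τ (x - p.2) *
        (R n t Q (‖x - p.2‖ ^ 2 + ‖p.2 - p.1‖ ^ 2) - rr n t Q τ (‖p.2 - p.1‖ ^ 2))) : ℝ) : ℂ) =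
        ∫ N : ℝ, (e p : ℂ) * ((hk τ (x - p.2) : ℂ) * ((rho n N : ℂ) *
          (Complex.exp (Complex.I * al n t N * ((‖p.2 - p.1‖ ^ 2 : ℝ) - Q)) *
          (Complex.exp (Complex.I * al n t N * ‖x - p.2‖ ^ 2) - cN n τ (al n t N))))) := by
      intro p
      rw [Complex.ofReal_mul, Complex.ofReal_mul, R_sub_rr hn ht hτ, ← integral_const_mul,
        ← integral_const_mul]
    simp_rw [h1]
    rw [integral_integral_swap]
    · congr 1
      ext N
      rw [hΦ]
      simp only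
      rw [← integral_const_mul, ← integral_const_mul]
      congr 1
      ext p
      have : Complex.exp (Complex.I * al n t N * ((‖p.2 - p.1‖ ^ 2 : ℝ) - Q)) =
          Complex.exp (-(Complex.I * al n t N * Q)) *
          Complex.exp (Complex.I * al n t N * (‖p.2 - p.1‖ ^ 2 : ℝ)) := by
        rw [← Complex.exp_add]; congr 1; ring
      rw [this]
      ring
    · have hb : Integrable (fun r : (V n × V n) × ℝ => e r.1 * rho n r.2)
          ((volume : Measure (V n × V n)).prod volume) := hei.mul_prod hrhoi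
      refine (hb.const_mul (M * 2)).mono' ?_ (Filter.Eventually.of_forall fun r => ?_)
      · apply Measurable.aestronglyMeasurable
        unfold Function.uncurry
        have hcm : Measurable fun r : (V n × V n) × ℝ => cN n τ (al n t r.2) :=
          (measurable_cN_al n τ t).comp measurable_snd
        fun_prop
      · simp only [Function.uncurry]
        rw [norm_mul, norm_mul, norm_mul, norm_mul, norm_cexp_I'', norm_hk hτ, norm_rho,
          Complex.norm_real, Real.norm_eq_abs, abs_of_nonneg (he0 _), one_mul]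
        have h2 : ‖Complex.exp (Complex.I * al n t r.2 * ‖x - r.1.2‖ ^ 2) -
            cN n τ (al n t r.2)‖ ≤ 2 := by
          refine (norm_sub_le _ _).trans ?_
          rw [norm_cexp_I]
          have := norm_cN_le (n := n) hτ (al n t r.2)
          linarith
        calc e r.1 * (hk τ (x - r.1.2) * (rho n r.2 * ‖Complex.exp (Complex.I * al n t r.2 *
              ‖x - r.1.2‖ ^ 2) - cN n τ (al n t r.2)‖))
            ≤ e r.1 * (M * (rho n r.2 * 2)) := by
              have := he0 r.1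
              have := rho_nonneg n r.2
              have := hk_le hτ (x - r.1.2)
              have := hk_pos hτ (x - r.1.2)
              gcongr
          _ = _ := by ring
  -- Step C, D
  have hCD : ∀ N : ℝ, ∫⁻ x : V n, ‖Φ (x, N)‖ₑ ^ 2 ≤
      ENNReal.ofReal ((8 * al n t N * τ) ^ 2 * ‖cN n τ (al n t N)‖ ^ 2) *
        (ENNReal.ofReal H * ∫⁻ X, ∫⁻ Y, E Y X) := by
    intro N
    set α := al n t N with hα
    set g : V n → ℂ := fun X => ∫ Y : V n, (e (Y, X) : ℂ) *
      Complex.exp (Complex.I * α * (‖X - Y‖ ^ 2 : ℝ)) with hg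
    have hgm : StronglyMeasurable g := by
      apply StronglyMeasurable.integral_prod_right'
        (f := fun r : V n × V n => (e (r.2, r.1) : ℂ) *
          Complex.exp (Complex.I * α * (‖r.1 - r.2‖ ^ 2 : ℝ)))
      apply Measurable.stronglyMeasurable
      fun_prop
    have hgle : ∀ X, ‖g X‖ₑ ≤ ∫⁻ Y, E Y X := by
      intro X
      refine (enorm_integral_le_lintegral_enorm _).trans (lintegral_mono fun Y => ?_)
      rw [enorm_mul]
      have h1 : ‖Complex.exp (Complex.I * α * (‖X - Y‖ ^ 2 : ℝ))‖ₑ = 1 := by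
        rw [← ofReal_norm, norm_cexp_I', ENNReal.ofReal_one]
      rw [h1, mul_one, ← ofReal_norm, Complex.norm_real, Real.norm_eq_abs,
        abs_of_nonneg (he0 _)]
      exact ENNReal.ofReal_toReal_le
    have hgi : Integrable g := by
      refine ⟨hgm.aestronglyMeasurable, ?_⟩
      exact lt_of_le_of_lt (lintegral_mono hgle) (lt_top_iff_ne_top.2 hEi)
    have hg2 : ∫⁻ X, ‖g X‖ₑ ^ 2 ≤ ENNReal.ofReal H * ∫⁻ X, ∫⁻ Y, E Y X := by
      rw [← lintegral_const_mul' _ _ ENNReal.ofReal_ne_top]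
      refine lintegral_mono fun X => ?_
      rw [sq]
      exact mul_le_mul' ((hgle X).trans (hEH X)) (hgle X)
    have hΦg : ∀ x : V n, Φ (x, N) = ∫ X : V n, (hk τ (x - X) : ℂ) *
        (Complex.exp (Complex.I * α * ‖x - X‖ ^ 2) - cN n τ α) * g X := by
      intro x
      rw [hΦ]
      simp only
      rw [Measure.volume_eq_prod, integral_prod_symm]
      · congr 1
        ext X
        rw [hg]
        simp only
        rw [← integral_const_mul]
        congr 1
        ext Y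
        ring
      · refine (hei.const_mul (M * 2)).mono' ?_ (Filter.Eventually.of_forall fun p => ?_)
        · apply Measurable.aestronglyMeasurable
          fun_prop
        · rw [norm_mul, norm_mul, norm_mul, norm_cexp_I', norm_hk hτ,
            Complex.norm_real, Real.norm_eq_abs, abs_of_nonneg (he0 _), one_mul]
          have h2 : ‖Complex.exp (Complex.I * α * ‖x - p.2‖ ^ 2) - cN n τ α‖ ≤ 2 := by
            refine (norm_sub_le _ _).trans ?_
            rw [norm_cexp_I]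
            have := norm_cN_le (n := n) hτ α
            linarith
          calc e p * (hk τ (x - p.2) * ‖Complex.exp (Complex.I * α *
                ‖x - p.2‖ ^ 2) - cN n τ α‖)
              ≤ e p * (M * 2) := by
                have := he0 p
                have := hk_le hτ (x - p.2)
                have := hk_pos hτ (x - p.2)
                gcongr
            _ = _ := by ring
    simp_rw [hΦg]
    refine (mult_bound hn hτ α (cN n τ α) rfl g hgi ?_).trans (mul_le_mul' le_rfl hg2)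
    exact ne_top_of_le_ne_top (ENNReal.mul_ne_top ENNReal.ofReal_ne_top hEi) hg2
  -- Step E
  set w : ℝ → ℝ≥0∞ := fun N => ENNReal.ofReal (Real.exp (-(1 / 16 * |N|))) with hw
  set u : ℝ → ℝ≥0∞ := fun N => ENNReal.ofReal (Real.exp (1 / 16 * |N|) * rho n N) with hu
  have hwm : Measurable w := by fun_prop
  have hum : Measurable u := by fun_prop
  have hwu : ∀ N, w N * u N = ENNReal.ofReal (rho n N) := by
    intro N
    rw [hw, hu]
    simp only
    rw [← ENNReal.ofReal_mul (Real.exp_pos _).le, ← mul_assoc, ← Real.exp_add]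
    simp
  have hFle : ∀ x : V n, ‖∫ p : V n × V n, e p * (hk τ (x - p.2) *
        (R n t Q (‖x - p.2‖ ^ 2 + ‖p.2 - p.1‖ ^ 2) - rr n t Q τ (‖p.2 - p.1‖ ^ 2)))‖ₑ ^ 2 ≤
      (∫⁻ N, w N) * ∫⁻ N, w N * (u N * ‖Φ (x, N)‖ₑ) ^ 2 := by
    intro x
    have h1 : ‖∫ p : V n × V n, e p * (hk τ (x - p.2) *
        (R n t Q (‖x - p.2‖ ^ 2 + ‖p.2 - p.1‖ ^ 2) - rr n t Q τ (‖p.2 - p.1‖ ^ 2)))‖ₑ ≤
        ∫⁻ N, w N * (u N * ‖Φ (x, N)‖ₑ) := by
      have h2 : ‖∫ p : V n × V n, e p * (hk τ (x - p.2) *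
        (R n t Q (‖x - p.2‖ ^ 2 + ‖p.2 - p.1‖ ^ 2) - rr n t Q τ (‖p.2 - p.1‖ ^ 2)))‖ₑ =
        ‖((∫ p : V n × V n, e p * (hk τ (x - p.2) *
        (R n t Q (‖x - p.2‖ ^ 2 + ‖p.2 - p.1‖ ^ 2) -
          rr n t Q τ (‖p.2 - p.1‖ ^ 2))) : ℝ) : ℂ)‖ₑ := by
        rw [← ofReal_norm, ← ofReal_norm, Complex.norm_real]
      rw [h2, hB x]
      refine (enorm_integral_le_lintegral_enorm _).trans (le_of_eq ?_)
      congr 1
      ext N
      have h3 : ‖Complex.exp (-(Complex.I * al n t N * Q))‖ₑ = 1 := by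
        have := norm_cexp_I' (al n t N) (-Q)
        rw [← ofReal_norm]
        rw [show -(Complex.I * (al n t N : ℂ) * (Q : ℂ)) =
          Complex.I * (al n t N : ℂ) * ((-Q : ℝ) : ℂ) by push_cast; ring, this, ENNReal.ofReal_one]
      rw [enorm_mul, enorm_mul, h3, one_mul, ← mul_assoc, hwu]
      congr 1
      rw [← ofReal_norm, norm_rho]
    calc _ ≤ (∫⁻ N, w N * (u N * ‖Φ (x, N)‖ₑ)) ^ 2 := by gcongr
      _ ≤ _ := by
        apply H28Dyadic.sq_lintegral_mul_le _ _ hwm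
        apply Measurable.aemeasurable
        have : Measurable fun N => Φ (x, N) := hΦm.measurable.comp (by fun_prop)
        fun_prop
  have hJ1' : ∫⁻ N, w N = ENNReal.ofReal J1 := by
    rw [hJ1, ofReal_integral_eq_lintegral_ofReal hI1
      (Filter.Eventually.of_forall fun N => (Real.exp_pos _).le)]
  have hΦm2 : Measurable fun r : V n × ℝ => w r.2 * (u r.2 * ‖Φ r‖ₑ) ^ 2 := by
    have := hΦm.measurable
    fun_prop
  calc ∫⁻ x : V n, ‖∫ p : V n × V n, e p * (hk τ (x - p.2) *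
        (R n t Q (‖x - p.2‖ ^ 2 + ‖p.2 - p.1‖ ^ 2) - rr n t Q τ (‖p.2 - p.1‖ ^ 2)))‖ₑ ^ 2
      ≤ ∫⁻ x : V n, (∫⁻ N, w N) * ∫⁻ N, w N * (u N * ‖Φ (x, N)‖ₑ) ^ 2 := lintegral_mono hFle
    _ = (∫⁻ N, w N) * ∫⁻ x : V n, ∫⁻ N, w N * (u N * ‖Φ (x, N)‖ₑ) ^ 2 := by
        apply lintegral_const_mul' _ _
        rw [hJ1']; exact ENNReal.ofReal_ne_top
    _ = (∫⁻ N, w N) * ∫⁻ N, ∫⁻ x : V n, w N * (u N * ‖Φ (x, N)‖ₑ) ^ 2 := by
        congr 1
        apply lintegral_lintegral_swap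
        exact hΦm2.aemeasurable
    _ ≤ (∫⁻ N, w N) * ∫⁻ N : ℝ, ENNReal.ofReal (8192 / n * Real.exp (-(1 / 8 * |N|))) *
          (ENNReal.ofReal H * ∫⁻ X, ∫⁻ Y, E Y X) := by
        refine mul_le_mul' le_rfl (lintegral_mono fun N => ?_)
        have hm : Measurable fun x : V n => ‖Φ (x, N)‖ₑ := by
          have : Measurable fun x : V n => Φ (x, N) := hΦm.measurable.comp (by fun_prop)
          fun_prop
        calc ∫⁻ x : V n, w N * (u N * ‖Φ (x, N)‖ₑ) ^ 2
            = w N * u N ^ 2 * ∫⁻ x : V n, ‖Φ (x, N)‖ₑ ^ 2 := by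
              simp_rw [mul_pow, ← mul_assoc]
              rw [lintegral_const_mul _ (hm.pow_const 2)]
          _ ≤ w N * u N ^ 2 * (ENNReal.ofReal ((8 * al n t N * τ) ^ 2 *
              ‖cN n τ (al n t N)‖ ^ 2) * (ENNReal.ofReal H * ∫⁻ X, ∫⁻ Y, E Y X)) :=
              mul_le_mul' le_rfl (hCD N)
          _ = ENNReal.ofReal (Real.exp (-(1 / 16 * |N|)) * (Real.exp (1 / 16 * |N|) * rho n N) ^ 2 *
              ((8 * al n t N * τ) ^ 2 * ‖cN n τ (al n t N)‖ ^ 2)) *
              (ENNReal.ofReal H * ∫⁻ X, ∫⁻ Y, E Y X) := by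
              have := rho_nonneg n N
              have hA : 0 ≤ Real.exp (-(1 / 16 * |N|)) := (Real.exp_pos _).le
              have hB' : 0 ≤ Real.exp (1 / 16 * |N|) * rho n N := by positivity
              rw [ENNReal.ofReal_mul (mul_nonneg hA (pow_nonneg hB' 2)), ENNReal.ofReal_mul hA,
                ENNReal.ofReal_pow hB']
              rw [← mul_assoc]
          _ ≤ _ := mul_le_mul' (ENNReal.ofReal_le_ofReal (weight_bound hn ht hτ1 hτ2 N)) le_rfl
    _ = ENNReal.ofReal J1 * (ENNReal.ofReal (8192 / n * J2) *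
          (ENNReal.ofReal H * ∫⁻ X, ∫⁻ Y, E Y X)) := by
        rw [hJ1', lintegral_mul_const _ (by fun_prop)]
        congr 2
        rw [hJ2, ← integral_const_mul, ofReal_integral_eq_lintegral_ofReal (hI2.const_mul _)
          (Filter.Eventually.of_forall fun N => by positivity)]
    _ = ENNReal.ofReal (J1 * (8192 * J2) * H / n) * ∫⁻ X, ∫⁻ Y, E Y X := by
        rw [← mul_assoc, ← mul_assoc, ← ENNReal.ofReal_mul hJ1n, ← ENNReal.ofReal_mul (by positivity)]
        congr 2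
        ring
    _ ≤ _ := by
        apply mul_le_mul' _ le_rfl
        apply ENNReal.ofReal_le_ofReal
        gcongr
        linarith

end H28D
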