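import Pool.Agent.H28Dyadic.Far
import Pool.Agent.H28Dyadic.Fluct
import Pool.Agent.H28Dyadic.RefFluct

/-! Section 5.6: near paths. -/

set_option autoImplicit false

open MeasureTheory Real
open scoped ENNReal

namespace H28D

variable {n : ℕ}

lemma measurable_rr (n : ℕ) (t Q τ : ℝ) : Measurable (rr n t Q τ) := by
  unfold rr
  apply StronglyMeasurable.measurable
  apply StronglyMeasurable.integral_prod_right'
    (f := fun p : ℝ × V n => hk τ p.2 * R n t Q (‖p.2‖ ^ 2 + p.1))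
  apply Measurable.stronglyMeasurable
  have : Measurable fun p : ℝ × V n => R n t Q (‖p.2‖ ^ 2 + p.1) :=
    (measurable_R t Q).comp (by fun_prop)
  fun_prop

/-- integrability against a finite density. -/
lemma integrable_dens {E : V n × V n → ℝ≥0∞} (hE : Measurable E) (hEi : ∫⁻ p, E p ≠ ∞)
    {g : V n × V n → ℝ} (hg : Measurable g) {B : ℝ} (hB : ∀ p, |g p| ≤ B) :
    Integrable fun p => (E p).toReal * g p := by
  have h1 : Integrable fun p => (E p).toReal :=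
    integrable_toReal_of_lintegral_ne_top hE.aemeasurable hEi
  refine (h1.mul_const B).mono' (by fun_prop) (Filter.Eventually.of_forall fun p => ?_)
  rw [norm_mul, Real.norm_of_nonneg ENNReal.toReal_nonneg]
  exact mul_le_mul_of_nonneg_left (hB p) ENNReal.toReal_nonneg

lemma lintegral_dens {E : V n × V n → ℝ≥0∞} (hE : Measurable E) (hEi : ∫⁻ p, E p ≠ ∞)
    {g : V n × V n → ℝ} (hg : Measurable g) {B : ℝ} (hB : ∀ p, |g p| ≤ B) (hg0 : ∀ p, 0 ≤ g p) :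
    ∫⁻ p, E p * ENNReal.ofReal (g p) = ENNReal.ofReal (∫ p, (E p).toReal * g p) := by
  rw [ofReal_integral_eq_lintegral_ofReal (integrable_dens hE hEi hg hB)
    (Filter.Eventually.of_forall fun p => mul_nonneg ENNReal.toReal_nonneg (hg0 p))]
  have h : ∀ᵐ p, E p < ∞ := ae_lt_top hE hEi
  apply lintegral_congr_ae
  filter_upwards [h] with p hp
  rw [ENNReal.ofReal_mul ENNReal.toReal_nonneg, ENNReal.ofReal_toReal hp.ne]

/-- the fluctuation kernel (pair). -/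
noncomputable def kF (n : ℕ) (T Q τ : ℝ) (x : V n) (p : V n × V n) : ℝ :=
  hk τ (x - p.2) * (R n T Q (‖x - p.1‖ ^ 2) - R n T Q (‖x - p.2‖ ^ 2 + ‖p.2 - p.1‖ ^ 2))

/-- the reference fluctuation kernel. -/
noncomputable def kR (n : ℕ) (T Q τ : ℝ) (x : V n) (p : V n × V n) : ℝ :=
  hk τ (x - p.2) * (R n T Q (‖x - p.2‖ ^ 2 + ‖p.2 - p.1‖ ^ 2) - rr n T Q τ (‖p.2 - p.1‖ ^ 2))

lemma measurable_k1 (n : ℕ) (T Q τ : ℝ) :
    Measurable fun q : V n × (V n × V n) => hk τ (q.1 - q.2.2) * R n T Q (‖q.1 - q.2.1‖ ^ 2) := by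
  have : Measurable fun q : V n × (V n × V n) => R n T Q (‖q.1 - q.2.1‖ ^ 2) :=
    (measurable_R T Q).comp (by fun_prop)
  fun_prop

lemma measurable_k2 (n : ℕ) (T Q τ : ℝ) :
    Measurable fun q : V n × (V n × V n) => hk τ (q.1 - q.2.2) *
      R n T Q (‖q.1 - q.2.2‖ ^ 2 + ‖q.2.2 - q.2.1‖ ^ 2) := by
  have : Measurable fun q : V n × (V n × V n) =>
      R n T Q (‖q.1 - q.2.2‖ ^ 2 + ‖q.2.2 - q.2.1‖ ^ 2) :=
    (measurable_R T Q).comp (by fun_prop)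
  fun_prop

lemma measurable_k3 (n : ℕ) (T Q τ : ℝ) :
    Measurable fun q : V n × (V n × V n) => hk τ (q.1 - q.2.2) *
      rr n T Q τ (‖q.2.2 - q.2.1‖ ^ 2) := by
  have : Measurable fun q : V n × (V n × V n) => rr n T Q τ (‖q.2.2 - q.2.1‖ ^ 2) :=
    (measurable_rr n T Q τ).comp (by fun_prop)
  fun_prop

/-- plain kernels. -/
noncomputable def k1 (n : ℕ) (T Q τ : ℝ) (x : V n) (p : V n × V n) : ℝ :=
  hk τ (x - p.2) * R n T Q (‖x - p.1‖ ^ 2)

noncomputable def k2 (n : ℕ) (T Q τ : ℝ) (x : V n) (p : V n × V n) : ℝ :=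
  hk τ (x - p.2) * R n T Q (‖x - p.2‖ ^ 2 + ‖p.2 - p.1‖ ^ 2)

noncomputable def k3 (n : ℕ) (T Q τ : ℝ) (x : V n) (p : V n × V n) : ℝ :=
  hk τ (x - p.2) * rr n T Q τ (‖p.2 - p.1‖ ^ 2)

noncomputable def k0 (n : ℕ) (τ : ℝ) (x : V n) (p : V n × V n) : ℝ :=
  hk τ (x - p.2)

lemma k1_nonneg {T Q τ : ℝ} (hτ : 0 ≤ τ) (x : V n) (p : V n × V n) : 0 ≤ k1 n T Q τ x p :=
  mul_nonneg (hk_nonneg _ hτ _) (R_nonneg _ _ _)

lemma k2_nonneg {T Q τ : ℝ} (hτ : 0 ≤ τ) (x : V n) (p : V n × V n) : 0 ≤ k2 n T Q τ x p :=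
  mul_nonneg (hk_nonneg _ hτ _) (R_nonneg _ _ _)

lemma k3_nonneg {T Q τ : ℝ} (hτ : 0 ≤ τ) (x : V n) (p : V n × V n) : 0 ≤ k3 n T Q τ x p :=
  mul_nonneg (hk_nonneg _ hτ _) (rr_nonneg hτ _ _)

lemma k0_nonneg {τ : ℝ} (hτ : 0 ≤ τ) (x : V n) (p : V n × V n) : 0 ≤ k0 n τ x p :=
  hk_nonneg _ hτ _

lemma cc_nonneg {τ : ℝ} (hτ : 0 < τ) : 0 ≤ (4 * π * τ) ^ (-(n : ℝ) / 2) := by positivity

lemma k1_le {T Q τ : ℝ} (hτ : 0 < τ) (x : V n) (p : V n × V n) :
    |k1 n T Q τ x p| ≤ (4 * π * τ) ^ (-(n : ℝ) / 2) * √(n : ℝ) := by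
  rw [abs_of_nonneg (k1_nonneg hτ.le x p)]
  exact mul_le_mul (hk_le hτ _) (R_le _ _ _) (R_nonneg _ _ _) (cc_nonneg hτ)

lemma k2_le {T Q τ : ℝ} (hτ : 0 < τ) (x : V n) (p : V n × V n) :
    |k2 n T Q τ x p| ≤ (4 * π * τ) ^ (-(n : ℝ) / 2) * √(n : ℝ) := by
  rw [abs_of_nonneg (k2_nonneg hτ.le x p)]
  exact mul_le_mul (hk_le hτ _) (R_le _ _ _) (R_nonneg _ _ _) (cc_nonneg hτ)

lemma k3_le (hn : 1 ≤ n) {T Q τ : ℝ} (hT : 0 < T) (hτ : T / 4 ≤ τ) (x : V n) (p : V n × V n) :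
    |k3 n T Q τ x p| ≤ (4 * π * τ) ^ (-(n : ℝ) / 2) * 16 := by
  have hτ0 : 0 < τ := by linarith
  rw [abs_of_nonneg (k3_nonneg hτ0.le x p)]
  exact mul_le_mul (hk_le hτ0 _) (rr_le hn hT hτ _ _) (rr_nonneg hτ0.le _ _) (cc_nonneg hτ0)

lemma k0_le {τ : ℝ} (hτ : 0 < τ) (x : V n) (p : V n × V n) :
    |k0 n τ x p| ≤ (4 * π * τ) ^ (-(n : ℝ) / 2) := by
  rw [abs_of_nonneg (k0_nonneg hτ.le x p)]
  exact hk_le hτ _

lemma measurable_k1' (T Q τ : ℝ) (x : V n) : Measurable (k1 n T Q τ x) := by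
  unfold k1
  have h : Measurable fun p : V n × V n => R n T Q (‖x - p.1‖ ^ 2) :=
    (measurable_R T Q).comp (by fun_prop)
  fun_prop

lemma measurable_k2' (T Q τ : ℝ) (x : V n) : Measurable (k2 n T Q τ x) := by
  unfold k2
  have h : Measurable fun p : V n × V n => R n T Q (‖x - p.2‖ ^ 2 + ‖p.2 - p.1‖ ^ 2) :=
    (measurable_R T Q).comp (by fun_prop)
  fun_prop

lemma measurable_k3' (T Q τ : ℝ) (x : V n) : Measurable (k3 n T Q τ x) := by
  unfold k3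
  have h : Measurable fun p : V n × V n => rr n T Q τ (‖p.2 - p.1‖ ^ 2) :=
    (measurable_rr n T Q τ).comp (by fun_prop)
  fun_prop

lemma measurable_k0' (τ : ℝ) (x : V n) : Measurable (k0 n τ x) := by
  unfold k0; fun_prop

section one

variable {T Q τ : ℝ} {E : V n → V n → ℝ≥0∞} {e : V n → ℝ≥0∞}

lemma dens_finite (hE : Measurable (Function.uncurry E)) (hEe : ∀ X, ∫⁻ Y, E Y X ≤ e X)
    (hei : ∫⁻ X, e X ≠ ∞) : ∫⁻ p : V n × V n, E p.1 p.2 ≠ ∞ := by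
  have hEm : Measurable fun p : V n × V n => E p.1 p.2 := hE
  refine ne_top_of_le_ne_top hei ?_
  rw [Measure.volume_eq_prod, lintegral_prod_symm _ hEm.aemeasurable]
  exact lintegral_mono hEe

lemma zz_eq_real (hτ : 0 < τ) (hE : Measurable (Function.uncurry E))
    (hEi : ∫⁻ p : V n × V n, E p.1 p.2 ≠ ∞) (x : V n) :
    zz τ T Q E x = ENNReal.ofReal (∫ p : V n × V n, (E p.1 p.2).toReal * k1 n T Q τ x p) := by
  have hEm : Measurable fun p : V n × V n => E p.1 p.2 := hE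
  rw [← lintegral_dens hEm hEi (measurable_k1' T Q τ x) (k1_le hτ x) (k1_nonneg hτ.le x)]
  unfold zz
  apply lintegral_congr
  intro p
  unfold k1 G
  rw [ENNReal.ofReal_mul (hk_nonneg _ hτ.le _), mul_assoc]

lemma split_real (hn : 1 ≤ n) (hT : 0 < T) (hτ : T / 4 ≤ τ) (hE : Measurable (Function.uncurry E))
    (hEi : ∫⁻ p : V n × V n, E p.1 p.2 ≠ ∞) (x : V n) :
    ∫ p : V n × V n, (E p.1 p.2).toReal * k1 n T Q τ x p =
      (∫ p : V n × V n, (E p.1 p.2).toReal * kF n T Q τ x p) +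
      (∫ p : V n × V n, (E p.1 p.2).toReal * kR n T Q τ x p) +
      ∫ p : V n × V n, (E p.1 p.2).toReal * k3 n T Q τ x p := by
  have hEm : Measurable fun p : V n × V n => E p.1 p.2 := hE
  have hτ0 : 0 < τ := by linarith
  have i1 := integrable_dens hEm hEi (measurable_k1' T Q τ x) (k1_le hτ0 x)
  have i2 := integrable_dens hEm hEi (measurable_k2' T Q τ x) (k2_le hτ0 x)
  have i3 := integrable_dens hEm hEi (measurable_k3' T Q τ x) (k3_le hn hT hτ x)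
  have e1 : (fun p : V n × V n => (E p.1 p.2).toReal * kF n T Q τ x p) =
      fun p => (E p.1 p.2).toReal * k1 n T Q τ x p - (E p.1 p.2).toReal * k2 n T Q τ x p := by
    funext p; unfold k1 k2 kF; ring
  have e2 : (fun p : V n × V n => (E p.1 p.2).toReal * kR n T Q τ x p) =
      fun p => (E p.1 p.2).toReal * k2 n T Q τ x p - (E p.1 p.2).toReal * k3 n T Q τ x p := by
    funext p; unfold k2 k3 kR; ring
  rw [e1, e2, integral_sub i1 i2, integral_sub i2 i3]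
  ring

lemma main_real (hn : 1 ≤ n) (hT : 0 < T) (hτ : T / 4 ≤ τ) (hE : Measurable (Function.uncurry E))
    (hEi : ∫⁻ p : V n × V n, E p.1 p.2 ≠ ∞) (x : V n) :
    ∫ p : V n × V n, (E p.1 p.2).toReal * k3 n T Q τ x p ≤
      16 * ∫ p : V n × V n, (E p.1 p.2).toReal * k0 n τ x p := by
  have hEm : Measurable fun p : V n × V n => E p.1 p.2 := hE
  have hτ0 : 0 < τ := by linarith
  have i3 := integrable_dens hEm hEi (measurable_k3' T Q τ x) (k3_le hn hT hτ x)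
  have i0 := integrable_dens hEm hEi (measurable_k0' τ x) (k0_le hτ0 x)
  rw [← integral_const_mul]
  apply integral_mono i3 (i0.const_mul _)
  intro p
  simp only
  have h1 := rr_le hn hT hτ Q (‖p.2 - p.1‖ ^ 2)
  have h2 := hk_nonneg τ hτ0.le (x - p.2)
  have h3 : (0:ℝ) ≤ (E p.1 p.2).toReal := ENNReal.toReal_nonneg
  unfold k3 k0
  have h4 : hk τ (x - p.2) * rr n T Q τ (‖p.2 - p.1‖ ^ 2) ≤
      hk τ (x - p.2) * 16 := mul_le_mul_of_nonneg_left h1 h2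
  have h5 := mul_le_mul_of_nonneg_left h4 h3
  linarith

lemma base_real (hτ0 : 0 < τ) (hE : Measurable (Function.uncurry E))
    (hEe : ∀ X, ∫⁻ Y, E Y X ≤ e X) (hEi : ∫⁻ p : V n × V n, E p.1 p.2 ≠ ∞) (x : V n) :
    ENNReal.ofReal (∫ p : V n × V n, (E p.1 p.2).toReal * k0 n τ x p) ≤ P τ e x := by
  have hEm : Measurable fun p : V n × V n => E p.1 p.2 := hE
  rw [← lintegral_dens hEm hEi (measurable_k0' τ x) (k0_le hτ0 x) (k0_nonneg hτ0.le x)]
  rw [Measure.volume_eq_prod, lintegral_prod_symm]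
  · unfold P
    apply lintegral_mono
    intro X
    unfold k0
    simp only
    have hm : Measurable fun y : V n => E y X :=
      Measurable.comp2 hE measurable_id measurable_const
    rw [lintegral_mul_const _ hm, mul_comm]
    unfold G
    gcongr
    exact hEe X
  · exact (hEm.mul (measurable_k0' τ x).ennreal_ofReal).aemeasurable

end one

end H28D
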