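import Pool.Agent.H28Dyadic.Near1

/-! Section 5.6: near paths, pointwise decomposition and `L²` bounds. -/

set_option autoImplicit false

open MeasureTheory Real
open scoped ENNReal

namespace H28D

variable {n : ℕ}

/-- real sums: the algebra of the decomposition. -/
lemma sum_split_le (M : ℕ) (A F B C D : ℕ → ℝ) (H : ℝ)
    (h1 : ∀ i < M, A i = F i + B i + C i) (h2 : ∀ i < M, C i ≤ 16 * D i)
    (h3 : ∑ i ∈ Finset.range M, D i ≤ H) :
    ∑ i ∈ Finset.range M, A i ≤ 16 * H + ‖∑ i ∈ Finset.range M, F i‖ +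
      ∑ i ∈ Finset.range M, ‖B i‖ := by
  have e1 : ∑ i ∈ Finset.range M, A i = (∑ i ∈ Finset.range M, F i) +
      (∑ i ∈ Finset.range M, B i) + ∑ i ∈ Finset.range M, C i := by
    rw [← Finset.sum_add_distrib, ← Finset.sum_add_distrib]
    exact Finset.sum_congr rfl fun i hi => h1 i (Finset.mem_range.1 hi)
  have e2 : ∑ i ∈ Finset.range M, C i ≤ 16 * ∑ i ∈ Finset.range M, D i := by
    rw [Finset.mul_sum]
    exact Finset.sum_le_sum fun i hi => h2 i (Finset.mem_range.1 hi)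
  have e3 : ∑ i ∈ Finset.range M, B i ≤ ∑ i ∈ Finset.range M, ‖B i‖ :=
    Finset.sum_le_sum fun i _ => Real.le_norm_self _
  have e4 := Real.le_norm_self (∑ i ∈ Finset.range M, F i)
  rw [e1]
  linarith

lemma ofReal_split (M : ℕ) (z : ℕ → ℝ≥0∞) (A B : ℕ → ℝ) (F H : ℝ)
    (hA : ∀ i < M, 0 ≤ A i) (hz : ∀ i < M, z i = ENNReal.ofReal (A i))
    (h : ∑ i ∈ Finset.range M, A i ≤ 16 * H + ‖F‖ + ∑ i ∈ Finset.range M, ‖B i‖) :
    ∑ i ∈ Finset.range M, z i ≤ 16 * ENNReal.ofReal H + ‖F‖ₑ +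
      ∑ i ∈ Finset.range M, ‖B i‖ₑ := by
  have hL : ∑ i ∈ Finset.range M, z i = ENNReal.ofReal (∑ i ∈ Finset.range M, A i) := by
    rw [ENNReal.ofReal_sum_of_nonneg (fun i hi => hA i (Finset.mem_range.1 hi))]
    exact Finset.sum_congr rfl fun i hi => hz i (Finset.mem_range.1 hi)
  rw [hL]
  refine (ENNReal.ofReal_le_ofReal h).trans ?_
  refine (ENNReal.ofReal_add_le).trans ?_
  apply add_le_add
  · refine (ENNReal.ofReal_add_le).trans ?_
    apply add_le_add
    · rw [ENNReal.ofReal_mul (by norm_num)]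
      simp
    · rw [ofReal_norm]
  · rw [ENNReal.ofReal_sum_of_nonneg (fun i _ => norm_nonneg _)]
    simp_rw [ofReal_norm]
    exact le_rfl

/-- the fluctuation function of the near paths. -/
noncomputable def FF (n : ℕ) (T Q : ℝ) (M : ℕ) (τ : ℕ → ℝ) (E : ℕ → V n → V n → ℝ≥0∞)
    (x : V n) : ℝ :=
  ∑ i ∈ Finset.range M, ∫ p : V n × V n, (E i p.1 p.2).toReal * kF n T Q (τ i) x p

/-- the reference fluctuation function of one level. -/
noncomputable def FR (n : ℕ) (T Q τ : ℝ) (E : V n → V n → ℝ≥0∞) (x : V n) : ℝ :=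
  ∫ p : V n × V n, (E p.1 p.2).toReal * kR n T Q τ x p

lemma near_pointwise (hn : 1 ≤ n) {T Q H : ℝ} (hT : 0 < T) (hH : 0 < H) (M : ℕ) (τ : ℕ → ℝ)
    (hτ : ∀ i < M, 3 * T / 4 ≤ τ i) (E : ℕ → V n → V n → ℝ≥0∞)
    (hE : ∀ i, Measurable (Function.uncurry (E i))) (e : ℕ → V n → ℝ≥0∞)
    (hEe : ∀ i X, ∫⁻ Y, E i Y X ≤ e i X)
    (hei : ∀ i, ∫⁻ X, e i X ≠ ∞) (x : V n)
    (hx : ∑ i ∈ Finset.range M, P (τ i) (e i) x ≤ ENNReal.ofReal H) :
    ∑ i ∈ Finset.range M, zz (τ i) T Q (E i) x ≤ 16 * ENNReal.ofReal H +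
      ‖FF n T Q M τ E x‖ₑ + ∑ i ∈ Finset.range M, ‖FR n T Q (τ i) (E i) x‖ₑ := by
  have hEi : ∀ i, ∫⁻ p : V n × V n, E i p.1 p.2 ≠ ∞ := fun i =>
    dens_finite (hE i) (hEe i) (hei i)
  have hτ0 : ∀ i < M, 0 < τ i := fun i hi => by have := hτ i hi; linarith
  have hτ4 : ∀ i < M, T / 4 ≤ τ i := fun i hi => by have := hτ i hi; linarith
  unfold FF FR
  refine ofReal_split M (fun i => zz (τ i) T Q (E i) x)
    (fun i => ∫ p : V n × V n, (E i p.1 p.2).toReal * k1 n T Q (τ i) x p)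
    (fun i => ∫ p : V n × V n, (E i p.1 p.2).toReal * kR n T Q (τ i) x p) _ H ?_ ?_ ?_
  · intro i hi
    exact integral_nonneg fun p =>
      mul_nonneg ENNReal.toReal_nonneg (k1_nonneg (hτ0 i hi).le x p)
  · intro i hi
    exact zz_eq_real (hτ0 i hi) (hE i) (hEi i) x
  · refine sum_split_le M _ _ _
      (fun i => ∫ p : V n × V n, (E i p.1 p.2).toReal * k3 n T Q (τ i) x p)
      (fun i => ∫ p : V n × V n, (E i p.1 p.2).toReal * k0 n (τ i) x p) H ?_ ?_ ?_
    · intro i hi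
      exact split_real hn hT (hτ4 i hi) (hE i) (hEi i) x
    · intro i hi
      exact main_real hn hT (hτ4 i hi) (hE i) (hEi i) x
    · have h1 : ENNReal.ofReal (∑ i ∈ Finset.range M,
          ∫ p : V n × V n, (E i p.1 p.2).toReal * k0 n (τ i) x p) ≤ ENNReal.ofReal H := by
        rw [ENNReal.ofReal_sum_of_nonneg]
        · refine le_trans (Finset.sum_le_sum fun i hi => ?_) hx
          exact base_real (hτ0 i (Finset.mem_range.1 hi)) (hE i) (hEe i) (hEi i) x
        · intro i hi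
          exact integral_nonneg fun p =>
            mul_nonneg ENNReal.toReal_nonneg (k0_nonneg (hτ0 i (Finset.mem_range.1 hi)).le x p)
      exact (ENNReal.ofReal_le_ofReal_iff hH.le).1 h1

/-- the path measure of the near paths. -/
noncomputable def muN (M : ℕ) (E : ℕ → V n → V n → ℝ≥0∞) : Measure (ℕ × (V n × V n)) :=
  ∑ i ∈ Finset.range M, Measure.map (fun p => (i, p))
    ((volume : Measure (V n × V n)).withDensity (fun p => E i p.1 p.2))

lemma lintegral_muN (M : ℕ) {E : ℕ → V n → V n → ℝ≥0∞}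
    (hE : ∀ i, Measurable (Function.uncurry (E i))) {g : ℕ × (V n × V n) → ℝ≥0∞}
    (hg : Measurable g) :
    ∫⁻ ω, g ω ∂(muN M E) = ∑ i ∈ Finset.range M, ∫⁻ p : V n × V n, E i p.1 p.2 * g (i, p) := by
  unfold muN
  rw [lintegral_finsetSum_measure]
  apply Finset.sum_congr rfl
  intro i _
  have h1 : Measurable fun p : V n × V n => (i, p) := measurable_const.prodMk measurable_id
  have h2 : Measurable fun p : V n × V n => g (i, p) := hg.comp h1
  have h3 : Measurable fun p : V n × V n => E i p.1 p.2 := hE i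
  rw [lintegral_map hg h1, lintegral_withDensity_eq_lintegral_mul _ h3 h2]
  rfl

lemma integral_muN (M : ℕ) {E : ℕ → V n → V n → ℝ≥0∞}
    (hE : ∀ i, Measurable (Function.uncurry (E i)))
    (hEi : ∀ i, ∫⁻ p : V n × V n, E i p.1 p.2 ≠ ∞) {g : ℕ × (V n × V n) → ℝ}
    (hg : Measurable g) (B : ℕ → ℝ) (hB : ∀ i < M, ∀ p, |g (i, p)| ≤ B i) :
    ∫ ω, g ω ∂(muN M E) =
      ∑ i ∈ Finset.range M, ∫ p : V n × V n, (E i p.1 p.2).toReal * g (i, p) := by
  unfold muN
  have h1 : ∀ i : ℕ, Measurable fun p : V n × V n => (i, p) := fun i =>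
    measurable_const.prodMk measurable_id
  have h2 : ∀ i, Measurable fun p : V n × V n => g (i, p) := fun i => hg.comp (h1 i)
  have h3 : ∀ i, Measurable fun p : V n × V n => E i p.1 p.2 := fun i => hE i
  rw [integral_finsetSum_measure]
  · apply Finset.sum_congr rfl
    intro i _
    rw [integral_map (h1 i).aemeasurable hg.aestronglyMeasurable,
      integral_withDensity_eq_integral_toReal_smul (h3 i) (ae_lt_top (h3 i) (hEi i))]
    simp only [smul_eq_mul]
  · intro i hi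
    rw [integrable_map_measure hg.aestronglyMeasurable (h1 i).aemeasurable]
    rw [integrable_withDensity_iff_integrable_smul' (h3 i) (ae_lt_top (h3 i) (hEi i))]
    simp only [smul_eq_mul]
    exact integrable_dens (h3 i) (hEi i) (h2 i) (hB i (Finset.mem_range.1 hi))

end H28D
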