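import Pool.Agent.H28Dyadic.Near2

/-! Section 5.6: near paths, `L²` bounds. -/

set_option autoImplicit false

open MeasureTheory Real
open scoped ENNReal

namespace H28D

variable {n : ℕ}

lemma isFiniteMeasure_muN (M : ℕ) {E : ℕ → V n → V n → ℝ≥0∞}
    (hE : ∀ i, Measurable (Function.uncurry (E i)))
    (hEi : ∀ i, ∫⁻ p : V n × V n, E i p.1 p.2 ≠ ∞) : IsFiniteMeasure (muN M E) := by
  refine ⟨?_⟩
  have h := lintegral_muN M hE (g := fun _ => 1) measurable_const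
  rw [lintegral_one] at h
  rw [h]
  simp only [mul_one]
  exact ENNReal.sum_lt_top.2 fun i _ => lt_top_iff_ne_top.2 (hEi i)

lemma ae_muN (M : ℕ) {E : ℕ → V n → V n → ℝ≥0∞}
    (hE : ∀ i, Measurable (Function.uncurry (E i))) {q : ℕ × (V n × V n) → Prop}
    (hq : MeasurableSet {ω | q ω}) (h : ∀ i < M, ∀ p : V n × V n, E i p.1 p.2 ≠ 0 → q (i, p)) :
    ∀ᵐ ω ∂(muN M E), q ω := by
  unfold muN
  rw [ae_finsetSum_measure_iff]
  intro i hi
  have h1 : Measurable fun p : V n × V n => (i, p) := measurable_const.prodMk measurable_id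
  have h3 : Measurable fun p : V n × V n => E i p.1 p.2 := hE i
  rw [ae_map_iff h1.aemeasurable hq, ae_withDensity_iff h3]
  exact Filter.Eventually.of_forall fun p hp => h i (Finset.mem_range.1 hi) p hp

/-- `L²` bound of the fluctuation. -/
lemma near_fluct : ∃ C : ℝ, 0 < C ∧ ∀ (n : ℕ), 1 ≤ n → ∀ (T Q H : ℝ), 0 < T → 0 < H →
    ∀ (M : ℕ) (τ : ℕ → ℝ), (∀ i < M, 3 * T / 4 ≤ τ i ∧ τ i ≤ T) →
    ∀ (E : ℕ → V n → V n → ℝ≥0∞), (∀ i, Measurable (Function.uncurry (E i))) →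
    ∀ (e : ℕ → V n → ℝ≥0∞), (∀ i X, ∫⁻ Y, E i Y X ≤ e i X) → (∀ i, ∫⁻ X, e i X ≠ ∞) →
    (∀ i, ∀ p : V n × V n, E i p.1 p.2 ≠ 0 → ‖p.2 - p.1‖ ^ 2 ≤ n * T / 64) →
    (∀ z, ∑ i ∈ Finset.range M, P (τ i - T / 2) (e i) z ≤ ENNReal.ofReal H) →
    ∫⁻ x, ‖FF n T Q M τ E x‖ₑ ^ 2 ≤ ENNReal.ofReal (C * H) *
      ∑ i ∈ Finset.range M, ∫⁻ p : V n × V n, E i p.1 p.2 *
        ENNReal.ofReal (‖p.2 - p.1‖ / √(n * T)) := by
  obtain ⟨C, hC, hfl⟩ := fluct
  refine ⟨C, hC, ?_⟩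
  intro n hn T Q H hT hH M τ hτ E hE e hEe hei hnear hDB
  have hEi : ∀ i, ∫⁻ p : V n × V n, E i p.1 p.2 ≠ ∞ := fun i =>
    dens_finite (hE i) (hEe i) (hei i)
  have := isFiniteMeasure_muN M hE hEi
  have hτm : Measurable fun ω : ℕ × (V n × V n) => τ ω.1 :=
    (measurable_of_countable τ).comp measurable_fst
  have hXm : Measurable fun ω : ℕ × (V n × V n) => ω.2.2 := by fun_prop
  have hYm : Measurable fun ω : ℕ × (V n × V n) => ω.2.1 := by fun_prop
  have hmain := hfl n hn T Q H hT hH (ℕ × (V n × V n)) (muN M E) (fun ω => ω.2.2)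
    (fun ω => ω.2.1) (fun ω => τ ω.1) hXm hYm hτm
    (ae_muN M hE ((measurableSet_le measurable_const hτm).inter
      (measurableSet_le hτm measurable_const)) (fun i hi p _ => hτ i hi))
    (ae_muN M hE (measurableSet_le (by fun_prop) measurable_const) (fun i _ p hp => hnear i p hp))
    (by
      intro z
      have hg : Measurable fun ω : ℕ × (V n × V n) => G (τ ω.1 - T / 2) (ω.2.2 - z) := by
        fun_prop
      rw [lintegral_muN M hE hg]
      refine le_trans (Finset.sum_le_sum fun i hi => ?_) (hDB z)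
      have hi' := Finset.mem_range.1 hi
      have hEm : Measurable fun p : V n × V n => E i p.1 p.2 := hE i
      rw [Measure.volume_eq_prod, lintegral_prod_symm]
      · unfold P
        apply lintegral_mono
        intro X
        simp only
        have hm : Measurable fun y : V n => E i y X :=
          Measurable.comp2 (hE i) measurable_id measurable_const
        rw [lintegral_mul_const _ hm, mul_comm, G_sub_comm]
        gcongr
        exact hEe i X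
      · apply Measurable.aemeasurable
        fun_prop)
  have hrhs : ∫⁻ ω, ENNReal.ofReal (‖ω.2.2 - ω.2.1‖ / √(n * T)) ∂(muN M E) =
      ∑ i ∈ Finset.range M, ∫⁻ p : V n × V n, E i p.1 p.2 *
        ENNReal.ofReal (‖p.2 - p.1‖ / √(n * T)) :=
    lintegral_muN M hE (by fun_prop)
  rw [hrhs] at hmain
  refine le_of_eq_of_le ?_ hmain
  apply lintegral_congr
  intro x
  have hk1m : Measurable fun ω : ℕ × (V n × V n) => R n T Q (‖x - ω.2.1‖ ^ 2) :=
    (measurable_R T Q).comp (by fun_prop)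
  have hk2m : Measurable fun ω : ℕ × (V n × V n) =>
      R n T Q (‖x - ω.2.2‖ ^ 2 + ‖ω.2.2 - ω.2.1‖ ^ 2) :=
    (measurable_R T Q).comp (by fun_prop)
  have hgm : Measurable fun ω : ℕ × (V n × V n) => hk (τ ω.1) (x - ω.2.2) *
      (R n T Q (‖x - ω.2.1‖ ^ 2) - R n T Q (‖x - ω.2.2‖ ^ 2 + ‖ω.2.2 - ω.2.1‖ ^ 2)) := by
    fun_prop
  have h2 := integral_muN M hE hEi hgm
    (fun i => (4 * π * τ i) ^ (-(n : ℝ) / 2) * √(n : ℝ)) (by
      intro i hi p
      have hτ0 : 0 < τ i := by have := (hτ i hi).1; linarith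
      simp only
      rw [abs_mul, abs_of_nonneg (hk_nonneg _ hτ0.le _)]
      apply mul_le_mul (hk_le hτ0 _) _ (abs_nonneg _) (cc_nonneg hτ0)
      have a1 := R_nonneg (n := n) T Q (‖x - p.1‖ ^ 2)
      have a2 := R_le (n := n) T Q (‖x - p.1‖ ^ 2)
      have a3 := R_nonneg (n := n) T Q (‖x - p.2‖ ^ 2 + ‖p.2 - p.1‖ ^ 2)
      have a4 := R_le (n := n) T Q (‖x - p.2‖ ^ 2 + ‖p.2 - p.1‖ ^ 2)
      rw [abs_le]
      constructor <;> linarith)
  rw [h2]
  rfl

/-- `L²` bound of the reference fluctuation. -/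
lemma near_ref : ∃ C : ℝ, 0 < C ∧ ∀ (n : ℕ), 1 ≤ n → ∀ (T Q H : ℝ), 0 < T → 0 < H →
    ∀ (τ : ℝ), 3 * T / 4 ≤ τ → τ ≤ T →
    ∀ (E : V n → V n → ℝ≥0∞), Measurable (Function.uncurry E) →
    ∀ (e : V n → ℝ≥0∞), (∀ X, ∫⁻ Y, E Y X ≤ e X) → (∀ X, e X ≤ ENNReal.ofReal H) →
    (∫⁻ X, e X ≠ ∞) →
    ∫⁻ x, ‖FR n T Q τ E x‖ₑ ^ 2 ≤ ENNReal.ofReal (C * H / n) * ∫⁻ X, e X := by
  obtain ⟨C, hC, hr⟩ := refFluct
  refine ⟨C, hC, ?_⟩
  intro n hn T Q H hT hH τ hτ1 hτ2 E hE e hEe heH hei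
  have hm := hr n hn T Q τ hT hτ1 hτ2 H hH E hE (fun X => (hEe X).trans (heH X))
    (ne_top_of_le_ne_top hei (lintegral_mono hEe))
  calc _ ≤ _ := hm
    _ ≤ _ := by
      gcongr with X
      exact hEe X

lemma measurable_FR (T Q τ : ℝ) {E : V n → V n → ℝ≥0∞} (hE : Measurable (Function.uncurry E)) :
    Measurable (FR n T Q τ E) := by
  unfold FR
  apply StronglyMeasurable.measurable
  apply StronglyMeasurable.integral_prod_right'
    (f := fun q : V n × (V n × V n) => (E q.2.1 q.2.2).toReal * kR n T Q τ q.1 q.2)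
  apply Measurable.stronglyMeasurable
  have h1 : Measurable fun q : V n × (V n × V n) => E q.2.1 q.2.2 := hE.comp measurable_snd
  have h2 : Measurable fun q : V n × (V n × V n) => kR n T Q τ q.1 q.2 := by
    have e : (fun q : V n × (V n × V n) => kR n T Q τ q.1 q.2) = fun q =>
        hk τ (q.1 - q.2.2) * R n T Q (‖q.1 - q.2.2‖ ^ 2 + ‖q.2.2 - q.2.1‖ ^ 2) -
        hk τ (q.1 - q.2.2) * rr n T Q τ (‖q.2.2 - q.2.1‖ ^ 2) := by
      funext q; unfold kR; ring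
    rw [e]
    exact (measurable_k2 n T Q τ).sub (measurable_k3 n T Q τ)
  fun_prop

lemma measurable_FF (T Q : ℝ) (M : ℕ) (τ : ℕ → ℝ) {E : ℕ → V n → V n → ℝ≥0∞}
    (hE : ∀ i, Measurable (Function.uncurry (E i))) : Measurable (FF n T Q M τ E) := by
  unfold FF
  apply Finset.measurable_sum
  intro i _
  apply StronglyMeasurable.measurable
  apply StronglyMeasurable.integral_prod_right'
    (f := fun q : V n × (V n × V n) => (E i q.2.1 q.2.2).toReal * kF n T Q (τ i) q.1 q.2)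
  apply Measurable.stronglyMeasurable
  have h1 : Measurable fun q : V n × (V n × V n) => E i q.2.1 q.2.2 := (hE i).comp measurable_snd
  have h2 : Measurable fun q : V n × (V n × V n) => kF n T Q (τ i) q.1 q.2 := by
    have e : (fun q : V n × (V n × V n) => kF n T Q (τ i) q.1 q.2) = fun q =>
        hk (τ i) (q.1 - q.2.2) * R n T Q (‖q.1 - q.2.1‖ ^ 2) -
        hk (τ i) (q.1 - q.2.2) * R n T Q (‖q.1 - q.2.2‖ ^ 2 + ‖q.2.2 - q.2.1‖ ^ 2) := by
      funext q; unfold kF; ring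
    rw [e]
    exact (measurable_k1 n T Q (τ i)).sub (measurable_k2 n T Q (τ i))
  fun_prop

/-- Chebyshev in `L²`. -/
lemma cheb_sq {g : V n → ℝ≥0∞} (hg : Measurable g) (c : ℝ≥0∞) :
    c ^ 2 * volume {x : V n | c < g x} ≤ ∫⁻ x, g x ^ 2 := by
  calc _ ≤ c ^ 2 * volume {x : V n | c ^ 2 ≤ g x ^ 2} := by
        gcongr 2
        intro x hx
        have hx' : c < g x := hx
        exact pow_le_pow_left' hx'.le 2
    _ ≤ _ := mul_meas_ge_le_lintegral (hg.pow_const 2) _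

lemma sum_enorm_sq_le (M : ℕ) (B : ℕ → ℝ) :
    (∑ i ∈ Finset.range M, ‖B i‖ₑ) ^ 2 ≤ M * ∑ i ∈ Finset.range M, ‖B i‖ₑ ^ 2 := by
  have h1 : (∑ i ∈ Finset.range M, ‖B i‖) ^ 2 ≤ M * ∑ i ∈ Finset.range M, ‖B i‖ ^ 2 := by
    have := sq_sum_le_card_mul_sum_sq (s := Finset.range M) (f := fun i => ‖B i‖)
    simpa using this
  have e1 : ∑ i ∈ Finset.range M, ‖B i‖ₑ = ENNReal.ofReal (∑ i ∈ Finset.range M, ‖B i‖) := by
    rw [ENNReal.ofReal_sum_of_nonneg (fun i _ => norm_nonneg _)]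
    simp_rw [ofReal_norm]
  have e2 : (M : ℝ≥0∞) * ∑ i ∈ Finset.range M, ‖B i‖ₑ ^ 2 =
      ENNReal.ofReal (M * ∑ i ∈ Finset.range M, ‖B i‖ ^ 2) := by
    rw [ENNReal.ofReal_mul (by positivity), ENNReal.ofReal_natCast,
      ENNReal.ofReal_sum_of_nonneg (fun i _ => sq_nonneg _)]
    congr 1
    apply Finset.sum_congr rfl
    intro i _
    rw [ENNReal.ofReal_pow (norm_nonneg _), ofReal_norm]
  rw [e1, e2, ← ENNReal.ofReal_pow (Finset.sum_nonneg fun i _ => norm_nonneg _)]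
  exact ENNReal.ofReal_le_ofReal h1

end H28D
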