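import Pool.Agent.H28Dyadic.Paths
import Pool.Agent.H28Dyadic.Cost

/-! Section 5: decomposition of the thin average and part (I). -/

set_option autoImplicit false

open MeasureTheory Real
open scoped ENNReal

namespace H28D

variable {n : ℕ}

/-- thin average of a path density. -/
noncomputable def zz (τ t Q : ℝ) (E : V n → V n → ℝ≥0∞) (x : V n) : ℝ≥0∞ :=
  ∫⁻ p : V n × V n, E p.1 p.2 * G τ (x - p.2) * ENNReal.ofReal (R n t Q (‖x - p.1‖ ^ 2))

lemma zz_meas {τ t Q : ℝ} {E : V n → V n → ℝ≥0∞} (hE : Measurable (Function.uncurry E)) :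
    Measurable fun q : V n × (V n × V n) => E q.2.1 q.2.2 * G τ (q.1 - q.2.2) *
      ENNReal.ofReal (R n t Q (‖q.1 - q.2.1‖ ^ 2)) := by
  have h : Measurable fun q : V n × (V n × V n) => E q.2.1 q.2.2 :=
    hE.comp measurable_snd
  have h2 : Measurable fun q : V n × (V n × V n) => R n t Q (‖q.1 - q.2.1‖ ^ 2) :=
    (measurable_R t Q).comp (by fun_prop)
  fun_prop

@[fun_prop]
lemma measurable_zz {τ t Q : ℝ} {E : V n → V n → ℝ≥0∞} (hE : Measurable (Function.uncurry E)) :
    Measurable (zz τ t Q E) := by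
  unfold zz
  exact (zz_meas hE).lintegral_prod_right'

lemma zz_eq {τ t Q : ℝ} {E : V n → V n → ℝ≥0∞} (hE : Measurable (Function.uncurry E)) (x : V n) :
    zz τ t Q E x = ∫⁻ y, (∫⁻ x', E y x' * G τ (x - x')) *
      ENNReal.ofReal (R n t Q (‖x - y‖ ^ 2)) := by
  unfold zz
  rw [Measure.volume_eq_prod, lintegral_prod]
  · congr 1; funext y
    simp only
    rw [lintegral_mul_const]
    have := Measurable.comp2 hE (measurable_const (a := y)) measurable_id
    simp only [id] at this
    fun_prop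
  · exact ((zz_meas hE).comp (measurable_const.prodMk measurable_id)).aemeasurable

lemma zz_add {τ t Q : ℝ} {E E' F : V n → V n → ℝ≥0∞} (hE : Measurable (Function.uncurry E))
    (h : ∀ y x, F y x = E y x + E' y x) (x : V n) :
    zz τ t Q F x = zz τ t Q E x + zz τ t Q E' x := by
  unfold zz
  rw [← lintegral_add_left]
  · congr 1; funext p
    rw [h]; ring
  · exact (zz_meas hE).comp (measurable_const.prodMk measurable_id)

/-- integral of `zz` against a weight `g`. -/
lemma lintegral_zz_mul {τ t Q : ℝ} {E : V n → V n → ℝ≥0∞} (hE : Measurable (Function.uncurry E))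
    {g : V n → ℝ≥0∞} (hg : Measurable g) :
    ∫⁻ x, zz τ t Q E x * g x = ∫⁻ p : V n × V n, E p.1 p.2 *
      ∫⁻ x, g x * G τ (x - p.2) * ENNReal.ofReal (R n t Q (‖x - p.1‖ ^ 2)) := by
  have hEm : Measurable fun p : V n × V n => E p.1 p.2 := hE
  unfold zz
  calc ∫⁻ x, (∫⁻ p : V n × V n, E p.1 p.2 * G τ (x - p.2) *
        ENNReal.ofReal (R n t Q (‖x - p.1‖ ^ 2))) * g x
      = ∫⁻ x, ∫⁻ p : V n × V n, E p.1 p.2 * G τ (x - p.2) *
        ENNReal.ofReal (R n t Q (‖x - p.1‖ ^ 2)) * g x := by
        congr 1; funext x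
        rw [lintegral_mul_const]
        exact (zz_meas hE).comp (measurable_const.prodMk measurable_id)
    _ = ∫⁻ p : V n × V n, ∫⁻ x, E p.1 p.2 * G τ (x - p.2) *
        ENNReal.ofReal (R n t Q (‖x - p.1‖ ^ 2)) * g x := by
        apply lintegral_lintegral_swap
        exact ((zz_meas hE).mul (hg.comp measurable_fst)).aemeasurable
    _ = _ := by
        congr 1; funext p
        rw [← lintegral_const_mul]
        · congr 1; funext x
          ring
        · have : Measurable fun x : V n => R n t Q (‖x - p.1‖ ^ 2) :=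
            (measurable_R t Q).comp (by fun_prop)
          fun_prop

lemma lintegral_zz {τ t Q : ℝ} {E : V n → V n → ℝ≥0∞} (hE : Measurable (Function.uncurry E)) :
    ∫⁻ x, zz τ t Q E x = ∫⁻ p : V n × V n, E p.1 p.2 *
      ∫⁻ x, G τ (x - p.2) * ENNReal.ofReal (R n t Q (‖x - p.1‖ ^ 2)) := by
  have := lintegral_zz_mul (τ := τ) (t := t) (Q := Q) hE (g := fun _ => 1) measurable_const
  simpa using this

section

variable {t₀ : ℝ} {H : ℝ≥0∞} {f : V n → ℝ≥0∞}

/-- decomposition of the thin average. -/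
lemma thinAvg_le (hn : 1 ≤ n) (ht : 0 < t₀) (hf : Measurable f) (a m : ℕ) (x : V n) :
    thinAvg (tt t₀ (a + m + 2)) (tt t₀ a) f x ≤ 16 * H +
      zz (tt t₀ (a + m + 2) - tt t₀ (a + m + 1)) (tt t₀ (a + m + 2))
        (2 * n * (tt t₀ (a + m + 2) - tt t₀ a)) (Sp t₀ H f a m) x +
      ∑ i ∈ Finset.range (m + 1), zz (tt t₀ (a + m + 2) - tt t₀ (a + i + 1)) (tt t₀ (a + m + 2))
        (2 * n * (tt t₀ (a + m + 2) - tt t₀ a)) (Ep t₀ H f a i) x := by
  set T := tt t₀ (a + m + 2) with hT
  set Q := 2 * n * (T - tt t₀ a) with hQ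
  have hT1 : tt t₀ (a + m + 1) < T := by
    have h1 := tt_lt ht (show a + m + 1 < a + m + 2 by omega)
    have h2 := tt_pos ht (a + m + 1)
    rw [← hT] at h1; linarith
  have hTa : 4 * tt t₀ a ≤ T := tt_lt ht (show a < a + m + 2 by omega)
  have hT0 : 0 < T := tt_pos ht _
  have hRm : Measurable fun y : V n => R n T Q (‖x - y‖ ^ 2) :=
    (measurable_R T Q).comp (by fun_prop)
  have h1 : thinAvg T (tt t₀ a) f x =
      (∫⁻ y, G (T - tt t₀ a) (x - y) * ENNReal.ofReal (R n T Q (‖x - y‖ ^ 2)) * lo t₀ H f a y) +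
      ∫⁻ y, (hi t₀ H f a y * G (T - tt t₀ a) (x - y)) * ENNReal.ofReal (R n T Q (‖x - y‖ ^ 2)) := by
    unfold thinAvg
    have hl := measurable_lo t₀ H hf a
    rw [← lintegral_add_left (by fun_prop)]
    congr 1; funext y
    have : P (tt t₀ a) f y = lo t₀ H f a y + hi t₀ H f a y := (lo_add_hi a y).symm
    rw [this, mul_add]
    congr 1
    ring
  have h2 : ∫⁻ y, G (T - tt t₀ a) (x - y) * ENNReal.ofReal (R n T Q (‖x - y‖ ^ 2)) *
      lo t₀ H f a y ≤ 16 * H := by
    calc _ ≤ ∫⁻ y, G (T - tt t₀ a) (y - x) * ENNReal.ofReal (R n T Q (‖y - x‖ ^ 2)) * H := by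
          apply lintegral_mono
          intro y
          simp only
          rw [G_sub_comm, norm_sub_rev]
          gcongr
          exact lo_le a y
      _ = (∫⁻ y, G (T - tt t₀ a) (y - x) * ENNReal.ofReal (R n T Q (‖y - x‖ ^ 2))) * H := by
          rw [lintegral_mul_const]
          have : Measurable fun y : V n => R n T Q (‖y - x‖ ^ 2) :=
            (measurable_R T Q).comp (by fun_prop)
          fun_prop
      _ ≤ 16 * H := by
          gcongr
          exact thin_J hn hT0 (by linarith) Q x x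
  have h3 : ∫⁻ y, (hi t₀ H f a y * G (T - tt t₀ a) (x - y)) *
      ENNReal.ofReal (R n T Q (‖x - y‖ ^ 2)) =
      zz (T - tt t₀ (a + m + 1)) T Q (Sp t₀ H f a m) x +
      ∑ i ∈ Finset.range (m + 1), zz (T - tt t₀ (a + i + 1)) T Q (Ep t₀ H f a i) x := by
    simp_rw [path_decomp (H := H) ht hf a m hT1]
    rw [zz_eq (measurable_Sp hf a m)]
    simp_rw [zz_eq (measurable_Ep hf a _)]
    rw [← lintegral_finsetSum, ← lintegral_add_left]
    · congr 1; funext y
      rw [add_mul, Finset.sum_mul]
    · have hm := measurable_Sp (t₀ := t₀) (H := H) hf a m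
      apply Measurable.mul _ (by fun_prop)
      have : Measurable fun q : V n × V n => Sp t₀ H f a m q.1 q.2 *
          G (T - tt t₀ (a + m + 1)) (x - q.2) := by
        have h : Measurable fun q : V n × V n => Sp t₀ H f a m q.1 q.2 := hm
        fun_prop
      exact this.lintegral_prod_right'
    · intro i _
      have hm := measurable_Ep (t₀ := t₀) (H := H) hf a i
      apply Measurable.mul _ (by fun_prop)
      have : Measurable fun q : V n × V n => Ep t₀ H f a i q.1 q.2 *
          G (T - tt t₀ (a + i + 1)) (x - q.2) := by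
        have h : Measurable fun q : V n × V n => Ep t₀ H f a i q.1 q.2 := hm
        fun_prop
      exact this.lintegral_prod_right'
  rw [h1, h3, add_assoc (16 * H)]
  exact add_le_add h2 le_rfl

end

/-- Markov step: if `P_{3t} f(x) ≤ H/4` then half of the heat flow from `x` lands in
`{P_{2t} f ≤ H/2}`. -/
lemma half_le {t H : ℝ} (ht : 0 < t) (hH : 0 < H) {f : V n → ℝ≥0∞} (hf : Measurable f) (x : V n)
    (hx : P (3 * t) f x ≤ ENNReal.ofReal (H / 4)) :
    (1 / 2 : ℝ≥0∞) ≤ ∫⁻ s in {s : V n | P (2 * t) f s ≤ ENNReal.ofReal (H / 2)}, G t (s - x) := by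
  set S := {s : V n | P (2 * t) f s ≤ ENNReal.ofReal (H / 2)} with hS
  have hSm : MeasurableSet S := measurableSet_le (measurable_P _ hf) measurable_const
  have h1 : (∫⁻ s in S, G t (s - x)) + ∫⁻ s in Sᶜ, G t (s - x) = 1 := by
    rw [lintegral_add_compl _ hSm, lintegral_G_sub_right ht]
  have h2 : ENNReal.ofReal (H / 2) * ∫⁻ s in Sᶜ, G t (s - x) ≤ ENNReal.ofReal (H / 4) := by
    refine le_trans ?_ hx
    have e : 3 * t = t + 2 * t := by ring
    rw [e, ← P_P ht (by positivity) hf, ← lintegral_const_mul _ (by fun_prop)]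
    unfold P
    calc _ ≤ ∫⁻ s in Sᶜ, G t (x - s) * ∫⁻ y, G (2 * t) (s - y) * f y := by
          apply setLIntegral_mono' hSm.compl
          intro s hs
          rw [mul_comm, G_sub_comm]
          gcongr
          have : ¬ P (2 * t) f s ≤ ENNReal.ofReal (H / 2) := hs
          exact (not_le.1 this).le
      _ ≤ _ := setLIntegral_le_lintegral _ _
  have h3 : ∫⁻ s in Sᶜ, G t (s - x) ≤ 1 / 2 := by
    have e : ENNReal.ofReal (H / 4) = ENNReal.ofReal (H / 2) * (1 / 2) := by
      have : (1 / 2 : ℝ≥0∞) = ENNReal.ofReal (1 / 2) := by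
        rw [ENNReal.ofReal_div_of_pos (by norm_num)]; simp
      rw [this, ← ENNReal.ofReal_mul (by positivity)]
      congr 1; ring
    rw [e] at h2
    exact (ENNReal.mul_le_mul_iff_right (by positivity) ENNReal.ofReal_ne_top).1 h2
  by_contra hc
  push Not at hc
  have h4 : (1 : ℝ≥0∞) < 1 := by
    calc (1 : ℝ≥0∞) = (∫⁻ s in S, G t (s - x)) + ∫⁻ s in Sᶜ, G t (s - x) := h1.symm
      _ < 1 / 2 + 1 / 2 := ENNReal.add_lt_add_of_lt_of_le (ne_top_of_le_ne_top (by simp) h3) hc h3
      _ = 1 := ENNReal.add_halves 1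
  exact lt_irrefl _ h4

/-- part (I). -/
lemma partI (hn : 1 ≤ n) {t₀ H : ℝ} (ht : 0 < t₀) (hH : 0 < H) {f : V n → ℝ≥0∞}
    (hf : Measurable f) (hfi : ∫⁻ x, f x ≠ ∞) (a m : ℕ) (Q : ℝ) :
    ENNReal.ofReal H * volume {x : V n | ENNReal.ofReal H <
        zz (tt t₀ (a + m + 2) - tt t₀ (a + m + 1)) (tt t₀ (a + m + 2)) Q
          (Sp t₀ (ENNReal.ofReal H) f a m) x ∧
        P (3 * tt t₀ (a + m + 2)) f x ≤ ENNReal.ofReal (H / 4)} +
      64 * Pot H (tt t₀ (a + m + 3)) f ≤ 64 * Pot H (tt t₀ (a + m + 1)) f := by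
  set T := tt t₀ (a + m + 2) with hT
  have hT0 : 0 < T := tt_pos ht _
  have hs0 : 0 < tt t₀ (a + m + 1) := tt_pos ht _
  have hTs : T = 4 * tt t₀ (a + m + 1) := tt_succ _ _
  have hTp : tt t₀ (a + m + 3) = 4 * T := tt_succ _ _
  set z := zz (T - tt t₀ (a + m + 1)) T Q (Sp t₀ (ENNReal.ofReal H) f a m) with hz
  have hzm : Measurable z := measurable_zz (measurable_Sp hf a m)
  set F := {x : V n | ENNReal.ofReal H < z x ∧ P (3 * T) f x ≤ ENNReal.ofReal (H / 4)} with hF
  have hFm : MeasurableSet F :=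
    (measurableSet_lt measurable_const hzm).inter
      (measurableSet_le (measurable_P _ hf) measurable_const)
  set S := {s : V n | P (2 * T) f s ≤ ENNReal.ofReal (H / 2)} with hS
  have hSm : MeasurableSet S := measurableSet_le (measurable_P _ hf) measurable_const
  -- step 3
  have h3 : ∀ s : V n, ∫⁻ x, z x * G T (s - x) ≤
      16 * P (2 * T - tt t₀ (a + m + 1)) (hi t₀ (ENNReal.ofReal H) f (a + m + 1)) s := by
    intro s
    have hσ : 0 < T - tt t₀ (a + m + 1) := by linarith
    rw [hz, lintegral_zz_mul (measurable_Sp hf a m) (by fun_prop)]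
    have h4 : ∀ p : V n × V n, ∫⁻ x, G T (s - x) * G (T - tt t₀ (a + m + 1)) (x - p.2) *
        ENNReal.ofReal (R n T Q (‖x - p.1‖ ^ 2)) ≤
        16 * G (2 * T - tt t₀ (a + m + 1)) (s - p.2) := by
      intro p
      simp_rw [G_mul_G hT0 hσ, mul_assoc]
      have hRm : Measurable fun x : V n => R n T Q (‖x - p.1‖ ^ 2) :=
        (measurable_R T Q).comp (by fun_prop)
      rw [lintegral_const_mul _ (by fun_prop), mul_comm]
      have e1 : T + (T - tt t₀ (a + m + 1)) = 2 * T - tt t₀ (a + m + 1) := by ring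
      rw [e1]
      gcongr
      apply thin_J hn hT0
      rw [le_div_iff₀ (by linarith)]
      rw [hTs] at *
      nlinarith
    calc _ ≤ ∫⁻ p : V n × V n, Sp t₀ (ENNReal.ofReal H) f a m p.1 p.2 *
          (16 * G (2 * T - tt t₀ (a + m + 1)) (s - p.2)) := by
          gcongr with p
          exact h4 p
      _ = ∫⁻ x', ∫⁻ y, Sp t₀ (ENNReal.ofReal H) f a m y x' *
          (16 * G (2 * T - tt t₀ (a + m + 1)) (s - x')) := by
          rw [Measure.volume_eq_prod, lintegral_prod_symm]
          have h := measurable_Sp (t₀ := t₀) (H := ENNReal.ofReal H) hf a m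
          unfold Function.uncurry at h
          fun_prop
      _ = ∫⁻ x', 16 * (G (2 * T - tt t₀ (a + m + 1)) (s - x') *
            hi t₀ (ENNReal.ofReal H) f (a + m + 1) x') := by
          congr 1; funext x'
          rw [lintegral_mul_const, lintegral_Sp ht ENNReal.ofReal_ne_top hf hfi]
          · ring
          · exact Measurable.comp2 (measurable_Sp hf a m) measurable_id measurable_const
      _ = _ := by
          have := measurable_hi t₀ (ENNReal.ofReal H) hf (a + m + 1)
          rw [lintegral_const_mul _ (by fun_prop)]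
          rfl
  -- step 2
  have h2 : ∫⁻ x in F, z x ≤ 2 * ∫⁻ s in S, ∫⁻ x, z x * G T (s - x) := by
    calc ∫⁻ x in F, z x ≤ ∫⁻ x in F, 2 * (z x * ∫⁻ s in S, G T (s - x)) := by
          apply setLIntegral_mono' hFm
          intro x hx
          have h5 := half_le hT0 hH hf x hx.2
          calc z x = 2 * (z x * (1 / 2)) := by
                rw [mul_comm, mul_assoc, one_div, ENNReal.inv_mul_cancel (by norm_num) (by norm_num),
                  mul_one]
            _ ≤ _ := by gcongr
      _ ≤ ∫⁻ x, 2 * (z x * ∫⁻ s in S, G T (s - x)) := setLIntegral_le_lintegral _ _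
      _ = 2 * ∫⁻ x, ∫⁻ s in S, z x * G T (s - x) := by
          rw [lintegral_const_mul]
          · congr 2; funext x
            rw [lintegral_const_mul _ (by fun_prop)]
          · apply hzm.mul
            have : Measurable fun q : V n × V n => G T (q.2 - q.1) := by fun_prop
            exact this.lintegral_prod_right'
      _ = _ := by
          congr 1
          rw [lintegral_lintegral_swap]
          apply Measurable.aemeasurable
          unfold Function.uncurry
          fun_prop
  have h6 := cost_hi hH hs0 (show tt t₀ (a + m + 1) < 2 * T by linarith) hf hfi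
  have h7 : Pot H (tt t₀ (a + m + 3)) f ≤ Pot H (2 * T) f :=
    Pot_anti hH (by positivity) (by linarith) hf hfi
  have h8 : ENNReal.ofReal H * volume F ≤ ∫⁻ x in F, z x := by
    rw [← setLIntegral_const]
    apply setLIntegral_mono' hFm
    intro x hx
    exact hx.1.le
  calc ENNReal.ofReal H * volume F + 64 * Pot H (tt t₀ (a + m + 3)) f
      ≤ 2 * (∫⁻ s in S, 16 * P (2 * T - tt t₀ (a + m + 1))
          (hi t₀ (ENNReal.ofReal H) f (a + m + 1)) s) + 64 * Pot H (2 * T) f := by
        refine add_le_add ((h8.trans h2).trans ?_) (by gcongr)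
        gcongr with s
        exact h3 s
    _ = 32 * ((∫⁻ s in S, P (2 * T - tt t₀ (a + m + 1))
          (hi t₀ (ENNReal.ofReal H) f (a + m + 1)) s) + 2 * Pot H (2 * T) f) := by
        rw [lintegral_const_mul _ (measurable_P _ (measurable_hi t₀ _ hf _))]
        ring
    _ ≤ 32 * (2 * Pot H (tt t₀ (a + m + 1)) f) := by
        gcongr
        exact h6
    _ = _ := by ring

end H28D
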