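import Pool.Agent.H28Dyadic.Heat

/-! Section 5: levels and path decomposition. -/

set_option autoImplicit false

open MeasureTheory Real
open scoped ENNReal

namespace H28D

variable {n : ℕ}

/-- times `t_j = 4^j t₀`. -/
noncomputable def tt (t₀ : ℝ) (j : ℕ) : ℝ := 4 ^ j * t₀

lemma tt_pos {t₀ : ℝ} (h : 0 < t₀) (j : ℕ) : 0 < tt t₀ j := by unfold tt; positivity

lemma tt_succ (t₀ : ℝ) (j : ℕ) : tt t₀ (j + 1) = 4 * tt t₀ j := by unfold tt; rw [pow_succ]; ring

lemma tt_succ' (t₀ : ℝ) (j : ℕ) : tt t₀ (j + 1) = 3 * tt t₀ j + tt t₀ j := by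
  rw [tt_succ]; ring

lemma tt_mono {t₀ : ℝ} (h : 0 < t₀) {i j : ℕ} (hij : i ≤ j) : tt t₀ i ≤ tt t₀ j := by
  unfold tt
  gcongr
  norm_num

lemma tt_lt {t₀ : ℝ} (h : 0 < t₀) {i j : ℕ} (hij : i < j) : 4 * tt t₀ i ≤ tt t₀ j := by
  rw [← tt_succ]
  exact tt_mono h hij

/-- `v_j`. -/
noncomputable def vv (t₀ : ℝ) (f : V n → ℝ≥0∞) (j : ℕ) : V n → ℝ≥0∞ := P (tt t₀ j) f

/-- `ℓ_j = min(v_j,H)`. -/
noncomputable def lo (t₀ : ℝ) (H : ℝ≥0∞) (f : V n → ℝ≥0∞) (j : ℕ) (x : V n) : ℝ≥0∞ :=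
  min (vv t₀ f j x) H

/-- `h_j = (v_j-H)_+`. -/
noncomputable def hi (t₀ : ℝ) (H : ℝ≥0∞) (f : V n → ℝ≥0∞) (j : ℕ) (x : V n) : ℝ≥0∞ :=
  vv t₀ f j x - H

/-- `e_{j+1} = ℓ_{j+1} - P_{3t_j} ℓ_j`. -/
noncomputable def ex (t₀ : ℝ) (H : ℝ≥0∞) (f : V n → ℝ≥0∞) (j : ℕ) (x : V n) : ℝ≥0∞ :=
  lo t₀ H f (j + 1) x - P (3 * tt t₀ j) (lo t₀ H f j) x

@[fun_prop]
lemma measurable_vv (t₀ : ℝ) {f : V n → ℝ≥0∞} (hf : Measurable f) (j : ℕ) :
    Measurable (vv t₀ f j) := measurable_P _ hf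

@[fun_prop]
lemma measurable_lo (t₀ : ℝ) (H : ℝ≥0∞) {f : V n → ℝ≥0∞} (hf : Measurable f) (j : ℕ) :
    Measurable (lo t₀ H f j) := by
  unfold lo
  exact (measurable_vv t₀ hf j).min measurable_const

@[fun_prop]
lemma measurable_hi (t₀ : ℝ) (H : ℝ≥0∞) {f : V n → ℝ≥0∞} (hf : Measurable f) (j : ℕ) :
    Measurable (hi t₀ H f j) := by
  unfold hi
  exact (measurable_vv t₀ hf j).sub_const _

@[fun_prop]
lemma measurable_ex (t₀ : ℝ) (H : ℝ≥0∞) {f : V n → ℝ≥0∞} (hf : Measurable f) (j : ℕ) :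
    Measurable (ex t₀ H f j) := by
  unfold ex
  exact (measurable_lo t₀ H hf (j + 1)).sub (measurable_P _ (measurable_lo t₀ H hf j))

section basic

variable {t₀ : ℝ} {H : ℝ≥0∞} {f : V n → ℝ≥0∞}

lemma vv_succ (ht : 0 < t₀) (hf : Measurable f) (j : ℕ) (x : V n) :
    vv t₀ f (j + 1) x = P (3 * tt t₀ j) (vv t₀ f j) x := by
  have h := tt_pos ht j
  unfold vv
  rw [P_P (by positivity) h hf, ← tt_succ']

lemma lo_add_hi (j : ℕ) (x : V n) : lo t₀ H f j x + hi t₀ H f j x = vv t₀ f j x := by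
  unfold lo hi
  rcases le_total (vv t₀ f j x) H with h | h
  · rw [min_eq_left h, tsub_eq_zero_of_le h, add_zero]
  · rw [min_eq_right h, add_tsub_cancel_of_le h]

lemma lo_le (j : ℕ) (x : V n) : lo t₀ H f j x ≤ H := min_le_right _ _

lemma P_lo_le (ht : 0 < t₀) (hf : Measurable f) (j : ℕ) (x : V n) :
    P (3 * tt t₀ j) (lo t₀ H f j) x ≤ lo t₀ H f (j + 1) x := by
  have h := tt_pos ht j
  apply le_min
  · rw [vv_succ ht hf]
    exact P_mono _ (fun y => min_le_left _ _) x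
  · exact P_le_of_le (by positivity) (fun y => lo_le j y) x

lemma ex_add (ht : 0 < t₀) (hf : Measurable f) (j : ℕ) (x : V n) :
    ex t₀ H f j x + P (3 * tt t₀ j) (lo t₀ H f j) x = lo t₀ H f (j + 1) x :=
  tsub_add_cancel_of_le (P_lo_le ht hf j x)

lemma ex_le (j : ℕ) (x : V n) : ex t₀ H f j x ≤ H := tsub_le_self.trans (lo_le _ _)

lemma ex_add_hi (ht : 0 < t₀) (hH : H ≠ ∞) (hf : Measurable f) (j : ℕ) (x : V n) :
    ex t₀ H f j x + hi t₀ H f (j + 1) x = P (3 * tt t₀ j) (hi t₀ H f j) x := by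
  have h := tt_pos ht j
  have h1 : P (3 * tt t₀ j) (lo t₀ H f j) x ≠ ∞ :=
    ne_top_of_le_ne_top hH (P_le_of_le (by positivity) (fun y => lo_le j y) x)
  have h2 : (ex t₀ H f j x + hi t₀ H f (j + 1) x) + P (3 * tt t₀ j) (lo t₀ H f j) x =
      P (3 * tt t₀ j) (hi t₀ H f j) x + P (3 * tt t₀ j) (lo t₀ H f j) x := by
    calc _ = (ex t₀ H f j x + P (3 * tt t₀ j) (lo t₀ H f j) x) + hi t₀ H f (j + 1) x := by ring
      _ = vv t₀ f (j + 1) x := by rw [ex_add ht hf, lo_add_hi]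
      _ = P (3 * tt t₀ j) (fun y => lo t₀ H f j y + hi t₀ H f j y) x := by
        rw [vv_succ ht hf]
        congr 1; funext y
        rw [lo_add_hi]
      _ = _ := by rw [P_add _ (measurable_lo t₀ H hf j), add_comm]
  exact (ENNReal.add_left_inj h1).1 h2

lemma lintegral_ex_add (ht : 0 < t₀) (hH : H ≠ ∞) (hf : Measurable f) (j : ℕ) :
    (∫⁻ x, ex t₀ H f j x) + (∫⁻ x, hi t₀ H f (j + 1) x) = ∫⁻ x, hi t₀ H f j x := by
  have h := tt_pos ht j
  rw [← lintegral_add_left (measurable_ex t₀ H hf j)]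
  simp_rw [ex_add_hi ht hH hf]
  rw [lintegral_P (by positivity) (measurable_hi t₀ H hf j)]

lemma lintegral_hi_le (ht : 0 < t₀) (hf : Measurable f) (j : ℕ) :
    ∫⁻ x, hi t₀ H f j x ≤ ∫⁻ x, f x := by
  calc _ ≤ ∫⁻ x, vv t₀ f j x := lintegral_mono fun x => tsub_le_self
    _ = _ := lintegral_P (tt_pos ht j) hf

lemma sum_ex_le (ht : 0 < t₀) (hH : H ≠ ∞) (hf : Measurable f) (a N : ℕ) :
    (∑ i ∈ Finset.range N, ∫⁻ x, ex t₀ H f (a + i) x) + (∫⁻ x, hi t₀ H f (a + N) x) =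
      ∫⁻ x, hi t₀ H f a x := by
  induction N with
  | zero => simp
  | succ N ih =>
    rw [Finset.sum_range_succ, add_assoc, ← add_assoc a N 1, lintegral_ex_add ht hH hf, ih]

lemma sum_ex_le' (ht : 0 < t₀) (hH : H ≠ ∞) (hf : Measurable f) (a N : ℕ) :
    ∑ i ∈ Finset.range N, ∫⁻ x, ex t₀ H f (a + i) x ≤ ∫⁻ x, f x :=
  (le_self_add.trans (sum_ex_le ht hH hf a N).le).trans (lintegral_hi_le ht hf a)

/-- (5.1). -/
lemma telescope_lo (ht : 0 < t₀) (hf : Measurable f) (a m : ℕ) {T : ℝ}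
    (hT : tt t₀ (a + m) < T) (x : V n) :
    ∑ i ∈ Finset.range m, P (T - tt t₀ (a + i + 1)) (ex t₀ H f (a + i)) x +
      P (T - tt t₀ a) (lo t₀ H f a) x = P (T - tt t₀ (a + m)) (lo t₀ H f (a + m)) x := by
  induction m with
  | zero => simp
  | succ m ih =>
    have h1 : tt t₀ (a + m) < T :=
      lt_of_le_of_lt (tt_mono ht (by omega)) hT
    have hp := tt_pos ht (a + m)
    rw [Finset.sum_range_succ, add_right_comm, ih h1]
    have h2 : lo t₀ H f (a + (m + 1)) = fun y => ex t₀ H f (a + m) y +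
        P (3 * tt t₀ (a + m)) (lo t₀ H f (a + m)) y := by
      funext y
      rw [ex_add ht hf]
      rfl
    rw [h2, P_add _ (measurable_ex t₀ H hf _), P_P (by linarith) (by positivity)
      (measurable_lo t₀ H hf _), add_comm]
    congr 2
    rw [← add_assoc, tt_succ']; ring

lemma sum_P_ex_le (ht : 0 < t₀) (hf : Measurable f) (a m : ℕ) {T : ℝ}
    (hT : tt t₀ (a + m) < T) (x : V n) :
    ∑ i ∈ Finset.range m, P (T - tt t₀ (a + i + 1)) (ex t₀ H f (a + i)) x ≤ H := by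
  calc _ ≤ _ := le_self_add
    _ = _ := telescope_lo ht hf a m hT x
    _ ≤ H := P_le_of_le (by linarith) (fun y => lo_le _ y) x

/-! ### paths -/

/-- the exit probability `κ_{j+1}`. -/
noncomputable def kap (t₀ : ℝ) (H : ℝ≥0∞) (f : V n → ℝ≥0∞) (j : ℕ) (x : V n) : ℝ≥0∞ :=
  ex t₀ H f j x / (ex t₀ H f j x + hi t₀ H f (j + 1) x)

@[fun_prop]
lemma measurable_kap (t₀ : ℝ) (H : ℝ≥0∞) {f : V n → ℝ≥0∞} (hf : Measurable f) (j : ℕ) :
    Measurable (kap t₀ H f j) := by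
  unfold kap
  exact (measurable_ex t₀ H hf j).div ((measurable_ex t₀ H hf j).add (measurable_hi t₀ H hf _))

lemma kap_le_one (j : ℕ) (x : V n) : kap t₀ H f j x ≤ 1 := by
  unfold kap
  apply ENNReal.div_le_of_le_mul
  rw [one_mul]
  exact le_self_add

lemma hi_ne_top (ht : 0 < t₀) (hfi : ∫⁻ x, f x ≠ ∞) (j : ℕ) (x : V n) :
    hi t₀ H f j x ≠ ∞ :=
  ne_top_of_le_ne_top (P_ne_top (tt_pos ht j) hfi x) tsub_le_self

lemma kap_mul (ht : 0 < t₀) (hH : H ≠ ∞) (hfi : ∫⁻ x, f x ≠ ∞) (j : ℕ) (x : V n) :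
    kap t₀ H f j x * (ex t₀ H f j x + hi t₀ H f (j + 1) x) = ex t₀ H f j x := by
  unfold kap
  have h1 : ex t₀ H f j x + hi t₀ H f (j + 1) x ≠ ∞ :=
    ENNReal.add_ne_top.2 ⟨ne_top_of_le_ne_top hH (ex_le j x), hi_ne_top ht hfi _ x⟩
  by_cases h0 : ex t₀ H f j x + hi t₀ H f (j + 1) x = 0
  · have : ex t₀ H f j x = 0 := by
      exact (add_eq_zero.1 h0).1
    rw [h0, this]; simp
  · exact ENNReal.div_mul_cancel h0 h1

lemma one_sub_kap_mul (ht : 0 < t₀) (hH : H ≠ ∞) (hfi : ∫⁻ x, f x ≠ ∞) (j : ℕ) (x : V n) :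
    (1 - kap t₀ H f j x) * (ex t₀ H f j x + hi t₀ H f (j + 1) x) = hi t₀ H f (j + 1) x := by
  have h1 : ex t₀ H f j x ≠ ∞ := ne_top_of_le_ne_top hH (ex_le j x)
  have h2 : (1 - kap t₀ H f j x) * (ex t₀ H f j x + hi t₀ H f (j + 1) x) + ex t₀ H f j x =
      hi t₀ H f (j + 1) x + ex t₀ H f j x := by
    calc _ = (1 - kap t₀ H f j x) * (ex t₀ H f j x + hi t₀ H f (j + 1) x) +
          kap t₀ H f j x * (ex t₀ H f j x + hi t₀ H f (j + 1) x) := by rw [kap_mul ht hH hfi]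
      _ = _ := by
        rw [← add_mul, tsub_add_cancel_of_le (kap_le_one j x), one_mul, add_comm]
  exact (ENNReal.add_left_inj h1).1 h2

/-- path densities before the decision at level `a+i+1`. -/
noncomputable def Sh (t₀ : ℝ) (H : ℝ≥0∞) (f : V n → ℝ≥0∞) (a : ℕ) : ℕ → V n → V n → ℝ≥0∞
  | 0 => fun y x => hi t₀ H f a y * G (3 * tt t₀ a) (x - y)
  | (i + 1) => fun y x => ∫⁻ x', (1 - kap t₀ H f (a + i) x') * Sh t₀ H f a i y x' *
      G (3 * tt t₀ (a + i + 1)) (x - x')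

/-- surviving paths. -/
noncomputable def Sp (t₀ : ℝ) (H : ℝ≥0∞) (f : V n → ℝ≥0∞) (a i : ℕ) (y x : V n) : ℝ≥0∞ :=
  (1 - kap t₀ H f (a + i) x) * Sh t₀ H f a i y x

/-- exiting paths. -/
noncomputable def Ep (t₀ : ℝ) (H : ℝ≥0∞) (f : V n → ℝ≥0∞) (a i : ℕ) (y x : V n) : ℝ≥0∞ :=
  kap t₀ H f (a + i) x * Sh t₀ H f a i y x

lemma Sh_succ (a i : ℕ) (y x : V n) :
    Sh t₀ H f a (i + 1) y x = ∫⁻ x', Sp t₀ H f a i y x' * G (3 * tt t₀ (a + i + 1)) (x - x') := rfl

lemma Sp_add_Ep (a i : ℕ) (y x : V n) :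
    Sp t₀ H f a i y x + Ep t₀ H f a i y x = Sh t₀ H f a i y x := by
  unfold Sp Ep
  rw [← add_mul, tsub_add_cancel_of_le (kap_le_one _ x), one_mul]

lemma measurable_Sh (hf : Measurable f) (a i : ℕ) :
    Measurable (Function.uncurry (Sh t₀ H f a i)) := by
  induction i with
  | zero =>
    unfold Function.uncurry Sh
    have := measurable_hi t₀ H hf a
    fun_prop
  | succ i ih =>
    have h1 : Measurable fun q : (V n × V n) × V n => (1 - kap t₀ H f (a + i) q.2) *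
        Sh t₀ H f a i q.1.1 q.2 * G (3 * tt t₀ (a + i + 1)) (q.1.2 - q.2) := by
      have h2 : Measurable fun q : (V n × V n) × V n => Sh t₀ H f a i q.1.1 q.2 :=
        ih.comp ((measurable_fst.comp measurable_fst).prodMk measurable_snd)
      have h3 := measurable_kap t₀ H hf (a + i)
      fun_prop
    exact h1.lintegral_prod_right'

lemma measurable_Sp (hf : Measurable f) (a i : ℕ) :
    Measurable (Function.uncurry (Sp t₀ H f a i)) := by
  have h1 := measurable_kap t₀ H hf (a + i)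
  have h2 := measurable_Sh (t₀ := t₀) (H := H) hf a i
  unfold Function.uncurry Sp
  unfold Function.uncurry at h2
  fun_prop

lemma measurable_Ep (hf : Measurable f) (a i : ℕ) :
    Measurable (Function.uncurry (Ep t₀ H f a i)) := by
  have h1 := measurable_kap t₀ H hf (a + i)
  have h2 := measurable_Sh (t₀ := t₀) (H := H) hf a i
  unfold Function.uncurry Ep
  unfold Function.uncurry at h2
  fun_prop

/-- composition version for `fun_prop`-free use. -/
lemma Measurable.comp2 {α : Type*} [MeasurableSpace α] {E : V n → V n → ℝ≥0∞}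
    (hE : Measurable (Function.uncurry E)) {u v : α → V n} (hu : Measurable u)
    (hv : Measurable v) : Measurable fun q => E (u q) (v q) :=
  hE.comp (hu.prodMk hv)

/-- (P1). -/
lemma lintegral_Sh (ht : 0 < t₀) (hH : H ≠ ∞) (hf : Measurable f) (hfi : ∫⁻ x, f x ≠ ∞)
    (a i : ℕ) (x : V n) :
    ∫⁻ y, Sh t₀ H f a i y x = ex t₀ H f (a + i) x + hi t₀ H f (a + i + 1) x := by
  induction i generalizing x with
  | zero =>
    rw [add_zero, ex_add_hi ht hH hf]
    unfold Sh P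
    congr 1; funext y
    ring
  | succ i ih =>
    rw [← add_assoc, ex_add_hi ht hH hf]
    simp_rw [Sh_succ]
    rw [lintegral_lintegral_swap]
    · unfold P
      congr 1; funext x'
      rw [lintegral_mul_const]
      · rw [mul_comm]
        congr 1
        unfold Sp
        rw [lintegral_const_mul, ih, one_sub_kap_mul ht hH hfi]
        exact Measurable.comp2 (measurable_Sh hf a i) measurable_id measurable_const
      · exact Measurable.comp2 (measurable_Sp hf a i) measurable_id measurable_const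
    · apply Measurable.aemeasurable
      unfold Function.uncurry
      have h := measurable_Sp (t₀ := t₀) (H := H) hf a i
      unfold Function.uncurry at h
      fun_prop

lemma lintegral_Sp (ht : 0 < t₀) (hH : H ≠ ∞) (hf : Measurable f) (hfi : ∫⁻ x, f x ≠ ∞)
    (a i : ℕ) (x : V n) : ∫⁻ y, Sp t₀ H f a i y x = hi t₀ H f (a + i + 1) x := by
  unfold Sp
  rw [lintegral_const_mul, lintegral_Sh ht hH hf hfi, one_sub_kap_mul ht hH hfi]
  exact Measurable.comp2 (measurable_Sh hf a i) measurable_id measurable_const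

lemma lintegral_Ep (ht : 0 < t₀) (hH : H ≠ ∞) (hf : Measurable f) (hfi : ∫⁻ x, f x ≠ ∞)
    (a i : ℕ) (x : V n) : ∫⁻ y, Ep t₀ H f a i y x = ex t₀ H f (a + i) x := by
  unfold Ep
  rw [lintegral_const_mul, lintegral_Sh ht hH hf hfi, kap_mul ht hH hfi]
  exact Measurable.comp2 (measurable_Sh hf a i) measurable_id measurable_const

/-- one step: continue the surviving paths. -/
lemma Sp_step (ht : 0 < t₀) (hf : Measurable f) (a i : ℕ) {T : ℝ}
    (hT : tt t₀ (a + i + 2) < T) (y x : V n) :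
    ∫⁻ x', Sp t₀ H f a i y x' * G (T - tt t₀ (a + i + 1)) (x - x') =
      ∫⁻ x', Sh t₀ H f a (i + 1) y x' * G (T - tt t₀ (a + i + 2)) (x - x') := by
  have hp := tt_pos ht (a + i + 1)
  have hS : Measurable fun x' => Sp t₀ H f a i y x' :=
    Measurable.comp2 (measurable_Sp hf a i) measurable_const measurable_id
  simp_rw [Sh_succ]
  have h1 : ∀ x', ∫⁻ z, G (T - tt t₀ (a + i + 2)) (x - z) * G (3 * tt t₀ (a + i + 1)) (z - x') =
      G (T - tt t₀ (a + i + 1)) (x - x') := by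
    intro x'
    rw [lintegral_G_mul_G (by linarith) (by positivity)]
    congr 1
    have := tt_succ' t₀ (a + i + 1)
    rw [show a + i + 2 = a + i + 1 + 1 from rfl, this]; ring
  calc ∫⁻ x', Sp t₀ H f a i y x' * G (T - tt t₀ (a + i + 1)) (x - x')
      = ∫⁻ x', ∫⁻ z, Sp t₀ H f a i y x' * (G (T - tt t₀ (a + i + 2)) (x - z) *
          G (3 * tt t₀ (a + i + 1)) (z - x')) := by
        congr 1; funext x'
        rw [lintegral_const_mul _ (by fun_prop), h1]
    _ = ∫⁻ z, ∫⁻ x', Sp t₀ H f a i y x' * (G (T - tt t₀ (a + i + 2)) (x - z) *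
          G (3 * tt t₀ (a + i + 1)) (z - x')) := by
        apply lintegral_lintegral_swap
        apply Measurable.aemeasurable
        unfold Function.uncurry
        fun_prop
    _ = _ := by
        congr 1; funext z
        rw [← lintegral_mul_const _ (by fun_prop)]
        congr 1; funext x'
        ring

/-- (P3). -/
lemma path_decomp (ht : 0 < t₀) (hf : Measurable f) (a m : ℕ) {T : ℝ}
    (hT : tt t₀ (a + m + 1) < T) (y x : V n) :
    hi t₀ H f a y * G (T - tt t₀ a) (x - y) =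
      (∫⁻ x', Sp t₀ H f a m y x' * G (T - tt t₀ (a + m + 1)) (x - x')) +
      ∑ i ∈ Finset.range (m + 1), ∫⁻ x', Ep t₀ H f a i y x' * G (T - tt t₀ (a + i + 1)) (x - x') := by
  have key : ∀ i, ∫⁻ x', Sh t₀ H f a i y x' * G (T - tt t₀ (a + i + 1)) (x - x') =
      (∫⁻ x', Sp t₀ H f a i y x' * G (T - tt t₀ (a + i + 1)) (x - x')) +
      ∫⁻ x', Ep t₀ H f a i y x' * G (T - tt t₀ (a + i + 1)) (x - x') := by
    intro i
    have hS : Measurable fun x' => Sp t₀ H f a i y x' :=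
      Measurable.comp2 (measurable_Sp hf a i) measurable_const measurable_id
    rw [← lintegral_add_left (by fun_prop)]
    congr 1; funext x'
    rw [← add_mul, Sp_add_Ep]
  induction m with
  | zero =>
    rw [Finset.sum_range_one, ← key 0]
    have hp := tt_pos ht a
    unfold Sh
    have h1 : ∀ x', hi t₀ H f a y * G (3 * tt t₀ a) (x' - y) *
        G (T - tt t₀ (a + 0 + 1)) (x - x') = hi t₀ H f a y *
          (G (T - tt t₀ (a + 1)) (x - x') * G (3 * tt t₀ a) (x' - y)) := by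
      intro x'; rw [add_zero]; ring
    simp_rw [h1]
    rw [add_zero] at hT
    rw [lintegral_const_mul _ (by fun_prop), lintegral_G_mul_G (by linarith) (by positivity)]
    congr 2
    rw [tt_succ']; ring
  | succ m ih =>
    have h1 : tt t₀ (a + m + 1) < T := lt_of_le_of_lt (tt_mono ht (by omega)) hT
    have hk := key (m + 1)
    have hs := Sp_step (H := H) ht hf a m hT y x
    rw [show a + m + 2 = a + (m + 1) + 1 from rfl] at hs
    rw [ih h1, Finset.sum_range_succ _ (m + 1), hs, hk, add_assoc]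
    congr 1
    exact add_comm _ _

end basic

end H28D
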