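import Pool.Agent.H28Dyadic.Cost

/-! Section 2: lacunary heat maximal function.  (owner: helper92) -/

set_option autoImplicit false

open MeasureTheory Real
open scoped ENNReal

namespace H28D

variable {n : ℕ}

lemma iter_measurable (ε : ℝ) {f : V n → ℝ≥0∞} (hf : Measurable f) (i : ℕ) :
    Measurable ((P ε)^[i] f) := by
  induction i with
  | zero => simpa using hf
  | succ i ih => rw [Function.iterate_succ_apply']; exact measurable_P ε ih

lemma iter_lintegral {ε : ℝ} (hε : 0 < ε) {f : V n → ℝ≥0∞} (hf : Measurable f) (i : ℕ) :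
    ∫⁻ x, ((P ε)^[i] f) x = ∫⁻ x, f x := by
  induction i with
  | zero => rfl
  | succ i ih => rw [Function.iterate_succ_apply', lintegral_P hε (iter_measurable ε hf i), ih]

lemma iter_eq {ε : ℝ} (hε : 0 < ε) {f : V n → ℝ≥0∞} (hf : Measurable f) (i : ℕ) :
    (P ε)^[i + 1] f = P (((i + 1 : ℕ) : ℝ) * ε) f := by
  induction i with
  | zero => simp
  | succ i ih =>
    rw [Function.iterate_succ_apply', ih]
    funext x
    rw [P_P hε (by positivity) hf]
    congr 1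
    push_cast; ring

/-- finite sums of the iterates. -/
noncomputable def Sm (ε : ℝ) (f : V n → ℝ≥0∞) (k : ℕ) (x : V n) : ℝ≥0∞ :=
  ∑ i ∈ Finset.range k, ((P ε)^[i] f) x

lemma Sm_measurable (ε : ℝ) {f : V n → ℝ≥0∞} (hf : Measurable f) (k : ℕ) :
    Measurable (Sm ε f k) := by
  unfold Sm
  exact Finset.measurable_fun_sum _ fun i _ => iter_measurable ε hf i

lemma P_sum (ε : ℝ) {ι : Type*} (s : Finset ι) {g : ι → V n → ℝ≥0∞}
    (hg : ∀ i ∈ s, Measurable (g i)) (x : V n) :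
    P ε (fun y => ∑ i ∈ s, g i y) x = ∑ i ∈ s, P ε (g i) x := by
  unfold P
  simp_rw [Finset.mul_sum]
  rw [lintegral_finsetSum _ (fun i hi => by have := hg i hi; fun_prop)]

lemma Sm_succ (ε : ℝ) {f : V n → ℝ≥0∞} (hf : Measurable f) (k : ℕ) (x : V n) :
    Sm ε f (k + 1) x = f x + P ε (Sm ε f k) x := by
  have h : P ε (Sm ε f k) x = ∑ i ∈ Finset.range k, P ε ((P ε)^[i] f) x :=
    P_sum ε (Finset.range k) (fun i _ => iter_measurable ε hf i) x
  rw [h]
  unfold Sm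
  rw [Finset.sum_range_succ', add_comm]
  congr 1
  apply Finset.sum_congr rfl
  intro i _
  rw [Function.iterate_succ_apply']

/-- running maximum of `(S_k - k c)_+`. -/
noncomputable def FN (ε : ℝ) (c : ℝ≥0∞) (f : V n → ℝ≥0∞) (N : ℕ) (x : V n) : ℝ≥0∞ :=
  (Finset.range (N + 1)).sup fun k => Sm ε f k x - k * c

lemma FN_measurable (ε : ℝ) (c : ℝ≥0∞) {f : V n → ℝ≥0∞} (hf : Measurable f) (N : ℕ) :
    Measurable (FN ε c f N) := by
  unfold FN
  simp_rw [Finset.sup_eq_iSup]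
  refine Measurable.iSup fun k => Measurable.iSup fun _ => ?_
  exact (Sm_measurable ε hf k).sub_const _

lemma FN_le (ε : ℝ) (c : ℝ≥0∞) (f : V n → ℝ≥0∞) (N : ℕ) (x : V n) :
    FN ε c f N x ≤ Sm ε f N x := by
  unfold FN
  refine Finset.sup_le fun k hk => ?_
  refine tsub_le_self.trans ?_
  unfold Sm
  apply Finset.sum_le_sum_of_subset
  intro i hi
  rw [Finset.mem_range] at *
  omega

lemma lintegral_Sm {ε : ℝ} (hε : 0 < ε) {f : V n → ℝ≥0∞} (hf : Measurable f) (k : ℕ) :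
    ∫⁻ x, Sm ε f k x = k * ∫⁻ x, f x := by
  unfold Sm
  rw [lintegral_finsetSum _ (fun i _ => iter_measurable ε hf i)]
  simp [iter_lintegral hε hf]

lemma FN_key {ε : ℝ} (hε : 0 < ε) {c : ℝ≥0∞} (hc : c ≠ ∞) {f : V n → ℝ≥0∞}
    (hf : Measurable f) (N : ℕ) (x : V n) (hx : 0 < FN ε c f N x) :
    FN ε c f N x + c ≤ f x + P ε (FN ε c f N) x := by
  obtain ⟨k, hk, hkx⟩ := Finset.exists_mem_eq_sup (Finset.range (N + 1)) (by simp)
    (fun k => Sm ε f k x - k * c)
  have hval : FN ε c f N x = Sm ε f k x - k * c := hkx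
  rcases k with _ | j
  · exfalso
    rw [hval] at hx
    simp [Sm] at hx
  · have hj : j ∈ Finset.range (N + 1) := by
      rw [Finset.mem_range] at *; omega
    have h1 : ∀ y, Sm ε f j y ≤ FN ε c f N y + j * c := by
      intro y
      have : Sm ε f j y - j * c ≤ FN ε c f N y :=
        Finset.le_sup (f := fun k : ℕ => Sm ε f k y - k * c) hj
      exact tsub_le_iff_right.1 this
    have h2 : P ε (Sm ε f j) x ≤ P ε (FN ε c f N) x + j * c := by
      refine (P_mono ε h1 x).trans ?_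
      rw [P_add ε (FN_measurable ε c hf N), P_const hε]
    have h3 : Sm ε f (j + 1) x ≤ f x + P ε (FN ε c f N) x + j * c := by
      rw [Sm_succ ε hf, add_assoc]
      gcongr
    have hlt : ((j + 1 : ℕ) : ℝ≥0∞) * c ≤ Sm ε f (j + 1) x := by
      rw [hval] at hx
      exact (tsub_pos_iff_lt.1 hx).le
    have hfin : (j : ℝ≥0∞) * c ≠ ∞ := ENNReal.mul_ne_top (ENNReal.natCast_ne_top j) hc
    have h4 : FN ε c f N x + c + j * c ≤ f x + P ε (FN ε c f N) x + j * c := by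
      refine le_trans (le_of_eq ?_) h3
      rw [hval]
      have : c + (j : ℝ≥0∞) * c = ((j + 1 : ℕ) : ℝ≥0∞) * c := by push_cast; ring
      rw [add_assoc, this, tsub_add_cancel_of_le hlt]
    exact (ENNReal.add_le_add_iff_right hfin).1 h4

lemma FN_volume {ε : ℝ} (hε : 0 < ε) {c : ℝ≥0∞} (hc : c ≠ ∞) {f : V n → ℝ≥0∞}
    (hf : Measurable f) (hfi : ∫⁻ x, f x ≠ ∞) (N : ℕ) :
    c * volume {x : V n | 0 < FN ε c f N x} ≤ ∫⁻ x, f x := by
  have hm := FN_measurable ε c hf N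
  have hE : MeasurableSet {x : V n | 0 < FN ε c f N x} := measurableSet_lt measurable_const hm
  have hfin : ∫⁻ x, FN ε c f N x ≠ ∞ := by
    refine ne_top_of_le_ne_top ?_ (lintegral_mono (FN_le ε c f N))
    rw [lintegral_Sm hε hf]
    exact ENNReal.mul_ne_top (ENNReal.natCast_ne_top N) hfi
  have hEF : ∫⁻ x in {x : V n | 0 < FN ε c f N x}, FN ε c f N x = ∫⁻ x, FN ε c f N x := by
    rw [← lintegral_indicator hE]
    congr 1
    funext x
    by_cases hx : 0 < FN ε c f N x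
    · rw [Set.indicator_of_mem (by exact hx)]
    · rw [Set.indicator_of_notMem (by exact hx)]
      exact (nonpos_iff_eq_zero.1 (not_lt.1 hx)).symm
  have h1 : ∫⁻ x in {x : V n | 0 < FN ε c f N x}, (FN ε c f N x + c) ≤
      ∫⁻ x in {x : V n | 0 < FN ε c f N x}, (f x + P ε (FN ε c f N) x) :=
    setLIntegral_mono' hE fun x hx => FN_key hε hc hf N x hx
  rw [lintegral_add_left hm, setLIntegral_const, hEF] at h1
  have h2 : ∫⁻ x in {x : V n | 0 < FN ε c f N x}, (f x + P ε (FN ε c f N) x) ≤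
      (∫⁻ x, f x) + ∫⁻ x, FN ε c f N x := by
    rw [← lintegral_P hε hm, ← lintegral_add_left hf]
    exact setLIntegral_le_lintegral _ _
  have h3 := h1.trans h2
  rw [add_comm (∫⁻ x, f x)] at h3
  exact (ENNReal.add_le_add_iff_left hfin).1 h3

/-- discrete Hopf-Dunford-Schwartz maximal inequality for `U = P ε`. -/
theorem hopf {ε lam : ℝ} (hε : 0 < ε) (_hlam : 0 < lam) {f : V n → ℝ≥0∞}
    (hf : Measurable f) (hfi : ∫⁻ x, f x ≠ ∞) :
    ENNReal.ofReal lam *
        volume {x : V n | ∃ N : ℕ, 1 ≤ N ∧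
          ENNReal.ofReal (lam * N) < ∑ i ∈ Finset.range N, ((P ε)^[i] f) x} ≤
      ∫⁻ x, f x := by
  have hset : {x : V n | ∃ N : ℕ, 1 ≤ N ∧
      ENNReal.ofReal (lam * N) < ∑ i ∈ Finset.range N, ((P ε)^[i] f) x} ⊆
      ⋃ M : ℕ, {x : V n | 0 < FN ε (ENNReal.ofReal lam) f M x} := by
    rintro x ⟨N, hN, hx⟩
    rw [Set.mem_iUnion]
    refine ⟨N, ?_⟩
    have h1 : Sm ε f N x - N * ENNReal.ofReal lam ≤ FN ε (ENNReal.ofReal lam) f N x :=
      Finset.le_sup (f := fun k : ℕ => Sm ε f k x - k * ENNReal.ofReal lam)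
        (Finset.mem_range.2 (Nat.lt_succ_self N))
    refine lt_of_lt_of_le ?_ h1
    rw [tsub_pos_iff_lt]
    have h2 : ENNReal.ofReal (lam * N) = N * ENNReal.ofReal lam := by
      rw [mul_comm, ENNReal.ofReal_mul (by positivity), ENNReal.ofReal_natCast]
    rw [← h2]
    exact hx
  have hmono : Monotone fun M : ℕ => {x : V n | 0 < FN ε (ENNReal.ofReal lam) f M x} := by
    intro a b hab x hx
    refine lt_of_lt_of_le (show 0 < FN ε (ENNReal.ofReal lam) f a x from hx) ?_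
    unfold FN
    apply Finset.sup_mono
    intro i hi
    rw [Finset.mem_range] at *
    omega
  calc _ ≤ ENNReal.ofReal lam *
        volume (⋃ M : ℕ, {x : V n | 0 < FN ε (ENNReal.ofReal lam) f M x}) := by gcongr
    _ = ⨆ M : ℕ, ENNReal.ofReal lam *
        volume {x : V n | 0 < FN ε (ENNReal.ofReal lam) f M x} := by
        rw [hmono.measure_iUnion, ENNReal.mul_iSup]
    _ ≤ _ := iSup_le fun M => FN_volume hε ENNReal.ofReal_ne_top hf hfi M


/-- the exceptional set of level `k`. -/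
def Fs (n : ℕ) (T lam : ℝ) (f : V n → ℝ≥0∞) (k : ℕ) : Set (V n) :=
  {x : V n | ENNReal.ofReal lam < P (4 ^ k * T) f x ∧
    ∑ i ∈ Finset.range (4 ^ (k + 1)), ((P (T / 4))^[i] f) x ≤
      ENNReal.ofReal (lam / 4 * (4 ^ (k + 1) : ℕ))}

/-- the cost set. -/
def As (n : ℕ) (T lam : ℝ) (f : V n → ℝ≥0∞) (k i : ℕ) : Set (V n) :=
  {x : V n | ENNReal.ofReal lam < P (4 ^ k * T) f x ∧
    P (i * (T / 4)) f x ≤ ENNReal.ofReal (lam / 2)}

lemma Fs_measurable {T lam : ℝ} {f : V n → ℝ≥0∞} (hf : Measurable f) (k : ℕ) :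
    MeasurableSet (Fs n T lam f k) :=
  (measurableSet_lt measurable_const (measurable_P _ hf)).inter
    (measurableSet_le (Sm_measurable (T / 4) hf _) measurable_const)

lemma As_measurable {T lam : ℝ} {f : V n → ℝ≥0∞} (hf : Measurable f) (k i : ℕ) :
    MeasurableSet (As n T lam f k i) :=
  (measurableSet_lt measurable_const (measurable_P _ hf)).inter
    (measurableSet_le (measurable_P _ hf) measurable_const)

lemma Fs_count {T lam : ℝ} (hT : 0 < T) (hlam : 0 < lam) {f : V n → ℝ≥0∞}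
    (hf : Measurable f) (k : ℕ) (x : V n) (hx : x ∈ Fs n T lam f k) :
    ((4 ^ k : ℕ) : ℝ≥0∞) ≤
      ∑ i ∈ Finset.Ico (4 ^ k) (4 ^ (k + 1)), (As n T lam f k i).indicator 1 x := by
  classical
  obtain ⟨hx1, hx2⟩ := hx
  -- the bad indices
  set B : Finset ℕ := (Finset.range (4 ^ (k + 1))).filter
    (fun i => ENNReal.ofReal (lam / 2) < ((P (T / 4))^[i] f) x) with hB
  have hBcard : B.card ≤ 2 * 4 ^ k := by
    have h1 : (B.card : ℝ≥0∞) * ENNReal.ofReal (lam / 2) ≤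
        ENNReal.ofReal (lam / 4 * (4 ^ (k + 1) : ℕ)) := by
      calc (B.card : ℝ≥0∞) * ENNReal.ofReal (lam / 2)
          = ∑ i ∈ B, ENNReal.ofReal (lam / 2) := by rw [Finset.sum_const, nsmul_eq_mul]
        _ ≤ ∑ i ∈ B, ((P (T / 4))^[i] f) x :=
            Finset.sum_le_sum fun i hi => (Finset.mem_filter.1 hi).2.le
        _ ≤ ∑ i ∈ Finset.range (4 ^ (k + 1)), ((P (T / 4))^[i] f) x :=
            Finset.sum_le_sum_of_subset (Finset.filter_subset _ _)
        _ ≤ _ := hx2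
    have h2 : ENNReal.ofReal ((B.card : ℝ) * (lam / 2)) ≤
        ENNReal.ofReal (lam / 4 * (4 ^ (k + 1) : ℕ)) := by
      rw [ENNReal.ofReal_mul (by positivity), ENNReal.ofReal_natCast]
      exact h1
    rw [ENNReal.ofReal_le_ofReal_iff (by positivity)] at h2
    have h3 : (B.card : ℝ) ≤ 2 * 4 ^ k := by
      have h4 : lam / 4 * ((4 ^ (k + 1) : ℕ) : ℝ) = (2 * 4 ^ k) * (lam / 2) := by
        push_cast; ring
      rw [h4] at h2
      exact le_of_mul_le_mul_right h2 (by positivity)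
    exact_mod_cast h3
  have hsub : ∀ i ∈ Finset.Ico (4 ^ k) (4 ^ (k + 1)) \ B, x ∈ As n T lam f k i := by
    intro i hi
    rw [Finset.mem_sdiff, Finset.mem_Ico] at hi
    obtain ⟨⟨hi1, hi2⟩, hi3⟩ := hi
    refine ⟨hx1, ?_⟩
    have h1 : ¬ ENNReal.ofReal (lam / 2) < ((P (T / 4))^[i] f) x := by
      intro h
      exact hi3 (Finset.mem_filter.2 ⟨Finset.mem_range.2 hi2, h⟩)
    have hpos : 0 < i := lt_of_lt_of_le (by positivity) hi1
    obtain ⟨j, rfl⟩ : ∃ j, i = j + 1 := ⟨i - 1, by omega⟩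
    rw [iter_eq (by positivity) hf] at h1
    exact not_lt.1 h1
  calc ((4 ^ k : ℕ) : ℝ≥0∞)
      ≤ ((Finset.Ico (4 ^ k) (4 ^ (k + 1)) \ B).card : ℝ≥0∞) := by
        have h1 : (Finset.Ico (4 ^ k) (4 ^ (k + 1))).card - B.card ≤
          (Finset.Ico (4 ^ k) (4 ^ (k + 1)) \ B).card := Finset.le_card_sdiff _ _
        rw [Nat.card_Ico] at h1
        have h2 : 4 ^ k ≤ 4 ^ (k + 1) - 4 ^ k - B.card := by
          rw [pow_succ]; omega
        exact_mod_cast h2.trans h1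
    _ = ∑ i ∈ Finset.Ico (4 ^ k) (4 ^ (k + 1)) \ B, (As n T lam f k i).indicator 1 x := by
        rw [Finset.card_eq_sum_ones, Nat.cast_sum]
        apply Finset.sum_congr rfl
        intro i hi
        rw [Set.indicator_of_mem (hsub i hi)]
        simp
    _ ≤ _ := Finset.sum_le_sum_of_subset Finset.sdiff_subset

lemma Fs_bound {T lam : ℝ} (hT : 0 < T) (hlam : 0 < lam) {f : V n → ℝ≥0∞}
    (hf : Measurable f) (hfi : ∫⁻ x, f x ≠ ∞) (k : ℕ) :
    ENNReal.ofReal lam * volume (Fs n T lam f k) + 48 * Pot lam (4 ^ (k + 1) * (T / 4)) f ≤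
      48 * Pot lam (4 ^ k * (T / 4)) f := by
  have hT4 : (4 : ℝ) ^ k * T = 4 ^ (k + 1) * (T / 4) := by rw [pow_succ]; ring
  have h1 : ((4 ^ k : ℕ) : ℝ≥0∞) * volume (Fs n T lam f k) ≤
      ∑ i ∈ Finset.Ico (4 ^ k) (4 ^ (k + 1)), volume (As n T lam f k i) := by
    calc ((4 ^ k : ℕ) : ℝ≥0∞) * volume (Fs n T lam f k)
        = ∫⁻ x in Fs n T lam f k, ((4 ^ k : ℕ) : ℝ≥0∞) := by rw [setLIntegral_const]
      _ ≤ ∫⁻ x in Fs n T lam f k,
          ∑ i ∈ Finset.Ico (4 ^ k) (4 ^ (k + 1)), (As n T lam f k i).indicator 1 x :=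
          setLIntegral_mono' (Fs_measurable hf k) fun x hx => Fs_count hT hlam hf k x hx
      _ ≤ ∫⁻ x, ∑ i ∈ Finset.Ico (4 ^ k) (4 ^ (k + 1)), (As n T lam f k i).indicator 1 x :=
          setLIntegral_le_lintegral _ _
      _ = ∑ i ∈ Finset.Ico (4 ^ k) (4 ^ (k + 1)), volume (As n T lam f k i) := by
          rw [lintegral_finsetSum _ (fun i _ =>
            (measurable_one.indicator (As_measurable hf k i)))]
          apply Finset.sum_congr rfl
          intro i _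
          rw [lintegral_indicator_one (As_measurable hf k i)]
  have h2 : ∀ i ∈ Finset.Ico (4 ^ k) (4 ^ (k + 1)),
      ENNReal.ofReal lam * volume (As n T lam f k i) +
        16 * Pot lam (4 ^ (k + 1) * (T / 4)) f ≤ 16 * Pot lam (4 ^ k * (T / 4)) f := by
    intro i hi
    rw [Finset.mem_Ico] at hi
    have hi0 : 0 < i := lt_of_lt_of_le (by positivity) hi.1
    have hi0' : (0 : ℝ) < i := by exact_mod_cast hi0
    have hi1 : ((4 : ℝ) ^ k) ≤ i := by exact_mod_cast hi.1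
    have hi2 : (i : ℝ) < 4 ^ (k + 1) := by exact_mod_cast hi.2
    have hs : 0 < (i : ℝ) * (T / 4) := by positivity
    have hst : (i : ℝ) * (T / 4) < 4 ^ k * T := by
      rw [hT4]; exact mul_lt_mul_of_pos_right hi2 (by positivity)
    have h3 := cost_set hlam hs hst hf hfi
    rw [← hT4]
    refine h3.trans ?_
    gcongr
    exact Pot_anti hlam (by positivity) (mul_le_mul_of_nonneg_right hi1 (by positivity)) hf hfi
  have h3 := Finset.sum_le_sum h2
  rw [Finset.sum_add_distrib, ← Finset.mul_sum, Finset.sum_const, Finset.sum_const,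
    Nat.card_Ico] at h3
  have hcard : 4 ^ (k + 1) - 4 ^ k = 3 * 4 ^ k := by rw [pow_succ]; omega
  rw [hcard, nsmul_eq_mul, nsmul_eq_mul] at h3
  have h4 : ((4 ^ k : ℕ) : ℝ≥0∞) * (ENNReal.ofReal lam * volume (Fs n T lam f k) +
      48 * Pot lam (4 ^ (k + 1) * (T / 4)) f) ≤
      ((4 ^ k : ℕ) : ℝ≥0∞) * (48 * Pot lam (4 ^ k * (T / 4)) f) := by
    calc ((4 ^ k : ℕ) : ℝ≥0∞) * (ENNReal.ofReal lam * volume (Fs n T lam f k) +
          48 * Pot lam (4 ^ (k + 1) * (T / 4)) f)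
        = ENNReal.ofReal lam * (((4 ^ k : ℕ) : ℝ≥0∞) * volume (Fs n T lam f k)) +
          ((3 * 4 ^ k : ℕ) : ℝ≥0∞) * (16 * Pot lam (4 ^ (k + 1) * (T / 4)) f) := by
          push_cast; ring
      _ ≤ ENNReal.ofReal lam *
            (∑ i ∈ Finset.Ico (4 ^ k) (4 ^ (k + 1)), volume (As n T lam f k i)) +
          ((3 * 4 ^ k : ℕ) : ℝ≥0∞) * (16 * Pot lam (4 ^ (k + 1) * (T / 4)) f) := by
          gcongr
      _ ≤ ((3 * 4 ^ k : ℕ) : ℝ≥0∞) * (16 * Pot lam (4 ^ k * (T / 4)) f) := h3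
      _ = _ := by push_cast; ring
  have hne0 : ((4 ^ k : ℕ) : ℝ≥0∞) ≠ 0 := by
    rw [Nat.cast_ne_zero]; positivity
  exact (ENNReal.mul_le_mul_iff_right hne0 (ENNReal.natCast_ne_top _)).1 h4

lemma Fs_sum {T lam : ℝ} (hT : 0 < T) (hlam : 0 < lam) {f : V n → ℝ≥0∞}
    (hf : Measurable f) (hfi : ∫⁻ x, f x ≠ ∞) (K : ℕ) :
    ∑ k ∈ Finset.range K, ENNReal.ofReal lam * volume (Fs n T lam f k) +
      48 * Pot lam (4 ^ K * (T / 4)) f ≤ 48 * Pot lam (T / 4) f := by
  induction K with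
  | zero => simp
  | succ K ih =>
    rw [Finset.sum_range_succ, add_assoc]
    refine le_trans ?_ ih
    gcongr
    exact Fs_bound hT hlam hf hfi K

/-- Theorem A. -/
theorem heat_maximal {T lam : ℝ} (hT : 0 < T) (hlam : 0 < lam) {f : V n → ℝ≥0∞}
    (hf : Measurable f) (hfi : ∫⁻ x, f x ≠ ∞) :
    ENNReal.ofReal lam *
        volume {x : V n | ∃ k : ℕ, ENNReal.ofReal lam < P (4 ^ k * T) f x} ≤
      52 * ∫⁻ x, f x := by
  set W : Set (V n) := {x : V n | ∃ N : ℕ, 1 ≤ N ∧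
          ENNReal.ofReal (lam / 4 * N) < ∑ i ∈ Finset.range N, ((P (T / 4))^[i] f) x} with hW
  have hsub : {x : V n | ∃ k : ℕ, ENNReal.ofReal lam < P (4 ^ k * T) f x} ⊆
      (⋃ k, Fs n T lam f k) ∪ W := by
    rintro x ⟨k, hk⟩
    by_cases h : ∑ i ∈ Finset.range (4 ^ (k + 1)), ((P (T / 4))^[i] f) x ≤
      ENNReal.ofReal (lam / 4 * (4 ^ (k + 1) : ℕ))
    · left
      exact Set.mem_iUnion.2 ⟨k, hk, h⟩
    · right
      exact ⟨4 ^ (k + 1), Nat.one_le_pow _ _ (by norm_num), not_le.1 h⟩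
  have hW1 : ENNReal.ofReal lam * volume W ≤ 4 * ∫⁻ x, f x := by
    have h1 := hopf (ε := T / 4) (lam := lam / 4) (by positivity) (by positivity) hf hfi
    have h2 : ENNReal.ofReal lam = 4 * ENNReal.ofReal (lam / 4) := by
      rw [show (4 : ℝ≥0∞) = ENNReal.ofReal 4 by simp, ← ENNReal.ofReal_mul (by norm_num)]
      congr 1; ring
    rw [h2, mul_assoc]
    gcongr
  have hU : ENNReal.ofReal lam * volume (⋃ k, Fs n T lam f k) ≤ 48 * ∫⁻ x, f x := by
    calc ENNReal.ofReal lam * volume (⋃ k, Fs n T lam f k)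
        ≤ ENNReal.ofReal lam * ∑' k, volume (Fs n T lam f k) := by
          gcongr; exact measure_iUnion_le _
      _ = ∑' k, ENNReal.ofReal lam * volume (Fs n T lam f k) := by rw [ENNReal.tsum_mul_left]
      _ ≤ 48 * Pot lam (T / 4) f := by
          apply ENNReal.tsum_le_of_sum_range_le
          intro K
          exact le_trans le_self_add (Fs_sum hT hlam hf hfi K)
      _ ≤ 48 * ∫⁻ x, f x := by
          gcongr
          exact Pot_le hlam (by positivity) hf hfi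
  calc _ ≤ ENNReal.ofReal lam * volume ((⋃ k, Fs n T lam f k) ∪ W) := by gcongr
    _ ≤ ENNReal.ofReal lam * (volume (⋃ k, Fs n T lam f k) + volume W) := by
        gcongr; exact measure_union_le _ _
    _ = ENNReal.ofReal lam * volume (⋃ k, Fs n T lam f k) + ENNReal.ofReal lam * volume W := by
        rw [mul_add]
    _ ≤ 48 * (∫⁻ x, f x) + 4 * ∫⁻ x, f x := by gcongr
    _ = 52 * ∫⁻ x, f x := by ring

end H28D
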